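import Mathlib

/-!
Numerical definitions for MP_c5c754_ag (Beelen-Datta-Ghorpade).
-/

namespace BDG

/-- base-`q` digit sum -/
def ds (q z : ℕ) : ℕ := (Nat.digits q z).sum

/-- extend a weight function by one bottom digit in base `b` -/
def ext (w : ℕ → ℕ) (b z : ℕ) : ℕ := w (z / b) + z % b

/-- number of `y < x` with `w y + k ≤ t` -/
def cnt (w : ℕ → ℕ) (k t x : ℕ) : ℕ := Nat.count (fun y => w y + k ≤ t) x

/-- number of `y < x` with digit sum at most `t` -/
def D (q t x : ℕ) : ℕ := cnt (ds q) 0 t x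

/-- `binom (M+t) t` -/
def R (M t : ℕ) : ℕ := (M + t).choose t

/-- number of points of projective space of dimension `M - 1` -/
def pr (q M : ℕ) : ℕ := ∑ i ∈ Finset.range M, q ^ i

/-- weights on the box `E x E x q^r` -/
def W (E q : ℕ) : ℕ → ℕ → ℕ
  | 0 => ext id E
  | r + 1 => ext (W E q r) q

/-- the numerical deficiency -/
def theta (q d M c : ℕ) : ℕ :=
  if M ≤ 1 then c - 1 else (c - 1) * q ^ (M - 1) + (d - c) * q ^ (M - 2)

/-- layer inequality with `q` layers, all of size at most `lim` -/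
def NI (w : ℕ → ℕ) (q lim : ℕ) : Prop :=
  ∀ (x : ℕ → ℕ) (k t : ℕ), Antitone x → x 0 ≤ lim →
    cnt (ext w q) k t (∑ i ∈ Finset.range q, x i) ≤ ∑ i ∈ Finset.range q, cnt w (k + i) t (x i)

end BDG
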