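import Mathlib

/-!
Rank lemmas for MP_c5c754_ag.
-/

namespace BDG
open Module

section ranks
variable {K A B C : Type*} [Field K] [AddCommGroup A] [Module K A] [AddCommGroup B] [Module K B]
  [AddCommGroup C] [Module K C]

/-- if `f x = 0` implies `g x = 0` on `M`, there is an induced map on the image -/
lemma exists_induced (M : Submodule K A) (f : A →ₗ[K] B) (g : A →ₗ[K] C)
    (h : ∀ x ∈ M, f x = 0 → g x = 0) :
    ∃ ψ : ↥(M.map f) →ₗ[K] C, ∀ x (hx : x ∈ M), ψ ⟨f x, Submodule.mem_map_of_mem hx⟩ = g x := by
  classical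
  let f' : M →ₗ[K] ↥(M.map f) := (f.domRestrict M).codRestrict (M.map f)
    (fun x => Submodule.mem_map_of_mem x.2)
  have hsurj : LinearMap.range f' = ⊤ := by
    rw [LinearMap.range_eq_top]
    rintro ⟨y, x, hx, rfl⟩
    exact ⟨⟨x, hx⟩, rfl⟩
  obtain ⟨s, hs⟩ := LinearMap.exists_rightInverse_of_surjective f' hsurj
  refine ⟨(g.domRestrict M).comp s, fun x hx => ?_⟩
  have h1 : f' (s ⟨f x, Submodule.mem_map_of_mem hx⟩) = ⟨f x, Submodule.mem_map_of_mem hx⟩ := by
    have := LinearMap.congr_fun hs ⟨f x, Submodule.mem_map_of_mem hx⟩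
    simpa using this
  have h2 : f (s ⟨f x, Submodule.mem_map_of_mem hx⟩ : M) = f x := congrArg Subtype.val h1
  have h3 := h ((s ⟨f x, Submodule.mem_map_of_mem hx⟩ : M) - x) (M.sub_mem (Subtype.mem _) hx)
    (by rw [map_sub, h2, sub_self])
  rw [map_sub, sub_eq_zero] at h3
  simpa using h3

lemma finrank_map_add (M N : Submodule K A) (f : A →ₗ[K] B) (g : A →ₗ[K] C)
    (h : ∀ x ∈ M, f x = 0 → g x = 0) (hNM : N ≤ M) (hN : ∀ x ∈ N, g x = 0)
    [FiniteDimensional K ↥(M.map f)] :
    finrank K ↥(M.map g) + finrank K ↥(N.map f) ≤ finrank K ↥(M.map f) := by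
  obtain ⟨ψ, hψ⟩ := exists_induced M f g h
  rw [← LinearMap.finrank_range_add_finrank_ker ψ]
  have h1 : LinearMap.range ψ = M.map g := by
    ext y
    constructor
    · rintro ⟨⟨z, x, hx, rfl⟩, rfl⟩
      exact ⟨x, hx, (hψ x hx).symm⟩
    · rintro ⟨x, hx, rfl⟩
      exact ⟨_, hψ x hx⟩
  rw [h1]
  have h2 : finrank K ↥(N.map f) ≤ finrank K ↥(LinearMap.ker ψ) := by
    have h3 : N.map f ≤ (LinearMap.ker ψ).map (M.map f).subtype := by
      rintro _ ⟨x, hx, rfl⟩
      refine ⟨⟨f x, Submodule.mem_map_of_mem (hNM hx)⟩, ?_, rfl⟩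
      show ψ _ = 0
      rw [hψ x (hNM hx)]
      exact hN x hx
    rw [← Submodule.finrank_map_subtype_eq (M.map f) (LinearMap.ker ψ)]
    exact Submodule.finrank_mono h3
  omega

lemma finrank_map_le_of_ker (M : Submodule K A) (f : A →ₗ[K] B) (g : A →ₗ[K] C)
    (h : ∀ x ∈ M, f x = 0 → g x = 0) [FiniteDimensional K ↥(M.map f)] :
    finrank K ↥(M.map g) ≤ finrank K ↥(M.map f) := by
  have := finrank_map_add M ⊥ f g h bot_le (by simp)
  omega

lemma finrank_map_congr_ker (M : Submodule K A) (f : A →ₗ[K] B) (g : A →ₗ[K] C)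
    (h : ∀ x ∈ M, f x = 0 ↔ g x = 0) [FiniteDimensional K ↥(M.map f)]
    [FiniteDimensional K ↥(M.map g)] :
    finrank K ↥(M.map g) = finrank K ↥(M.map f) :=
  le_antisymm (finrank_map_le_of_ker M f g fun x hx => (h x hx).1)
    (finrank_map_le_of_ker M g f fun x hx => (h x hx).2)

lemma finrank_eq_map_add_ker (N : Submodule K A) [FiniteDimensional K N] (k : A →ₗ[K] B) :
    finrank K N = finrank K ↥(N.map k) + finrank K ↥(N ⊓ LinearMap.ker k) := by
  rw [← LinearMap.finrank_range_add_finrank_ker (k.domRestrict N)]
  have e : finrank K ↥(LinearMap.range (k.domRestrict N)) = finrank K ↥(N.map k) := by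
    rw [LinearMap.range_domRestrict]
  rw [e]
  congr 1
  · have h : (LinearMap.ker (k.domRestrict N)).map N.subtype = N ⊓ LinearMap.ker k := by
      ext x
      constructor
      · rintro ⟨y, hy, rfl⟩
        exact ⟨y.2, hy⟩
      · rintro ⟨hx, hk⟩
        exact ⟨⟨x, hx⟩, hk, rfl⟩
    rw [← h]
    exact (Submodule.finrank_map_subtype_eq N _).symm

lemma finrank_step [FiniteDimensional K B] (P Q : Submodule K B) (hPQ : P ≤ Q) (M : Submodule K A)
    (f : A →ₗ[K] B) (g : A →ₗ[K] C) (h : ∀ x ∈ M, f x ∈ P → g x = 0) (hfQ : ∀ x ∈ M, f x ∈ Q) :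
    finrank K ↥P + finrank K ↥(M.map g) ≤ finrank K ↥Q := by
  have hfd : FiniteDimensional K (B ⧸ P) := Module.Finite.quotient K P
  have e1 := finrank_eq_map_add_ker Q P.mkQ
  have e2 : Q ⊓ LinearMap.ker P.mkQ = P := by
    rw [Submodule.ker_mkQ]; exact inf_eq_right.2 hPQ
  rw [e2] at e1
  have hfd2 : FiniteDimensional K ↥(M.map (P.mkQ ∘ₗ f)) :=
    FiniteDimensional.finiteDimensional_submodule _
  have h3 : finrank K ↥(M.map g) ≤ finrank K ↥(M.map (P.mkQ ∘ₗ f)) := by
    refine finrank_map_le_of_ker _ _ _ ?_
    intro x hx hfx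
    refine h x hx ?_
    have : P.mkQ (f x) = 0 := hfx
    rwa [← LinearMap.mem_ker, Submodule.ker_mkQ] at this
  have h4 : M.map (P.mkQ ∘ₗ f) ≤ Q.map P.mkQ := by
    rintro _ ⟨x, hx, rfl⟩
    exact ⟨f x, hfQ x hx, rfl⟩
  have h5 := Submodule.finrank_mono h4
  omega

end ranks

section powers
variable {K : Type*} [Field K] {A : Type*} [CommRing A] [Algebra K A]

instance fd_pow (L : Submodule K A) [FiniteDimensional K L] (t : ℕ) :
    FiniteDimensional K ↥(L ^ t) := by
  have h : L.FG := (Submodule.fg_iff_finiteDimensional L).2 inferInstance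
  exact (Submodule.fg_iff_finiteDimensional _).1 (h.pow t)

/-- upper bound for the Hilbert function -/
lemma finrank_pow_le (n : ℕ) : ∀ (t : ℕ) (v : Fin n → A) (L : Submodule K A),
    L = Submodule.span K (Set.range v) → finrank K ↥(L ^ t) ≤ (n + t - 1).choose t := by
  induction n with
  | zero =>
    intro t v L hL
    have hL' : L = ⊥ := by
      rw [hL, Set.range_eq_empty, Submodule.span_empty]
    cases t with
    | zero =>
      simp only [zero_add, Nat.choose_zero_right]
      rw [Submodule.pow_zero, Submodule.one_eq_span]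
      exact (finrank_span_le_card ({1} : Set A)).trans (by simp)
    | succ t =>
      rw [hL', Submodule.bot_pow (Nat.succ_ne_zero t)]
      simp
  | succ n ih =>
    intro t
    induction t with
    | zero =>
      intro v L hL
      simp only [Nat.choose_zero_right]
      rw [Submodule.pow_zero, Submodule.one_eq_span]
      exact (finrank_span_le_card ({1} : Set A)).trans (by simp)
    | succ t iht =>
      intro v L hL
      let L' : Submodule K A := Submodule.span K (Set.range (fun i : Fin n => v i.succ))
      have hfd : FiniteDimensional K L := by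
        rw [hL]; exact FiniteDimensional.span_of_finite K (Set.finite_range v)
      have hfd' : FiniteDimensional K L' := FiniteDimensional.span_of_finite K (Set.finite_range _)
      have hLL : L = L' ⊔ Submodule.span K {v 0} := by
        rw [hL, ← Submodule.span_union]
        congr 1
        ext x
        simp only [Set.mem_range, Set.union_singleton, Set.mem_insert_iff]
        constructor
        · rintro ⟨i, rfl⟩
          refine Fin.cases ?_ ?_ i
          · left; rfl
          · intro j; right; exact ⟨j, rfl⟩
        · rintro (rfl | ⟨j, rfl⟩)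
          · exact ⟨0, rfl⟩
          · exact ⟨j.succ, rfl⟩
      have key : L ^ (t + 1) ≤ L' ^ (t + 1) ⊔ (L ^ t).map (LinearMap.mulLeft K (v 0)) := by
        have hgen : ∀ s, L ^ (s + 1) ≤ L' ^ (s + 1) ⊔ (L ^ s).map (LinearMap.mulLeft K (v 0)) := by
          intro s
          induction s with
          | zero =>
            rw [zero_add, pow_one, pow_one, pow_zero, hLL]
            refine sup_le_sup le_rfl ?_
            rw [Submodule.span_le, Set.singleton_subset_iff]
            exact ⟨1, Submodule.one_le.1 le_rfl, by simp⟩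
          | succ s ihs =>
            rw [pow_succ L (s + 1)]
            calc L ^ (s + 1) * L ≤ (L' ^ (s + 1) ⊔ (L ^ s).map (LinearMap.mulLeft K (v 0))) * L :=
                  mul_le_mul' ihs le_rfl
              _ ≤ L' ^ (s + 1 + 1) ⊔ (L ^ (s + 1)).map (LinearMap.mulLeft K (v 0)) := by
                  rw [Submodule.sup_mul]
                  refine sup_le ?_ ?_
                  · nth_rewrite 1 [hLL]
                    rw [Submodule.mul_sup]
                    refine sup_le ?_ ?_
                    · rw [← pow_succ]; exact le_sup_left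
                    · refine le_trans ?_ le_sup_right
                      rw [Submodule.mul_le]
                      intro m hm n hn
                      obtain ⟨c, rfl⟩ := Submodule.mem_span_singleton.1 hn
                      refine ⟨c • m, ?_, ?_⟩
                      · refine Submodule.smul_mem _ _ ?_
                        have hle : L' ≤ L := by rw [hLL]; exact le_sup_left
                        exact pow_le_pow_left' hle _ hm
                      · simp [mul_comm]
                  · refine le_trans ?_ le_sup_right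
                    rw [Submodule.mul_le]
                    rintro _ ⟨m, hm, rfl⟩ n hn
                    refine ⟨m * n, ?_, ?_⟩
                    · rw [pow_succ]; exact Submodule.mul_mem_mul hm hn
                    · simp [mul_assoc]
        exact hgen t
      have h1 := ih (t + 1) (fun i : Fin n => v i.succ) L' rfl
      have h2 := iht v L hL
      calc finrank K ↥(L ^ (t + 1)) ≤ _ := Submodule.finrank_mono key
        _ ≤ finrank K ↥(L' ^ (t + 1)) + finrank K ↥((L ^ t).map (LinearMap.mulLeft K (v 0))) :=
            Submodule.finrank_add_le_finrank_add_finrank _ _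
        _ ≤ (n + (t + 1) - 1).choose (t + 1) + (n + 1 + t - 1).choose t := by
            refine add_le_add h1 (le_trans (Submodule.finrank_map_le _ _) h2)
        _ = (n + 1 + (t + 1) - 1).choose (t + 1) := by
            have e1 : n + 1 + (t + 1) - 1 = (n + t) + 1 := by omega
            have e2 : n + (t + 1) - 1 = n + t := by omega
            have e3 : n + 1 + t - 1 = n + t := by omega
            rw [e1, e2, e3, Nat.choose_succ_succ]
            ring

end powers

end BDG
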