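import Mathlib
import Pool.Agent.helper88.BDG.NumDefs
import Pool.Agent.helper88.BDG.Ranks

/-!
Hilbert functions of finite sets: `Hs L X t` is the rank of the restriction to `X` of the `t`-th power
of a space `L` of functions.
-/

namespace BDG
open Module Finset

section sets
variable {K V V' : Type*} [Field K]

/-- restriction of functions to a finite set -/
def res (K : Type*) [Field K] (X : Finset V) : (V → K) →ₐ[K] (X → K) where
  toFun f x := f x
  map_one' := rfl
  map_mul' _ _ := rfl
  map_zero' := rfl
  map_add' _ _ := rfl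
  commutes' _ := rfl

/-- pullback of functions -/
def pull (K : Type*) [Field K] (τ : V → V') : (V' → K) →ₐ[K] (V → K) where
  toFun f x := f (τ x)
  map_one' := rfl
  map_mul' _ _ := rfl
  map_zero' := rfl
  map_add' _ _ := rfl
  commutes' _ := rfl

@[simp] lemma res_apply (X : Finset V) (f : V → K) (x : X) : res K X f x = f x := rfl
@[simp] lemma pull_apply (τ : V → V') (f : V' → K) (x : V) : pull K τ f x = f (τ x) := rfl

lemma res_eq_zero {X : Finset V} {f : V → K} : res K X f = 0 ↔ ∀ x ∈ X, f x = 0 := by
  constructor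
  · intro h x hx
    exact congrFun h ⟨x, hx⟩
  · intro h
    funext x
    exact h x x.2

/-- the Hilbert function of a finite set -/
noncomputable def Hs (L : Submodule K (V → K)) (X : Finset V) (t : ℕ) : ℕ :=
  finrank K ↥((L ^ t).map (res K X).toLinearMap)

lemma Hs_le_card (L : Submodule K (V → K)) (X : Finset V) (t : ℕ) : Hs L X t ≤ #X := by
  refine (Submodule.finrank_le _).trans ?_
  rw [Module.finrank_fintype_fun_eq_card, Fintype.card_coe]

lemma Hs_mono (L : Submodule K (V → K)) {Y X : Finset V} (h : Y ⊆ X) (t : ℕ) :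
    Hs L Y t ≤ Hs L X t := by
  refine finrank_map_le_of_ker _ _ _ ?_
  intro x _ hx
  exact res_eq_zero.2 fun y hy => res_eq_zero.1 hx y (h hy)

lemma Hs_add_le (L : Submodule K (V → K)) {lam : V → K} (hlam : lam ∈ L) {X X1 X0 : Finset V}
    (h1 : X1 ⊆ X) (h0 : X0 ⊆ X) (hz : ∀ x ∈ X1, lam x = 0) (hn : ∀ x ∈ X0, lam x ≠ 0) (t : ℕ) :
    Hs L X1 (t + 1) + Hs L X0 t ≤ Hs L X (t + 1) := by
  have key := finrank_map_add (L ^ (t + 1)) ((L ^ t).map (LinearMap.mulLeft K lam))
    (res K X).toLinearMap (res K X1).toLinearMap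
    (fun x _ hx => res_eq_zero.2 fun y hy => res_eq_zero.1 hx y (h1 hy))
    (by
      rintro _ ⟨x, hx, rfl⟩
      rw [LinearMap.mulLeft_apply, mul_comm]
      exact Submodule.mul_mem_mul hx hlam)
    (by
      rintro _ ⟨x, hx, rfl⟩
      show res K X1 (lam * x) = 0
      refine res_eq_zero.2 fun y hy => ?_
      simp [hz y hy])
  refine le_trans (add_le_add le_rfl ?_) key
  rw [← Submodule.map_comp]
  refine finrank_map_le_of_ker _ _ _ ?_
  intro x _ hx
  have hx' : res K X (lam * x) = 0 := hx
  refine res_eq_zero.2 fun y hy => ?_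
  have := res_eq_zero.1 hx' y (h0 hy)
  simp only [Pi.mul_apply, mul_eq_zero] at this
  exact this.resolve_left (hn y hy)

/-- Hilbert functions depend only on the restricted space of functions -/
lemma Hs_eq_image [DecidableEq V'] (τ : V → V') (L : Submodule K (V → K))
    (L' : Submodule K (V' → K)) (X : Finset V)
    (h : L.map (res K X).toLinearMap = (L'.map (pull K τ).toLinearMap).map (res K X).toLinearMap)
    (t : ℕ) : Hs L X t = Hs L' (X.image τ) t := by
  unfold Hs
  rw [Submodule.map_pow, h, ← Submodule.map_pow, ← Submodule.map_pow, ← Submodule.map_comp]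
  refine finrank_map_congr_ker _ _ _ ?_
  intro x _
  show res K (X.image τ) x = 0 ↔ res K X (pull K τ x) = 0
  rw [res_eq_zero, res_eq_zero]
  constructor
  · intro hx y hy
    exact hx (τ y) (Finset.mem_image_of_mem _ hy)
  · intro hx y hy
    obtain ⟨z, hz, rfl⟩ := Finset.mem_image.1 hy
    exact hx z hz

lemma Hs_congr (L L' : Submodule K (V → K)) (X : Finset V)
    (h : L.map (res K X).toLinearMap = L'.map (res K X).toLinearMap) (t : ℕ) :
    Hs L X t = Hs L' X t := by
  unfold Hs
  rw [Submodule.map_pow, h, ← Submodule.map_pow]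

/-- layers: `B i` lies on `lam i = 0` and off the earlier ones -/
lemma layers (L : Submodule K (V → K)) : ∀ (n t : ℕ) (lam : ℕ → V → K) (A : Finset V)
    (B : ℕ → Finset V), (∀ i, lam i ∈ L) → (∀ i, B i ⊆ A) → (∀ i, ∀ x ∈ B i, lam i x = 0) →
    (∀ i j, j < i → ∀ x ∈ B i, lam j x ≠ 0) →
    ∑ i ∈ range (min n (t + 1)), Hs L (B i) (t - i) ≤ Hs L A t := by
  classical
  intro n
  induction n with
  | zero => intro t lam A B _ _ _ _; simp
  | succ n ih =>
    intro t lam A B hlam hB h0 hne
    cases t with
    | zero =>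
      simp only [zero_add, le_add_iff_nonneg_left, zero_le, inf_of_le_right, range_one,
        sum_singleton, tsub_self]
      exact Hs_mono L (hB 0) 0
    | succ s =>
      have hmin : min (n + 1) (s + 1 + 1) = min n (s + 1) + 1 := by omega
      rw [hmin, Finset.sum_range_succ']
      have h1 := ih s (fun i => lam (i + 1)) (A.filter fun x => lam 0 x ≠ 0) (fun i => B (i + 1))
        (fun i => hlam _) (fun i x hx => Finset.mem_filter.2 ⟨hB _ hx, hne (i + 1) 0 (by omega) x hx⟩)
        (fun i => h0 _) (fun i j hij => hne (i + 1) (j + 1) (by omega))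
      have h2 := Hs_add_le L (hlam 0) (hB 0) (Finset.filter_subset (fun x => lam 0 x ≠ 0) A)
        (h0 0) (fun x hx => (Finset.mem_filter.1 hx).2) s
      have h3 : ∑ i ∈ range (min n (s + 1)), Hs L (B (i + 1)) (s + 1 - (i + 1)) =
          ∑ i ∈ range (min n (s + 1)), Hs L (B (i + 1)) (s - i) := by
        refine Finset.sum_congr rfl fun i _ => ?_
        congr 1
        omega
      rw [h3]
      simp only [tsub_zero]
      omega

/-- projection inequality -/
lemma PRJ (π : V → V') (x : V → K) (L' : Submodule K (V' → K)) (L : Submodule K (V → K))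
    (hx : x ∈ L) (hL : L'.map (pull K π).toLinearMap ≤ L) (X : Finset V) [DecidableEq V']
    (hinj : ∀ a ∈ X, ∀ b ∈ X, π a = π b → x a = x b → a = b) (t : ℕ) (Y : ℕ → Finset V')
    (hY : ∀ k, ∀ y ∈ Y k, k + 1 ≤ #(X.filter fun a => π a = y)) :
    ∑ k ∈ range (t + 1), Hs L' (Y k) (t - k) ≤ Hs L X t := by
  classical
  let U : ℕ → Submodule K (V → K) := fun n => Nat.rec ⊥ (fun n Un => Un ⊔
    ((L' ^ (t - n)).map (pull K π).toLinearMap).map (LinearMap.mulLeft K (x ^ n))) n
  have hU0 : U 0 = ⊥ := rfl
  have hUs : ∀ n, U (n + 1) = U n ⊔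
    ((L' ^ (t - n)).map (pull K π).toLinearMap).map (LinearMap.mulLeft K (x ^ n)) := fun n => rfl
  have hUL : ∀ n, n ≤ t + 1 → U n ≤ L ^ t := by
    intro n
    induction n with
    | zero => intro _; rw [hU0]; exact bot_le
    | succ n ih =>
      intro hn
      rw [hUs]
      refine sup_le (ih (by omega)) ?_
      rintro _ ⟨_, ⟨g, hg, rfl⟩, rfl⟩
      have e : t = n + (t - n) := by omega
      have hp : pull K π g ∈ L ^ (t - n) := by
        have h1 : pull K π g ∈ (L' ^ (t - n)).map (pull K π).toLinearMap :=
          Submodule.mem_map_of_mem (f := (pull K π).toLinearMap) hg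
        rw [Submodule.map_pow] at h1
        exact pow_le_pow_left' hL _ h1
      have : x ^ n * pull K π g ∈ L ^ n * L ^ (t - n) :=
        Submodule.mul_mem_mul (Submodule.pow_mem_pow _ hx n) hp
      rw [← pow_add, ← e] at this
      exact this
  have hUW : ∀ n, ∀ u ∈ U n, ∀ y : V', ∃ p : Polynomial K, p ∈ Polynomial.degreeLT K n ∧
      ∀ a, π a = y → u a = p.eval (x a) := by
    intro n
    induction n with
    | zero =>
      intro u hu y
      rw [hU0, Submodule.mem_bot] at hu
      exact ⟨0, Submodule.zero_mem _, fun a _ => by simp [hu]⟩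
    | succ n ih =>
      intro u hu y
      rw [hUs] at hu
      obtain ⟨u1, hu1, u2, hu2, rfl⟩ := Submodule.mem_sup.1 hu
      obtain ⟨p, hp, hpa⟩ := ih u1 hu1 y
      obtain ⟨_, ⟨g, hg, rfl⟩, rfl⟩ := hu2
      refine ⟨p + Polynomial.C (g y) * Polynomial.X ^ n, ?_, ?_⟩
      · refine Submodule.add_mem _ ?_ ?_
        · rw [Polynomial.mem_degreeLT] at hp ⊢
          exact hp.trans (by exact_mod_cast Nat.lt_succ_self n)
        · rw [Polynomial.mem_degreeLT]
          exact (Polynomial.degree_C_mul_X_pow_le n (g y)).trans_lt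
            (by exact_mod_cast Nat.lt_succ_self n)
      · intro a ha
        have h1 := hpa a ha
        have h2 : (LinearMap.mulLeft K (x ^ n) ((pull K π).toLinearMap g)) a = x a ^ n * g y := by
          rw [← ha]; rfl
        rw [Pi.add_apply, h1, h2, Polynomial.eval_add, Polynomial.eval_mul, Polynomial.eval_C,
          Polynomial.eval_pow, Polynomial.eval_X, mul_comm]
  suffices h : ∀ n, ∑ k ∈ range n, Hs L' (Y k) (t - k) ≤
      finrank K ↥((U n).map (res K X).toLinearMap) by
    refine (h (t + 1)).trans ?_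
    exact Submodule.finrank_mono (Submodule.map_mono (hUL (t + 1) le_rfl))
  intro n
  induction n with
  | zero => simp
  | succ n ih =>
    rw [Finset.sum_range_succ]
    refine (add_le_add ih le_rfl).trans ?_
    refine finrank_step _ _ (Submodule.map_mono (by rw [hUs]; exact le_sup_left)) (L' ^ (t - n))
      ((res K X).toLinearMap ∘ₗ (LinearMap.mulLeft K (x ^ n)) ∘ₗ (pull K π).toLinearMap)
      (res K (Y n)).toLinearMap ?_ ?_
    · intro g hg hfg
      show res K (Y n) g = 0
      refine res_eq_zero.2 fun y hy => ?_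
      obtain ⟨u, hu, hux⟩ := hfg
      obtain ⟨p, hp, hpa⟩ := hUW n u hu y
      have h5 : Polynomial.C (g y) * Polynomial.X ^ n - p = 0 := by
        refine Polynomial.eq_zero_of_natDegree_lt_card_of_eval_eq_zero' _
          ((X.filter fun a => π a = y).image x) ?_ ?_
        · intro z hz
          obtain ⟨a, ha, rfl⟩ := Finset.mem_image.1 hz
          obtain ⟨haX, hay⟩ := Finset.mem_filter.1 ha
          have h6 : u a = x a ^ n * g (π a) := congrFun hux ⟨a, haX⟩
          rw [hay, hpa a hay] at h6
          rw [Polynomial.eval_sub, Polynomial.eval_mul, Polynomial.eval_C,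
            Polynomial.eval_pow, Polynomial.eval_X, h6]
          ring
        · rw [Finset.card_image_of_injOn]
          · refine lt_of_lt_of_le (Nat.lt_succ_of_le ?_) (hY n y hy)
            refine (Polynomial.natDegree_sub_le _ _).trans (max_le ?_ ?_)
            · exact (Polynomial.natDegree_C_mul_le _ _).trans (Polynomial.natDegree_X_pow_le n)
            · rw [Polynomial.mem_degreeLT] at hp
              exact Polynomial.natDegree_le_iff_degree_le.2 hp.le
          · intro a ha b hb hab
            have ha' := Finset.mem_filter.1 (Finset.mem_coe.1 ha)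
            have hb' := Finset.mem_filter.1 (Finset.mem_coe.1 hb)
            exact hinj a ha'.1 b hb'.1 (ha'.2.trans hb'.2.symm) hab
      have h6 := congrArg (fun r => Polynomial.coeff r n) h5
      have h7 : p.coeff n = 0 := by
        rw [Polynomial.mem_degreeLT] at hp
        exact Polynomial.coeff_eq_zero_of_degree_lt hp
      simpa [h7] using h6
    · intro g hg
      refine ⟨x ^ n * pull K π g, ?_, rfl⟩
      rw [hUs]
      exact Submodule.mem_sup_right ⟨_, ⟨g, hg, rfl⟩, rfl⟩

end sets

end BDG
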