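import Mathlib
import Pool.Agent.helper88.BDG.Ranks
import Pool.Agent.helper88.BDG.Frame

/-!
Slices, functionals, cones.
-/

namespace BDG
open Module Finset

section slices
variable {K V F : Type*} [Field K]

lemma cnt_eq_zero {w : ℕ → ℕ} {k t : ℕ} (h : t < k) (x : ℕ) : cnt w k t x = 0 := by
  unfold cnt
  rw [Nat.count_eq_card_filter_range, Finset.card_eq_zero, Finset.filter_eq_empty_iff]
  intro y _
  omega

lemma cnt_shift {w : ℕ → ℕ} {k t : ℕ} (h : k ≤ t) (x : ℕ) : cnt w k t x = cnt w 0 (t - k) x := by
  unfold cnt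
  rw [Nat.count_eq_card_filter_range, Nat.count_eq_card_filter_range]
  congr 1
  ext y
  simp only [Finset.mem_filter, and_congr_right_iff]
  intro _
  omega

lemma exists_antitone_equiv [Fintype F] (f : F → ℕ) :
    ∃ σ : Fin (Fintype.card F) ≃ F, Antitone (f ∘ σ) := by
  let e : Fin (Fintype.card F) ≃ F := (Fintype.equivFin F).symm
  let g : Fin (Fintype.card F) → ℕᵒᵈ := fun i => OrderDual.toDual (f (e i))
  refine ⟨(Tuple.sort g).trans e, ?_⟩
  intro i j hij
  have := Tuple.monotone_sort g hij
  exact this

lemma slice_cnt [Fintype F] [DecidableEq F] {w : ℕ → ℕ} {lim : ℕ}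
    (hNI : NI w (Fintype.card F) lim)
    (L : Submodule K (V → K)) (A : Finset V) (ψ : V → F) (lamF : F → V → K)
    (hlam : ∀ μ, lamF μ ∈ L) (hz : ∀ μ, ∀ x ∈ A, lamF μ x = 0 ↔ ψ x = μ) (t : ℕ) (xF : F → ℕ)
    (hx : ∀ μ, xF μ ≤ lim)
    (hcnt : ∀ μ, ∀ s ≤ t, cnt w 0 s (xF μ) ≤ Hs L (A.filter fun a => ψ a = μ) s) :
    cnt (ext w (Fintype.card F)) 0 t (∑ μ, xF μ) ≤ Hs L A t := by
  classical
  obtain ⟨σ, hσ⟩ := exists_antitone_equiv xF
  let x : ℕ → ℕ := fun i => if h : i < Fintype.card F then xF (σ ⟨i, h⟩) else 0
  let B : ℕ → Finset V := fun i => if h : i < Fintype.card F then A.filter (fun a => ψ a = σ ⟨i, h⟩) else ∅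
  let lam : ℕ → V → K := fun i => if h : i < Fintype.card F then lamF (σ ⟨i, h⟩) else 0
  have hxanti : Antitone x := by
    intro i j hij
    simp only [x]
    by_cases hj : j < Fintype.card F
    · have hi : i < Fintype.card F := by omega
      rw [dif_pos hj, dif_pos hi]
      exact hσ (show (⟨i, hi⟩ : Fin (Fintype.card F)) ≤ ⟨j, hj⟩ from hij)
    · rw [dif_neg hj]; exact Nat.zero_le _
  have hsum : ∑ μ, xF μ = ∑ i ∈ range (Fintype.card F), x i := by
    rw [← Equiv.sum_comp σ, Finset.sum_range]
    refine Finset.sum_congr rfl fun i _ => ?_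
    simp only [x]
    rw [dif_pos i.2]
  have h1 := hNI x 0 t hxanti (by
    simp only [x]
    split_ifs
    · exact hx _
    · exact Nat.zero_le _)
  rw [hsum]
  refine h1.trans ?_
  have h2 := layers L (Fintype.card F) t lam A B (by
      intro i; simp only [lam]; split_ifs
      · exact hlam _
      · exact Submodule.zero_mem _)
    (by
      intro i; simp only [B]; split_ifs
      · exact Finset.filter_subset _ _
      · exact Finset.empty_subset _)
    (by
      intro i a ha; simp only [B, lam] at ha ⊢
      split_ifs with h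
      · rw [dif_pos h, Finset.mem_filter] at ha
        exact (hz _ a ha.1).2 ha.2
      · rfl)
    (by
      intro i j hij a ha
      simp only [B, lam] at ha ⊢
      by_cases hi : i < Fintype.card F
      · rw [dif_pos hi, Finset.mem_filter] at ha
        have hj : j < Fintype.card F := by omega
        rw [dif_pos hj]
        intro h0
        have h3 := (hz _ a ha.1).1 h0
        rw [ha.2] at h3
        have h4 := σ.injective h3
        have h5 := congrArg Fin.val h4
        simp only at h5
        omega
      · rw [dif_neg hi] at ha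
        exact absurd ha (Finset.notMem_empty _))
  refine le_trans ?_ h2
  have hsub : range (min (Fintype.card F) (t + 1)) ⊆ range (Fintype.card F) := by
    intro i hi; rw [Finset.mem_range] at *; omega
  rw [← Finset.sum_subset hsub]
  · refine Finset.sum_le_sum fun i hi => ?_
    rw [Finset.mem_range] at hi
    have hi1 : i < Fintype.card F := by omega
    have hi2 : i ≤ t := by omega
    rw [zero_add, cnt_shift hi2]
    simp only [x, B]
    rw [dif_pos hi1, dif_pos hi1]
    exact hcnt _ _ (by omega)
  · intro i hi hi'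
    rw [Finset.mem_range] at hi hi'
    exact cnt_eq_zero (by omega) _

end slices

section linear
variable (K : Type*) [Field K] {F : Type*} [Field F] [Algebra F K] {V W : Type*} [AddCommGroup V]
  [Module F V] [AddCommGroup W] [Module F W]

/-- a functional as a `K`-valued function -/
def fn (φ : Module.Dual F V) : V → K := fun v => algebraMap F K (φ v)

variable (F V) in
/-- the span of all functionals -/
def Lf : Submodule K (V → K) := Submodule.span K (Set.range (fn K (F := F) (V := V)))

variable {K}

@[simp] lemma fn_apply (φ : Module.Dual F V) (v : V) : fn K φ v = algebraMap F K (φ v) := rfl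

lemma fn_mem (φ : Module.Dual F V) : fn K φ ∈ Lf K F V := Submodule.subset_span ⟨φ, rfl⟩

lemma fn_eq_zero {φ : Module.Dual F V} {v : V} : fn K φ v = 0 ↔ φ v = 0 := by
  rw [fn_apply, map_eq_zero]

lemma fn_add (φ ψ : Module.Dual F V) : fn K (φ + ψ) = fn K φ + fn K ψ := by
  funext v; simp

lemma fn_smul (c : F) (φ : Module.Dual F V) : fn K (c • φ) = algebraMap F K c • fn K φ := by
  funext v; simp

/-- the span of functionals is spanned by the coordinates -/
lemma Lf_eq_span {ι : Type*} [Fintype ι] (b : Basis ι F V) :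
    Lf K F V = Submodule.span K (Set.range fun i => fn K (b.coord i)) := by
  refine le_antisymm ?_ ?_
  · refine Submodule.span_le.2 ?_
    rintro _ ⟨φ, rfl⟩
    have h : fn K φ = ∑ i, algebraMap F K (φ (b i)) • fn K (b.coord i) := by
      funext v
      rw [Finset.sum_apply]
      conv_lhs => rw [fn_apply, ← b.sum_repr v, map_sum, map_sum]
      refine Finset.sum_congr rfl fun i _ => ?_
      simp [mul_comm]
    show fn K φ ∈ _
    rw [h]
    exact Submodule.sum_mem _ fun i _ => Submodule.smul_mem _ _ (Submodule.subset_span ⟨i, rfl⟩)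
  · refine Submodule.span_le.2 ?_
    rintro _ ⟨i, rfl⟩
    exact fn_mem _

lemma Lf_pull_le (f : V →ₗ[F] W) : (Lf K F W).map (pull K f).toLinearMap ≤ Lf K F V := by
  rw [Lf, Submodule.map_span, Submodule.span_le]
  rintro _ ⟨_, ⟨φ, rfl⟩, rfl⟩
  exact Submodule.subset_span ⟨φ.comp f, rfl⟩

lemma Lf_pull_inj (f : V →ₗ[F] W) (hf : Function.Injective f) :
    (Lf K F W).map (pull K f).toLinearMap = Lf K F V := by
  refine le_antisymm (Lf_pull_le f) ?_
  refine Submodule.span_le.2 ?_
  rintro _ ⟨φ, rfl⟩
  obtain ⟨g, hg⟩ := LinearMap.exists_leftInverse_of_injective f (LinearMap.ker_eq_bot.2 hf)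
  refine ⟨fn K (φ.comp g), fn_mem _, ?_⟩
  funext v
  have : g (f v) = v := LinearMap.congr_fun hg v
  simp [this]

lemma Hs_image_inj [DecidableEq W] (f : V →ₗ[F] W) (hf : Function.Injective f) (X : Finset V)
    (t : ℕ) : Hs (Lf K F V) X t = Hs (Lf K F W) (X.image f) t :=
  Hs_eq_image f _ _ X (by rw [Lf_pull_inj f hf]) t

/-- upper bound for the Hilbert function of a space of dimension `n` -/
lemma Hs_le_choose [FiniteDimensional F V] (X : Finset V) (t : ℕ) :
    Hs (Lf K F V) X t ≤ (finrank F V + t - 1).choose t := by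
  let b := Module.finBasis F V
  have h1 := finrank_pow_le (finrank F V) t (fun i => fn K (b.coord i)) (Lf K F V) (Lf_eq_span b)
  have hfd : FiniteDimensional K ↥(Lf K F V) := by
    rw [Lf_eq_span b]; exact FiniteDimensional.span_of_finite K (Set.finite_range _)
  exact (Submodule.finrank_map_le _ _).trans h1

/-- cones -/
structure IsCone (F : Type*) [Field F] {V : Type*} [AddCommGroup V] [Module F V]
    (X : Finset V) : Prop where
  zero : (0 : V) ∉ X
  smul : ∀ c : F, c ≠ 0 → ∀ x ∈ X, c • x ∈ X

/-- affine lower bound -/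
lemma AF [Fintype F] [DecidableEq F] (hNI : ∀ lim, NI (ds (Fintype.card F)) (Fintype.card F) lim)
    (hds : ext (ds (Fintype.card F)) (Fintype.card F) = ds (Fintype.card F)) (φ : Module.Dual F V) :
    ∀ (n : ℕ) (A : Finset V), #A ≤ n → (∀ x ∈ A, φ x = 1) → ∀ t,
      D (Fintype.card F) t #A ≤ Hs (Lf K F V) A t := by
  classical
  intro n
  induction n with
  | zero =>
    intro A hA _ t
    have : #A = 0 := by omega
    rw [this]
    simp [D, cnt]
  | succ n ih =>
    intro A hA hφ t
    by_cases h1 : #A ≤ 1
    · rcases Nat.lt_or_ge (#A) 1 with h0 | h0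
      · have : #A = 0 := by omega
        rw [this]
        simp [D, cnt]
      · obtain ⟨a, ha⟩ : A.Nonempty := Finset.card_pos.1 (by omega)
        have h2 : D (Fintype.card F) t #A ≤ 1 := by
          have : #A = 1 := by omega
          rw [this]
          exact Nat.count_le _
        refine h2.trans ?_
        refine Nat.one_le_iff_ne_zero.2 ?_
        intro h3
        have h4 : (Lf K F V ^ t).map (res K A).toLinearMap = ⊥ := by
          refine Submodule.finrank_eq_zero.1 h3
        have h5 : res K A (fn K φ ^ t) ∈ (Lf K F V ^ t).map (res K A).toLinearMap :=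
          Submodule.mem_map_of_mem (f := (res K A).toLinearMap)
            (Submodule.pow_mem_pow _ (fn_mem φ) t)
        rw [h4, Submodule.mem_bot, res_eq_zero] at h5
        have h6 := h5 a ha
        simp [hφ a ha] at h6
    · push Not at h1
      obtain ⟨a, ha, b, hb, hab⟩ := Finset.one_lt_card.1 h1
      obtain ⟨ψ, hψ⟩ : ∃ ψ : Module.Dual F V, ψ (a - b) ≠ 0 := by
        by_contra hcon
        push Not at hcon
        exact sub_ne_zero.2 hab ((Module.forall_dual_apply_eq_zero_iff F _).1 hcon)
      rw [map_sub, sub_ne_zero] at hψ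
      have hlt : ∀ μ : F, #(A.filter fun x => ψ x = μ) ≤ n := by
        intro μ
        have : #(A.filter fun x => ψ x = μ) < #A := by
          refine Finset.card_lt_card ?_
          rw [Finset.filter_ssubset]
          by_contra hcon
          push Not at hcon
          exact hψ ((hcon a ha).trans (hcon b hb).symm)
        omega
      have key := slice_cnt (w := ds (Fintype.card F)) (hNI (#A)) (Lf K F V) A ψ
        (fun μ => fn K (ψ - μ • φ)) (fun μ => fn_mem _)
        (by
          intro μ x hx
          rw [fn_eq_zero, LinearMap.sub_apply, LinearMap.smul_apply, hφ x hx, smul_eq_mul,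
            mul_one, sub_eq_zero]) t (fun μ => #(A.filter fun x => ψ x = μ))
        (fun μ => Finset.card_le_card (Finset.filter_subset _ _))
        (fun μ s _ => ih _ (hlt μ) (fun x hx => hφ x (Finset.mem_filter.1 hx).1) s)
      rw [hds] at key
      rw [← Finset.card_eq_sum_card_fiberwise (f := ψ) (t := Finset.univ)
        (fun x _ => Finset.mem_coe.2 (Finset.mem_univ _))] at key
      exact key

end linear

end BDG
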