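import Pool.Agent.helper88.BDG.N0

/-!
Numerical part N1 of MP_c5c754_ag (layer inequalities).  Written by helper35.
-/

set_option autoImplicit false

namespace BDG
open Finset

/-- the diagonal counts of a staircase -/
def dg (b : ℕ) (ρ : ℕ → ℕ) (r : ℕ) : ℕ := #{κ ∈ range b | κ ≤ r ∧ r < ρ κ + κ}

theorem dg_sum (b : ℕ) (ρ : ℕ → ℕ) (T : ℕ) :
    ∑ r ∈ range T, dg b ρ r = ∑ κ ∈ range b, cnt id κ (T - 1) (if T = 0 then 0 else ρ κ) := by
  induction T with
  | zero =>
    simp [cnt_zero]
  | succ T ih =>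
    rw [Finset.sum_range_succ, ih]
    unfold dg
    rw [Finset.card_filter, ← Finset.sum_add_distrib]
    apply Finset.sum_congr rfl
    intro κ _
    rw [cnt_id, cnt_id]
    simp only [Nat.min_def, Nat.add_sub_cancel, Nat.add_eq_zero_iff, one_ne_zero, and_false, if_false]
    rcases Nat.eq_zero_or_pos T with rfl | hT
    · simp only [if_true]
      split_ifs <;> omega
    · rw [if_neg (by omega : ¬ T = 0)]
      split_ifs <;> omega

theorem GT2 (q b k0 t : ℕ) (hb : b ≤ q) (ρ : ℕ → ℕ) (hρ : Antitone ρ) (h0 : ρ 0 ≤ q) :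
    cnt (ext id q) k0 t (∑ κ ∈ range b, ρ κ) ≤ ∑ κ ∈ range b, cnt id (k0 + κ) t (ρ κ) := by
  rcases Nat.eq_zero_or_pos b with rfl | hbpos
  · simp [cnt_zero]
  have hq : 1 ≤ q := by omega
  rcases Nat.lt_or_ge t k0 with hk | hk
  · have : cnt (ext id q) k0 t (∑ κ ∈ range b, ρ κ) = 0 := by
      unfold cnt
      exact Nat.count_of_forall_not (fun m _ h => by omega)
    omega
  have h1 : ∀ r, dg b ρ r ≤ r + 1 := by
    intro r
    unfold dg
    calc #{κ ∈ range b | κ ≤ r ∧ r < ρ κ + κ} ≤ #(range (r + 1)) := by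
          apply Finset.card_le_card
          intro κ hκ
          simp only [mem_filter, mem_range] at hκ ⊢
          omega
      _ = r + 1 := card_range _
  have h2 : ∀ r, dg b ρ r ≤ r → dg b ρ (r+1) ≤ dg b ρ r := by
    intro r hr
    obtain ⟨κ0, hκ0, hn⟩ : ∃ κ0 ∈ range (r + 1), κ0 ∉ ({κ ∈ range b | κ ≤ r ∧ r < ρ κ + κ} : Finset ℕ) := by
      by_contra hcon
      push Not at hcon
      have : #(range (r+1)) ≤ dg b ρ r := Finset.card_le_card hcon
      rw [card_range] at this
      omega
    rw [mem_range] at hκ0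
    simp only [mem_filter, mem_range, not_and, not_lt] at hn
    unfold dg
    apply Finset.card_le_card_of_injOn (fun κ => if κ < κ0 then κ else κ - 1)
    · intro κ hκ
      simp only [coe_filter, mem_range, Set.mem_ofPred_eq] at hκ ⊢
      obtain ⟨a1, a2, a3⟩ := hκ
      rcases Nat.lt_trichotomy κ κ0 with h | h | h
      · rw [if_pos h]; omega
      · subst h
        exfalso
        have := hn a1 (by omega)
        omega
      · rw [if_neg (by omega)]
        have := hρ (show κ - 1 ≤ κ by omega)
        refine ⟨by omega, by omega, by omega⟩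
    · intro κ hκ κ' hκ' he
      simp only [coe_filter, mem_range, Set.mem_ofPred_eq] at hκ hκ' he
      have n1 : κ ≠ κ0 := by
        rintro rfl
        have := hn hκ.1 (by omega)
        omega
      have n2 : κ' ≠ κ0 := by
        rintro rfl
        have := hn hκ'.1 (by omega)
        omega
      split_ifs at he <;> omega
  have h3 : ∀ r, q ≤ r + 1 → dg b ρ (r+1) ≤ dg b ρ r - 1 := by
    intro r hr
    rcases (({κ ∈ range b | κ ≤ r ∧ r < ρ κ + κ} : Finset ℕ)).eq_empty_or_nonempty with he | hne
    · have e0 : dg b ρ r = 0 := by unfold dg; rw [he]; rfl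
      have := h2 r (by omega)
      omega
    · set κm := ({κ ∈ range b | κ ≤ r ∧ r < ρ κ + κ} : Finset ℕ).max' hne with hκm
      have hmem := Finset.max'_mem _ hne
      rw [← hκm] at hmem
      have hmax : ∀ κ ∈ ({κ ∈ range b | κ ≤ r ∧ r < ρ κ + κ} : Finset ℕ), κ ≤ κm :=
        fun κ hκ => Finset.le_max' _ κ hκ
      have hc : dg b ρ r - 1 = #(({κ ∈ range b | κ ≤ r ∧ r < ρ κ + κ} : Finset ℕ).erase κm) := by
        rw [Finset.card_erase_of_mem hmem]; rfl
      rw [hc]
      unfold dg
      simp only [mem_filter, mem_range] at hmem hmax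
      apply Finset.card_le_card_of_injOn (fun κ => κ - 1)
      · intro κ hκ
        simp only [coe_filter, mem_range, Set.mem_ofPred_eq] at hκ
        simp only [coe_erase, coe_filter, mem_range, Set.mem_sdiff, Set.mem_ofPred_eq,
          Set.mem_singleton_iff]
        obtain ⟨a1, a2, a3⟩ := hκ
        have k0' : κ ≠ 0 := by
          rintro rfl
          omega
        have := hρ (show κ - 1 ≤ κ by omega)
        refine ⟨⟨by omega, by omega, by omega⟩, ?_⟩
        intro he
        have hk1 : κ = κm + 1 := by omega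
        subst hk1
        by_cases hbb : κm + 1 ≤ r ∧ r < ρ (κm + 1) + (κm + 1)
        · have := hmax (κm + 1) ⟨a1, hbb⟩
          omega
        · omega
      · intro κ hκ κ' hκ' he
        simp only [coe_filter, mem_range, Set.mem_ofPred_eq] at hκ hκ' he
        have k0' : κ ≠ 0 := by
          rintro rfl
          omega
        have k0'' : κ' ≠ 0 := by
          rintro rfl
          omega
        omega
  have hmain := HV q hq (dg b ρ) h1 h2 h3 (t - k0) (q + b + 1)
  rw [dg_sum, dg_sum] at hmain
  have e1 : ∑ κ ∈ range b, cnt id κ (q + b + 1 - 1) (if q + b + 1 = 0 then 0 else ρ κ) =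
      ∑ κ ∈ range b, ρ κ := by
    apply Finset.sum_congr rfl
    intro κ hκ
    rw [mem_range] at hκ
    have := hρ (show 0 ≤ κ by omega)
    rw [cnt_id, if_neg (by omega)]
    simp only [Nat.min_def]
    split_ifs <;> omega
  have e2 : ∑ κ ∈ range b, cnt id κ (t - k0 + 1 - 1) (if t - k0 + 1 = 0 then 0 else ρ κ) =
      ∑ κ ∈ range b, cnt id (k0 + κ) t (ρ κ) := by
    apply Finset.sum_congr rfl
    intro κ hκ
    rw [cnt_id, cnt_id, if_neg (by omega)]
    simp only [Nat.min_def]
    split_ifs <;> omega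
  rw [e1, e2] at hmain
  refine le_trans (le_of_eq ?_) hmain
  unfold cnt
  congr 1
  funext y
  apply propext
  constructor <;> intro h <;> omega

/-! ## Section 2: layer inequalities -/

theorem NI_id (q : ℕ) (hq : 1 ≤ q) : NI id q q := by
  have _ := hq
  intro x k t hx h0
  exact GT2 q q k t le_rfl x hx h0

theorem ext_step (w : ℕ → ℕ) (b : ℕ) (hb : 1 ≤ b) (hw : ∀ y, w (y+1) ≤ w y + 1) :
    ∀ y, ext w b (y+1) ≤ ext w b y + 1 := by
  intro y
  unfold ext
  have h1 := Nat.div_add_mod y b
  have h2 := Nat.mod_lt y (show 0 < b by omega)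
  by_cases h : y % b + 1 < b
  · have e : y + 1 = b * (y / b) + (y % b + 1) := by omega
    have e1 : (y + 1) / b = y / b := by
      rw [e, Nat.mul_add_div (by omega), Nat.div_eq_of_lt h, Nat.add_zero]
    have e2 : (y + 1) % b = y % b + 1 := by
      rw [e, Nat.mul_add_mod, Nat.mod_eq_of_lt h]
    rw [e1, e2]; omega
  · have e : y + 1 = b * (y / b + 1) := by rw [Nat.mul_add, Nat.mul_one]; omega
    have e1 : (y + 1) / b = y / b + 1 := by
      rw [e, Nat.mul_div_cancel_left _ (by omega)]
    have e2 : (y + 1) % b = 0 := by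
      rw [e, Nat.mul_mod_right]
    rw [e1, e2]
    have := hw (y / b)
    omega

/-- count in one level of `ext w q` -/
theorem cnt_level (w : ℕ → ℕ) (q k t a x : ℕ) (hx : x ≤ q) :
    cnt (ext w q) k t (a * q + x) = cnt (ext w q) k t (a * q) + cnt id (k + w a) t x := by
  rw [cnt_add]
  congr 1
  apply cnt_congr
  intro y hy
  unfold ext
  have hc : a * q + y = q * a + y := by rw [Nat.mul_comm]
  rw [hc, Nat.mul_add_div (by omega), Nat.mul_add_mod, Nat.div_eq_of_lt (by omega),
    Nat.mod_eq_of_lt (by omega), Nat.add_zero]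
  simp only [id]
  omega

/-- count in one level of `ext (ext w b) q` -/
theorem cnt_level2 (w : ℕ → ℕ) (q b k t a x : ℕ) (hx : x ≤ b * q) :
    cnt (ext (ext w b) q) k t (a * (b * q) + x) =
      cnt (ext (ext w b) q) k t (a * (b * q)) + cnt (ext id q) (k + w a) t x := by
  rw [cnt_add]
  congr 1
  apply cnt_congr
  intro y hy
  have hq : 0 < q := by
    rcases Nat.eq_zero_or_pos q with rfl | h
    · omega
    · exact h
  have hb : 0 < b := by
    rcases Nat.eq_zero_or_pos b with rfl | h
    · omega
    · exact h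
  unfold ext
  have hc : a * (b * q) + y = q * (b * a) + y := by ring
  have hyq : y / q < b := by
    rw [Nat.div_lt_iff_lt_mul hq]; omega
  rw [hc, Nat.mul_add_div hq, Nat.mul_add_mod, Nat.mul_add_div hb, Nat.mul_add_mod,
    Nat.div_eq_of_lt hyq, Nat.mod_eq_of_lt hyq, Nat.add_zero]
  simp only [id]
  omega

theorem cnt_full (w : ℕ → ℕ) (q b k t a : ℕ) (hq : 1 ≤ q) (hb : 1 ≤ b) :
    ∑ κ ∈ range b, cnt (ext w q) (k + κ) t (a * q) = cnt (ext (ext w b) q) k t (a * (b * q)) := by
  have h1 : ∀ κ ∈ range b, cnt (ext w q) (k + κ) t (a * q) = ∑ j ∈ range q, cnt w (k + κ + j) t a := by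
    intro κ _
    rw [cnt_ext w hq]
    apply Finset.sum_congr rfl
    intro j hj
    rw [mem_range] at hj
    have e : a * q + q - 1 - j = q * a + (q - 1 - j) := by
      have := Nat.mul_comm a q
      omega
    rw [e, Nat.mul_add_div (by omega), Nat.div_eq_of_lt (show q - 1 - j < q by omega), Nat.add_zero]
  have h2 : cnt (ext (ext w b) q) k t (a * (b * q)) =
      ∑ j ∈ range q, ∑ κ ∈ range b, cnt w (k + j + κ) t a := by
    rw [cnt_ext _ hq]
    apply Finset.sum_congr rfl
    intro j hj
    rw [mem_range] at hj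
    have e : a * (b * q) + q - 1 - j = q * (a * b) + (q - 1 - j) := by
      have : a * (b * q) = q * (a * b) := by ring
      omega
    rw [e, Nat.mul_add_div (by omega), Nat.div_eq_of_lt (show q - 1 - j < q by omega), Nat.add_zero,
      cnt_ext _ hb]
    apply Finset.sum_congr rfl
    intro κ hκ
    rw [mem_range] at hκ
    have e : a * b + b - 1 - κ = b * a + (b - 1 - κ) := by
      have := Nat.mul_comm a b
      omega
    rw [e, Nat.mul_add_div (by omega), Nat.div_eq_of_lt (show b - 1 - κ < b by omega), Nat.add_zero]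
  rw [Finset.sum_congr rfl h1, h2, Finset.sum_comm]
  apply Finset.sum_congr rfl
  intro j _
  apply Finset.sum_congr rfl
  intro κ _
  congr 1
  omega

/-- the core inequality (FS) -/
theorem FS (w : ℕ → ℕ) (q b : ℕ) (hb : 1 ≤ b) (hbq : b ≤ q) (hw : ∀ y, w (y+1) ≤ w y + 1)
    (X : ℕ → ℕ) (hX : ∀ i j, i ≤ j → j < b → X j ≤ X i) (hX0 : X 0 ≤ X (b - 1) + q) (k t : ℕ) :
    cnt (ext (ext w b) q) k t (∑ κ ∈ range b, X κ) ≤
      ∑ κ ∈ range b, cnt (ext w q) (k + κ) t (X κ) := by
  have hq : 1 ≤ q := by omega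
  set a := X (b - 1) / q with ha
  have hdm := Nat.div_add_mod (X (b-1)) q
  have hml := Nat.mod_lt (X (b-1)) (show 0 < q by omega)
  rw [← ha] at hdm
  have haq : a * q ≤ X (b - 1) := by rw [Nat.mul_comm]; omega
  -- remainders; extended by the last value
  set ρ : ℕ → ℕ := fun κ => X (min κ (b - 1)) - a * q with hρdef
  have hXmono : ∀ i j, i ≤ j → X (min j (b - 1)) ≤ X (min i (b - 1)) := by
    intro i j hij
    apply hX
    · exact min_le_min_right _ hij
    · have := min_le_right j (b - 1); omega
  have hρ : Antitone ρ := by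
    intro i j hij
    exact Nat.sub_le_sub_right (hXmono i j hij) _
  have hXρ : ∀ κ, κ < b → X κ = a * q + ρ κ := by
    intro κ hκ
    have e : min κ (b - 1) = κ := by omega
    have := hX κ (b - 1) (by omega) (by omega)
    simp only [hρdef, e]
    omega
  have hρlast : ρ (b - 1) < q := by
    have := hXρ (b - 1) (by omega)
    have := Nat.mul_comm a q
    omega
  have hρ0 : ρ 0 ≤ ρ (b - 1) + q := by
    have h1 := hXρ (b - 1) (by omega)
    have h2 := hXρ 0 (by omega)
    omega
  have hsum : ∑ κ ∈ range b, X κ = a * (b * q) + ∑ κ ∈ range b, ρ κ := by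
    rw [Finset.sum_congr rfl (fun κ hκ => hXρ κ (mem_range.1 hκ)), Finset.sum_add_distrib,
      Finset.sum_const, card_range, smul_eq_mul]
    ring
  rw [hsum]
  by_cases hsmall : ρ 0 ≤ q
  · have hle : ∀ κ, ρ κ ≤ q := fun κ => (hρ (Nat.zero_le κ)).trans hsmall
    have hS : ∑ κ ∈ range b, ρ κ ≤ b * q := by
      calc ∑ κ ∈ range b, ρ κ ≤ ∑ κ ∈ range b, q := Finset.sum_le_sum (fun κ _ => hle κ)
        _ = b * q := by rw [Finset.sum_const, card_range, smul_eq_mul]
    rw [cnt_level2 w q b k t a _ hS, ← cnt_full w q b k t a hq hb]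
    have h1 : ∑ κ ∈ range b, cnt (ext w q) (k + κ) t (X κ) =
        ∑ κ ∈ range b, cnt (ext w q) (k + κ) t (a * q) +
          ∑ κ ∈ range b, cnt id (k + κ + w a) t (ρ κ) := by
      rw [← Finset.sum_add_distrib]
      apply Finset.sum_congr rfl
      intro κ hκ
      rw [hXρ κ (mem_range.1 hκ), cnt_level w q (k + κ) t a _ (hle κ)]
    rw [h1]
    have h2 := GT2 q b (k + w a) t hbq ρ hρ hsmall
    have h3 : ∑ κ ∈ range b, cnt id (k + w a + κ) t (ρ κ) =
        ∑ κ ∈ range b, cnt id (k + κ + w a) t (ρ κ) := by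
      apply Finset.sum_congr rfl
      intro κ _
      congr 1
      omega
    omega
  · push Not at hsmall
    -- inner part and overflow
    set σ : ℕ → ℕ := fun κ => min (ρ κ) q with hσdef
    set o : ℕ → ℕ := fun κ => ρ κ - q with hodef
    have hσ : Antitone σ := fun i j hij => min_le_min_right _ (hρ hij)
    have ho : Antitone o := fun i j hij => Nat.sub_le_sub_right (hρ hij) _
    have hσo : ∀ κ, ρ κ = σ κ + o κ := by
      intro κ; simp only [hσdef, hodef]; omega
    have hσq : ∀ κ, σ κ ≤ q := fun κ => min_le_right _ _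
    have hoq : ∀ κ, o κ ≤ q := by
      intro κ
      have := hρ (Nat.zero_le κ)
      simp only [hodef]
      omega
    have hSσ : ∑ κ ∈ range b, σ κ ≤ b * q := by
      calc ∑ κ ∈ range b, σ κ ≤ ∑ κ ∈ range b, q := Finset.sum_le_sum (fun κ _ => hσq κ)
        _ = b * q := by rw [Finset.sum_const, card_range, smul_eq_mul]
    have hSo : ∑ κ ∈ range b, o κ ≤ b * q := by
      calc ∑ κ ∈ range b, o κ ≤ ∑ κ ∈ range b, q := Finset.sum_le_sum (fun κ _ => hoq κ)
        _ = b * q := by rw [Finset.sum_const, card_range, smul_eq_mul]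
    have hS : ∑ κ ∈ range b, ρ κ = ∑ κ ∈ range b, σ κ + ∑ κ ∈ range b, o κ := by
      rw [← Finset.sum_add_distrib]
      exact Finset.sum_congr rfl (fun κ _ => hσo κ)
    -- the right-hand side
    have hlay : ∀ κ ∈ range b, cnt (ext w q) (k + κ) t (X κ) =
        cnt (ext w q) (k + κ) t (a * q) + cnt id (k + κ + w a) t (σ κ) +
          cnt id (k + κ + w (a + 1)) t (o κ) := by
      intro κ hκ
      rw [mem_range] at hκ
      rw [hXρ κ hκ]
      by_cases hc : ρ κ ≤ q
      · have e1 : σ κ = ρ κ := min_eq_left hc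
        have e2 : o κ = 0 := by simp only [hodef]; omega
        rw [cnt_level w q (k + κ) t a _ hc, e1, e2, cnt_zero, Nat.add_zero]
      · have e1 : σ κ = q := min_eq_right (by omega)
        have e2 : a * q + ρ κ = (a + 1) * q + o κ := by
          simp only [hodef, Nat.add_mul, Nat.one_mul]; omega
        rw [e2, cnt_level w q (k + κ) t (a + 1) _ (hoq κ), e1, Nat.add_mul, Nat.one_mul,
          cnt_level w q (k + κ) t a _ le_rfl]
    rw [Finset.sum_congr rfl hlay, Finset.sum_add_distrib, Finset.sum_add_distrib,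
      cnt_full w q b k t a hq hb]
    -- abbreviations
    set μ0 := cnt (ext (ext w b) q) k t (a * (b * q)) with hμ0
    have hin : cnt (ext id q) (k + w a) t (∑ κ ∈ range b, σ κ) ≤
        ∑ κ ∈ range b, cnt id (k + κ + w a) t (σ κ) := by
      have h2 := GT2 q b (k + w a) t hbq σ hσ (hσq 0)
      refine h2.trans (le_of_eq ?_)
      apply Finset.sum_congr rfl
      intro κ _
      congr 1
      omega
    by_cases hhole : ∃ κ < b, ∃ j < q, ρ κ ≤ j ∧ w a + κ + j + k ≤ t
    · obtain ⟨κ', hκ', j', hj', hj'ρ, hwt⟩ := hhole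
      have hov : ∑ κ ∈ range b, cnt id (k + κ + w (a + 1)) t (o κ) = ∑ κ ∈ range b, o κ := by
        apply Finset.sum_congr rfl
        intro κ hκ
        rw [mem_range] at hκ
        rw [cnt_id]
        apply min_eq_left
        by_cases h0 : o κ = 0
        · omega
        · have hqκ : q < ρ κ := by simp only [hodef] at h0; omega
          have hlt : κ < κ' := by
            by_contra hcon
            have := hρ (show κ' ≤ κ by omega)
            omega
          have h1 := hρ (show κ' ≤ b - 1 by omega)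
          have h2 := hρ (Nat.zero_le κ)
          have h3 := hw a
          simp only [hodef]
          omega
      rw [hov]
      have h5 : cnt (ext (ext w b) q) k t (a * (b * q) + ∑ κ ∈ range b, σ κ) =
          μ0 + cnt (ext id q) (k + w a) t (∑ κ ∈ range b, σ κ) := cnt_level2 w q b k t a _ hSσ
      have h6 := cnt_add_le (ext (ext w b) q) k t (a * (b * q) + ∑ κ ∈ range b, σ κ)
        (∑ κ ∈ range b, o κ)
      rw [hS, ← Nat.add_assoc]
      omega
    · push Not at hhole
      -- all counted cells of level a are inner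
      have hfull : ∀ κ ∈ range b, cnt id (k + κ + w a) t (σ κ) = cnt id (k + κ + w a) t q := by
        intro κ hκ
        rw [mem_range] at hκ
        rw [cnt_id, cnt_id]
        by_cases hc : q ≤ ρ κ
        · have : σ κ = q := min_eq_right hc
          rw [this]
        · have e1 : σ κ = ρ κ := min_eq_left (by omega)
          have h1 := hhole κ hκ (ρ κ) (by omega) le_rfl
          rw [e1]
          simp only [Nat.min_def]
          split_ifs <;> omega
      have hfull2 : ∑ κ ∈ range b, cnt id (k + κ + w a) t (σ κ) =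
          cnt (ext id q) (k + w a) t (b * q) := by
        rw [Finset.sum_congr rfl hfull]
        have h7 := cnt_full id q b (k + w a) t 1 hq hb
        rw [Nat.one_mul, Nat.one_mul] at h7
        have h8 := cnt_full w q b k t a hq hb
        have h9 := cnt_full w q b k t (a + 1) hq hb
        rw [Nat.add_mul, Nat.one_mul, Nat.add_mul, Nat.one_mul, cnt_level2 w q b k t a _ le_rfl] at h9
        have h10 : ∀ κ ∈ range b, cnt (ext w q) (k + κ) t (a * q + q) =
            cnt (ext w q) (k + κ) t (a * q) + cnt id (k + κ + w a) t q := by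
          intro κ _
          exact cnt_level w q (k + κ) t a _ le_rfl
        rw [Finset.sum_congr rfl h10, Finset.sum_add_distrib] at h9
        omega
      rw [hfull2]
      have hov : cnt (ext id q) (k + w (a + 1)) t (∑ κ ∈ range b, o κ) ≤
          ∑ κ ∈ range b, cnt id (k + κ + w (a + 1)) t (o κ) := by
        have h2 := GT2 q b (k + w (a + 1)) t hbq o ho (hoq 0)
        refine h2.trans (le_of_eq ?_)
        apply Finset.sum_congr rfl
        intro κ _
        congr 1
        omega
      have h5 : cnt (ext (ext w b) q) k t (a * (b * q) + b * q) =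
          μ0 + cnt (ext id q) (k + w a) t (b * q) := cnt_level2 w q b k t a _ le_rfl
      have h6 : cnt (ext (ext w b) q) k t (a * (b * q) + b * q + ∑ κ ∈ range b, o κ) =
          cnt (ext (ext w b) q) k t (a * (b * q) + b * q) +
            cnt (ext id q) (k + w (a + 1)) t (∑ κ ∈ range b, o κ) := by
        have := cnt_level2 w q b k t (a + 1) _ hSo
        rwa [Nat.add_mul, Nat.one_mul] at this
      have h7 : cnt (ext (ext w b) q) k t (a * (b * q) + ∑ κ ∈ range b, ρ κ) ≤
          cnt (ext (ext w b) q) k t (a * (b * q) + b * q + ∑ κ ∈ range b, o κ) :=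
        cnt_mono _ _ _ (by omega)
      omega

theorem NI_step (w : ℕ → ℕ) (q b lim : ℕ) (hb : 1 ≤ b) (hbq : b ≤ q) (hw : ∀ y, w (y+1) ≤ w y + 1)
    (h : NI w q lim) : NI (ext w b) q (b * lim) := by
  intro x k t hx h0
  have hq : 1 ≤ q := by omega
  set X : ℕ → ℕ := fun κ => ∑ i ∈ range q, (x i + b - 1 - κ) / b with hX
  have hX1 : ∀ i j, i ≤ j → j < b → X j ≤ X i := by
    intro i j hij _
    exact Finset.sum_le_sum (fun l _ => Nat.div_le_div_right (by omega))
  have hX2 : X 0 ≤ X (b - 1) + q := by
    have : X 0 ≤ ∑ i ∈ range q, ((x i + b - 1 - (b - 1)) / b + 1) := by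
      apply Finset.sum_le_sum
      intro i _
      rw [← Nat.add_div_right _ (by omega)]
      exact Nat.div_le_div_right (by omega)
    rw [Finset.sum_add_distrib, Finset.sum_const, card_range, smul_eq_mul, Nat.mul_one] at this
    exact this
  have hsumX : ∑ κ ∈ range b, X κ = ∑ i ∈ range q, x i := by
    rw [hX, Finset.sum_comm]
    apply Finset.sum_congr rfl
    intro i _
    -- Hermite identity, from cnt_ext with everything counted
    have h1 := cnt_ext (fun _ => 0) hb 0 b (x i)
    have h2 : cnt (ext (fun _ => 0) b) 0 b (x i) = x i := by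
      unfold cnt
      rw [Nat.count_of_forall]
      intro n _
      have := Nat.mod_lt n (show 0 < b by omega)
      show 0 + n % b + 0 ≤ b
      omega
    have h3 : ∀ κ ∈ range b, cnt (fun _ => 0) (0 + κ) b ((x i + b - 1 - κ) / b) =
        (x i + b - 1 - κ) / b := by
      intro κ hκ
      rw [mem_range] at hκ
      unfold cnt
      rw [Nat.count_of_forall]
      intro n _
      show 0 + (0 + κ) ≤ b
      omega
    rw [h2, Finset.sum_congr rfl h3] at h1
    exact h1.symm
  have hFS := FS w q b hb hbq hw X hX1 hX2 k t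
  rw [hsumX] at hFS
  refine hFS.trans ?_
  have h1 : ∀ κ ∈ range b, cnt (ext w q) (k + κ) t (X κ) ≤
      ∑ i ∈ range q, cnt w (k + κ + i) t ((x i + b - 1 - κ) / b) := by
    intro κ hκ
    rw [mem_range] at hκ
    apply h (fun i => (x i + b - 1 - κ) / b) (k + κ) t
    · intro i j hij
      have := hx hij
      exact Nat.div_le_div_right (by omega)
    · calc (x 0 + b - 1 - κ) / b ≤ (b * lim + (b - 1)) / b := Nat.div_le_div_right (by omega)
        _ = lim := by
          rw [Nat.mul_add_div (by omega), Nat.div_eq_of_lt (show b - 1 < b by omega), Nat.add_zero]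
  refine (Finset.sum_le_sum h1).trans (le_of_eq ?_)
  rw [Finset.sum_comm]
  apply Finset.sum_congr rfl
  intro i _
  rw [cnt_ext w hb]
  apply Finset.sum_congr rfl
  intro κ _
  congr 1
  omega

theorem W_step (E q : ℕ) (hE : 1 ≤ E) (hq : 1 ≤ q) (r : ℕ) : ∀ y, W E q r (y+1) ≤ W E q r y + 1 := by
  induction r with
  | zero => exact ext_step id E hE (fun y => le_rfl)
  | succ r ih => exact ext_step _ q hq ih

theorem NI_W (E q : ℕ) (hE : 1 ≤ E) (hEq : E ≤ q) (r : ℕ) : NI (W E q r) q (E * q ^ (r+1)) := by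
  induction r with
  | zero =>
    have := NI_step id q E q hE hEq (fun y => le_rfl) (NI_id q (by omega))
    simpa [W] using this
  | succ r ih =>
    have := NI_step (W E q r) q q (E * q ^ (r+1)) (by omega) le_rfl (W_step E q hE (by omega) r) ih
    have e : E * q ^ (r + 1 + 1) = q * (E * q ^ (r + 1)) := by ring
    rw [e]
    exact this

theorem W_ds (q : ℕ) (hq : 2 ≤ q) (r : ℕ) : ∀ z, z < q ^ (r + 2) → W q q r z = ds q z := by
  induction r with
  | zero =>
    intro z hz
    have hz' : z / q < q := by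
      rw [Nat.div_lt_iff_lt_mul (by omega)]
      calc z < q ^ 2 := hz
        _ = q * q := by ring
    rw [ds_eq hq z, ds_lt hq hz']
    rfl
  | succ r ih =>
    intro z hz
    have hz' : z / q < q ^ (r + 2) := by
      rw [Nat.div_lt_iff_lt_mul (by omega)]
      calc z < q ^ (r + 1 + 2) := hz
        _ = q ^ (r + 2) * q := by ring
    rw [ds_eq hq z, ← ih _ hz']
    rfl

theorem NI_ds (q : ℕ) (hq : 2 ≤ q) (x : ℕ → ℕ) (k t : ℕ) (hx : Antitone x) :
    cnt (ds q) k t (∑ i ∈ range q, x i) ≤ ∑ i ∈ range q, cnt (ds q) (k + i) t (x i) := by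
  obtain ⟨n, hn⟩ : ∃ n, x 0 ≤ q ^ (n + 2) := by
    refine ⟨x 0, ?_⟩
    have h1 : x 0 < q ^ x 0 := Nat.lt_pow_self (by omega)
    have h2 : q ^ x 0 ≤ q ^ (x 0 + 2) := Nat.pow_le_pow_right (by omega) (by omega)
    omega
  have hall : ∀ i, x i ≤ q ^ (n + 2) := fun i => (hx (Nat.zero_le i)).trans hn
  have key := NI_W q q (by omega) le_rfl n x k t hx (by
    have : q * q ^ (n + 1) = q ^ (n + 2) := by ring
    rw [this]; exact hn)
  have e1 : cnt (ext (W q q n) q) k t (∑ i ∈ range q, x i) = cnt (ds q) k t (∑ i ∈ range q, x i) := by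
    apply cnt_congr
    intro y hy
    have hS : ∑ i ∈ range q, x i ≤ q ^ (n + 3) := by
      calc ∑ i ∈ range q, x i ≤ ∑ i ∈ range q, q ^ (n + 2) := Finset.sum_le_sum (fun i _ => hall i)
        _ = q ^ (n + 3) := by rw [Finset.sum_const, card_range, smul_eq_mul]; ring
    have hyq : y < q ^ (n + 1 + 2) := lt_of_lt_of_le hy (by simpa using hS)
    have := W_ds q hq (n + 1) y hyq
    rw [show ext (W q q n) q y = W q q (n + 1) y from rfl, this]
  have e2 : ∀ i ∈ range q, cnt (W q q n) (k + i) t (x i) = cnt (ds q) (k + i) t (x i) := by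
    intro i _
    apply cnt_congr
    intro y hy
    rw [W_ds q hq n y (lt_of_lt_of_le hy (hall i))]
  rw [e1, Finset.sum_congr rfl e2] at key
  exact key

end BDG
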