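import Pool.Agent.helper88.BDG.N1
import Pool.Agent.helper94.BDGN2

/-!
Numerical part N2 of MP_c5c754_ag (Beelen-Datta-Ghorpade): the statements of the specification.
-/

namespace BDG
open Finset

theorem NIds_q (q : ℕ) (hq : 2 ≤ q) : N2.NIds q := fun x k t hx => NI_ds q hq x k t hx

theorem D_mono (q t : ℕ) : Monotone (D q t) := N2.D_mono q t

theorem D_mono_t (q : ℕ) {s t : ℕ} (h : s ≤ t) (x : ℕ) : D q s x ≤ D q t x := N2.D_mono_t q h x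

theorem D_add_le (q t x y : ℕ) : D q t (x + y) ≤ D q t x + y := N2.D_add_le q t x y

theorem le_of_D_le {q t x y : ℕ} (hy : ds q y ≤ t) (h : D q t x ≤ D q t y) : x ≤ y :=
  N2.le_of_D_le hy h

theorem exists_f {q : ℕ} (hq : 2 ≤ q) {t : ℕ} (ht : 1 ≤ t) (n : ℕ) :
    ∃ F, D q t F = n ∧ ds q F ≤ t := N2.exists_f hq ht n

theorem D_subadd (q : ℕ) (hq : 2 ≤ q) (t x y : ℕ) : D q t (x + y) ≤ D q t x + D q t y :=
  N2.D_subadd_of q hq (NIds_q q hq) t x y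

theorem D_pow (q : ℕ) {t : ℕ} (ht : t < q) (M : ℕ) : D q t (q ^ M) = R M t := by
  rcases Nat.lt_or_ge q 2 with hq | hq
  · have hq1 : q = 1 := by omega
    have ht0 : t = 0 := by omega
    subst hq1; subst ht0
    rw [one_pow, N2.D_one, N2.R_zero_right]
  · exact N2.D_pow q hq ht M

theorem D_top (q : ℕ) {t : ℕ} (ht : t < q) (M x : ℕ) (h1 : t * q ^ M < x) (h2 : x ≤ q ^ (M+1)) :
    D q t x = R (M+1) t := by
  rcases Nat.lt_or_ge q 2 with hq | hq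
  · have hq1 : q = 1 := by omega
    have ht0 : t = 0 := by omega
    subst hq1; subst ht0
    rw [one_pow] at h2
    have hx : x = 1 := by omega
    rw [hx, N2.D_one, N2.R_zero_right]
  · exact N2.D_top q hq ht M x h1 h2

theorem D_block (q : ℕ) (hq : 2 ≤ q) (M c t y : ℕ) (hct : c ≤ t) (_hcq : c ≤ q)
    (hy : y ≤ (q - c) * q ^ M) :
    D q t (c * q ^ M + y) = D q t (c * q ^ M) + D q (t - c) y := N2.D_block q hq M c t y hct hy

theorem D_block_val (q : ℕ) (hq : 2 ≤ q) (M c t : ℕ) (htq : t < q) (hct : c ≤ t) :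
    D q t (c * q ^ M) = ∑ i ∈ range c, R M (t - i) := N2.D_block_val q hq M c t htq hct

theorem D_succ_block (q : ℕ) (hq : 2 ≤ q) (M t y : ℕ) (htq : t + 1 < q)
    (hy : y ≤ (q - 1) * q ^ M) :
    D q (t+1) (q ^ M + y) = R M (t+1) + D q t y := N2.D_succ_block q hq M t y htq hy

theorem lt_of_R_add (q : ℕ) (hq : 2 ≤ q) (M t y : ℕ) (htq : t + 1 < q)
    (h : R M (t+1) + D q t y < R (M+1) (t+1)) :
    y < (q - 1) * q ^ M := N2.lt_of_R_add q hq M t y htq h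

theorem R_succ (M t : ℕ) : R (M+1) (t+1) = R M (t+1) + R (M+1) t := N2.R_succ M t

theorem WI (q : ℕ) (hq : 2 ≤ q) (n κ t x0 x1 : ℕ) (hκ : κ ≤ q) (h0 : x0 ≤ κ * q ^ n)
    (h1 : x1 ≤ κ * q ^ n) (h : κ * q ^ n ≤ x0 + x1) :
    D q t (κ * q ^ n) + D q t (x0 + x1 - κ * q ^ n) ≤ D q t x0 + D q t x1 :=
  N2.WI_of q hq (NIds_q q hq) n κ t x0 x1 hκ h0 h1 h

theorem D_split (q : ℕ) (hq : 2 ≤ q) (d F : ℕ) (hdq : d + 1 < q) (hF : ds q F ≤ d + 1) :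
    D q (d+1) F = D q (d+1) (F / q) + D q d F := N2.D_split q hq d F hdq hF

theorem NUM (q M d N u zH a F G : ℕ) (hd : 2 ≤ d) (hdq : d < q) (hM : 1 ≤ M)
    (hF : D q d F = N) (hFd : ds q F ≤ d) (hF1 : q ^ M ≤ F) (hF2 : F < q ^ (M+1))
    (huM : u < R M d) (huN : u ≤ N) (hzH : D q d (zH - pr q (M-1)) ≤ u)
    (hG : D q (d-1) G = N - u) (hGd : ds q G ≤ d - 1)
    (hz : pr q M + F + 1 ≤ zH + a) (hav : zH + a ≤ q * zH + 1) (ha : a ≤ G) :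
    G / q ^ M = F / q ^ M ∧ F / q ^ M ≤ d - 1 ∧ G < a + theta q d M (F / q ^ M) := by
  obtain ⟨m, rfl⟩ : ∃ m, M = m + 1 := ⟨M - 1, by omega⟩
  obtain ⟨e, rfl⟩ : ∃ e, d = e + 1 := ⟨d - 1, by omega⟩
  rw [Nat.add_sub_cancel] at hzH hG hGd ⊢
  exact N2.NUM_of q m e N u zH a F G (NIds_q q (by omega)) (by omega) hdq hF hFd hF1 hF2 huM huN
    hzH hG hGd hz hav ha

theorem THETA (q E M a n G Γ : ℕ) (hE : 1 ≤ E) (hEq : E < q) (hM : 2 ≤ M)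
    (h1 : cnt (W E q (M-1)) 0 (E-1) (a - (q-E)*Γ) ≤ n) (h2 : D q (E-1) (q^2*Γ) ≤ n)
    (hG : D q (E-1) G = n) (hGd : ds q G ≤ E - 1) (hG1 : q ^ M ≤ G) (hG2 : G < q ^ (M+1)) :
    a + theta q E M (G / q ^ M) ≤ G := N2.THETA q E M a n G Γ hE hEq hM h1 h2 hG hGd hG1 hG2

theorem THETA1 (q E a n G : ℕ) (hE : 1 ≤ E) (hEq : E < q)
    (h1 : cnt (ext id E) 0 (E-1) a ≤ n)
    (hG : D q (E-1) G = n) (hGd : ds q G ≤ E - 1) (hG1 : q ≤ G) (hG2 : G < q ^ 2) :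
    a + theta q E 1 (G / q) ≤ G := N2.THETA1 q E a n G hE hEq h1 hG hGd hG1 hG2

theorem D_le_cnt_E (q E s x : ℕ) (hE : 1 ≤ E) (hEq : E ≤ q) (hs : s < E) (hx : x ≤ q ^ 2) :
    D q s x ≤ cnt (ext id E) 0 s x := N2.D_le_cnt_E q E s x hE hEq hs hx

lemma ext_ds (q : ℕ) (hq : 2 ≤ q) : ext (ds q) q = ds q := by
  funext z
  exact (ds_eq hq z).symm

lemma NI_ds' (q : ℕ) (hq : 2 ≤ q) (lim : ℕ) : NI (ds q) q lim := by
  intro x k t hx _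
  rw [ext_ds q hq]
  exact NI_ds q hq x k t hx

end BDG
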