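import Mathlib
import Pool.Agent.helper88.BDG.N1
import Pool.Agent.helper88.BDG.N2
import Pool.Agent.helper88.BDG.Lin

/-!
Lower-bound construction for MP_c5c754_ag: a cone over a linear space plus an initial piece of the
next affine space, and its Hilbert function.
-/

namespace BDG
open Finset Module

namespace LB

section newton
variable {K B : Type*} [Field K] [CommRing B] [Algebra K B] {n : ℕ}

/-- one-variable Newton polynomial -/
def nw (e : ℕ → K) (k : ℕ) (s : B) : B := ∏ j ∈ range k, (s - algebraMap K B (e j))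

lemma nw_succ (e : ℕ → K) (k : ℕ) (s : B) :
    nw e (k + 1) s = nw e k s * (s - algebraMap K B (e k)) := Finset.prod_range_succ _ _

/-- Newton polynomial -/
def NW (e : ℕ → K) (x : Fin n → B) (α : Fin n → ℕ) : B := ∏ i, nw e (α i) (x i)

lemma NW_update (e : ℕ → K) (x : Fin n → B) (α : Fin n → ℕ) (i : Fin n) :
    NW e x (Function.update α i (α i + 1)) = NW e x α * (x i - algebraMap K B (e (α i))) := by
  unfold NW
  rw [← Finset.mul_prod_erase univ (fun l => nw e (Function.update α i (α i + 1) l) (x l))
    (mem_univ i), ← Finset.mul_prod_erase univ (fun l => nw e (α l) (x l)) (mem_univ i)]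
  have h1 : ∏ l ∈ univ.erase i, nw e (Function.update α i (α i + 1) l) (x l) =
      ∏ l ∈ univ.erase i, nw e (α l) (x l) := by
    refine Finset.prod_congr rfl fun l hl => ?_
    rw [Function.update_of_ne (Finset.ne_of_mem_erase hl)]
  rw [h1, Function.update_self, nw_succ]
  ring

lemma sum_update_succ (α : Fin n → ℕ) (i : Fin n) :
    ∑ l, Function.update α i (α i + 1) l = ∑ l, α l + 1 := by
  rw [← Finset.add_sum_erase univ (fun l => Function.update α i (α i + 1) l) (mem_univ i),
    ← Finset.add_sum_erase univ (fun l => α l) (mem_univ i)]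
  have h1 : ∑ l ∈ univ.erase i, Function.update α i (α i + 1) l = ∑ l ∈ univ.erase i, α l := by
    refine Finset.sum_congr rfl fun l hl => ?_
    rw [Function.update_of_ne (Finset.ne_of_mem_erase hl)]
  rw [h1, Function.update_self]
  ring

/-- the Newton polynomials of degree at most `t` -/
def NS (e : ℕ → K) (x : Fin n → B) (t : ℕ) : Set B := {b | ∃ α : Fin n → ℕ, ∑ i, α i ≤ t ∧ NW e x α = b}

lemma span_pow_le (e : ℕ → K) (x : Fin n → B) (t : ℕ) :
    (Submodule.span K ({1} ∪ Set.range x)) ^ t ≤ Submodule.span K (NS e x t) := by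
  induction t with
  | zero =>
    rw [pow_zero, Submodule.one_eq_span, Submodule.span_le, Set.singleton_subset_iff]
    refine Submodule.subset_span ⟨fun _ => 0, by simp, ?_⟩
    simp [NW, nw]
  | succ t ih =>
    rw [pow_succ]
    refine (mul_le_mul' ih le_rfl).trans ?_
    rw [Submodule.span_mul_span, Submodule.span_le]
    rintro _ ⟨_, ⟨α, hα, rfl⟩, y, hy, rfl⟩
    simp only [SetLike.mem_coe]
    rcases hy with hy | ⟨i, rfl⟩
    · rw [Set.mem_singleton_iff.1 hy, mul_one]
      exact Submodule.subset_span ⟨α, by omega, rfl⟩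
    · have e1 : NW e x α * x i = NW e x (Function.update α i (α i + 1)) + e (α i) • NW e x α := by
        rw [NW_update, Algebra.smul_def]
        ring
      rw [e1]
      refine Submodule.add_mem _ (Submodule.subset_span ⟨_, ?_, rfl⟩)
        (Submodule.smul_mem _ _ (Submodule.subset_span ⟨α, by omega, rfl⟩))
      rw [sum_update_succ]
      omega

end newton

section split
variable {K A : Type*} [Field K] [CommRing A] [Algebra K A]

lemma pow_succ_le (L L' : Submodule K A) (v : A) (hLL : L = L' ⊔ Submodule.span K {v}) (s : ℕ) :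
    L ^ (s + 1) ≤ L' ^ (s + 1) ⊔ (L ^ s).map (LinearMap.mulLeft K v) := by
  induction s with
  | zero =>
    rw [zero_add, pow_one, pow_one, pow_zero, hLL]
    refine sup_le_sup le_rfl ?_
    rw [Submodule.span_le, Set.singleton_subset_iff]
    exact ⟨1, Submodule.one_le.1 le_rfl, by simp⟩
  | succ s ihs =>
    rw [pow_succ L (s + 1)]
    calc L ^ (s + 1) * L ≤ (L' ^ (s + 1) ⊔ (L ^ s).map (LinearMap.mulLeft K v)) * L :=
          mul_le_mul' ihs le_rfl
      _ ≤ L' ^ (s + 1 + 1) ⊔ (L ^ (s + 1)).map (LinearMap.mulLeft K v) := by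
          rw [Submodule.sup_mul]
          refine sup_le ?_ ?_
          · nth_rewrite 1 [hLL]
            rw [Submodule.mul_sup]
            refine sup_le ?_ ?_
            · rw [← pow_succ]; exact le_sup_left
            · refine le_trans ?_ le_sup_right
              rw [Submodule.mul_le]
              intro m hm n hn
              obtain ⟨c, rfl⟩ := Submodule.mem_span_singleton.1 hn
              refine ⟨c • m, ?_, ?_⟩
              · refine Submodule.smul_mem _ _ ?_
                have hle : L' ≤ L := by rw [hLL]; exact le_sup_left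
                exact pow_le_pow_left' hle _ hm
              · simp [mul_comm]
          · refine le_trans ?_ le_sup_right
            rw [Submodule.mul_le]
            rintro _ ⟨m, hm, rfl⟩ n hn
            refine ⟨m * n, ?_, ?_⟩
            · rw [pow_succ]; exact Submodule.mul_mem_mul hm hn
            · simp [mul_assoc]

end split

section homog
variable {F V : Type*} [Field F] [AddCommGroup V] [Module F V]

lemma Lf_smul (t : ℕ) : ∀ g ∈ (Lf F F V) ^ t, ∀ (c : F) (v : V), g (c • v) = c ^ t * g v := by
  induction t with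
  | zero =>
    intro g hg c v
    rw [pow_zero, Submodule.one_eq_span, Submodule.mem_span_singleton] at hg
    obtain ⟨a, rfl⟩ := hg
    simp
  | succ t ih =>
    intro g hg c v
    rw [pow_succ] at hg
    refine Submodule.mul_induction_on hg ?_ ?_
    · intro a ha b hb
      have hb' : b (c • v) = c * b v := by
        have : Lf F F V ≤ Submodule.span F (Set.range (fn F (F := F) (V := V))) := le_rfl
        refine Submodule.span_induction (p := fun b _ => b (c • v) = c * b v) ?_ ?_ ?_ ?_ (this hb)
        · rintro _ ⟨φ, rfl⟩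
          simp
        · simp
        · intro x y _ _ hx hy
          simp only [Pi.add_apply, hx, hy]
          ring
        · intro a x _ hx
          simp only [Pi.smul_apply, smul_eq_mul, hx]
          ring
      rw [Pi.mul_apply, Pi.mul_apply, ih a ha, hb']
      ring
    · intro x y hx hy
      simp only [Pi.add_apply, hx, hy]
      ring

end homog

section digits

/-- the number with given digits -/
def zz (q : ℕ) {n : ℕ} (α : Fin n → ℕ) : ℕ := ∑ i, α i * q ^ (i : ℕ)

lemma zz_succ (q : ℕ) {n : ℕ} (α : Fin (n + 1) → ℕ) :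
    zz q α = q * zz q (fun i => α i.succ) + α 0 := by
  unfold zz
  rw [Fin.sum_univ_succ, Finset.mul_sum, add_comm]
  congr 1
  · refine Finset.sum_congr rfl fun i _ => ?_
    rw [Fin.val_succ, pow_succ]
    ring
  · simp

lemma ds_zz {q : ℕ} (hq : 2 ≤ q) : ∀ (n : ℕ) (α : Fin n → ℕ), (∀ i, α i < q) →
    ds q (zz q α) = ∑ i, α i := by
  intro n
  induction n with
  | zero => intro α _; simp [zz, ds]
  | succ n ih =>
    intro α hα
    rw [ds_eq hq, zz_succ, Nat.mul_add_div (by omega), Nat.div_eq_of_lt (hα 0), add_zero,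
      Nat.mul_add_mod, Nat.mod_eq_of_lt (hα 0), ih _ (fun i => hα _), Fin.sum_univ_succ, add_comm]

lemma zz_inj {q : ℕ} (hq : 2 ≤ q) : ∀ (n : ℕ) (α β : Fin n → ℕ), (∀ i, α i < q) → (∀ i, β i < q) →
    zz q α = zz q β → α = β := by
  intro n
  induction n with
  | zero => intro α β _ _ _; exact Subsingleton.elim _ _
  | succ n ih =>
    intro α β hα hβ h
    rw [zz_succ, zz_succ] at h
    have h0 : α 0 = β 0 := by
      have := congrArg (· % q) h
      simpa [Nat.mul_add_mod, Nat.mod_eq_of_lt (hα 0), Nat.mod_eq_of_lt (hβ 0)] using this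
    have h1 : zz q (fun i => α i.succ) = zz q (fun i => β i.succ) := by
      rw [h0] at h
      exact Nat.eq_of_mul_eq_mul_left (by omega) (Nat.add_right_cancel h)
    have h2 := ih _ _ (fun i => hα _) (fun i => hβ _) h1
    funext i
    refine Fin.cases h0 (fun j => ?_) i
    exact congrFun h2 j

lemma zz_lt {q : ℕ} : ∀ (n : ℕ) (α : Fin n → ℕ), (∀ i, α i < q) →
    zz q α < q ^ n := by
  intro n
  induction n with
  | zero => intro α _; simp [zz]
  | succ n ih =>
    intro α hα
    rw [zz_succ, pow_succ]
    have h1 := ih _ (fun i => hα i.succ)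
    have h2 := hα 0
    calc q * zz q (fun i => α i.succ) + α 0 < q * zz q (fun i => α i.succ) + q := by omega
      _ = q * (zz q (fun i => α i.succ) + 1) := by ring
      _ ≤ q * q ^ n := Nat.mul_le_mul_left _ h1
      _ = q ^ n * q := by ring

/-- digit vectors of the numbers below `y` -/
def bx (q n y : ℕ) : Finset (Fin n → ℕ) :=
  (Fintype.piFinset fun _ : Fin n => range q).filter fun α => zz q α < y

lemma mem_bx {q n y : ℕ} {α : Fin n → ℕ} : α ∈ bx q n y ↔ (∀ i, α i < q) ∧ zz q α < y := by
  simp [bx]

lemma card_bx {q : ℕ} (hq : 2 ≤ q) {n y : ℕ} (hy : y ≤ q ^ n) : #(bx q n y) = y := by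
  have himg : (Fintype.piFinset fun _ : Fin n => range q).image (zz q) = range (q ^ n) := by
    refine Finset.eq_of_subset_of_card_le ?_ ?_
    · intro z hz
      obtain ⟨α, hα, rfl⟩ := Finset.mem_image.1 hz
      rw [Fintype.mem_piFinset] at hα
      exact Finset.mem_range.2 (zz_lt n α fun i => Finset.mem_range.1 (hα i))
    · rw [Finset.card_image_of_injOn, Fintype.card_piFinset]
      · simp
      · intro α hα β hβ h
        rw [Finset.mem_coe, Fintype.mem_piFinset] at hα hβ
        exact zz_inj hq n α β (fun i => Finset.mem_range.1 (hα i))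
          (fun i => Finset.mem_range.1 (hβ i)) h
  have h1 : (bx q n y).image (zz q) = range y := by
    ext z
    rw [Finset.mem_image, Finset.mem_range]
    constructor
    · rintro ⟨α, hα, rfl⟩
      exact (mem_bx.1 hα).2
    · intro hz
      have : z ∈ (Fintype.piFinset fun _ : Fin n => range q).image (zz q) := by
        rw [himg, Finset.mem_range]; omega
      obtain ⟨α, hα, rfl⟩ := Finset.mem_image.1 this
      exact ⟨α, Finset.mem_filter.2 ⟨hα, hz⟩, rfl⟩
  have h2 := Finset.card_image_of_injOn (s := bx q n y) (f := zz q) (by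
    intro α hα β hβ h
    exact zz_inj hq n α β (mem_bx.1 hα).1 (mem_bx.1 hβ).1 h)
  rw [← h2, h1, Finset.card_range]

lemma card_bx_le {q : ℕ} (hq : 2 ≤ q) (n y t : ℕ) :
    #((bx q n y).filter fun α => ∑ i, α i ≤ t) ≤ D q t y := by
  unfold D cnt
  rw [Nat.count_eq_card_filter_range]
  refine Finset.card_le_card_of_injOn (zz q) ?_ ?_
  · intro α hα
    rw [Finset.mem_coe, Finset.mem_filter] at hα
    obtain ⟨h1, h2⟩ := mem_bx.1 hα.1
    rw [Finset.mem_coe, Finset.mem_filter, Finset.mem_range, ds_zz hq n α h1]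
    exact ⟨h2, by simpa using hα.2⟩
  · intro α hα β hβ h
    rw [Finset.mem_coe, Finset.mem_filter] at hα hβ
    exact zz_inj hq n α β (mem_bx.1 hα.1).1 (mem_bx.1 hβ.1).1 h

end digits

section main
variable {F : Type*} [Field F] [Fintype F]

variable (F) in
/-- enumeration of the field -/
noncomputable def en (j : ℕ) : F :=
  if h : j < Fintype.card F then (Fintype.equivFin F).symm ⟨j, h⟩ else 0

lemma en_inj {i j : ℕ} (hi : i < Fintype.card F) (hj : j < Fintype.card F)
    (h : en F i = en F j) : i = j := by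
  unfold en at h
  rw [dif_pos hi, dif_pos hj] at h
  have := (Fintype.equivFin F).symm.injective h
  simpa using this

lemma en_surj (s : F) : ∃ j, j < Fintype.card F ∧ en F j = s := by
  refine ⟨(Fintype.equivFin F s : ℕ), (Fintype.equivFin F s).2, ?_⟩
  unfold en
  rw [dif_pos (Fintype.equivFin F s).2]
  simp

lemma nw_en_zero {j k : ℕ} (h : j < k) : nw (B := F) (en F) k (en F j) = 0 := by
  unfold nw
  exact Finset.prod_eq_zero (Finset.mem_range.2 h) (by simp)

lemma nw_zero {k : ℕ} (h : Fintype.card F ≤ k) (s : F) : nw (B := F) (en F) k s = 0 := by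
  obtain ⟨j, hj, rfl⟩ := en_surj s
  exact nw_en_zero (by omega)

omit [Fintype F] in
lemma NW_apply {ι : Type*} {n : ℕ} (e : ℕ → F) (x : Fin n → ι → F) (α : Fin n → ℕ) (a : ι) :
    NW e x α a = ∏ i, nw (B := F) e (α i) (x i a) := by
  unfold NW nw
  rw [Finset.prod_apply]
  refine Finset.prod_congr rfl fun i _ => ?_
  rw [Finset.prod_apply]
  rfl

/-- the space of the construction -/
abbrev WW (F : Type*) (n : ℕ) := (Fin n → F) × F

/-- coordinate functions -/
def xf {n : ℕ} (i : Fin n) : WW F n → F := fun w => w.1 i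

/-- the last coordinate -/
def lf {n : ℕ} : WW F n → F := fun w => w.2

omit [Fintype F] in
lemma xf_eq {n : ℕ} (i : Fin n) :
    (xf i : WW F n → F) = fn F ((LinearMap.proj i).comp (LinearMap.fst F (Fin n → F) F)) := rfl

omit [Fintype F] in
lemma lf_eq {n : ℕ} : (lf : WW F n → F) = fn F (LinearMap.snd F (Fin n → F) F) := rfl

omit [Fintype F] in
lemma Lf_eq {n : ℕ} : Lf F F (WW F n) =
    Submodule.span F (Set.range (xf : Fin n → WW F n → F)) ⊔ Submodule.span F {lf} := by
  classical
  refine le_antisymm ?_ ?_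
  · refine Submodule.span_le.2 ?_
    rintro _ ⟨φ, rfl⟩
    have h : fn F φ = ∑ i, φ (Pi.single i 1, 0) • xf i + φ (0, 1) • lf := by
      funext w
      obtain ⟨a, s⟩ := w
      have e1 : ((a, s) : WW F n) = ∑ i, a i • ((Pi.single i 1, 0) : WW F n) + s • (0, 1) := by
        refine Prod.ext ?_ ?_
        · funext l
          simp [Prod.fst_sum, Finset.sum_apply, Pi.single_apply]
        · simp [Prod.snd_sum]
      rw [Pi.add_apply, Finset.sum_apply, fn_apply]
      conv_lhs => rw [e1, map_add, map_sum, map_smul]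
      simp only [map_smul, smul_eq_mul, Pi.smul_apply, xf, lf, Algebra.algebraMap_self,
        RingHom.id_apply]
      congr 1
      · refine Finset.sum_congr rfl fun i _ => ?_
        ring
      · ring
    rw [SetLike.mem_coe, h]
    refine Submodule.add_mem _ (Submodule.sum_mem _ fun i _ => Submodule.smul_mem _ _ ?_)
      (Submodule.smul_mem _ _ ?_)
    · exact Submodule.mem_sup_left (Submodule.subset_span ⟨i, rfl⟩)
    · exact Submodule.mem_sup_right (Submodule.mem_span_singleton_self _)
  · refine sup_le (Submodule.span_le.2 ?_) (Submodule.span_le.2 ?_)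
    · rintro _ ⟨i, rfl⟩
      rw [xf_eq]
      exact fn_mem _
    · rw [Set.singleton_subset_iff, lf_eq]
      exact fn_mem _

variable [DecidableEq F]

variable (F) in
/-- the initial piece of affine space -/
noncomputable def AA (n y : ℕ) : Finset (Fin n → F) :=
  (bx (Fintype.card F) n y).image fun α i => en F (α i)

lemma card_AA {n y : ℕ} (hy : y ≤ Fintype.card F ^ n) : #(AA F n y) = y := by
  have hq : 2 ≤ Fintype.card F := Fintype.one_lt_card
  unfold AA
  rw [Finset.card_image_of_injOn, card_bx hq hy]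
  intro α hα β hβ h
  funext i
  exact en_inj ((mem_bx.1 hα).1 i) ((mem_bx.1 hβ).1 i) (congrFun h i)

variable (F) in
/-- its lift to the hyperplane where the last coordinate is one -/
noncomputable def AL (n y : ℕ) : Finset (WW F n) := (AA F n y).image fun a => (a, 1)

lemma Hs_AL (n y t : ℕ) : Hs (Lf F F (WW F n)) (AL F n y) t ≤ D (Fintype.card F) t y := by
  have hq : 2 ≤ Fintype.card F := Fintype.one_lt_card
  set x : Fin n → (AL F n y → F) := fun i => res F (AL F n y) (xf i) with hx
  have h1 : (Lf F F (WW F n)).map (res F (AL F n y)).toLinearMap ≤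
      Submodule.span F ({1} ∪ Set.range x) := by
    rw [Lf_eq, Submodule.map_sup, Submodule.map_span, Submodule.map_span]
    refine sup_le (Submodule.span_le.2 ?_) (Submodule.span_le.2 ?_)
    · rintro _ ⟨_, ⟨i, rfl⟩, rfl⟩
      exact Submodule.subset_span (Or.inr ⟨i, rfl⟩)
    · rintro _ ⟨_, rfl, rfl⟩
      refine Submodule.subset_span (Or.inl ?_)
      rw [Set.mem_singleton_iff]
      funext a
      obtain ⟨a, ha⟩ := a
      obtain ⟨b, _, rfl⟩ := Finset.mem_image.1 ha
      rfl
  unfold Hs
  rw [Submodule.map_pow]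
  have h2 := (pow_le_pow_left' h1 t).trans (span_pow_le (en F) x t)
  set G := (bx (Fintype.card F) n y).filter fun α => ∑ i, α i ≤ t with hG
  have h3 : Submodule.span F (NS (en F) x t) ≤
      Submodule.span F (G.image (NW (en F) x) : Finset (AL F n y → F)) := by
    refine Submodule.span_le.2 ?_
    rintro _ ⟨α, hα, rfl⟩
    by_cases hαG : α ∈ bx (Fintype.card F) n y
    · refine Submodule.subset_span ?_
      rw [Finset.mem_coe]
      exact Finset.mem_image_of_mem _ (Finset.mem_filter.2 ⟨hαG, hα⟩)
    · have h0 : NW (en F) x α = 0 := by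
        funext a
        obtain ⟨a, ha⟩ := a
        obtain ⟨b, hb, rfl⟩ := Finset.mem_image.1 ha
        obtain ⟨β, hβ, rfl⟩ := Finset.mem_image.1 hb
        obtain ⟨hβ1, hβ2⟩ := mem_bx.1 hβ
        have hex : ∃ i, β i < α i := by
          by_contra hcon
          push Not at hcon
          refine hαG (mem_bx.2 ⟨fun i => (hcon i).trans_lt (hβ1 i), lt_of_le_of_lt ?_ hβ2⟩)
          exact Finset.sum_le_sum fun i _ => Nat.mul_le_mul_right _ (hcon i)
        obtain ⟨i, hi⟩ := hex
        rw [NW_apply]
        exact Finset.prod_eq_zero (Finset.mem_univ i) (nw_en_zero hi)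
      rw [h0]
      exact Submodule.zero_mem _
  refine (Submodule.finrank_mono (h2.trans h3)).trans ?_
  refine (finrank_span_finset_le_card _).trans (Finset.card_image_le.trans ?_)
  exact card_bx_le hq n y t

variable (F) in
/-- the cone over the linear space at infinity -/
def X1 (n : ℕ) : Finset (WW F n) := ((univ : Finset (Fin n → F)).erase 0).image fun a => (a, 0)

variable (F) in
/-- the cone over the initial piece -/
noncomputable def X2 (n y : ℕ) : Finset (WW F n) :=
  (((univ : Finset F).erase 0) ×ˢ AA F n y).image fun p => (p.1 • p.2, p.1)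

variable (F) in
/-- the construction -/
noncomputable def XX (n y : ℕ) : Finset (WW F n) := X1 F n ∪ X2 F n y

lemma card_X1 (n : ℕ) : #(X1 F n) = Fintype.card F ^ n - 1 := by
  unfold X1
  rw [Finset.card_image_of_injective, Finset.card_erase_of_mem (mem_univ _), Finset.card_univ,
    Fintype.card_fun, Fintype.card_fin]
  intro a b h
  exact congrArg Prod.fst h

lemma card_X2 {n y : ℕ} (hy : y ≤ Fintype.card F ^ n) :
    #(X2 F n y) = (Fintype.card F - 1) * y := by
  unfold X2
  rw [Finset.card_image_of_injOn, Finset.card_product, Finset.card_erase_of_mem (mem_univ _),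
    Finset.card_univ, card_AA hy]
  rintro ⟨c, a⟩ h1 ⟨c', a'⟩ _ h
  have hc : c = c' := congrArg Prod.snd h
  subst hc
  have hc0 : c ≠ 0 := by
    rw [Finset.mem_coe, Finset.mem_product] at h1
    exact Finset.ne_of_mem_erase h1.1
  have ha : c • a = c • a' := congrArg Prod.fst h
  rw [smul_right_injective _ hc0 ha]

lemma disj (n y : ℕ) : Disjoint (X1 F n) (X2 F n y) := by
  rw [Finset.disjoint_left]
  intro w h1 h2
  obtain ⟨a, _, rfl⟩ := Finset.mem_image.1 h1
  obtain ⟨p, hp, h⟩ := Finset.mem_image.1 h2
  exact Finset.ne_of_mem_erase (Finset.mem_product.1 hp).1 (congrArg Prod.snd h)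

lemma card_XX {n y : ℕ} (hy : y ≤ Fintype.card F ^ n) :
    #(XX F n y) = Fintype.card F ^ n - 1 + (Fintype.card F - 1) * y := by
  unfold XX
  rw [Finset.card_union_of_disjoint (disj n y), card_X1, card_X2 hy]

lemma isCone_XX (n y : ℕ) : IsCone F (XX F n y) := by
  constructor
  · intro h
    rcases Finset.mem_union.1 h with h | h
    · obtain ⟨a, ha, h0⟩ := Finset.mem_image.1 h
      exact Finset.ne_of_mem_erase ha (congrArg Prod.fst h0)
    · obtain ⟨p, hp, h0⟩ := Finset.mem_image.1 h
      exact Finset.ne_of_mem_erase (Finset.mem_product.1 hp).1 (congrArg Prod.snd h0)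
  · intro c hc x hx
    rcases Finset.mem_union.1 hx with h | h
    · obtain ⟨a, ha, rfl⟩ := Finset.mem_image.1 h
      refine Finset.mem_union_left _ (Finset.mem_image.2 ⟨c • a, ?_, ?_⟩)
      · exact Finset.mem_erase.2 ⟨smul_ne_zero hc (Finset.ne_of_mem_erase ha), mem_univ _⟩
      · ext1 <;> simp
    · obtain ⟨p, hp, rfl⟩ := Finset.mem_image.1 h
      obtain ⟨hp1, hp2⟩ := Finset.mem_product.1 hp
      refine Finset.mem_union_right _ (Finset.mem_image.2 ⟨(c * p.1, p.2), ?_, ?_⟩)
      · exact Finset.mem_product.2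
          ⟨Finset.mem_erase.2 ⟨mul_ne_zero hc (Finset.ne_of_mem_erase hp1), mem_univ _⟩, hp2⟩
      · ext1
        · simp [mul_smul]
        · simp

instance fdLf (n : ℕ) : FiniteDimensional F ↥(Lf F F (WW F n)) := by
  rw [Lf_eq_span (Module.finBasis F (WW F n))]
  exact FiniteDimensional.span_of_finite F (Set.finite_range _)

lemma Hs_XX (M y t : ℕ) : Hs (Lf F F (WW F (M + 1))) (XX F (M + 1) y) (t + 1) ≤
    R M (t + 1) + D (Fintype.card F) t y := by
  set L := Lf F F (WW F (M + 1)) with hL
  set L' : Submodule F (WW F (M + 1) → F) := Submodule.span F (Set.range xf) with hL'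
  set X := XX F (M + 1) y with hX
  have h1 := pow_succ_le L L' lf Lf_eq t
  have hfd' : FiniteDimensional F L' := FiniteDimensional.span_of_finite F (Set.finite_range _)
  have h2 : finrank F ↥(L' ^ (t + 1)) ≤ R M (t + 1) := by
    have := finrank_pow_le (M + 1) (t + 1) xf L' rfl
    refine this.trans (le_of_eq ?_)
    unfold R
    congr 1
    omega
  have h3 : finrank F ↥(((L ^ t).map (LinearMap.mulLeft F lf)).map (res F X).toLinearMap) ≤
      D (Fintype.card F) t y := by
    refine le_trans ?_ (Hs_AL (M + 1) y t)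
    unfold Hs
    rw [← Submodule.map_comp]
    refine finrank_map_le_of_ker (L ^ t) (res F (AL F (M + 1) y)).toLinearMap _ ?_
    intro g hg h0
    have h0' : res F (AL F (M + 1) y) g = 0 := h0
    show res F X (lf * g) = 0
    rw [res_eq_zero] at h0' ⊢
    intro w hw
    rcases Finset.mem_union.1 hw with h | h
    · obtain ⟨a, _, rfl⟩ := Finset.mem_image.1 h
      simp [lf]
    · obtain ⟨p, hp, rfl⟩ := Finset.mem_image.1 h
      obtain ⟨_, hp2⟩ := Finset.mem_product.1 hp
      have e1 : ((p.1 • p.2, p.1) : WW F (M + 1)) = p.1 • (p.2, 1) := by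
        ext1 <;> simp
      rw [Pi.mul_apply, e1, Lf_smul t g hg, h0' _ (Finset.mem_image_of_mem _ hp2)]
      simp
  unfold Hs
  calc finrank F ↥((L ^ (t + 1)).map (res F X).toLinearMap)
      ≤ finrank F ↥((L' ^ (t + 1)).map (res F X).toLinearMap ⊔
          ((L ^ t).map (LinearMap.mulLeft F lf)).map (res F X).toLinearMap) := by
        rw [← Submodule.map_sup]
        exact Submodule.finrank_mono (Submodule.map_mono h1)
    _ ≤ _ := Submodule.finrank_add_le_finrank_add_finrank _ _
    _ ≤ R M (t + 1) + D (Fintype.card F) t y :=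
        add_le_add ((Submodule.finrank_map_le _ _).trans h2) h3

end main

end LB

lemma pr_succ_mul {q : ℕ} (hq : 1 ≤ q) (M : ℕ) : (q - 1) * pr q M = q ^ M - 1 := by
  obtain ⟨p, rfl⟩ : ∃ p, q = p + 1 := ⟨q - 1, by omega⟩
  unfold pr
  rw [Nat.add_sub_cancel]
  have h : p * ∑ i ∈ range M, (p + 1) ^ i + 1 = (p + 1) ^ M := by
    induction M with
    | zero => simp
    | succ M ih =>
      rw [Finset.sum_range_succ, mul_add, pow_succ]
      have : p * ∑ i ∈ range M, (p + 1) ^ i + 1 + p * (p + 1) ^ M = (p + 1) ^ M * (p + 1) := by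
        rw [ih]; ring
      omega
  omega

theorem lower_set {F : Type*} [Field F] [Fintype F] [DecidableEq F] (m M d F0 : ℕ) (hd : 1 ≤ d)
    (hdq : d < Fintype.card F) (hM : M + 1 ≤ m) (h1 : Fintype.card F ^ M ≤ F0)
    (h2 : F0 < Fintype.card F ^ (M+1)) :
    ∃ X : Finset (Fin (m+1) → F), IsCone F X ∧
      #X = (Fintype.card F - 1) * (pr (Fintype.card F) M + F0) ∧
      Hs (Lf F F (Fin (m+1) → F)) X d ≤ D (Fintype.card F) d F0 := by
  have hq : 2 ≤ Fintype.card F := Fintype.one_lt_card
  obtain ⟨t, rfl⟩ : ∃ t, d = t + 1 := ⟨d - 1, by omega⟩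
  obtain ⟨y, rfl⟩ : ∃ y, F0 = Fintype.card F ^ M + y := ⟨F0 - Fintype.card F ^ M, by omega⟩
  have hy : y ≤ (Fintype.card F - 1) * Fintype.card F ^ M := by
    rw [Nat.sub_mul, one_mul, ← pow_succ']
    omega
  have hy' : y ≤ Fintype.card F ^ (M + 1) := by omega
  -- an injective linear map
  obtain ⟨ι, hι⟩ : ∃ ι : LB.WW F (M + 1) →ₗ[F] (Fin (m + 1) → F), Function.Injective ι := by
    let g : Fin (m + 1) → Fin (M + 2) := fun j => ⟨min j (M + 1), by omega⟩
    have hg : Function.Surjective g := by
      intro k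
      refine ⟨⟨k, by omega⟩, ?_⟩
      ext
      simp only [g]
      omega
    have hfr : finrank F (LB.WW F (M + 1)) = finrank F (Fin (M + 2) → F) := by
      rw [Module.finrank_prod, Module.finrank_fin_fun, Module.finrank_fin_fun, Module.finrank_self]
    let e := LinearEquiv.ofFinrankEq _ _ hfr
    exact ⟨(LinearMap.funLeft F F g).comp e.toLinearMap,
      (LinearMap.funLeft_injective_of_surjective F F g hg).comp e.injective⟩
  refine ⟨(LB.XX F (M + 1) y).image ι, ?_, ?_, ?_⟩
  · have hc := LB.isCone_XX (F := F) (M + 1) y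
    constructor
    · intro h
      obtain ⟨x, hx, h0⟩ := Finset.mem_image.1 h
      rw [← map_zero ι] at h0
      rw [hι h0] at hx
      exact hc.zero hx
    · intro c hc0 x hx
      obtain ⟨w, hw, rfl⟩ := Finset.mem_image.1 hx
      rw [← map_smul]
      exact Finset.mem_image_of_mem _ (hc.smul c hc0 w hw)
  · rw [Finset.card_image_of_injective _ hι, LB.card_XX hy', ← pr_succ_mul (by omega) (M + 1)]
    have e : pr (Fintype.card F) (M + 1) = pr (Fintype.card F) M + Fintype.card F ^ M :=
      Finset.sum_range_succ _ _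
    rw [e]
    ring
  · rw [← Hs_image_inj ι hι]
    refine (LB.Hs_XX M y t).trans (le_of_eq ?_)
    rw [D_succ_block _ hq M t y hdq hy]

end BDG
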