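import Mathlib

/-!
Gauss lemma consequence: polynomials without common factor generate a nonzero element of the
coefficient ring.
-/

namespace BDG
open Polynomial

theorem gauss_aux {R : Type*} [CommRing R] [IsDomain R] [UniqueFactorizationMonoid R]
    (J : Set R[X]) (h : ∀ f : R[X], (∀ g ∈ J, f ∣ g) → IsUnit f) :
    ∃ r : R, r ≠ 0 ∧ C r ∈ Ideal.span J := by
  classical
  have hG : IsGCDMonoid R := by
    let _g : GCDMonoid R := UniqueFactorizationMonoid.toGCDMonoid R
    infer_instance
  obtain ⟨_i⟩ : Nonempty (NormalizedGCDMonoid R) := inferInstance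
  let Q := FractionRing R
  let φ : R →+* Q := algebraMap R Q
  have hφ : Function.Injective φ := IsFractionRing.injective R Q
  let I : Ideal Q[X] := Ideal.span ((fun g : R[X] => g.map φ) '' J)
  -- clearing denominators
  have clear : ∀ p ∈ I, ∃ r : R, r ≠ 0 ∧ ∃ g ∈ Ideal.span J, C (φ r) * p = g.map φ := by
    intro p hp
    refine Submodule.span_induction (p := fun p _ => ∃ r : R, r ≠ 0 ∧
      ∃ g ∈ Ideal.span J, C (φ r) * p = g.map φ) ?_ ?_ ?_ ?_ hp
    · rintro _ ⟨g, hg, rfl⟩
      exact ⟨1, one_ne_zero, g, Ideal.subset_span hg, by simp⟩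
    · exact ⟨1, one_ne_zero, 0, Ideal.zero_mem _, by simp⟩
    · rintro a b _ _ ⟨r, hr, g, hg, hga⟩ ⟨s, hs, k, hk, hkb⟩
      refine ⟨r * s, mul_ne_zero hr hs, C s * g + C r * k,
        Ideal.add_mem _ (Ideal.mul_mem_left _ _ hg) (Ideal.mul_mem_left _ _ hk), ?_⟩
      rw [Polynomial.map_add, Polynomial.map_mul, Polynomial.map_mul, ← hga, ← hkb, map_C, map_C,
        map_mul, C_mul]
      ring
    · rintro a b _ ⟨r, hr, g, hg, hga⟩
      obtain ⟨s, hs, hsa⟩ := IsLocalization.integerNormalization_spec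
        (nonZeroDivisors R) (S := Q) a
      refine ⟨s * r, mul_ne_zero (nonZeroDivisors.ne_zero hs) hr,
        IsLocalization.integerNormalization (nonZeroDivisors R) a * g,
        Ideal.mul_mem_left _ _ hg, ?_⟩
      rw [Polynomial.map_mul, ← hga, hsa, map_mul, C_mul]
      have : (s : R) • a = C (φ s) * a := by
        rw [← smul_eq_C_mul]
        exact (algebraMap_smul Q s a).symm
      simp only [smul_eq_mul]
      rw [this]
      ring
  have hIP : I.IsPrincipal := IsPrincipalIdealRing.principal I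
  obtain ⟨d, hd⟩ := hIP
  have hdI : d ∈ I := by rw [hd]; exact Submodule.mem_span_singleton_self d
  have hdvd : ∀ g ∈ J, d ∣ g.map φ := by
    intro g hg
    have : g.map φ ∈ I := Ideal.subset_span ⟨g, hg, rfl⟩
    rw [hd] at this
    exact Ideal.mem_span_singleton.1 this
  have hd0 : d ≠ 0 := by
    rintro rfl
    have h1 : IsUnit (0 : R[X]) := by
      refine h 0 fun g hg => ?_
      have := zero_dvd_iff.1 (hdvd g hg)
      rw [Polynomial.map_eq_zero_iff hφ] at this
      rw [this]
    exact not_isUnit_zero h1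
  -- primitive integral version of d
  obtain ⟨s, hs, hsd⟩ := IsLocalization.integerNormalization_spec
        (nonZeroDivisors R) (S := Q) d
  set d' := IsLocalization.integerNormalization (nonZeroDivisors R) d with hd'
  have hs0 : φ s ≠ 0 := by
    rw [Ne, map_eq_zero_iff φ hφ]; exact nonZeroDivisors.ne_zero hs
  have hsd' : d'.map φ = C (φ s) * d := by
    rw [hsd, ← smul_eq_C_mul]
    exact (algebraMap_smul Q s d).symm
  have hd'0 : d' ≠ 0 := by
    intro h0
    rw [h0, Polynomial.map_zero] at hsd'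
    exact (mul_ne_zero (C_ne_zero.2 hs0) hd0) hsd'.symm
  have hpp : (d'.primPart).map φ ∣ d := by
    have h1 : (d'.primPart).map φ ∣ C (φ s) * d := by
      rw [← hsd']; exact Polynomial.map_dvd φ (primPart_dvd d')
    exact (IsUnit.dvd_mul_left (isUnit_C.2 (isUnit_iff_ne_zero.2 hs0))).1 h1
  have hunit : IsUnit d'.primPart := by
    refine h _ fun g hg => ?_
    by_cases hg0 : g = 0
    · rw [hg0]; exact dvd_zero _
    have h1 : (d'.primPart).map φ ∣ (g.primPart).map φ := by
      have h2 := hpp.trans (hdvd g hg)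
      rw [eq_C_content_mul_primPart g, Polynomial.map_mul, map_C] at h2
      refine (IsUnit.dvd_mul_left (isUnit_C.2 (isUnit_iff_ne_zero.2 ?_))).1 h2
      rw [Ne, map_eq_zero_iff φ hφ, content_eq_zero_iff]
      exact hg0
    exact ((isPrimitive_primPart d').dvd_of_fraction_map_dvd_fraction_map h1).trans
      (primPart_dvd g)
  have hdeg : d.natDegree = 0 := by
    have h1 : (d'.primPart).natDegree = 0 := natDegree_eq_zero_of_isUnit hunit
    rw [natDegree_primPart] at h1
    have h2 : (d'.map φ).natDegree = d'.natDegree := natDegree_map_eq_of_injective hφ d'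
    rw [hsd', natDegree_C_mul hs0, h1] at h2
    exact h2
  have h1I : (1 : Q[X]) ∈ I := by
    have h1 : IsUnit d := by
      rw [eq_C_of_natDegree_eq_zero hdeg]
      refine isUnit_C.2 (isUnit_iff_ne_zero.2 ?_)
      intro h0
      apply hd0
      rw [eq_C_of_natDegree_eq_zero hdeg, h0, C_0]
    rw [hd]
    exact Ideal.mem_span_singleton.2 h1.dvd
  obtain ⟨r, hr, g, hg, hrg⟩ := clear 1 h1I
  refine ⟨r, hr, ?_⟩
  have : C r = g := by
    apply Polynomial.map_injective φ hφ
    rw [map_C, ← hrg, mul_one]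
  rw [this]
  exact hg

theorem gauss {K : Type*} [Field K] {n : ℕ} (J : Set (MvPolynomial (Fin (n + 1)) K))
    (h : ∀ f, (∀ g ∈ J, f ∣ g) → IsUnit f) :
    ∃ r : MvPolynomial (Fin n) K, r ≠ 0 ∧ MvPolynomial.rename Fin.succ r ∈ Ideal.span J := by
  let e := MvPolynomial.finSuccEquiv K n
  obtain ⟨r, hr, hrJ⟩ := gauss_aux (e '' J) (by
    intro f hf
    have h1 : IsUnit (e.symm f) := by
      refine h _ fun g hg => ?_
      have h2 := hf (e g) ⟨g, hg, rfl⟩
      have h3 := map_dvd e.symm h2
      rwa [AlgEquiv.symm_apply_apply] at h3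
    have h4 := h1.map e
    rwa [AlgEquiv.apply_symm_apply] at h4)
  refine ⟨r, hr, ?_⟩
  have h1 : e (MvPolynomial.rename Fin.succ r) = C r := by
    have h2 : (e.toAlgHom.comp (MvPolynomial.rename Fin.succ)) =
        ((Polynomial.CAlgHom : MvPolynomial (Fin n) K →ₐ[MvPolynomial (Fin n) K]
          (MvPolynomial (Fin n) K)[X]).restrictScalars K) := by
      refine MvPolynomial.algHom_ext fun i => ?_
      show e (MvPolynomial.rename Fin.succ (MvPolynomial.X i)) = C (MvPolynomial.X i)
      rw [MvPolynomial.rename_X]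
      exact MvPolynomial.finSuccEquiv_X_succ
    exact DFunLike.congr_fun h2 r
  have h2 : ∀ z ∈ Ideal.span (e '' J), e.symm z ∈ Ideal.span J := by
    intro z hz
    refine Submodule.span_induction (p := fun z _ => e.symm z ∈ Ideal.span J) ?_ ?_ ?_ ?_ hz
    · rintro _ ⟨g, hg, rfl⟩
      rw [AlgEquiv.symm_apply_apply]
      exact Ideal.subset_span hg
    · rw [map_zero]; exact Ideal.zero_mem _
    · intro a b _ _ ha hb
      rw [map_add]; exact Ideal.add_mem _ ha hb
    · intro a b _ hb
      rw [smul_eq_mul, map_mul]; exact Ideal.mul_mem_left _ _ hb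
  have h3 := h2 _ hrJ
  rwa [← h1, AlgEquiv.symm_apply_apply] at h3

end BDG
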