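import Pool.Agent.helper88.BDG.NumDefs

/-!
Numerical part N1 of MP_c5c754_ag (layer inequalities).  Written by helper35.
-/

set_option autoImplicit false

namespace BDG
open Finset

/-! ## Section 0: basic facts -/

theorem ds_eq {q : ℕ} (hq : 2 ≤ q) (z : ℕ) : ds q z = ds q (z / q) + z % q := by
  rcases Nat.eq_zero_or_pos z with rfl | hz
  · simp [ds]
  · unfold ds
    rw [Nat.digits_eq_cons_digits_div (by omega) (by omega)]
    simp [Nat.add_comm]

theorem ds_lt {q : ℕ} (hq : 2 ≤ q) {z : ℕ} (hz : z < q) : ds q z = z := by
  rw [ds_eq hq, Nat.div_eq_of_lt hz, Nat.mod_eq_of_lt hz]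
  simp [ds]

theorem cnt_zero (w : ℕ → ℕ) (k t : ℕ) : cnt w k t 0 = 0 := by simp [cnt]

theorem cnt_succ (w : ℕ → ℕ) (k t x : ℕ) :
    cnt w k t (x + 1) = cnt w k t x + if w x + k ≤ t then 1 else 0 := by
  simp [cnt, Nat.count_succ]

theorem cnt_mono (w : ℕ → ℕ) (k t : ℕ) {x y : ℕ} (h : x ≤ y) : cnt w k t x ≤ cnt w k t y := by
  unfold cnt; exact Nat.count_monotone _ h

theorem cnt_le (w : ℕ → ℕ) (k t x : ℕ) : cnt w k t x ≤ x := by
  unfold cnt; exact Nat.count_le _

theorem cnt_add (w : ℕ → ℕ) (k t x y : ℕ) :
    cnt w k t (x + y) = cnt w k t x + cnt (fun z => w (x + z)) k t y := by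
  unfold cnt; rw [Nat.count_add]

theorem cnt_add_le (w : ℕ → ℕ) (k t x y : ℕ) : cnt w k t (x + y) ≤ cnt w k t x + y := by
  rw [cnt_add]; exact Nat.add_le_add_left (cnt_le _ _ _ _) _

theorem cnt_congr {w w' : ℕ → ℕ} {k k' t x : ℕ} (h : ∀ y < x, w y + k = w' y + k') :
    cnt w k t x = cnt w' k' t x := by
  induction x with
  | zero => simp [cnt_zero]
  | succ x ih =>
    rw [cnt_succ, cnt_succ, ih (fun y hy => h y (by omega)), h x (by omega)]

/-- counting with the identity weight -/
theorem cnt_id (k t x : ℕ) : cnt id k t x = min x (t + 1 - k) := by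
  induction x with
  | zero => simp [cnt_zero]
  | succ x ih =>
    rw [cnt_succ, ih]
    simp only [id, Nat.min_def]
    split_ifs <;> omega

theorem ceil_eq {b : ℕ} (x κ : ℕ) (hκ : κ < b) :
    (x + 1 + b - 1 - κ) / b = (x + b - 1 - κ) / b + if κ = x % b then 1 else 0 := by
  have hb : 0 < b := by omega
  have hx := Nat.div_add_mod x b
  have hlt := Nat.mod_lt x hb
  set y := x / b
  set m := x % b
  by_cases h : κ = m
  · rw [if_pos h]
    have e1 : x + 1 + b - 1 - κ = b * (y + 1) := by
      rw [Nat.mul_add, Nat.mul_one]; omega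
    have e2 : x + b - 1 - κ = b * y + (b - 1) := by omega
    rw [e1, e2, Nat.mul_div_cancel_left _ hb, Nat.mul_add_div hb,
      Nat.div_eq_of_lt (show b - 1 < b by omega)]
  · rw [if_neg h]
    rcases Nat.lt_or_ge κ m with h' | h'
    · have e1 : x + 1 + b - 1 - κ = b * (y + 1) + (m - κ) := by
        rw [Nat.mul_add, Nat.mul_one]; omega
      have e2 : x + b - 1 - κ = b * (y + 1) + (m - κ - 1) := by
        rw [Nat.mul_add, Nat.mul_one]; omega
      rw [e1, e2, Nat.mul_add_div hb, Nat.mul_add_div hb,
        Nat.div_eq_of_lt (show m - κ < b by omega),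
        Nat.div_eq_of_lt (show m - κ - 1 < b by omega)]
    · have e1 : x + 1 + b - 1 - κ = b * y + (b + m - κ) := by omega
      have e2 : x + b - 1 - κ = b * y + (b + m - κ - 1) := by omega
      rw [e1, e2, Nat.mul_add_div hb, Nat.mul_add_div hb,
        Nat.div_eq_of_lt (show b + m - κ < b by omega),
        Nat.div_eq_of_lt (show b + m - κ - 1 < b by omega)]

theorem ceil_self {b : ℕ} (x : ℕ) (hb : 1 ≤ b) : (x + b - 1 - x % b) / b = x / b := by
  have hb : 0 < b := by omega
  have hx := Nat.div_add_mod x b
  have hlt := Nat.mod_lt x hb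
  have e2 : x + b - 1 - x % b = b * (x / b) + (b - 1) := by omega
  rw [e2, Nat.mul_add_div hb, Nat.div_eq_of_lt (show b - 1 < b by omega)]
  rfl

theorem cnt_ext (w : ℕ → ℕ) {b : ℕ} (hb : 1 ≤ b) (k t x : ℕ) :
    cnt (ext w b) k t x = ∑ κ ∈ range b, cnt w (k + κ) t ((x + b - 1 - κ) / b) := by
  induction x with
  | zero =>
    rw [cnt_zero]
    symm
    apply Finset.sum_eq_zero
    intro κ hκ
    rw [mem_range] at hκ
    rw [Nat.div_eq_of_lt (by omega), cnt_zero]
  | succ x ih =>
    rw [cnt_succ, ih]
    have hm : x % b ∈ range b := mem_range.2 (Nat.mod_lt _ (by omega))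
    have key : ∀ κ ∈ range b, cnt w (k + κ) t ((x + 1 + b - 1 - κ) / b) =
        cnt w (k + κ) t ((x + b - 1 - κ) / b) +
          if κ = x % b then (if ext w b x + k ≤ t then 1 else 0) else 0 := by
      intro κ hκ
      rw [mem_range] at hκ
      rw [ceil_eq x κ hκ]
      by_cases h : κ = x % b
      · rw [if_pos h, if_pos h, cnt_succ]
        subst h
        rw [ceil_self x hb]
        unfold ext
        congr 1
        have : w (x / b) + (k + x % b) = w (x / b) + x % b + k := by ring
        rw [this]
      · rw [if_neg h, if_neg h, Nat.add_zero, Nat.add_zero]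
    rw [Finset.sum_congr rfl key, Finset.sum_add_distrib, Finset.sum_ite_eq' , if_pos hm]

/-! ## Section 1: two-dimensional inequalities -/

/-- the length of diagonal `r` of the box `p x q` -/
def box (q p r : ℕ) : ℕ := min p (r + 1) - (r + 1 - q)

theorem box_step (p q t : ℕ) :
    ∑ κ ∈ range q, min p (t + 1 - κ) = (∑ κ ∈ range q, min p (t - κ)) + box q p t := by
  induction q with
  | zero => simp [box]
  | succ q ih =>
    rw [Finset.sum_range_succ, Finset.sum_range_succ, ih]
    unfold box
    simp only [Nat.min_def]
    split_ifs <;> omega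

theorem box_sum (p q t : ℕ) : ∑ r ∈ range t, box q p r = ∑ κ ∈ range q, min p (t - κ) := by
  induction t with
  | zero => simp
  | succ t ih => rw [Finset.sum_range_succ, ih, box_step]

theorem box_sum_le (p q t : ℕ) : ∑ r ∈ range t, box q p r ≤ p * q := by
  rw [box_sum]
  calc ∑ κ ∈ range q, min p (t - κ) ≤ ∑ κ ∈ range q, p :=
        Finset.sum_le_sum (fun κ _ => min_le_left _ _)
    _ = p * q := by rw [Finset.sum_const, card_range, smul_eq_mul, Nat.mul_comm]

theorem cnt_box (p q t : ℕ) (hq : 1 ≤ q) :
    cnt (ext id q) 0 t (p * q) = ∑ r ∈ range (t + 1), box q p r := by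
  rw [cnt_ext id hq, box_sum]
  apply Finset.sum_congr rfl
  intro κ hκ
  rw [mem_range] at hκ
  rw [cnt_id]
  have e : p * q + q - 1 - κ = q * p + (q - 1 - κ) := by
    have := Nat.mul_comm p q
    omega
  rw [e, Nat.mul_add_div (by omega), Nat.div_eq_of_lt (show q - 1 - κ < q by omega)]
  simp

theorem box_le (q p r : ℕ) : box q p r ≤ r + 1 := by
  unfold box
  exact (Nat.sub_le _ _).trans (min_le_right _ _)

theorem HV (q : ℕ) (hq : 1 ≤ q) (δ : ℕ → ℕ) (h1 : ∀ r, δ r ≤ r + 1) (h2 : ∀ r, δ r ≤ r → δ (r+1) ≤ δ r)
    (h3 : ∀ r, q ≤ r + 1 → δ (r+1) ≤ δ r - 1) (t T : ℕ) :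
    cnt (ext id q) 0 t (∑ r ∈ range T, δ r) ≤ ∑ r ∈ range (t+1), δ r := by
  -- once at most r, the counts stay at most r and decrease
  have hdec : ∀ s, δ s ≤ s → ∀ r, s ≤ r → δ r ≤ δ s := by
    intro s hs r hr
    induction r, hr using Nat.le_induction with
    | base => exact le_rfl
    | succ r hr ih =>
      exact (h2 r (by omega)).trans ih
  by_cases hA : δ t = t + 1
  · have hfull : ∀ r, r ≤ t → δ r = r + 1 := by
      intro r hr
      by_contra hne
      have hle : δ r ≤ r := by have := h1 r; omega
      have := hdec r hle t hr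
      omega
    calc cnt (ext id q) 0 t (∑ r ∈ range T, δ r)
        ≤ cnt (ext id q) 0 t ((∑ r ∈ range T, δ r) * q) :=
          cnt_mono _ _ _ (Nat.le_mul_of_pos_right _ (by omega))
      _ = ∑ r ∈ range (t + 1), box q (∑ r ∈ range T, δ r) r := cnt_box _ _ _ hq
      _ ≤ ∑ r ∈ range (t + 1), δ r := by
          apply Finset.sum_le_sum
          intro r hr
          rw [mem_range] at hr
          rw [hfull r (by omega)]
          exact box_le _ _ _
  · have ht : δ t ≤ t := by have := h1 t; omega
    by_cases h0 : δ t = 0
    · have hz : ∀ r, t ≤ r → δ r = 0 := by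
        intro r hr
        have := hdec t ht r hr
        omega
      refine (cnt_le _ _ _ _).trans ?_
      rcases Nat.lt_or_ge t T with hT | hT
      · rw [← Finset.sum_range_add_sum_Ico _ (show t + 1 ≤ T by omega)]
        have : ∑ r ∈ Ico (t+1) T, δ r = 0 := by
          apply Finset.sum_eq_zero
          intro r hr
          rw [mem_Ico] at hr
          exact hz r (by omega)
        omega
      · exact Finset.sum_le_sum_of_subset (Finset.range_subset_range.2 (by omega))
    · set p := δ t + (t + 1 - q) with hp
      -- all counts are at most q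
      have hδq : ∀ r, δ r ≤ q := by
        intro r
        induction r with
        | zero => have := h1 0; omega
        | succ r ih =>
          by_cases hr : q ≤ r + 1
          · have := h3 r hr; omega
          · have := h1 (r + 1); omega
      have hup : ∀ r, t ≤ r → δ r ≤ box q p r ∧ δ r ≤ r := by
        intro r hr
        induction r, hr using Nat.le_induction with
        | base =>
          refine ⟨?_, ht⟩
          have := hδq t
          unfold box
          simp only [Nat.min_def]
          split_ifs <;> omega
        | succ r hr ih =>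
          obtain ⟨ih1, ih2⟩ := ih
          have hd := h2 r ih2
          refine ⟨?_, by omega⟩
          have hq' := hδq t
          unfold box at ih1 ⊢
          simp only [Nat.min_def] at ih1 ⊢
          by_cases hqr : q ≤ r + 1
          · have := h3 r hqr
            split_ifs at ih1 ⊢ <;> omega
          · split_ifs at ih1 ⊢ <;> omega
      have hpos : ∀ r, r ≤ t → 1 ≤ δ r := by
        intro r hr
        by_contra hn
        have h0' : δ r = 0 := by omega
        have := hdec r (by omega) t hr
        omega
      have hdown : ∀ j, j ≤ t → box q p (t - j) ≤ δ (t - j) := by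
        intro j hj
        induction j with
        | zero =>
          have := hδq t
          unfold box
          simp only [Nat.min_def, Nat.sub_zero]
          split_ifs <;> omega
        | succ j ih =>
          have ih' := ih (by omega)
          set r := t - (j + 1) with hr
          have e : t - j = r + 1 := by omega
          rw [e] at ih'
          have hp1 := hpos (r + 1) (by omega)
          have hp0 := hpos r (by omega)
          by_cases hf : δ r ≤ r
          · have hd := h2 r hf
            unfold box at ih' ⊢
            simp only [Nat.min_def] at ih' ⊢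
            by_cases hqr : q ≤ r + 1
            · have := h3 r hqr
              split_ifs at ih' ⊢ <;> omega
            · split_ifs at ih' ⊢ <;> omega
          · have := h1 r
            have := box_le q p r
            omega
      have hdown' : ∀ r, r ≤ t → box q p r ≤ δ r := by
        intro r hr
        have := hdown (t - r) (by omega)
        have e : t - (t - r) = r := by omega
        rwa [e] at this
      have hB1 := cnt_box p q t hq
      have hB2 : ∑ r ∈ range (t + 1), box q p r ≤ ∑ r ∈ range (t + 1), δ r :=
        Finset.sum_le_sum (fun r hr => hdown' r (by rw [mem_range] at hr; omega))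
      have hR : ∑ r ∈ range T, δ r + ∑ r ∈ range (t + 1), box q p r ≤
          ∑ r ∈ range (t + 1), δ r + p * q := by
        rcases Nat.lt_or_ge t T with hT | hT
        · have e1 := Finset.sum_range_add_sum_Ico δ (show t + 1 ≤ T by omega)
          have e2 := Finset.sum_range_add_sum_Ico (box q p) (show t + 1 ≤ T by omega)
          have e3 := box_sum_le p q T
          have e4 : ∑ r ∈ Ico (t+1) T, δ r ≤ ∑ r ∈ Ico (t+1) T, box q p r := by
            apply Finset.sum_le_sum
            intro r hr
            rw [mem_Ico] at hr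
            exact (hup r (by omega)).1
          omega
        · have e1 : ∑ r ∈ range T, δ r ≤ ∑ r ∈ range (t + 1), δ r :=
            Finset.sum_le_sum_of_subset (Finset.range_subset_range.2 (by omega))
          have e3 := box_sum_le p q (t + 1)
          omega
      rcases Nat.le_total (∑ r ∈ range T, δ r) (p * q) with hle | hle
      · exact (cnt_mono _ _ _ hle).trans (hB1.le.trans hB2)
      · have := cnt_add_le (ext id q) 0 t (p * q) (∑ r ∈ range T, δ r - p * q)
        rw [Nat.add_sub_cancel' hle, hB1] at this
        omega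

end BDG
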