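import Mathlib
import Pool.Agent.helper88.BDG.N0
import Pool.Agent.helper88.BDG.Ranks

/-!
Merged modules `VLemma` and `Planar`.
-/

section FVLemma

/-!
Subspaces `V` of `K[X]` with `V + X V` small.
-/

namespace BDG
open Module Polynomial

variable {K : Type*} [Field K]

/-- multiplication by `X` -/
noncomputable abbrev mX (K : Type*) [Field K] : K[X] →ₗ[K] K[X] := LinearMap.mulLeft K (X : K[X])

lemma mX_apply (p : K[X]) : mX K p = X * p := rfl

lemma mulLeft_inj {g : K[X]} (hg : g ≠ 0) : Function.Injective (LinearMap.mulLeft K g) := by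
  intro p r h
  exact mul_left_cancel₀ hg h

lemma finrank_mulLeft {g : K[X]} (hg : g ≠ 0) (V : Submodule K K[X]) :
    finrank K ↥(V.map (LinearMap.mulLeft K g)) = finrank K V :=
  (Submodule.equivMapOfInjective _ (mulLeft_inj hg) V).finrank_eq.symm

instance degreeLT_fd (n : ℕ) : FiniteDimensional K ↥(degreeLT K n) :=
  Module.Finite.equiv (degreeLTEquiv K n).symm

lemma finrank_degreeLT (n : ℕ) : finrank K ↥(degreeLT K n) = n := by
  rw [(degreeLTEquiv K n).finrank_eq, Module.finrank_fin_fun]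

lemma fd_of_le {V : Submodule K K[X]} {N : ℕ} (h : V ≤ degreeLT K N) : FiniteDimensional K V :=
  Submodule.finiteDimensional_of_le h

/-- the elements of `V` whose multiple by `X` is in `V` -/
noncomputable def V1 (V : Submodule K K[X]) : Submodule K K[X] := V ⊓ V.comap (mX K)

lemma V1_le (V : Submodule K K[X]) : V1 V ≤ V := inf_le_left

lemma finrank_V1 {V : Submodule K K[X]} {N : ℕ} (hN : V ≤ degreeLT K N) :
    finrank K ↥(V ⊔ V.map (mX K)) + finrank K ↥(V1 V) = 2 * finrank K V := by
  have := fd_of_le hN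
  have h1 := Submodule.finrank_sup_add_finrank_inf_eq V (V.map (mX K))
  have h2 : finrank K ↥(V.map (mX K)) = finrank K V := finrank_mulLeft X_ne_zero V
  have h3 : V ⊓ V.map (mX K) = (V1 V).map (mX K) := by
    ext p
    constructor
    · rintro ⟨hp, r, hr, rfl⟩
      exact ⟨r, ⟨hr, hp⟩, rfl⟩
    · rintro ⟨r, ⟨hr, hp⟩, rfl⟩
      exact ⟨hp, r, hr, rfl⟩
  rw [h3, finrank_mulLeft X_ne_zero (V1 V), h2] at h1
  omega

lemma V1_ne {V : Submodule K K[X]} {N : ℕ} (hN : V ≤ degreeLT K N) (hV : V ≠ ⊥) : V1 V ≠ V := by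
  intro h
  obtain ⟨p, hp, hp0⟩ := Submodule.exists_mem_ne_zero_of_ne_bot hV
  have h1 : ∀ k : ℕ, X ^ k * p ∈ V := by
    intro k
    induction k with
    | zero => simpa using hp
    | succ k ih =>
      have h2 : X ^ k * p ∈ V1 V := by rw [h]; exact ih
      have h3 : X * (X ^ k * p) ∈ V := h2.2
      rw [pow_succ, mul_comm (X ^ k) X, mul_assoc]
      exact h3
  have h2 := hN (h1 N)
  rw [mem_degreeLT, degree_mul, degree_X_pow] at h2
  have h3 : (0 : WithBot ℕ) ≤ p.degree := zero_le_degree_iff.2 hp0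
  have h4 : (N : WithBot ℕ) ≤ N + p.degree := by
    calc (N : WithBot ℕ) = N + 0 := (add_zero _).symm
      _ ≤ N + p.degree := by gcongr
  exact absurd h2 (not_lt.2 h4)

lemma finrank_sup_ge {V : Submodule K K[X]} {N : ℕ} (hN : V ≤ degreeLT K N) (hV : V ≠ ⊥) :
    finrank K V + 1 ≤ finrank K ↥(V ⊔ V.map (mX K)) := by
  have := fd_of_le hN
  have h1 := finrank_V1 hN
  have h2 : finrank K ↥(V1 V) < finrank K V :=
    Submodule.finrank_lt_finrank_of_lt (lt_of_le_of_ne (V1_le V) (V1_ne hN hV))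
  omega

lemma degreeLT_succ_eq (n : ℕ) :
    degreeLT K (n + 1 + 1) = degreeLT K (n + 1) ⊔ (degreeLT K (n + 1)).map (mX K) := by
  refine le_antisymm ?_ (sup_le ?_ ?_)
  · intro p hp
    have h1 : p = X * p.divX + C (p.coeff 0) := by
      rw [mul_comm]; exact (divX_mul_X_add p).symm
    rw [h1]
    refine Submodule.add_mem _ (Submodule.mem_sup_right ⟨p.divX, ?_, rfl⟩)
      (Submodule.mem_sup_left ?_)
    · rw [SetLike.mem_coe, mem_degreeLT]
      rw [mem_degreeLT] at hp
      by_cases h0 : p.divX = 0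
      · rw [h0, degree_zero]; exact WithBot.bot_lt_coe _
      · have h2 : p ≠ 0 := by rintro rfl; simp at h0
        rw [degree_eq_natDegree h0, natDegree_divX_eq_natDegree_tsub_one]
        rw [degree_eq_natDegree h2] at hp
        have h3 : p.natDegree < n + 1 + 1 := by exact_mod_cast hp
        exact_mod_cast (by omega : p.natDegree - 1 < n + 1)
    · rw [mem_degreeLT]
      exact degree_C_le.trans_lt (by exact_mod_cast Nat.succ_pos n)
  · exact degreeLT_mono (Nat.le_succ _)
  · rintro _ ⟨p, hp, rfl⟩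
    rw [SetLike.mem_coe, mem_degreeLT] at hp
    rw [mem_degreeLT, mX_apply, degree_mul, degree_X]
    by_cases h0 : p = 0
    · rw [h0, degree_zero, WithBot.add_bot]; exact WithBot.bot_lt_coe _
    · rw [degree_eq_natDegree h0] at hp ⊢
      have h3 : p.natDegree < n + 1 := by exact_mod_cast hp
      exact_mod_cast (by omega : 1 + p.natDegree < n + 1 + 1)

/-- equality case -/
lemma vlemma (N : ℕ) : ∀ (n : ℕ) (V : Submodule K K[X]), V ≤ degreeLT K N → finrank K V = n + 1 →
    finrank K ↥(V ⊔ V.map (mX K)) ≤ n + 2 →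
    ∃ g : K[X], g ≠ 0 ∧ V = (degreeLT K (n + 1)).map (LinearMap.mulLeft K g) := by
  intro n
  induction n with
  | zero =>
    intro V hV hn _
    have := fd_of_le hV
    obtain ⟨⟨g, hg⟩, hg0, hgs⟩ := finrank_eq_one_iff'.1 (by simpa using hn)
    have hg0' : g ≠ 0 := fun h => hg0 (Subtype.ext h)
    refine ⟨g, hg0', ?_⟩
    ext p
    constructor
    · intro hp
      obtain ⟨c, hc⟩ := hgs ⟨p, hp⟩
      have hc' : c • g = p := congrArg Subtype.val hc
      refine ⟨C c, ?_, ?_⟩
      · rw [SetLike.mem_coe, mem_degreeLT]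
        exact degree_C_le.trans_lt (by exact_mod_cast Nat.succ_pos 0)
      · rw [LinearMap.mulLeft_apply, ← hc', smul_eq_C_mul, mul_comm]
    · rintro ⟨r, hr, rfl⟩
      rw [SetLike.mem_coe, mem_degreeLT] at hr
      have h1 : r = C (r.coeff 0) := by
        refine eq_C_of_degree_le_zero ?_
        exact Nat.WithBot.lt_one_iff_le_zero.1 (by simpa using hr)
      rw [h1, LinearMap.mulLeft_apply, mul_comm, ← smul_eq_C_mul]
      exact V.smul_mem _ hg
  | succ n ih =>
    intro V hV hn hs
    have hfd := fd_of_le hV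
    have h1 := finrank_V1 hV
    have hVne : V ≠ ⊥ := by
      rintro rfl
      simp at hn
    have h2 := finrank_sup_ge hV hVne
    have h3 : finrank K ↥(V1 V) = n + 1 := by omega
    have h4 : V1 V ⊔ (V1 V).map (mX K) ≤ V := by
      refine sup_le (V1_le V) ?_
      rintro _ ⟨p, hp, rfl⟩
      exact hp.2
    have h5 : finrank K ↥(V1 V ⊔ (V1 V).map (mX K)) ≤ n + 2 := by
      rw [← hn]; exact Submodule.finrank_mono h4
    obtain ⟨g, hg, hgV⟩ := ih (V1 V) ((V1_le V).trans hV) h3 h5
    refine ⟨g, hg, ?_⟩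
    have h6 : V1 V ≠ ⊥ := by
      intro h
      rw [h] at h3
      simp at h3
    have h7 := finrank_sup_ge ((V1_le V).trans hV) h6
    have h8 : V1 V ⊔ (V1 V).map (mX K) = V := by
      refine Submodule.eq_of_le_of_finrank_le h4 ?_
      omega
    rw [← h8, hgV, degreeLT_succ_eq, Submodule.map_sup]
    congr 1
    rw [← Submodule.map_comp, ← Submodule.map_comp]
    congr 1
    ext p
    simp [mul_left_comm]

/-- the growth dichotomy -/
lemma growth {s : ℕ} {V W : Submodule K K[X]} (hV : V ≤ degreeLT K (s + 1))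
    (hW : W ≤ degreeLT K (s + 2)) (hVW : V ≤ W) (hXV : V.map (mX K) ≤ W) {f : K[X]} (hf : f ∈ W)
    (hfd : f.natDegree = s + 1) (hdim : finrank K W ≤ finrank K V + 1) :
    ∃ g : K[X], g ≠ 0 ∧ (∀ p ∈ W, g ∣ p) ∧ g.natDegree + finrank K V = s + 1 := by
  have hf0 : f ≠ 0 := by rintro rfl; simp at hfd
  have fV := fd_of_le hV
  have fW := fd_of_le hW
  rcases Nat.eq_zero_or_pos (finrank K V) with h0 | h0
  · refine ⟨f, hf0, ?_, by omega⟩
    have h1 : Submodule.span K {f} = W := by
      refine Submodule.eq_of_le_of_finrank_le ((Submodule.span_singleton_le_iff_mem f W).2 hf) ?_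
      rw [finrank_span_singleton hf0]; omega
    intro p hp
    rw [← h1, Submodule.mem_span_singleton] at hp
    obtain ⟨c, rfl⟩ := hp
    rw [smul_eq_C_mul]
    exact dvd_mul_left _ _
  · obtain ⟨n, hn⟩ : ∃ n, finrank K V = n + 1 := ⟨finrank K V - 1, by omega⟩
    have hne : V ≠ ⊥ := by rintro rfl; simp at hn
    have hle : V ⊔ V.map (mX K) ≤ W := sup_le hVW hXV
    have h1 := Submodule.finrank_mono hle
    obtain ⟨g, hg, hgV⟩ := vlemma (s + 1) n V hV hn (by omega)
    have h2 := finrank_sup_ge hV hne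
    have h3 : V ⊔ V.map (mX K) = W := Submodule.eq_of_le_of_finrank_le hle (by omega)
    have h4 : W = (degreeLT K (n + 1 + 1)).map (LinearMap.mulLeft K g) := by
      rw [← h3, hgV, degreeLT_succ_eq, Submodule.map_sup]
      congr 1
      rw [← Submodule.map_comp, ← Submodule.map_comp]
      congr 1
      ext p
      simp [mul_left_comm]
    refine ⟨g, hg, ?_, ?_⟩
    · intro p hp
      rw [h4] at hp
      obtain ⟨r, _, rfl⟩ := hp
      exact dvd_mul_right _ _
    · have h5 : g * X ^ (n + 1) ∈ W := by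
        rw [h4]
        refine ⟨X ^ (n + 1), ?_, rfl⟩
        rw [SetLike.mem_coe, mem_degreeLT, degree_X_pow]
        exact_mod_cast Nat.lt_succ_self _
      have h6 := hW h5
      rw [mem_degreeLT, degree_mul, degree_X_pow, degree_eq_natDegree hg] at h6
      have h7 : g.natDegree + (n + 1) < s + 2 := by exact_mod_cast h6
      rw [h4] at hf
      obtain ⟨r, hr, hrf⟩ := hf
      have hr0 : r ≠ 0 := by
        rintro rfl
        simp at hrf
        exact hf0 hrf.symm
      rw [SetLike.mem_coe, mem_degreeLT, degree_eq_natDegree hr0] at hr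
      have h8 : r.natDegree < n + 1 + 1 := by exact_mod_cast hr
      have h9 : (g * r).natDegree = s + 1 := by
        rw [← hfd, ← hrf]; rfl
      rw [natDegree_mul hg hr0] at h9
      omega

end BDG

end FVLemma

section FPlanar

/-!
The planar lemma.
-/

namespace BDG
open Module Polynomial Finset

section numerics

/-- tail bound -/
lemma tail_bound (h : ℕ → ℕ) (E Q γ : ℕ) (hE : 1 ≤ E) (hEQ : E ≤ Q)
    (h2 : ∀ r, h r ≤ r → h (r + 1) ≤ h r) (h1 : ∀ r, h r ≤ r + 1)
    (h3 : ∀ r, E ≤ r + 1 → h (r + 1) + 1 ≤ h r ∨ h r ≤ γ)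
    (h3' : ∀ r, E ≤ r + 1 → h (r + 1) ≤ h r)
    (h4 : ∀ r, Q ≤ r + 1 → h (r + 1) + 1 ≤ h r ∨ h r = 0) :
    ∀ n s, E ≤ s + 1 →
      2 * ∑ r ∈ range n, h (s + 1 + r) ≤
        (max (h s) γ) * (max (h s) γ - 1) + 2 * (γ * (Q - (s + 1))) ∧
      (Q ≤ s + 1 → 2 * ∑ r ∈ range n, h (s + 1 + r) ≤ (h s) * (h s - 1)) := by
  intro n
  induction n with
  | zero => intro s hs; simp
  | succ n ih =>
    intro s hs
    have ih' := ih (s + 1) (by omega)
    have e : ∑ r ∈ range (n + 1), h (s + 1 + r) = ∑ r ∈ range n, h (s + 1 + 1 + r) + h (s + 1) := by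
      rw [Finset.sum_range_succ']
      congr 1
      refine Finset.sum_congr rfl fun r _ => ?_
      congr 1; omega
    rw [e]
    have key : Q ≤ s + 1 → 2 * (∑ r ∈ range n, h (s + 1 + 1 + r) + h (s + 1)) ≤ (h s) * (h s - 1) := by
      intro hQ
      have i2 := ih'.2 (by omega)
      rcases h4 s hQ with h5 | h5
      · obtain ⟨k, hk⟩ : ∃ k, h s = h (s + 1) + 1 + k := ⟨h s - (h (s + 1) + 1), by omega⟩
        rw [hk]
        have : h (s + 1) * (h (s + 1) - 1) + 2 * h (s + 1) ≤
            (h (s + 1) + 1 + k) * (h (s + 1) + 1 + k - 1) := by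
          rcases Nat.eq_zero_or_pos (h (s + 1)) with h0 | h0
          · rw [h0]; simp
          · obtain ⟨j, hj⟩ : ∃ j, h (s + 1) = j + 1 := ⟨h (s + 1) - 1, by omega⟩
            rw [hj]
            have e1 : j + 1 + 1 + k - 1 = j + 1 + k := by omega
            rw [e1, Nat.add_sub_cancel]
            nlinarith
        omega
      · have h6 := h3' s hs
        have h7 : h (s + 1) = 0 := by omega
        rw [h7] at i2 ⊢
        omega
    refine ⟨?_, key⟩
    by_cases hQ : Q ≤ s + 1
    · refine (key hQ).trans ?_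
      refine le_add_right ?_
      exact Nat.mul_le_mul (le_max_left _ _) (Nat.sub_le_sub_right (le_max_left _ _) 1)
    · push Not at hQ
      have i1 := ih'.1
      have e2 : Q - (s + 1) = (Q - (s + 1 + 1)) + 1 := by omega
      have e3 : γ * (Q - (s + 1)) = γ * (Q - (s + 1 + 1)) + γ := by rw [e2]; ring
      rw [e3]
      rcases Nat.lt_or_ge γ (h s) with hg | hg
      · have h5 : h (s + 1) + 1 ≤ h s := by
          rcases h3 s hs with h5 | h5
          · exact h5
          · omega
        have h6 : max (h s) γ = h s := max_eq_left hg.le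
        rw [h6]
        -- let k = max (h (s+1)) γ ≤ h s - 1
        have h7 : max (h (s + 1)) γ + 1 ≤ h s := by
          rcases max_cases (h (s + 1)) γ with ⟨h8, _⟩ | ⟨h8, _⟩ <;> omega
        obtain ⟨k, hk⟩ : ∃ k, h s = max (h (s + 1)) γ + 1 + k := ⟨h s - (max (h (s + 1)) γ + 1), by omega⟩
        have h9 : h (s + 1) ≤ max (h (s + 1)) γ := le_max_left _ _
        have h10 : γ ≤ max (h (s + 1)) γ := le_max_right _ _
        set m := max (h (s + 1)) γ with hm
        rw [hk]
        have h11 : m * (m - 1) + 2 * m ≤ (m + 1 + k) * (m + 1 + k - 1) := by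
          rcases Nat.eq_zero_or_pos m with h0 | h0
          · rw [h0]; simp
          · obtain ⟨j, hj⟩ : ∃ j, m = j + 1 := ⟨m - 1, by omega⟩
            rw [hj]
            have e1 : j + 1 + 1 + k - 1 = j + 1 + k := by omega
            rw [e1, Nat.add_sub_cancel]
            nlinarith
        omega
      · have h5 := h3' s hs
        have h6 : max (h s) γ = γ := max_eq_right hg
        have h7 : max (h (s + 1)) γ = γ := max_eq_right (by omega)
        rw [h6]
        rw [h7] at i1
        omega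

/-- numerical part of the planar lemma -/
lemma planar_num (h : ℕ → ℕ) (E Q γ : ℕ) (hE : 1 ≤ E) (hEQ : E ≤ Q)
    (h1 : ∀ r, h r ≤ r + 1) (h2 : ∀ r, h r ≤ r → h (r + 1) ≤ h r)
    (h3 : ∀ r, E ≤ r + 1 → h (r + 1) + 1 ≤ h r ∨ h r ≤ γ)
    (h3' : ∀ r, E ≤ r + 1 → h (r + 1) ≤ h r)
    (h4 : ∀ r, Q ≤ r + 1 → h (r + 1) + 1 ≤ h r ∨ h r = 0)
    (h5 : γ ≤ h (E - 1)) (T : ℕ) :
    (∀ t, t < E → cnt (ext id E) 0 t (∑ r ∈ range T, h r - γ * (Q - E)) ≤
      ∑ r ∈ range (t + 1), h r) ∧ ∑ r ∈ range T, h r - γ * (Q - E) ≤ E ^ 2 := by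
  obtain ⟨e, rfl⟩ : ∃ e, E = e + 1 := ⟨E - 1, by omega⟩
  simp only [Nat.add_sub_cancel] at h5
  let δ : ℕ → ℕ := fun r => if r ≤ e then h r else h e - (r - e)
  have d1 : ∀ r, δ r ≤ r + 1 := by
    intro r
    simp only [δ]
    have := h1 r
    have := h1 e
    split_ifs <;> omega
  have d3 : ∀ r, e + 1 ≤ r + 1 → δ (r + 1) ≤ δ r - 1 := by
    intro r hr
    simp only [δ]
    rcases Nat.eq_or_lt_of_le (show e ≤ r by omega) with h6 | h6
    · subst h6
      rw [if_neg (by omega), if_pos le_rfl]; omega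
    · rw [if_neg (by omega), if_neg (by omega)]; omega
  have d2 : ∀ r, δ r ≤ r → δ (r + 1) ≤ δ r := by
    intro r hr
    rcases Nat.lt_or_ge r e with h6 | h6
    · simp only [δ] at hr ⊢
      rw [if_pos (by omega)] at hr ⊢
      rw [if_pos (by omega)]
      exact h2 r hr
    · exact (d3 r (by omega)).trans (Nat.sub_le _ _)
  -- the sum of δ
  have hsumδ : ∀ n, 2 * ∑ r ∈ range n, (h e - (r + 1)) =
      (h e) * (h e - 1) - (h e - n) * (h e - n - 1) := by
    intro n
    induction n with
    | zero => simp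
    | succ n ih =>
      rw [Finset.sum_range_succ, Nat.mul_add, ih]
      rcases Nat.lt_or_ge n (h e) with h6 | h6
      · obtain ⟨k, hk⟩ : ∃ k, h e = n + 1 + k := ⟨h e - (n + 1), by omega⟩
        rw [hk]
        have e1 : n + 1 + k - n = k + 1 := by omega
        have e2 : n + 1 + k - (n + 1) = k := by omega
        have e3 : n + 1 + k - 1 = n + k := by omega
        rw [e1, e2, e3, Nat.add_sub_cancel]
        rcases Nat.eq_zero_or_pos k with h0 | h0
        · subst h0; simp
        · obtain ⟨j, rfl⟩ : ∃ j, k = j + 1 := ⟨k - 1, by omega⟩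
          rw [Nat.add_sub_cancel]
          have : (j + 1 + 1) * (j + 1) ≤ (n + 1 + (j + 1)) * (n + (j + 1)) := by nlinarith
          have : (j + 1 + 1) * (j + 1) = (j + 1) * j + 2 * (j + 1) := by ring
          omega
      · have e1 : h e - n = 0 := by omega
        have e2 : h e - (n + 1) = 0 := by omega
        rw [e1, e2]; simp
  have hδT : ∑ r ∈ range (e + 1 + h e), δ r = ∑ r ∈ range (e + 1), h r +
      ∑ r ∈ range (h e), (h e - (r + 1)) := by
    rw [Finset.sum_range_add]
    congr 1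
    · refine Finset.sum_congr rfl fun r hr => ?_
      rw [Finset.mem_range] at hr
      simp only [δ]
      rw [if_pos (by omega)]
    · refine Finset.sum_congr rfl fun r hr => ?_
      simp only [δ]
      rw [if_neg (by omega)]
      congr 1; omega
  have hs2 := hsumδ (h e)
  simp only [Nat.sub_self, Nat.zero_mul, Nat.sub_zero] at hs2
  have htail := (tail_bound h (e + 1) Q γ hE hEQ h2 h1 h3 h3' h4 (T - (e + 1)) e le_rfl).1
  rw [max_eq_left h5] at htail
  have hT : ∑ r ∈ range T, h r ≤ ∑ r ∈ range (e + 1), h r +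
      ∑ r ∈ range (T - (e + 1)), h (e + 1 + r) := by
    rcases Nat.lt_or_ge T (e + 1) with h6 | h6
    · refine le_trans (Finset.sum_le_sum_of_subset ?_) (Nat.le_add_right _ _)
      intro i hi
      rw [Finset.mem_range] at *; omega
    · obtain ⟨k, rfl⟩ : ∃ k, T = e + 1 + k := ⟨T - (e + 1), by omega⟩
      rw [Finset.sum_range_add, Nat.add_sub_cancel_left]
  have hle : ∑ r ∈ range T, h r - γ * (Q - (e + 1)) ≤ ∑ r ∈ range (e + 1 + h e), δ r := by
    rw [hδT]
    omega
  constructor
  · intro t ht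
    refine (Nat.count_monotone _ hle).trans ?_
    have hHV := HV (e + 1) (by omega) δ d1 d2 d3 t (e + 1 + h e)
    unfold cnt at hHV
    refine hHV.trans (le_of_eq ?_)
    refine Finset.sum_congr rfl fun r hr => ?_
    rw [Finset.mem_range] at hr
    simp only [δ]
    rw [if_pos (by omega)]
  · refine hle.trans ?_
    rw [hδT]
    have g1 : ∀ n, 2 * ∑ r ∈ range n, h r ≤ n * (n + 1) := by
      intro n
      induction n with
      | zero => simp
      | succ n ih =>
        rw [Finset.sum_range_succ]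
        have := h1 n
        nlinarith
    have g2 := g1 (e + 1)
    have g3 : h e * (h e - 1) ≤ (e + 1) * e := by
      have := h1 e
      exact Nat.mul_le_mul this (by omega)
    nlinarith

end numerics

section planar
variable {K : Type*} [Field K] {A : Type*} [CommRing A] [Algebra K A] (x u : A)

/-- the span of `1, x, u` -/
def L3 (K : Type*) [Field K] {A : Type*} [CommRing A] [Algebra K A] (x u : A) : Submodule K A :=
  Submodule.span K {1, x, u}

/-- `u * L ^ (t-1)` -/
def Mt (K : Type*) [Field K] {A : Type*} [CommRing A] [Algebra K A] (x u : A) : ℕ → Submodule K A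
  | 0 => ⊥
  | t + 1 => ((L3 K x u) ^ t).map (LinearMap.mulLeft K u)

/-- polynomials `p` of degree `≤ t` with `p(x)` in `u * L ^ (t-1)` -/
noncomputable def Vt (K : Type*) [Field K] {A : Type*} [CommRing A] [Algebra K A] (x u : A)
    (t : ℕ) : Submodule K K[X] :=
  degreeLT K (t + 1) ⊓ (Mt K x u t).comap (aeval x).toLinearMap

instance L3_fd : FiniteDimensional K ↥(L3 K x u) :=
  FiniteDimensional.span_of_finite K (by simp)

lemma one_mem_L3 : (1 : A) ∈ L3 K x u := Submodule.subset_span (by simp)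
lemma x_mem_L3 : x ∈ L3 K x u := Submodule.subset_span (by simp)
lemma u_mem_L3 : u ∈ L3 K x u := Submodule.subset_span (by simp)

lemma L3_mono {s t : ℕ} (h : s ≤ t) : (L3 K x u) ^ s ≤ (L3 K x u) ^ t :=
  pow_le_pow_right' (Submodule.one_le.2 (one_mem_L3 x u)) h

instance Mt_fd (t : ℕ) : FiniteDimensional K ↥(Mt K x u t) := by
  cases t with
  | zero => unfold Mt; infer_instance
  | succ t => unfold Mt; infer_instance

lemma Mt_mono (t : ℕ) : Mt K x u t ≤ Mt K x u (t + 1) := by
  cases t with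
  | zero => exact bot_le
  | succ t => exact Submodule.map_mono (L3_mono x u (Nat.le_succ t))

lemma Mt_mul (t : ℕ) {z l : A} (hz : z ∈ Mt K x u t) (hl : l ∈ L3 K x u) :
    l * z ∈ Mt K x u (t + 1) := by
  cases t with
  | zero =>
    have : z = 0 := (Submodule.mem_bot K).1 hz
    rw [this, mul_zero]; exact Submodule.zero_mem _
  | succ t =>
    obtain ⟨y, hy, rfl⟩ := hz
    refine ⟨y * l, ?_, ?_⟩
    · rw [SetLike.mem_coe, pow_succ]; exact Submodule.mul_mem_mul hy hl
    · simp only [LinearMap.mulLeft_apply]; ring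

lemma Mt_le (t : ℕ) : Mt K x u t ≤ (L3 K x u) ^ t := by
  cases t with
  | zero => exact bot_le
  | succ t =>
    rintro _ ⟨y, hy, rfl⟩
    rw [pow_succ, LinearMap.mulLeft_apply, mul_comm u y]
    exact Submodule.mul_mem_mul hy (u_mem_L3 x u)

lemma L3_pow (t : ℕ) : (L3 K x u) ^ t =
    (degreeLT K (t + 1)).map (aeval x).toLinearMap ⊔ Mt K x u t := by
  refine le_antisymm ?_ (sup_le ?_ (Mt_le x u t))
  · induction t with
    | zero =>
      rw [pow_zero]
      refine le_sup_of_le_left ?_
      rw [Submodule.one_le]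
      refine ⟨1, ?_, by simp⟩
      rw [SetLike.mem_coe, mem_degreeLT, degree_one]
      exact_mod_cast Nat.succ_pos 0
    | succ t ih =>
      rw [pow_succ, Submodule.mul_le]
      intro m hm n hn
      have hm' := ih hm
      obtain ⟨_, ⟨p, hp, rfl⟩, z, hz, rfl⟩ := Submodule.mem_sup.1 hm'
      rw [SetLike.mem_coe, mem_degreeLT] at hp
      refine Submodule.span_induction (p := fun n _ =>
        ((aeval x).toLinearMap p + z) * n ∈ (degreeLT K (t + 1 + 1)).map (aeval x).toLinearMap ⊔
          Mt K x u (t + 1)) ?_ ?_ ?_ ?_ hn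
      · intro n hn
        simp only [Set.mem_insert_iff, Set.mem_singleton_iff] at hn
        rcases hn with rfl | rfl | rfl
        · rw [mul_one]
          refine Submodule.add_mem _ (Submodule.mem_sup_left ⟨p, ?_, rfl⟩)
            (Submodule.mem_sup_right (Mt_mono x u t hz))
          rw [SetLike.mem_coe, mem_degreeLT]
          exact hp.trans (by exact_mod_cast Nat.lt_succ_self _)
        · rw [add_mul]
          refine Submodule.add_mem _ (Submodule.mem_sup_left ⟨X * p, ?_, ?_⟩)
            (Submodule.mem_sup_right ?_)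
          · rw [SetLike.mem_coe, mem_degreeLT, degree_mul, degree_X]
            by_cases h0 : p = 0
            · rw [h0, degree_zero, WithBot.add_bot]; exact WithBot.bot_lt_coe _
            · rw [degree_eq_natDegree h0] at hp ⊢
              have h3 : p.natDegree < t + 1 := by exact_mod_cast hp
              exact_mod_cast (by omega : 1 + p.natDegree < t + 1 + 1)
          · simp [mul_comm]
          · rw [mul_comm]
            exact Mt_mul _ _ t hz (x_mem_L3 _ _)
        · refine Submodule.mem_sup_right ⟨_, hm, ?_⟩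
          rw [LinearMap.mulLeft_apply, mul_comm]
      · rw [mul_zero]; exact Submodule.zero_mem _
      · intro a b _ _ ha hb
        rw [mul_add]; exact Submodule.add_mem _ ha hb
      · intro c a _ ha
        rw [mul_smul_comm]; exact Submodule.smul_mem _ _ ha
  · rintro _ ⟨p, hp, rfl⟩
    rw [SetLike.mem_coe, mem_degreeLT] at hp
    have h1 : ∀ i ≤ t, x ^ i ∈ (L3 K x u) ^ t := fun i hi =>
      L3_mono x u hi (Submodule.pow_mem_pow _ (x_mem_L3 x u) i)
    show aeval x p ∈ _
    rw [aeval_eq_sum_range' (n := t + 1)]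
    · refine Submodule.sum_mem _ fun i hi => Submodule.smul_mem _ _ (h1 i ?_)
      rw [Finset.mem_range] at hi; omega
    · by_cases h0 : p = 0
      · rw [h0, natDegree_zero]; omega
      · rw [degree_eq_natDegree h0] at hp
        exact_mod_cast hp

lemma Vt_le (t : ℕ) : Vt K x u t ≤ degreeLT K (t + 1) := inf_le_left

instance Vt_fd (t : ℕ) : FiniteDimensional K ↥(Vt K x u t) := fd_of_le (Vt_le x u t)

lemma finrank_L3_add (t : ℕ) :
    finrank K ↥((L3 K x u) ^ t) + finrank K ↥(Vt K x u t) = finrank K ↥(Mt K x u t) + (t + 1) := by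
  have e1 := finrank_eq_map_add_ker ((L3 K x u) ^ t) (Mt K x u t).mkQ
  rw [Submodule.ker_mkQ, inf_eq_right.2 (Mt_le x u t)] at e1
  have e2 := finrank_eq_map_add_ker (degreeLT K (t + 1))
    ((Mt K x u t).mkQ ∘ₗ (aeval x).toLinearMap)
  have e3 : degreeLT K (t + 1) ⊓ LinearMap.ker ((Mt K x u t).mkQ ∘ₗ (aeval x).toLinearMap) =
      Vt K x u t := by
    unfold Vt
    rw [LinearMap.ker_comp, Submodule.ker_mkQ]
  have e4 : ((L3 K x u) ^ t).map (Mt K x u t).mkQ =
      (degreeLT K (t + 1)).map ((Mt K x u t).mkQ ∘ₗ (aeval x).toLinearMap) := by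
    rw [L3_pow, Submodule.map_sup, Submodule.map_comp]
    rw [show (Mt K x u t).map (Mt K x u t).mkQ = ⊥ from by
      exact Submodule.mkQ_map_self _]
    rw [sup_bot_eq]
  rw [e3, ← e4, finrank_degreeLT] at e2
  omega

lemma finrank_Mt_succ (hu : IsUnit u) (t : ℕ) :
    finrank K ↥(Mt K x u (t + 1)) = finrank K ↥((L3 K x u) ^ t) := by
  have : Function.Injective (LinearMap.mulLeft K u) := fun a b h => hu.mul_left_cancel h
  exact (Submodule.equivMapOfInjective _ this _).finrank_eq.symm

/-- first difference of the Hilbert function -/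
noncomputable def hh (K : Type*) [Field K] {A : Type*} [CommRing A] [Algebra K A] (x u : A)
    (t : ℕ) : ℕ := t + 1 - finrank K ↥(Vt K x u t)

lemma finrank_Vt_le (t : ℕ) : finrank K ↥(Vt K x u t) ≤ t + 1 := by
  rw [← finrank_degreeLT (K := K) (t + 1)]
  exact Submodule.finrank_mono (Vt_le x u t)

lemma sum_hh (hu : IsUnit u) (t : ℕ) :
    ∑ r ∈ range (t + 1), hh K x u r = finrank K ↥((L3 K x u) ^ t) := by
  induction t with
  | zero =>
    have h1 := finrank_L3_add (K := K) x u 0
    have h2 : finrank K ↥(Mt K x u 0) = 0 := by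
      unfold Mt; simp
    have h3 := finrank_Vt_le (K := K) x u 0
    rw [Finset.sum_range_one]
    unfold hh
    omega
  | succ t ih =>
    have h1 := finrank_L3_add (K := K) x u (t + 1)
    have h2 := finrank_Mt_succ (K := K) x u hu t
    have h3 := finrank_Vt_le (K := K) x u (t + 1)
    rw [Finset.sum_range_succ, ih]
    unfold hh
    omega

lemma Vt_mono (t : ℕ) : Vt K x u t ≤ Vt K x u (t + 1) := by
  refine inf_le_inf (degreeLT_mono (by omega)) (Submodule.comap_mono (Mt_mono x u t))

lemma Vt_mono' {s t : ℕ} (h : s ≤ t) : Vt K x u s ≤ Vt K x u t :=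
  monotone_nat_of_le_succ (Vt_mono x u) h

lemma Vt_mul (t : ℕ) : (Vt K x u t).map (mX K) ≤ Vt K x u (t + 1) := by
  rintro _ ⟨p, ⟨hp1, hp2⟩, rfl⟩
  refine ⟨?_, ?_⟩
  · rw [SetLike.mem_coe, mem_degreeLT] at hp1
    rw [mX_apply, SetLike.mem_coe, mem_degreeLT, degree_mul, degree_X]
    by_cases h0 : p = 0
    · rw [h0, degree_zero, WithBot.add_bot]; exact WithBot.bot_lt_coe _
    · rw [degree_eq_natDegree h0] at hp1 ⊢
      have h3 : p.natDegree < t + 1 := by exact_mod_cast hp1
      exact_mod_cast (by omega : 1 + p.natDegree < t + 1 + 1)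
  · show aeval x (X * p) ∈ Mt K x u (t + 1)
    rw [map_mul, aeval_X]
    exact Mt_mul x u t hp2 (x_mem_L3 x u)

/-- the planar lemma -/
theorem planar (hu : IsUnit u) (E Q : ℕ) (hE : 1 ≤ E) (hEQ : E ≤ Q) (f : K[X])
    (hfm : f.Monic) (hfd : f.natDegree = E) (hfV : f ∈ Vt K x u E)
    (hQ : Ideal.span (Vt K x u Q : Set K[X]) = ⊤) (T : ℕ) :
    (∀ t, t < E → cnt (ext id E) 0 t (finrank K ↥((L3 K x u) ^ T) -
        finrank K (K[X] ⧸ Ideal.span (Vt K x u E : Set K[X])) * (Q - E)) ≤
      finrank K ↥((L3 K x u) ^ t)) ∧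
    finrank K ↥((L3 K x u) ^ T) -
        finrank K (K[X] ⧸ Ideal.span (Vt K x u E : Set K[X])) * (Q - E) ≤ E ^ 2 := by
  set I := Ideal.span (Vt K x u E : Set K[X]) with hI
  set γ := finrank K (K[X] ⧸ I) with hγ
  -- powers of X times f
  have hfX : ∀ s, E ≤ s → ∃ g ∈ Vt K x u s, g.natDegree = s := by
    intro s hs
    induction s, hs using Nat.le_induction with
    | base => exact ⟨f, hfV, hfd⟩
    | succ s hs ih =>
      obtain ⟨g, hg, hgs⟩ := ih
      refine ⟨X * g, Vt_mul x u s ⟨g, hg, rfl⟩, ?_⟩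
      have : g ≠ 0 := by rintro rfl; simp at hgs; omega
      rw [natDegree_X_mul this, hgs]
  have hsurj : ∀ z : K[X] ⧸ I, ∃ p ∈ degreeLT K E, Ideal.Quotient.mk I p = z := by
    intro z
    obtain ⟨p, rfl⟩ := Ideal.Quotient.mk_surjective z
    refine ⟨p %ₘ f, ?_, ?_⟩
    · rw [mem_degreeLT, ← hfd]
      have h1 : f ≠ 0 := hfm.ne_zero
      rw [← degree_eq_natDegree h1]
      exact degree_modByMonic_lt p hfm
    · rw [Ideal.Quotient.mk_eq_mk_iff_sub_mem]
      have h1 : p %ₘ f - p = -(f * (p /ₘ f)) := by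
        have := modByMonic_add_div p f
        linear_combination this
      rw [h1]
      exact I.neg_mem (I.mul_mem_right _ (Ideal.subset_span hfV))
  let φ : K[X] →ₗ[K] (K[X] ⧸ I) := (Ideal.Quotient.mkₐ K I).toLinearMap
  have hφ : (degreeLT K E).map φ = ⊤ := by
    rw [eq_top_iff]
    intro z _
    obtain ⟨p, hp, rfl⟩ := hsurj z
    exact ⟨p, hp, rfl⟩
  have hIfd : FiniteDimensional K (K[X] ⧸ I) := by
    have h1 : FiniteDimensional K ↥((degreeLT K E).map φ) := inferInstance
    rw [hφ] at h1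
    exact Module.Finite.equiv (Submodule.topEquiv (R := K) (M := K[X] ⧸ I))
  have h5 : γ ≤ hh K x u (E - 1) := by
    have e1 := finrank_eq_map_add_ker (degreeLT K E) φ
    rw [hφ, finrank_top, finrank_degreeLT] at e1
    have e2 : finrank K ↥(Vt K x u (E - 1)) ≤ finrank K ↥(degreeLT K E ⊓ LinearMap.ker φ) := by
      have hfd' : FiniteDimensional K ↥(degreeLT K E ⊓ LinearMap.ker φ) := fd_of_le inf_le_left
      refine Submodule.finrank_mono ?_
      refine le_inf ?_ ?_
      · have := Vt_le (K := K) x u (E - 1)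
        rwa [Nat.sub_add_cancel hE] at this
      · intro p hp
        rw [LinearMap.mem_ker]
        show Ideal.Quotient.mk I p = 0
        rw [Ideal.Quotient.eq_zero_iff_mem]
        exact Ideal.subset_span (Vt_mono' x u (Nat.sub_le _ _) hp)
    unfold hh
    omega
  have hdich : ∀ r, E ≤ r + 1 → finrank K ↥(Vt K x u (r + 1)) ≤ finrank K ↥(Vt K x u r) + 1 →
      ∃ g : K[X], g ≠ 0 ∧ (∀ p ∈ Vt K x u (r + 1), g ∣ p) ∧ g.natDegree = hh K x u r := by
    intro r hr hdim
    obtain ⟨g', hg', hgd'⟩ := hfX (r + 1) hr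
    obtain ⟨g, hg, hgW, hgd⟩ := growth (s := r) (Vt_le x u r) (Vt_le x u (r + 1)) (Vt_mono x u r)
      (Vt_mul x u r) hg' hgd' hdim
    exact ⟨g, hg, hgW, by unfold hh; omega⟩
  have h1 : ∀ r, hh K x u r ≤ r + 1 := fun r => Nat.sub_le _ _
  have h2 : ∀ r, hh K x u r ≤ r → hh K x u (r + 1) ≤ hh K x u r := by
    intro r hr
    have hv := finrank_Vt_le (K := K) x u r
    have hne : Vt K x u r ≠ ⊥ := by
      intro h0
      unfold hh at hr
      rw [h0] at hr
      simp at hr
    have h3 := finrank_sup_ge (Vt_le x u r) hne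
    have h4' : Vt K x u r ⊔ (Vt K x u r).map (mX K) ≤ Vt K x u (r + 1) :=
      sup_le (Vt_mono x u r) (Vt_mul x u r)
    have h4 := Submodule.finrank_mono h4'
    unfold hh
    omega
  have h3' : ∀ r, E ≤ r + 1 → hh K x u (r + 1) ≤ hh K x u r := by
    intro r hr
    by_cases h0 : hh K x u r ≤ r
    · exact h2 r h0
    · have h6 : hh K x u r = r + 1 := le_antisymm (h1 r) (by omega)
      obtain ⟨g', hg', hgd'⟩ := hfX (r + 1) hr
      have h7 : 1 ≤ finrank K ↥(Vt K x u (r + 1)) := by
        rw [Nat.one_le_iff_ne_zero]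
        intro h8
        have h9 := Submodule.finrank_eq_zero.1 h8
        rw [h9, Submodule.mem_bot] at hg'
        rw [hg'] at hgd'
        simp at hgd'
      rw [h6]
      unfold hh
      omega
  have h3 : ∀ r, E ≤ r + 1 → hh K x u (r + 1) + 1 ≤ hh K x u r ∨ hh K x u r ≤ γ := by
    intro r hr
    by_cases hc : finrank K ↥(Vt K x u (r + 1)) ≤ finrank K ↥(Vt K x u r) + 1
    · right
      obtain ⟨g, hg, hgW, hgd⟩ := hdich r hr hc
      rw [← hgd, ← finrank_quotient_span_eq_natDegree (f := g)]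
      have hle : I ≤ Ideal.span {g} := by
        rw [hI, Ideal.span_le]
        intro p hp
        rw [SetLike.mem_coe, Ideal.mem_span_singleton]
        exact hgW p (Vt_mono' x u hr hp)
      have hs : Function.Surjective (Ideal.Quotient.factorₐ K hle).toLinearMap := by
        intro z
        obtain ⟨p, rfl⟩ := Ideal.Quotient.mk_surjective z
        exact ⟨Ideal.Quotient.mk I p, rfl⟩
      exact LinearMap.finrank_le_finrank_of_surjective hs
    · left
      have hv := finrank_Vt_le (K := K) x u r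
      have hv' := finrank_Vt_le (K := K) x u (r + 1)
      unfold hh
      omega
  have h4 : ∀ r, Q ≤ r + 1 → hh K x u (r + 1) + 1 ≤ hh K x u r ∨ hh K x u r = 0 := by
    intro r hr
    by_cases hc : finrank K ↥(Vt K x u (r + 1)) ≤ finrank K ↥(Vt K x u r) + 1
    · right
      obtain ⟨g, hg, hgW, hgd⟩ := hdich r (by omega) hc
      rw [← hgd]
      have hle : Ideal.span (Vt K x u Q : Set K[X]) ≤ Ideal.span {g} := by
        rw [Ideal.span_le]
        intro p hp
        rw [SetLike.mem_coe, Ideal.mem_span_singleton]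
        exact hgW p (Vt_mono' x u hr hp)
      rw [hQ, top_le_iff, Ideal.span_singleton_eq_top] at hle
      exact natDegree_eq_zero_of_isUnit hle
    · left
      have hv := finrank_Vt_le (K := K) x u r
      have hv' := finrank_Vt_le (K := K) x u (r + 1)
      unfold hh
      omega
  have key := planar_num (hh K x u) E Q γ hE hEQ h1 h2 h3 h3' h4 h5 (T + 1)
  rw [sum_hh x u hu T] at key
  refine ⟨fun t ht => ?_, key.2⟩
  have := key.1 t ht
  rwa [sum_hh x u hu t] at this

end planar

end BDG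

end FPlanar
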