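import Mathlib
import Pool.Agent.helper88.BDG.N1
import Pool.Agent.helper88.BDG.N2
import Pool.Agent.helper88.BDG.Ranks
import Pool.Agent.helper88.BDG.Frame
import Pool.Agent.helper88.BDG.Lin
import Pool.Agent.helper88.BDG.Gauss
import Pool.Agent.helper88.BDG.Planar

/-!
Merged modules `Poly`, `Virt`, `ST`, `ST2`, `Dich`, `Dich2`.
-/

section FPoly

/-!
Polynomials of bounded degree and affine point sets.
-/

namespace BDG
open Module Finset

section basic
variable (K : Type*) [Field K] (F : Type*) [Field F] [Algebra F K]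

/-- polynomials of degree at most one -/
noncomputable def LP (N : ℕ) : Submodule K (MvPolynomial (Fin N) K) :=
  Submodule.span K (insert 1 (Set.range MvPolynomial.X))

/-- affine functions on `F^N` -/
def Lc (N : ℕ) : Submodule K ((Fin N → F) → K) :=
  Submodule.span K (insert 1 (Set.range fun i (a : Fin N → F) => algebraMap F K (a i)))

/-- evaluation at the points of `F^N` -/
noncomputable def evF (N : ℕ) : MvPolynomial (Fin N) K →ₐ[K] ((Fin N → F) → K) :=
  MvPolynomial.aeval (fun i (a : Fin N → F) => algebraMap F K (a i))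

variable {K F}

lemma evF_apply {N : ℕ} (g : MvPolynomial (Fin N) K) (a : Fin N → F) :
    evF K F N g a = MvPolynomial.aeval (fun i => algebraMap F K (a i)) g := by
  have h : (Pi.evalAlgHom K (fun _ : Fin N → F => K) a).comp (evF K F N) =
      MvPolynomial.aeval (fun i => algebraMap F K (a i)) := by
    refine MvPolynomial.algHom_ext fun i => ?_
    simp [evF]
  exact DFunLike.congr_fun h g

lemma one_mem_LP (N : ℕ) : (1 : MvPolynomial (Fin N) K) ∈ LP K N :=
  Submodule.subset_span (by simp)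

lemma X_mem_LP {N : ℕ} (i : Fin N) : (MvPolynomial.X i : MvPolynomial (Fin N) K) ∈ LP K N :=
  Submodule.subset_span (by simp)

lemma C_mem_LP {N : ℕ} (c : K) : (MvPolynomial.C c : MvPolynomial (Fin N) K) ∈ LP K N := by
  have : (MvPolynomial.C c : MvPolynomial (Fin N) K) = c • 1 := by
    rw [MvPolynomial.smul_eq_C_mul, mul_one]
  rw [this]
  exact Submodule.smul_mem _ _ (one_mem_LP N)

instance LP_fd (N : ℕ) : FiniteDimensional K ↥(LP K N) :=
  FiniteDimensional.span_of_finite K ((Set.finite_range _).insert _)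

lemma LP_map {N : ℕ} {B : Type*} [CommRing B] [Algebra K B] (θ : MvPolynomial (Fin N) K →ₐ[K] B) :
    (LP K N).map θ.toLinearMap =
      Submodule.span K (insert 1 (Set.range fun i => θ (MvPolynomial.X i))) := by
  rw [LP, Submodule.map_span, Set.image_insert_eq, ← Set.range_comp]
  congr 2
  exact map_one θ

lemma LP_map_le {N : ℕ} {B : Type*} [CommRing B] [Algebra K B] (θ : MvPolynomial (Fin N) K →ₐ[K] B)
    (L : Submodule K B) (h1 : (1 : B) ∈ L) (hX : ∀ i, θ (MvPolynomial.X i) ∈ L) :
    (LP K N).map θ.toLinearMap ≤ L := by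
  rw [LP_map, Submodule.span_le]
  rintro _ (rfl | ⟨i, rfl⟩)
  · exact h1
  · exact hX i

lemma LP_map_evF (N : ℕ) : (LP K N).map (evF K F N).toLinearMap = Lc K F N := by
  rw [LP_map, Lc]
  congr 3
  funext i
  simp [evF]

lemma one_mem_Lc (N : ℕ) : (1 : (Fin N → F) → K) ∈ Lc K F N :=
  Submodule.subset_span (by simp)

lemma coord_mem_Lc {N : ℕ} (i : Fin N) : (fun a : Fin N → F => algebraMap F K (a i)) ∈ Lc K F N :=
  Submodule.subset_span (by simp)

/-- the Hilbert function in terms of polynomials -/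
lemma Hs_Lc {N : ℕ} (A : Finset (Fin N → F)) (t : ℕ) :
    Hs (Lc K F N) A t =
      finrank K ↥(((LP K N) ^ t).map ((res K A).comp (evF K F N)).toLinearMap) := by
  unfold Hs
  rw [← LP_map_evF, ← Submodule.map_pow, ← Submodule.map_comp]
  rfl

/-- polynomials of degree `≤ E` vanishing on `A` -/
def JJ (K : Type*) [Field K] {F : Type*} [Field F] [Algebra F K] {N : ℕ} (A : Finset (Fin N → F))
    (E : ℕ) : Set (MvPolynomial (Fin N) K) :=
  {g | g ∈ (LP K N) ^ E ∧ ∀ a ∈ A, evF K F N g a = 0}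

/-- specialisation of all but the zeroth variable -/
noncomputable def sp {n : ℕ} (y : Fin n → K) :
    MvPolynomial (Fin (n + 1)) K →ₐ[K] Polynomial K :=
  MvPolynomial.aeval (Fin.cons Polynomial.X (fun j => Polynomial.C (y j)))

@[simp] lemma sp_X_zero {n : ℕ} (y : Fin n → K) : sp y (MvPolynomial.X 0) = Polynomial.X := by
  simp [sp]

@[simp] lemma sp_X_succ {n : ℕ} (y : Fin n → K) (j : Fin n) :
    sp y (MvPolynomial.X j.succ) = Polynomial.C (y j) := by
  simp [sp]

lemma sp_rename {n : ℕ} (y : Fin n → K) (r : MvPolynomial (Fin n) K) :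
    sp y (MvPolynomial.rename Fin.succ r) = Polynomial.C (MvPolynomial.eval y r) := by
  have h : (sp y).comp (MvPolynomial.rename Fin.succ) =
      (Polynomial.CAlgHom).comp (MvPolynomial.aeval y) := by
    refine MvPolynomial.algHom_ext fun i => ?_
    simp [MvPolynomial.rename_X]
  have := DFunLike.congr_fun h r
  simpa [MvPolynomial.aeval_eq_eval] using this

lemma sp_eq_map {n : ℕ} (y : Fin n → K) (g : MvPolynomial (Fin (n + 1)) K) :
    sp y g = (MvPolynomial.finSuccEquiv K n g).map (MvPolynomial.eval y) := by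
  have h : sp y = ((Polynomial.mapAlgHom (MvPolynomial.aeval (R := K) y)).comp
      (MvPolynomial.finSuccEquiv K n).toAlgHom) := by
    refine MvPolynomial.algHom_ext fun i => ?_
    refine Fin.cases ?_ (fun j => ?_) i
    · simp [MvPolynomial.finSuccEquiv_X_zero]
    · simp [MvPolynomial.finSuccEquiv_X_succ]
  have := DFunLike.congr_fun h g
  simpa [MvPolynomial.aeval_eq_eval] using this

/-- a polynomial of degree `≤ t` in an element of `L` lies in `L ^ t` -/
lemma aeval_mem_pow {B : Type*} [CommRing B] [Algebra K B] (L : Submodule K B) (h1 : (1 : B) ∈ L)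
    {y : B} (hy : y ∈ L) {p : Polynomial K} {t : ℕ} (hp : p.natDegree ≤ t) :
    Polynomial.aeval y p ∈ L ^ t := by
  rw [Polynomial.aeval_eq_sum_range' (n := t + 1) (by omega)]
  refine Submodule.sum_mem _ fun i hi => Submodule.smul_mem _ _ ?_
  rw [Finset.mem_range] at hi
  exact pow_le_pow_right' (Submodule.one_le.2 h1) (show i ≤ t by omega)
    (Submodule.pow_mem_pow _ hy i)

lemma sp_natDegree {n : ℕ} (y : Fin n → K) {t : ℕ} {g : MvPolynomial (Fin (n + 1)) K}
    (hg : g ∈ (LP K (n + 1)) ^ t) : sp y g ∈ Polynomial.degreeLT K (t + 1) := by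
  have h1 : (LP K (n + 1)).map (sp y).toLinearMap ≤ Polynomial.degreeLT K 2 := by
    refine LP_map_le _ _ ?_ ?_
    · rw [Polynomial.mem_degreeLT, Polynomial.degree_one]; exact_mod_cast (by norm_num : 0 < 2)
    · intro i
      refine Fin.cases ?_ (fun j => ?_) i
      · rw [sp_X_zero, Polynomial.mem_degreeLT, Polynomial.degree_X]
        exact_mod_cast (by norm_num : 1 < 2)
      · rw [sp_X_succ, Polynomial.mem_degreeLT]
        exact Polynomial.degree_C_le.trans_lt (by exact_mod_cast (by norm_num : 0 < 2))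
  have h2 : ∀ t, (Polynomial.degreeLT K 2) ^ t ≤ Polynomial.degreeLT K (t + 1) := by
    intro t
    induction t with
    | zero =>
      rw [pow_zero, Submodule.one_le, Polynomial.mem_degreeLT, Polynomial.degree_one]
      exact_mod_cast Nat.succ_pos 0
    | succ t ih =>
      rw [pow_succ, Submodule.mul_le]
      intro m hm n hn
      have hm' := ih hm
      rw [Polynomial.mem_degreeLT] at hm' hn ⊢
      rw [Polynomial.degree_mul]
      by_cases hm0 : m = 0
      · rw [hm0, Polynomial.degree_zero, WithBot.bot_add]; exact WithBot.bot_lt_coe _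
      by_cases hn0 : n = 0
      · rw [hn0, Polynomial.degree_zero, WithBot.add_bot]; exact WithBot.bot_lt_coe _
      rw [Polynomial.degree_eq_natDegree hm0] at hm' ⊢
      rw [Polynomial.degree_eq_natDegree hn0] at hn ⊢
      have h3 : m.natDegree < t + 1 := by exact_mod_cast hm'
      have h4 : n.natDegree < 2 := by exact_mod_cast hn
      exact_mod_cast (by omega : m.natDegree + n.natDegree < t + 1 + 1)
  have h3 : sp y g ∈ ((LP K (n + 1)) ^ t).map (sp y).toLinearMap := ⟨g, hg, rfl⟩
  rw [Submodule.map_pow] at h3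
  exact h2 t (pow_le_pow_left' h1 t h3)

end basic

section diff
variable {K : Type*} [Field K] {n : ℕ} {B : Type*} [CommRing B] [Algebra K B]

/-- the algebra map sending `X_0` to `x` and `X_{j+1}` to `ys j + δ j u` -/
noncomputable def th (x u : B) (ys δ : Fin n → K) : MvPolynomial (Fin (n + 1)) K →ₐ[K] B :=
  MvPolynomial.aeval (Fin.cons x (fun j => algebraMap K B (ys j) + δ j • u))

@[simp] lemma th_X_zero (x u : B) (ys δ : Fin n → K) : th x u ys δ (MvPolynomial.X 0) = x := by
  simp [th]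

@[simp] lemma th_X_succ (x u : B) (ys δ : Fin n → K) (j : Fin n) :
    th x u ys δ (MvPolynomial.X j.succ) = algebraMap K B (ys j) + δ j • u := by
  simp [th]

lemma algebraMap_mem_L3 (x u : B) (c : K) : algebraMap K B c ∈ L3 K x u := by
  rw [Algebra.algebraMap_eq_smul_one]
  exact Submodule.smul_mem _ _ (one_mem_L3 x u)

lemma th_LP_le (x u : B) (ys δ : Fin n → K) :
    (LP K (n + 1)).map (th x u ys δ).toLinearMap ≤ L3 K x u := by
  refine LP_map_le _ _ (one_mem_L3 x u) ?_
  intro i
  refine Fin.cases ?_ (fun j => ?_) i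
  · rw [th_X_zero]; exact x_mem_L3 x u
  · rw [th_X_succ]
    exact Submodule.add_mem _ (algebraMap_mem_L3 x u _) (Submodule.smul_mem _ _ (u_mem_L3 x u))

lemma th_LP_eq (x u : B) (ys δ : Fin n → K) {j : Fin n} (hj : δ j ≠ 0) :
    (LP K (n + 1)).map (th x u ys δ).toLinearMap = L3 K x u := by
  refine le_antisymm (th_LP_le x u ys δ) ?_
  refine Submodule.span_le.2 ?_
  rintro z (rfl | rfl | rfl)
  · exact ⟨1, one_mem_LP _, map_one (th x u ys δ)⟩
  · exact ⟨MvPolynomial.X 0, X_mem_LP 0, th_X_zero _ _ _ _⟩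
  · refine ⟨(δ j)⁻¹ • (MvPolynomial.X j.succ - MvPolynomial.C (ys j)), ?_, ?_⟩
    · exact Submodule.smul_mem _ _ (Submodule.sub_mem _ (X_mem_LP _) (C_mem_LP _))
    · show th x z ys δ _ = z
      rw [map_smul, map_sub, th_X_succ]
      have : th x z ys δ (MvPolynomial.C (ys j)) = algebraMap K B (ys j) :=
        (th x z ys δ).commutes (ys j)
      rw [this, add_sub_cancel_left, smul_smul, inv_mul_cancel₀ hj, one_smul]

lemma th_mem_pow (x u : B) (ys δ : Fin n → K) {t : ℕ} {g : MvPolynomial (Fin (n + 1)) K}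
    (hg : g ∈ (LP K (n + 1)) ^ t) : th x u ys δ g ∈ (L3 K x u) ^ t := by
  have h3 : th x u ys δ g ∈ ((LP K (n + 1)) ^ t).map (th x u ys δ).toLinearMap := ⟨g, hg, rfl⟩
  rw [Submodule.map_pow] at h3
  exact pow_le_pow_left' (th_LP_le x u ys δ) t h3

/-- comparing the specialisation at `ys` with `th` -/
lemma diff_mem (x u : B) (ys δ : Fin n → K) : ∀ (t : ℕ) (g : MvPolynomial (Fin (n + 1)) K),
    g ∈ (LP K (n + 1)) ^ t → Polynomial.aeval x (sp ys g) - th x u ys δ g ∈ Mt K x u t := by
  intro t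
  induction t with
  | zero =>
    intro g hg
    rw [pow_zero, Submodule.mem_one] at hg
    obtain ⟨c, rfl⟩ := hg
    rw [AlgHom.commutes, AlgHom.commutes, AlgHom.commutes, sub_self]
    exact Submodule.zero_mem _
  | succ t ih =>
    intro g hg
    rw [pow_succ] at hg
    refine Submodule.mul_induction_on hg ?_ ?_
    · intro m hm l hl
      have h1 := ih m hm
      have h2 : ∀ l ∈ LP K (n + 1), Polynomial.aeval x (sp ys l) ∈ L3 K x u ∧
          ∃ c : K, Polynomial.aeval x (sp ys l) - th x u ys δ l = c • u := by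
        intro l hl
        refine Submodule.span_induction (p := fun l _ => Polynomial.aeval x (sp ys l) ∈ L3 K x u ∧
          ∃ c : K, Polynomial.aeval x (sp ys l) - th x u ys δ l = c • u) ?_ ?_ ?_ ?_ hl
        · rintro _ (rfl | ⟨i, rfl⟩)
          · rw [map_one, map_one, map_one]
            exact ⟨one_mem_L3 x u, 0, by simp⟩
          · refine Fin.cases ?_ (fun j => ?_) i
            · rw [sp_X_zero, th_X_zero, Polynomial.aeval_X]
              exact ⟨x_mem_L3 x u, 0, by simp⟩
            · rw [sp_X_succ, th_X_succ, Polynomial.aeval_C]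
              exact ⟨algebraMap_mem_L3 x u _, -(δ j), by rw [neg_smul]; ring⟩
        · rw [map_zero, map_zero, map_zero]
          exact ⟨Submodule.zero_mem _, 0, by simp⟩
        · rintro a b _ _ ⟨ha, c, hc⟩ ⟨hb, d, hd⟩
          rw [map_add, map_add, map_add]
          exact ⟨Submodule.add_mem _ ha hb, c + d, by rw [add_smul, ← hc, ← hd]; ring⟩
        · rintro r a _ ⟨ha, c, hc⟩
          rw [map_smul, map_smul, map_smul]
          exact ⟨Submodule.smul_mem _ _ ha, r * c, by rw [mul_smul, ← hc, smul_sub]⟩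
      obtain ⟨hl1, c, hc⟩ := h2 l hl
      rw [map_mul, map_mul, map_mul]
      have h3 : Polynomial.aeval x (sp ys m) * Polynomial.aeval x (sp ys l) -
          th x u ys δ m * th x u ys δ l =
          Polynomial.aeval x (sp ys l) * (Polynomial.aeval x (sp ys m) - th x u ys δ m) +
          th x u ys δ m * (Polynomial.aeval x (sp ys l) - th x u ys δ l) := by ring
      rw [h3, hc]
      refine Submodule.add_mem _ (Mt_mul x u t h1 hl1) ?_
      refine ⟨c • th x u ys δ m, Submodule.smul_mem _ _ (th_mem_pow x u ys δ hm), ?_⟩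
      rw [LinearMap.mulLeft_apply, mul_smul_comm, mul_smul_comm, mul_comm]
    · intro a b ha hb
      rw [map_add, map_add, map_add]
      have h3 : Polynomial.aeval x (sp ys a) + Polynomial.aeval x (sp ys b) -
          (th x u ys δ a + th x u ys δ b) =
          (Polynomial.aeval x (sp ys a) - th x u ys δ a) +
          (Polynomial.aeval x (sp ys b) - th x u ys δ b) := by ring
      rw [h3]
      exact Submodule.add_mem _ ha hb

/-- polynomials in the kernel of `th` specialise into `Vt` -/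
lemma sp_mem_Vt (x u : B) (ys δ : Fin n → K) {t : ℕ} {g : MvPolynomial (Fin (n + 1)) K}
    (hg : g ∈ (LP K (n + 1)) ^ t) (h0 : th x u ys δ g = 0) : sp ys g ∈ Vt K x u t := by
  refine ⟨sp_natDegree ys hg, ?_⟩
  have := diff_mem x u ys δ t g hg
  rw [h0, sub_zero] at this
  exact this

end diff

end BDG

end FPoly

section FVirt

/-!
The virtual scheme on a generic line.
-/

namespace BDG
open Module Finset

section subst
variable {K : Type*} [Field K] {F : Type*} [Field F] [Algebra F K] {n : ℕ}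

/-- pairing of an `F`-vector with a `K`-vector -/
def dotK (l : Fin n → F) (b : Fin n → K) : K := ∑ j, algebraMap F K (l j) * b j

/-- drop coordinate `1` -/
def drop1 {α : Type*} (a : Fin (n + 2) → α) : Fin (n + 1) → α :=
  Fin.cons (a 0) (fun j : Fin n => a j.succ.succ)

@[simp] lemma drop1_zero {α : Type*} (a : Fin (n + 2) → α) : drop1 a 0 = a 0 := rfl
@[simp] lemma drop1_succ {α : Type*} (a : Fin (n + 2) → α) (j : Fin n) :
    drop1 a j.succ = a j.succ.succ := rfl

/-- the points of `A` on the hyperplane `l . y = μ`, in coordinates of the hyperplane -/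
def slice [DecidableEq F] (A : Finset (Fin (n + 2) → F)) (l : Fin (n + 1) → F) (μ : F) :
    Finset (Fin (n + 1) → F) :=
  (A.filter fun a => ∑ j, l j * a j.succ = μ).image drop1

/-- substitution for the hyperplane -/
noncomputable def sub1 (K : Type*) [Field K] {F : Type*} [Field F] [Algebra F K] {n : ℕ}
    (l : Fin (n + 1) → F) (μ : F) :
    MvPolynomial (Fin (n + 2)) K →ₐ[K] MvPolynomial (Fin (n + 1)) K :=
  MvPolynomial.aeval (Fin.cons (MvPolynomial.X 0) (Fin.cons
    (MvPolynomial.C (algebraMap F K μ) -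
      ∑ j : Fin n, MvPolynomial.C (algebraMap F K (l j.succ)) * MvPolynomial.X j.succ)
    (fun j : Fin n => MvPolynomial.X j.succ)))

/-- the same substitution on the `y`-variables -/
noncomputable def sub0 (K : Type*) [Field K] {F : Type*} [Field F] [Algebra F K] {n : ℕ}
    (l : Fin (n + 1) → F) (μ : F) :
    MvPolynomial (Fin (n + 1)) K →ₐ[K] MvPolynomial (Fin n) K :=
  MvPolynomial.aeval (Fin.cons
    (MvPolynomial.C (algebraMap F K μ) -
      ∑ j : Fin n, MvPolynomial.C (algebraMap F K (l j.succ)) * MvPolynomial.X j)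
    (fun j : Fin n => MvPolynomial.X j))

@[simp] lemma sub1_X_zero (l : Fin (n + 1) → F) (μ : F) :
    sub1 K l μ (MvPolynomial.X 0) = MvPolynomial.X 0 := by
  simp [sub1]

@[simp] lemma sub1_X_one (l : Fin (n + 1) → F) (μ : F) :
    sub1 K l μ (MvPolynomial.X (Fin.succ 0)) = MvPolynomial.C (algebraMap F K μ) -
      ∑ j : Fin n, MvPolynomial.C (algebraMap F K (l j.succ)) * MvPolynomial.X j.succ := by
  rw [sub1, MvPolynomial.aeval_X, Fin.cons_succ, Fin.cons_zero]

@[simp] lemma sub1_X_succ (l : Fin (n + 1) → F) (μ : F) (j : Fin n) :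
    sub1 K l μ (MvPolynomial.X j.succ.succ) = MvPolynomial.X j.succ := by
  rw [sub1, MvPolynomial.aeval_X, Fin.cons_succ, Fin.cons_succ]

lemma sub1_LP (l : Fin (n + 1) → F) (μ : F) :
    (LP K (n + 2)).map (sub1 K l μ).toLinearMap ≤ LP K (n + 1) := by
  refine LP_map_le _ _ (one_mem_LP _) ?_
  intro i
  refine Fin.cases ?_ (fun j => ?_) i
  · rw [sub1_X_zero]; exact X_mem_LP _
  · refine Fin.cases ?_ (fun j => ?_) j
    · rw [sub1_X_one]
      refine Submodule.sub_mem _ (C_mem_LP _) (Submodule.sum_mem _ fun j _ => ?_)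
      rw [← MvPolynomial.smul_eq_C_mul]
      exact Submodule.smul_mem _ _ (X_mem_LP _)
    · rw [sub1_X_succ]; exact X_mem_LP _

lemma sub1_mem_pow (l : Fin (n + 1) → F) (μ : F) {t : ℕ} {g : MvPolynomial (Fin (n + 2)) K}
    (hg : g ∈ (LP K (n + 2)) ^ t) : sub1 K l μ g ∈ (LP K (n + 1)) ^ t := by
  have h3 : sub1 K l μ g ∈ ((LP K (n + 2)) ^ t).map (sub1 K l μ).toLinearMap := ⟨g, hg, rfl⟩
  rw [Submodule.map_pow] at h3
  exact pow_le_pow_left' (sub1_LP l μ) t h3

lemma sub1_ev {l : Fin (n + 1) → F} (hl : l 0 = 1) {μ : F} {a : Fin (n + 2) → F}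
    (ha : ∑ j, l j * a j.succ = μ) (g : MvPolynomial (Fin (n + 2)) K) :
    evF K F (n + 1) (sub1 K l μ g) (drop1 a) = evF K F (n + 2) g a := by
  have h : (MvPolynomial.aeval (R := K) (fun i => algebraMap F K (drop1 a i))).comp (sub1 K l μ) =
      MvPolynomial.aeval (fun i => algebraMap F K (a i)) := by
    refine MvPolynomial.algHom_ext fun i => ?_
    rw [AlgHom.comp_apply]
    refine Fin.cases ?_ (fun j => ?_) i
    · rw [sub1_X_zero]; simp
    · refine Fin.cases ?_ (fun j => ?_) j
      · rw [sub1_X_one, map_sub, map_sum, MvPolynomial.aeval_X, ← ha, Fin.sum_univ_succ, hl]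
        simp
      · rw [sub1_X_succ]; simp
  rw [evF_apply, evF_apply]
  exact DFunLike.congr_fun h g

lemma sub1_JJ [DecidableEq F] (A : Finset (Fin (n + 2) → F)) {l : Fin (n + 1) → F}
    (hl : l 0 = 1) (μ : F)
    {E : ℕ} {g : MvPolynomial (Fin (n + 2)) K} (hg : g ∈ JJ K A E) :
    sub1 K l μ g ∈ JJ K (slice A l μ) E := by
  refine ⟨sub1_mem_pow l μ hg.1, ?_⟩
  intro b hb
  obtain ⟨a, ha, rfl⟩ := Finset.mem_image.1 hb
  obtain ⟨haA, ha⟩ := Finset.mem_filter.1 ha
  rw [sub1_ev hl ha]
  exact hg.2 a haA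

lemma sub1_sp {l : Fin (n + 1) → F} (hl : l 0 = 1) {μ : F} {y : Fin (n + 1) → K}
    (hy : dotK l y = algebraMap F K μ) (g : MvPolynomial (Fin (n + 2)) K) :
    sp (fun j : Fin n => y j.succ) (sub1 K l μ g) = sp y g := by
  have h : (sp (fun j : Fin n => y j.succ)).comp (sub1 K l μ) = sp y := by
    refine MvPolynomial.algHom_ext fun i => ?_
    rw [AlgHom.comp_apply]
    refine Fin.cases ?_ (fun j => ?_) i
    · rw [sub1_X_zero, sp_X_zero, sp_X_zero]
    · refine Fin.cases ?_ (fun j => ?_) j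
      · have hC : ∀ c : K, sp (fun j : Fin n => y j.succ) (MvPolynomial.C c) =
            Polynomial.C c := fun c => (sp (fun j : Fin n => y j.succ)).commutes c
        rw [sub1_X_one, map_sub, map_sum, sp_X_succ, hC, ← hy, dotK, Fin.sum_univ_succ, hl]
        simp only [map_mul, hC, sp_X_succ, map_one, one_mul, map_add, map_sum]
        ring
      · rw [sub1_X_succ, sp_X_succ, sp_X_succ]
  exact DFunLike.congr_fun h g

lemma finSucc_sub1 (l : Fin (n + 1) → F) (μ : F) (g : MvPolynomial (Fin (n + 2)) K) :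
    MvPolynomial.finSuccEquiv K n (sub1 K l μ g) =
      (MvPolynomial.finSuccEquiv K (n + 1) g).map (sub0 K l μ).toRingHom := by
  have h : (MvPolynomial.finSuccEquiv K n).toAlgHom.comp (sub1 K l μ) =
      (Polynomial.mapAlgHom (sub0 K l μ)).comp (MvPolynomial.finSuccEquiv K (n + 1)).toAlgHom := by
    refine MvPolynomial.algHom_ext fun i => ?_
    show MvPolynomial.finSuccEquiv K n (sub1 K l μ (MvPolynomial.X i)) =
      Polynomial.map (sub0 K l μ).toRingHom (MvPolynomial.finSuccEquiv K (n + 1) (MvPolynomial.X i))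
    have hC : ∀ c : K, MvPolynomial.finSuccEquiv K n (MvPolynomial.C c) =
        Polynomial.C (MvPolynomial.C c) := fun c => (MvPolynomial.finSuccEquiv K n).commutes c
    refine Fin.cases ?_ (fun j => ?_) i
    · rw [sub1_X_zero, MvPolynomial.finSuccEquiv_X_zero, MvPolynomial.finSuccEquiv_X_zero,
        Polynomial.map_X]
    · rw [MvPolynomial.finSuccEquiv_X_succ, Polynomial.map_C]
      refine Fin.cases ?_ (fun j => ?_) j
      · have h2 : (sub0 K l μ).toRingHom (MvPolynomial.X (0 : Fin (n + 1))) =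
            MvPolynomial.C (algebraMap F K μ) -
            ∑ j : Fin n, MvPolynomial.C (algebraMap F K (l j.succ)) * MvPolynomial.X j := by
          show sub0 K l μ (MvPolynomial.X (0 : Fin (n + 1))) = _
          rw [sub0, MvPolynomial.aeval_X, Fin.cons_zero]
        rw [sub1_X_one, h2]
        simp only [map_sub, map_sum, map_mul, hC, MvPolynomial.finSuccEquiv_X_succ]
      · have h2 : (sub0 K l μ).toRingHom (MvPolynomial.X j.succ) = MvPolynomial.X j := by
          show sub0 K l μ (MvPolynomial.X j.succ) = _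
          rw [sub0, MvPolynomial.aeval_X, Fin.cons_succ]
        rw [sub1_X_succ, h2, MvPolynomial.finSuccEquiv_X_succ]
  exact DFunLike.congr_fun h g

end subst

section virt
variable {K : Type*} [Field K] {F : Type*} [Field F] [Algebra F K] [DecidableEq F] {n : ℕ}
  {C : Type*} (A : Finset (Fin (n + 2) → F)) (E : ℕ) (ℓ : C → Fin (n + 1) → F)
  (ys δ : Fin (n + 1) → K)

/-- parameter of the intersection of the line with a hyperplane -/
noncomputable def uu (h : C × F) : K :=
  (algebraMap F K h.2 - dotK (ℓ h.1) ys) / dotK (ℓ h.1) δ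

/-- the intersection point -/
noncomputable def yh (h : C × F) : Fin (n + 1) → K := fun j => ys j + uu ℓ ys δ h * δ j

/-- the ideal of the virtual scheme at the intersection point -/
noncomputable def Ih (h : C × F) : Ideal (Polynomial K) :=
  Ideal.span (sp (fun j : Fin n => yh ℓ ys δ h j.succ) '' (JJ K (slice A (ℓ h.1) h.2) E))

/-- the virtual algebra -/
abbrev AA : Type _ := ∀ h : C × F, Polynomial K ⧸ Ih A E ℓ ys δ h

/-- the coordinate `x` -/
noncomputable def xx : AA A E ℓ ys δ := fun h => Ideal.Quotient.mk (Ih A E ℓ ys δ h) Polynomial.X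

/-- the coordinate `u` -/
noncomputable def ub : AA A E ℓ ys δ := fun h => algebraMap K _ (uu ℓ ys δ h)

variable {A E ℓ ys δ}

omit [DecidableEq F] in
lemma dotK_yh (hδ : ∀ c, dotK (ℓ c) δ ≠ 0) (h : C × F) :
    dotK (ℓ h.1) (yh ℓ ys δ h) = algebraMap F K h.2 := by
  have h1 : dotK (ℓ h.1) (yh ℓ ys δ h) =
      dotK (ℓ h.1) ys + uu ℓ ys δ h * dotK (ℓ h.1) δ := by
    unfold dotK yh
    rw [Finset.mul_sum, ← Finset.sum_add_distrib]
    refine Finset.sum_congr rfl fun j _ => ?_
    ring
  rw [h1, uu, div_mul_cancel₀ _ (hδ _)]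
  ring

lemma th_apply (g : MvPolynomial (Fin (n + 2)) K) (h : C × F) :
    th (xx A E ℓ ys δ) (ub A E ℓ ys δ) ys δ g h =
      Ideal.Quotient.mk (Ih A E ℓ ys δ h) (sp (yh ℓ ys δ h) g) := by
  have e : (Pi.evalAlgHom K (fun h : C × F => Polynomial K ⧸ Ih A E ℓ ys δ h) h).comp
      (th (xx A E ℓ ys δ) (ub A E ℓ ys δ) ys δ) =
      (Ideal.Quotient.mkₐ K (Ih A E ℓ ys δ h)).comp (sp (yh ℓ ys δ h)) := by
    refine MvPolynomial.algHom_ext fun i => ?_
    rw [AlgHom.comp_apply, AlgHom.comp_apply]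
    refine Fin.cases ?_ (fun j => ?_) i
    · rw [th_X_zero, sp_X_zero]
      rfl
    · rw [th_X_succ, sp_X_succ]
      show algebraMap K _ (ys j) + δ j • algebraMap K (Polynomial K ⧸ Ih A E ℓ ys δ h)
        (uu ℓ ys δ h) = algebraMap K (Polynomial K ⧸ Ih A E ℓ ys δ h) (yh ℓ ys δ h j)
      have hsm : ∀ (k : K) (w : Polynomial K ⧸ Ih A E ℓ ys δ h), k • w =
        algebraMap K (Polynomial K ⧸ Ih A E ℓ ys δ h) k * w := fun k w => Algebra.smul_def k w
      rw [yh, map_add, map_mul, hsm, mul_comm (algebraMap K _ (δ j))]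
  exact DFunLike.congr_fun e g

lemma th_JJ (hℓ : ∀ c, ℓ c 0 = 1) (hδ : ∀ c, dotK (ℓ c) δ ≠ 0)
    {g : MvPolynomial (Fin (n + 2)) K} (hg : g ∈ JJ K A E) :
    th (xx A E ℓ ys δ) (ub A E ℓ ys δ) ys δ g = 0 := by
  funext h
  rw [th_apply, Pi.zero_apply, Ideal.Quotient.eq_zero_iff_mem, ← sub1_sp (hℓ h.1) (dotK_yh hδ h)]
  exact Ideal.subset_span ⟨_, sub1_JJ A (hℓ h.1) h.2 hg, rfl⟩

lemma Ih_monic (hℓ : ∀ c, ℓ c 0 = 1) (hδ : ∀ c, dotK (ℓ c) δ ≠ 0)
    {F0 : MvPolynomial (Fin (n + 2)) K} (hF0 : F0 ∈ JJ K A E)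
    (hm : (MvPolynomial.finSuccEquiv K (n + 1) F0).Monic)
    (hd : (MvPolynomial.finSuccEquiv K (n + 1) F0).natDegree = E) (h : C × F) :
    ∃ f ∈ Ih A E ℓ ys δ h, f.Monic ∧ f.natDegree = E := by
  refine ⟨sp (yh ℓ ys δ h) F0, ?_, ?_, ?_⟩
  · rw [← sub1_sp (hℓ h.1) (dotK_yh hδ h)]
    exact Ideal.subset_span ⟨_, sub1_JJ A (hℓ h.1) h.2 hF0, rfl⟩
  · rw [sp_eq_map]; exact hm.map _
  · rw [sp_eq_map, hm.natDegree_map, hd]

lemma quot_reduce {I : Ideal (Polynomial K)} {f : Polynomial K} (hf : f ∈ I) (hm : f.Monic)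
    (hd : f.natDegree = E) (z : Polynomial K ⧸ I) :
    ∃ p ∈ Polynomial.degreeLT K E, Ideal.Quotient.mk I p = z := by
  obtain ⟨p, rfl⟩ := Ideal.Quotient.mk_surjective z
  refine ⟨Polynomial.modByMonic p f, ?_, ?_⟩
  · rw [Polynomial.mem_degreeLT, ← hd, ← Polynomial.degree_eq_natDegree hm.ne_zero]
    exact Polynomial.degree_modByMonic_lt p hm
  · rw [Ideal.Quotient.mk_eq_mk_iff_sub_mem]
    have h1 : Polynomial.modByMonic p f - p = -(f * (Polynomial.divByMonic p f)) := by
      have := Polynomial.modByMonic_add_div p f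
      linear_combination this
    rw [h1]
    exact I.neg_mem (I.mul_mem_right _ hf)

lemma quot_fd {I : Ideal (Polynomial K)} {f : Polynomial K} (hf : f ∈ I) (hm : f.Monic) :
    FiniteDimensional K (Polynomial K ⧸ I) := by
  have hφ : (Polynomial.degreeLT K f.natDegree).map (Ideal.Quotient.mkₐ K I).toLinearMap = ⊤ := by
    rw [eq_top_iff]
    intro z _
    obtain ⟨p, hp, rfl⟩ := quot_reduce hf hm rfl z
    exact ⟨p, hp, rfl⟩
  have h1 : FiniteDimensional K ↥((Polynomial.degreeLT K f.natDegree).map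
    (Ideal.Quotient.mkₐ K I).toLinearMap) := inferInstance
  rw [hφ] at h1
  exact Module.Finite.equiv (Submodule.topEquiv (R := K) (M := Polynomial K ⧸ I))

variable [Fintype C] [Fintype F]

lemma top_pow (hI : ∀ h : C × F, ∃ f ∈ Ih A E ℓ ys δ h, f.Monic ∧ f.natDegree = E)
    (hinj : Function.Injective (uu ℓ ys δ)) :
    ∃ T, (L3 K (xx A E ℓ ys δ) (ub A E ℓ ys δ)) ^ T = ⊤ := by
  classical
  set L := L3 K (xx A E ℓ ys δ) (ub A E ℓ ys δ) with hL
  let N := Fintype.card (C × F)
  refine ⟨N + E, ?_⟩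
  rw [eq_top_iff]
  intro z _
  -- the interpolation elements
  let e : C × F → AA A E ℓ ys δ := fun h =>
    ∏ h' ∈ univ.erase h, (ub A E ℓ ys δ - algebraMap K _ (uu ℓ ys δ h'))
  have he : ∀ h, e h ∈ L ^ N := by
    intro h
    have h1 : ∀ s : Finset (C × F), ∏ h' ∈ s, (ub A E ℓ ys δ - algebraMap K (AA A E ℓ ys δ)
        (uu ℓ ys δ h')) ∈ L ^ #s := by
      intro s
      induction s using Finset.induction_on with
      | empty => simp only [Finset.prod_empty, Finset.card_empty]
                 rw [pow_zero]; exact Submodule.one_le.1 le_rfl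
      | insert a s ha ih =>
        rw [Finset.prod_insert ha, Finset.card_insert_of_notMem ha, pow_succ,
          mul_comm (ub A E ℓ ys δ - algebraMap K (AA A E ℓ ys δ) (uu ℓ ys δ a))]
        exact Submodule.mul_mem_mul ih
          (Submodule.sub_mem _ (u_mem_L3 _ _) (algebraMap_mem_L3 _ _ _))
    exact L3_mono _ _ (by
      rw [Finset.card_erase_of_mem (Finset.mem_univ h)]; exact Nat.sub_le _ _) (h1 _)
  have he0 : ∀ h h', h' ≠ h → e h h' = 0 := by
    intro h h' hne
    simp only [e]
    rw [Finset.prod_apply]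
    refine Finset.prod_eq_zero (Finset.mem_erase.2 ⟨hne, Finset.mem_univ h'⟩) ?_
    rw [Pi.sub_apply, Pi.algebraMap_apply]
    exact sub_self _
  let c : C × F → K := fun h => ∏ h' ∈ univ.erase h, (uu ℓ ys δ h - uu ℓ ys δ h')
  have hc : ∀ h, c h ≠ 0 := by
    intro h
    refine Finset.prod_ne_zero_iff.2 fun h' hh' => ?_
    rw [Finset.mem_erase] at hh'
    exact sub_ne_zero.2 fun hcon => hh'.1 (hinj hcon).symm
  have he1 : ∀ h, e h h = algebraMap K _ (c h) := by
    intro h
    simp only [e, c]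
    rw [Finset.prod_apply, map_prod]
    refine Finset.prod_congr rfl fun h' _ => ?_
    rw [Pi.sub_apply, Pi.algebraMap_apply, map_sub]
    rfl
  have hp : ∀ h, ∃ p ∈ Polynomial.degreeLT K E, Ideal.Quotient.mk (Ih A E ℓ ys δ h) p = z h := by
    intro h
    obtain ⟨f, hf, hm, hd⟩ := hI h
    exact quot_reduce hf hm hd (z h)
  choose p hp hpz using hp
  have hz : z = ∑ h, (c h)⁻¹ • (e h * Polynomial.aeval (xx A E ℓ ys δ) (p h)) := by
    funext h'
    rw [Finset.sum_apply, Finset.sum_eq_single h']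
    · have hsm : ∀ (k : K) (w : Polynomial K ⧸ Ih A E ℓ ys δ h'), k • w =
        algebraMap K (Polynomial K ⧸ Ih A E ℓ ys δ h') k * w := fun k w => Algebra.smul_def k w
      rw [Pi.smul_apply, Pi.mul_apply, he1, ← hpz h', hsm, ← mul_assoc, ← map_mul,
        inv_mul_cancel₀ (hc h'), map_one, one_mul]
      have h5 : (Pi.evalAlgHom K (fun h : C × F => Polynomial K ⧸ Ih A E ℓ ys δ h) h')
          (Polynomial.aeval (xx A E ℓ ys δ) (p h')) =
          Polynomial.aeval (xx A E ℓ ys δ h') (p h') := by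
        rw [← Polynomial.aeval_algHom_apply]
        rfl
      have h6 : Polynomial.aeval (xx A E ℓ ys δ h') (p h') =
          Ideal.Quotient.mk (Ih A E ℓ ys δ h') (p h') := by
        have h7 := Polynomial.aeval_algHom_apply (Ideal.Quotient.mkₐ K (Ih A E ℓ ys δ h'))
          Polynomial.X (p h')
        rw [Polynomial.aeval_X_left_apply] at h7
        exact h7
      rw [← h6, ← h5]
      rfl
    · intro h _ hne
      rw [Pi.smul_apply, Pi.mul_apply, he0 h h' hne.symm, zero_mul, smul_zero]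
    · intro hcon; exact absurd (Finset.mem_univ _) hcon
  rw [hz]
  refine Submodule.sum_mem _ fun h _ => Submodule.smul_mem _ _ ?_
  rw [pow_add]
  refine Submodule.mul_mem_mul (he h) ?_
  refine aeval_mem_pow _ (one_mem_L3 _ _) (x_mem_L3 _ _) ?_
  have := hp h
  rw [Polynomial.mem_degreeLT] at this
  exact Polynomial.natDegree_le_iff_degree_le.2 this.le

/-- the main facts on the virtual scheme -/
theorem virt (hE : 1 ≤ E) (hℓ : ∀ c, ℓ c 0 = 1) (hys : ∀ c (μ : F), dotK (ℓ c) ys ≠ algebraMap F K μ)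
    (hδ : ∀ c, dotK (ℓ c) δ ≠ 0) (hinj : Function.Injective (uu ℓ ys δ))
    {F0 : MvPolynomial (Fin (n + 2)) K} (hF0 : F0 ∈ JJ K A E)
    (hm : (MvPolynomial.finSuccEquiv K (n + 1) F0).Monic)
    (hd : (MvPolynomial.finSuccEquiv K (n + 1) F0).natDegree = E)
    {r : MvPolynomial (Fin (n + 1)) K}
    (hr : MvPolynomial.rename Fin.succ r ∈ Ideal.span (JJ K A E))
    (hry : MvPolynomial.eval ys r ≠ 0) :
    ∑ h : C × F, finrank K (Polynomial K ⧸ Ih A E ℓ ys δ h) ≤ E ^ 2 ∧
    ∀ t, t < E → cnt (ext id E) 0 t (∑ h : C × F, finrank K (Polynomial K ⧸ Ih A E ℓ ys δ h)) ≤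
      finrank K ↥((L3 K (xx A E ℓ ys δ) (ub A E ℓ ys δ)) ^ t) := by
  have hI := Ih_monic (ys := ys) hℓ hδ hF0 hm hd
  have hfd : ∀ h : C × F, FiniteDimensional K (Polynomial K ⧸ Ih A E ℓ ys δ h) := by
    intro h
    obtain ⟨f, hf, hm, hd⟩ := hI h
    exact quot_fd hf hm
  obtain ⟨T, hT⟩ := top_pow hI hinj
  have hu : IsUnit (ub A E ℓ ys δ) := by
    rw [Pi.isUnit_iff]
    intro h
    refine IsUnit.map (algebraMap K (Polynomial K ⧸ Ih A E ℓ ys δ h)) (isUnit_iff_ne_zero.2 ?_)
    exact div_ne_zero (sub_ne_zero.2 (hys _ _).symm) (hδ _)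
  have hVt : ∀ g ∈ JJ K A E, sp ys g ∈ Vt K (xx A E ℓ ys δ) (ub A E ℓ ys δ) E := fun g hg =>
    sp_mem_Vt _ _ ys δ hg.1 (th_JJ hℓ hδ hg)
  have hQ : Ideal.span (Vt K (xx A E ℓ ys δ) (ub A E ℓ ys δ) E : Set (Polynomial K)) = ⊤ := by
    rw [Ideal.eq_top_iff_one]
    have h1 : ∀ z ∈ Ideal.span (JJ K A E), sp ys z ∈
        Ideal.span (Vt K (xx A E ℓ ys δ) (ub A E ℓ ys δ) E : Set (Polynomial K)) := by
      intro z hz
      have h2 := Ideal.mem_map_of_mem (sp ys).toRingHom hz
      rw [Ideal.map_span] at h2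
      refine Ideal.span_mono ?_ h2
      rintro _ ⟨g, hg, rfl⟩
      exact hVt g hg
    have h2 := h1 _ hr
    rw [sp_rename] at h2
    have h3 := Ideal.mul_mem_left _ (Polynomial.C (MvPolynomial.eval ys r)⁻¹) h2
    rwa [← map_mul, inv_mul_cancel₀ hry, map_one] at h3
  have key := planar (xx A E ℓ ys δ) (ub A E ℓ ys δ) hu E E hE le_rfl (sp ys F0)
    (by rw [sp_eq_map]; exact hm.map _) (by rw [sp_eq_map, hm.natDegree_map, hd])
    (hVt _ hF0) hQ T
  rw [hT, finrank_top, Nat.sub_self, Nat.mul_zero, Nat.sub_zero,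
    Module.finrank_pi_fintype] at key
  exact ⟨key.2, key.1⟩

omit [Fintype C] [Fintype F] in
/-- comparison of the virtual scheme and the point set -/
theorem virt_add (hℓ : ∀ c, ℓ c 0 = 1) (hδ : ∀ c, dotK (ℓ c) δ ≠ 0) [Nonempty C]
    {lam : MvPolynomial (Fin (n + 2)) K} (hlam : lam ∈ LP K (n + 2))
    (hlam0 : th (xx A E ℓ ys δ) (ub A E ℓ ys δ) ys δ lam = 0)
    (hlamA : ∀ a ∈ A, evF K F (n + 2) lam a ≠ 0) :
    ∀ t, t ≤ E → ∑ k ∈ range (t + 1),
      finrank K ↥((L3 K (xx A E ℓ ys δ) (ub A E ℓ ys δ)) ^ k) ≤ Hs (Lc K F (n + 2)) A t := by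
  obtain ⟨j, hj⟩ : ∃ j, δ j ≠ 0 := by
    by_contra hcon
    push Not at hcon
    apply hδ (Classical.arbitrary C)
    unfold dotK
    exact Finset.sum_eq_zero fun j _ => by rw [hcon j, mul_zero]
  have hmap : ∀ t, ((LP K (n + 2)) ^ t).map (th (xx A E ℓ ys δ) (ub A E ℓ ys δ) ys δ).toLinearMap =
      (L3 K (xx A E ℓ ys δ) (ub A E ℓ ys δ)) ^ t := by
    intro t
    rw [Submodule.map_pow, th_LP_eq _ _ _ _ hj]
  have hker : ∀ t ≤ E, ∀ g ∈ (LP K (n + 2)) ^ t, ((res K A).comp (evF K F (n + 2))).toLinearMap g = 0 →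
      (th (xx A E ℓ ys δ) (ub A E ℓ ys δ) ys δ).toLinearMap g = 0 := by
    intro t ht g hg h0
    have hle : (LP K (n + 2)) ^ t ≤ (LP K (n + 2)) ^ E :=
      pow_le_pow_right' (Submodule.one_le.2 (one_mem_LP _)) ht
    refine th_JJ hℓ hδ ⟨hle hg, ?_⟩
    intro a ha
    exact res_eq_zero.1 h0 a ha
  intro t
  induction t with
  | zero =>
    intro h0
    rw [Finset.sum_range_one, Hs_Lc, ← hmap]
    exact finrank_map_le_of_ker _ _ _ (hker 0 h0)
  | succ t ih =>
    intro ht
    rw [Finset.sum_range_succ]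
    have h1 := ih (by omega)
    have key := finrank_map_add ((LP K (n + 2)) ^ (t + 1))
      (((LP K (n + 2)) ^ t).map (LinearMap.mulLeft K lam))
      ((res K A).comp (evF K F (n + 2))).toLinearMap
      (th (xx A E ℓ ys δ) (ub A E ℓ ys δ) ys δ).toLinearMap (hker (t + 1) ht)
      (by
        rintro _ ⟨g, hg, rfl⟩
        rw [LinearMap.mulLeft_apply, mul_comm, pow_succ]
        exact Submodule.mul_mem_mul hg hlam)
      (by
        rintro _ ⟨g, hg, rfl⟩
        show th (xx A E ℓ ys δ) (ub A E ℓ ys δ) ys δ (lam * g) = 0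
        rw [map_mul, hlam0, zero_mul])
    rw [hmap, ← Hs_Lc] at key
    have h2 : Hs (Lc K F (n + 2)) A t ≤ finrank K ↥((((LP K (n + 2)) ^ t).map
        (LinearMap.mulLeft K lam)).map ((res K A).comp (evF K F (n + 2))).toLinearMap) := by
      rw [Hs_Lc, ← Submodule.map_comp]
      refine finrank_map_le_of_ker _ _ _ ?_
      intro g hg h0
      have h3 : res K A (evF K F (n + 2) (lam * g)) = 0 := h0
      show res K A (evF K F (n + 2) g) = 0
      rw [res_eq_zero] at h3 ⊢
      intro a ha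
      have h4 := h3 a ha
      rw [map_mul, Pi.mul_apply, mul_eq_zero] at h4
      exact h4.resolve_left (hlamA a ha)
    omega

end virt

end BDG

end FVirt

section FST1

/-!
Hilbert functions of point sets without common component.
-/

namespace BDG
open Module Finset

section generic
variable {K : Type*} [Field K] [Infinite K]

lemma avoid {m : ℕ} (r : MvPolynomial (Fin m) K) (hr : r ≠ 0) {ι : Type*} [Fintype ι]
    (v : ι → Fin m → K) (hv : ∀ i, v i ≠ 0) (c : ι → K) :
    ∃ y : Fin m → K, MvPolynomial.eval y r ≠ 0 ∧ ∀ i, ∑ j, v i j * y j ≠ c i := by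
  classical
  let f : ι → MvPolynomial (Fin m) K := fun i =>
    ∑ j, MvPolynomial.C (v i j) * MvPolynomial.X j - MvPolynomial.C (c i)
  have hev : ∀ i y, MvPolynomial.eval y (f i) = ∑ j, v i j * y j - c i := by
    intro i y
    simp [f]
  have hf : ∀ i, f i ≠ 0 := by
    intro i h0
    obtain ⟨j, hj⟩ := Function.ne_iff.1 (hv i)
    have h1 := hev i 0
    have h2 := hev i (Pi.single j 1)
    rw [h0, map_zero] at h1 h2
    simp only [Pi.zero_apply, mul_zero, Finset.sum_const_zero, zero_sub] at h1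
    rw [Finset.sum_eq_single j] at h2
    · rw [Pi.single_eq_same, mul_one] at h2
      apply hj
      rw [Pi.zero_apply]
      have h3 : c i = 0 := by linear_combination h1
      linear_combination -h2 + h3
    · intro k _ hk
      rw [Pi.single_eq_of_ne hk, mul_zero]
    · intro h; exact absurd (Finset.mem_univ j) h
  have hP : r * ∏ i, f i ≠ 0 := mul_ne_zero hr (Finset.prod_ne_zero_iff.2 fun i _ => hf i)
  obtain ⟨y, hy⟩ : ∃ y, MvPolynomial.eval y (r * ∏ i, f i) ≠ 0 := by
    by_contra hcon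
    push Not at hcon
    apply hP
    refine MvPolynomial.funext fun y => ?_
    rw [hcon y, map_zero]
  rw [map_mul, map_prod] at hy
  refine ⟨y, left_ne_zero_of_mul hy, fun i h => ?_⟩
  have h1 := Finset.prod_ne_zero_iff.1 (right_ne_zero_of_mul hy) i (Finset.mem_univ i)
  rw [hev, h, sub_self] at h1
  exact h1 rfl

lemma exists_dir {F : Type*} [Field F] [Algebra F K] [Fintype F] {n : ℕ} {C : Type*} [Fintype C]
    (ℓ : C → Fin (n + 1) → F) (hℓ : ∀ c, ℓ c 0 = 1) (hinj : Function.Injective ℓ)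
    (ys : Fin (n + 1) → K) (hys : ∀ c (μ : F), dotK (ℓ c) ys ≠ algebraMap F K μ)
    {ι : Type*} [Fintype ι] (v : ι → Fin (n + 1) → K) (hv : ∀ i, v i ≠ 0) :
    ∃ δ : Fin (n + 1) → K, (∀ c, dotK (ℓ c) δ ≠ 0) ∧ Function.Injective (uu ℓ ys δ) ∧
      ∀ i, ∑ j, v i j * δ j ≠ 0 := by
  classical
  let T := {p : (C × F) × (C × F) // p.1 ≠ p.2}
  let w : C ⊕ T ⊕ ι → Fin (n + 1) → K := fun i => match i with
    | Sum.inl c => fun j => algebraMap F K (ℓ c j)
    | Sum.inr (Sum.inl p) => fun j =>
      (algebraMap F K p.1.1.2 - dotK (ℓ p.1.1.1) ys) * algebraMap F K (ℓ p.1.2.1 j) -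
      (algebraMap F K p.1.2.2 - dotK (ℓ p.1.2.1) ys) * algebraMap F K (ℓ p.1.1.1 j)
    | Sum.inr (Sum.inr i) => v i
  have hw : ∀ i, w i ≠ 0 := by
    intro i
    match i with
    | Sum.inl c =>
      intro h
      have := congrFun h 0
      simp [w, hℓ c] at this
    | Sum.inr (Sum.inl p) =>
      intro h
      obtain ⟨⟨⟨c, μ⟩, ⟨c', μ'⟩⟩, hp⟩ := p
      have h0 := congrFun h 0
      simp only [w, hℓ, map_one, mul_one, Pi.zero_apply] at h0
      have ha : algebraMap F K μ - dotK (ℓ c) ys ≠ 0 := sub_ne_zero.2 (hys c μ).symm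
      have hcc : ℓ c' = ℓ c := by
        funext j
        have hj := congrFun h j
        simp only [w, Pi.zero_apply] at hj
        have h1 : (algebraMap F K μ - dotK (ℓ c) ys) *
            (algebraMap F K (ℓ c' j) - algebraMap F K (ℓ c j)) = 0 := by
          linear_combination hj - algebraMap F K (ℓ c j) * h0
        have h2 := (mul_eq_zero.1 h1).resolve_left ha
        exact (algebraMap F K).injective (sub_eq_zero.1 h2)
      have hc := hinj hcc
      subst hc
      apply hp
      have h3 : algebraMap F K μ = algebraMap F K μ' := by linear_combination h0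
      have h4 := (algebraMap F K).injective h3
      subst h4
      rfl
    | Sum.inr (Sum.inr i) => exact hv i
  obtain ⟨δ, -, hδ⟩ := avoid (1 : MvPolynomial (Fin (n + 1)) K) one_ne_zero w hw (fun _ => 0)
  have h1 : ∀ c, dotK (ℓ c) δ ≠ 0 := fun c => hδ (Sum.inl c)
  refine ⟨δ, h1, ?_, fun i => hδ (Sum.inr (Sum.inr i))⟩
  intro h h' heq
  by_contra hne
  have h2 := hδ (Sum.inr (Sum.inl ⟨(h, h'), hne⟩))
  apply h2
  unfold uu at heq
  rw [div_eq_div_iff (h1 _) (h1 _)] at heq
  simp only [w, sub_mul, Finset.sum_sub_distrib, mul_assoc, ← Finset.mul_sum]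
  unfold dotK at heq ⊢
  linear_combination heq

end generic

section AFc
variable {K : Type*} [Field K] {F : Type*} [Field F] [Algebra F K] [Fintype F] [DecidableEq F]

omit [Fintype F] [DecidableEq F] in
lemma Lf_pull_cons (N : ℕ) : (Lf K F (Fin (N + 1) → F)).map
    (pull K (fun a : Fin N → F => (Fin.cons 1 a : Fin (N + 1) → F))).toLinearMap = Lc K F N := by
  rw [Lf_eq_span (Pi.basisFun F (Fin (N + 1))), Submodule.map_span, Lc]
  congr 1
  ext f
  constructor
  · rintro ⟨_, ⟨i, rfl⟩, rfl⟩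
    refine Fin.cases ?_ (fun j => ?_) i
    · left
      funext a
      simp [fn]
    · right
      refine ⟨j, ?_⟩
      funext a
      simp [fn]
  · rintro (rfl | ⟨j, rfl⟩)
    · refine ⟨_, ⟨0, rfl⟩, ?_⟩
      funext a
      simp [fn]
    · refine ⟨_, ⟨j.succ, rfl⟩, ?_⟩
      funext a
      simp [fn]

lemma AF_Lc {N : ℕ} (A : Finset (Fin N → F)) (t : ℕ) :
    D (Fintype.card F) t #A ≤ Hs (Lc K F N) A t := by
  have hq : 2 ≤ Fintype.card F := Fintype.one_lt_card
  rw [Hs_eq_image (fun a : Fin N → F => (Fin.cons 1 a : Fin (N + 1) → F)) (Lc K F N)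
    (Lf K F (Fin (N + 1) → F)) A (by rw [Lf_pull_cons])]
  have hinj : Function.Injective (fun a : Fin N → F => (Fin.cons 1 a : Fin (N + 1) → F)) := by
    intro a b h
    funext i
    have := congrFun h i.succ
    simpa using this
  rw [← Finset.card_image_of_injective A hinj]
  refine AF (fun lim => NI_ds' _ hq lim) (ext_ds _ hq) (LinearMap.proj 0) _ _ le_rfl ?_ t
  intro x hx
  obtain ⟨a, _, rfl⟩ := Finset.mem_image.1 hx
  simp

lemma D_self {q t x : ℕ} (h : x ≤ t + 1) : D q t x = x := by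
  unfold D cnt
  rw [Nat.count_eq_card_filter_range, Finset.filter_true_of_mem, Finset.card_range]
  intro y hy
  rw [Finset.mem_range] at hy
  have : ds q y ≤ y := Nat.digit_sum_le q y
  omega

end AFc

section slices
variable {K : Type*} [Field K] {F : Type*} [Field F] [Algebra F K] [DecidableEq F] {n : ℕ}

omit [DecidableEq F] in
lemma sub1_LP_eq (l : Fin (n + 1) → F) (μ : F) :
    (LP K (n + 2)).map (sub1 K l μ).toLinearMap = LP K (n + 1) := by
  refine le_antisymm (sub1_LP l μ) ?_
  rw [LP, Submodule.span_le]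
  rintro _ (rfl | ⟨i, rfl⟩)
  · exact ⟨1, one_mem_LP _, map_one (sub1 K l μ)⟩
  · refine Fin.cases ?_ (fun j => ?_) i
    · exact ⟨MvPolynomial.X 0, X_mem_LP _, sub1_X_zero l μ⟩
    · exact ⟨MvPolynomial.X j.succ.succ, X_mem_LP _, sub1_X_succ l μ j⟩

lemma Hs_slice (A : Finset (Fin (n + 2) → F)) {l : Fin (n + 1) → F} (hl : l 0 = 1) (μ : F)
    (t : ℕ) : Hs (Lc K F (n + 2)) (A.filter fun a => ∑ j, l j * a j.succ = μ) t =
      Hs (Lc K F (n + 1)) (slice A l μ) t := by
  refine Hs_eq_image drop1 _ _ _ ?_ t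
  rw [← LP_map_evF, ← LP_map_evF, ← sub1_LP_eq l μ, ← Submodule.map_comp, ← Submodule.map_comp,
    ← Submodule.map_comp, ← Submodule.map_comp]
  congr 1
  refine LinearMap.ext fun g => ?_
  show res K _ (evF K F (n + 2) g) = res K _ (pull K drop1 (evF K F (n + 1) (sub1 K l μ g)))
  funext a
  rw [res_apply, res_apply, pull_apply]
  exact (sub1_ev hl (Finset.mem_filter.1 a.2).2 g).symm

lemma card_slice (A : Finset (Fin (n + 2) → F)) {l : Fin (n + 1) → F} (hl : l 0 = 1) (μ : F) :
    #(slice A l μ) = #(A.filter fun a => ∑ j, l j * a j.succ = μ) := by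
  unfold slice
  refine Finset.card_image_of_injOn ?_
  intro a ha b hb hab
  have ha' := (Finset.mem_filter.1 (Finset.mem_coe.1 ha)).2
  have hb' := (Finset.mem_filter.1 (Finset.mem_coe.1 hb)).2
  have h0 : a 0 = b 0 := congrFun hab 0
  have h2 : ∀ j : Fin n, a j.succ.succ = b j.succ.succ := fun j => congrFun hab j.succ
  have h1 : a (Fin.succ 0) = b (Fin.succ 0) := by
    rw [Fin.sum_univ_succ, hl, one_mul] at ha' hb'
    have h3 : ∑ i : Fin n, l i.succ * a i.succ.succ = ∑ i : Fin n, l i.succ * b i.succ.succ :=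
      Finset.sum_congr rfl fun i _ => by rw [h2 i]
    rw [h3] at ha'
    linear_combination ha' - hb'
  funext i
  refine Fin.cases h0 (fun j => ?_) i
  exact Fin.cases h1 (fun k => h2 k) j

end slices

section planarset
variable {K : Type*} [Field K] {F : Type*} [Field F] [Algebra F K] [Fintype F] [DecidableEq F]

/-- the planar lemma for sets of rational points -/
theorem planar_set (A : Finset (Fin 2 → F)) {E : ℕ} (hE : 1 ≤ E) (hEq : E < Fintype.card F)
    (y : Fin 1 → K) (hy : ∀ w : F, algebraMap F K w ≠ y 0)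
    {F0 : MvPolynomial (Fin 2) K} (hF0 : F0 ∈ JJ K A E)
    (hm : (sp y F0).Monic) (hd : (sp y F0).natDegree = E) :
    (∀ t, t < E → cnt (ext id E) 0 t (#A - (Fintype.card F - E) *
      finrank K (Polynomial K ⧸ Ideal.span (sp y '' (JJ K A E)))) ≤ Hs (Lc K F 2) A t) ∧
    #A - (Fintype.card F - E) *
      finrank K (Polynomial K ⧸ Ideal.span (sp y '' (JJ K A E))) ≤ E ^ 2 := by
  classical
  set q := Fintype.card F with hq
  let x : A → K := fun a => algebraMap F K (a.1 0)
  let y1 : A → K := fun a => algebraMap F K (a.1 1)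
  let u : A → K := fun a => algebraMap F K (a.1 1) - y 0
  have hth : ∀ g, th x u y (fun _ => 1) g = res K A (evF K F 2 g) := by
    intro g
    have h : th x u y (fun _ => 1) = (res K A).comp (evF K F 2) := by
      refine MvPolynomial.algHom_ext fun i => ?_
      refine Fin.cases ?_ (fun j => ?_) i
      · rw [th_X_zero]
        funext a
        simp [x, evF]
      · rw [th_X_succ]
        funext a
        have hj : j = 0 := Subsingleton.elim _ _
        subst hj
        simp [u, evF]
    rw [h]; rfl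
  have hth' : (th x u y (fun _ => 1)).toLinearMap =
      ((res K A).comp (evF K F 2)).toLinearMap := LinearMap.ext hth
  have hH : ∀ t, Hs (Lc K F 2) A t = finrank K ↥((L3 K x u) ^ t) := by
    intro t
    rw [Hs_Lc, ← hth', Submodule.map_pow, th_LP_eq x u y (fun _ => 1) (j := 0) one_ne_zero]
  have hu : IsUnit u := by
    rw [Pi.isUnit_iff]
    intro a
    exact isUnit_iff_ne_zero.2 (sub_ne_zero.2 (hy _))
  have hVt : ∀ g ∈ JJ K A E, sp y g ∈ Vt K x u E := by
    intro g hg
    refine sp_mem_Vt x u y (fun _ => 1) hg.1 ?_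
    rw [hth, res_eq_zero]
    exact hg.2
  have hqpos : 1 ≤ q := by omega
  -- `1` lies in `u * L ^ (q-1)`
  have hone : (1 : Polynomial K) ∈ Vt K x u q := by
    let P : Polynomial K := ∏ a : F, (Polynomial.X - Polynomial.C (algebraMap F K a))
    have hPd : P.natDegree = q := by
      rw [Polynomial.natDegree_prod_of_monic _ _ fun a _ => Polynomial.monic_X_sub_C _]
      simp [hq]
    have hPv : P.eval (y 0) ≠ 0 := by
      rw [Polynomial.eval_prod]
      refine Finset.prod_ne_zero_iff.2 fun a _ => ?_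
      rw [Polynomial.eval_sub, Polynomial.eval_X, Polynomial.eval_C]
      exact sub_ne_zero.2 (hy a).symm
    obtain ⟨Q, hQ⟩ : (Polynomial.X - Polynomial.C (y 0)) ∣ P - Polynomial.C (P.eval (y 0)) := by
      rw [Polynomial.dvd_iff_isRoot]
      simp
    have hQd : Q.natDegree ≤ q - 1 := by
      have h1 : (P - Polynomial.C (P.eval (y 0))).natDegree ≤ q := by
        refine (Polynomial.natDegree_sub_le _ _).trans ?_
        rw [hPd, Polynomial.natDegree_C]; simp
      by_cases hQ0 : Q = 0
      · rw [hQ0]; simp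
      rw [hQ, Polynomial.natDegree_mul (Polynomial.X_sub_C_ne_zero _) hQ0,
        Polynomial.natDegree_X_sub_C] at h1
      omega
    refine ⟨?_, ?_⟩
    · rw [SetLike.mem_coe, Polynomial.mem_degreeLT, Polynomial.degree_one]
      exact_mod_cast Nat.succ_pos q
    · show Polynomial.aeval x (1 : Polynomial K) ∈ Mt K x u q
      rw [map_one]
      obtain ⟨q', hq'⟩ : ∃ q', q = q' + 1 := ⟨q - 1, by omega⟩
      rw [hq']
      have hy1 : y1 ∈ L3 K x u := by
        have h1 : y1 = u + algebraMap K (A → K) (y 0) := by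
          funext a
          simp [y1, u]
        rw [h1]
        exact Submodule.add_mem _ (u_mem_L3 x u) (algebraMap_mem_L3 x u _)
      have hmem : Polynomial.aeval y1 Q ∈ (L3 K x u) ^ q' :=
        aeval_mem_pow _ (one_mem_L3 x u) hy1 (by omega)
      refine ⟨(-(P.eval (y 0))⁻¹) • Polynomial.aeval y1 Q, Submodule.smul_mem _ _ hmem, ?_⟩
      have h2 := congrArg (Polynomial.aeval y1) hQ
      have h3 : Polynomial.aeval y1 P = 0 := by
        funext a
        have h4 : (Pi.evalAlgHom K (fun _ : A => K) a) (Polynomial.aeval y1 P) =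
            Polynomial.aeval (y1 a) P := by
          rw [← Polynomial.aeval_algHom_apply]; rfl
        have h5 : Polynomial.aeval (y1 a) P = 0 := by
          rw [Polynomial.coe_aeval_eq_eval, Polynomial.eval_prod]
          refine Finset.prod_eq_zero (Finset.mem_univ (a.1 1)) ?_
          simp [y1]
        rw [h5] at h4
        exact h4
      rw [map_sub, h3, map_mul, map_sub, Polynomial.aeval_X, Polynomial.aeval_C,
        Polynomial.aeval_C] at h2
      have h6 : y1 - algebraMap K (A → K) (y 0) = u := by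
        funext a; simp [y1, u]
      rw [h6] at h2
      rw [LinearMap.mulLeft_apply, mul_smul_comm, ← h2]
      funext a
      simp [hPv]
  have hQtop : Ideal.span (Vt K x u q : Set (Polynomial K)) = ⊤ :=
    (Ideal.eq_top_iff_one _).2 (Ideal.subset_span hone)
  have key := planar x u hu E q hE hEq.le (sp y F0) hm hd (hVt _ hF0) hQtop #A
  -- compare codimensions
  have hle : Ideal.span (sp y '' (JJ K A E)) ≤ Ideal.span (Vt K x u E : Set (Polynomial K)) := by
    refine Ideal.span_mono ?_
    rintro _ ⟨g, hg, rfl⟩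
    exact hVt g hg
  have hfd : FiniteDimensional K (Polynomial K ⧸ Ideal.span (sp y '' (JJ K A E))) :=
    quot_fd (Ideal.subset_span ⟨F0, hF0, rfl⟩) hm
  have hγ : finrank K (Polynomial K ⧸ Ideal.span (Vt K x u E : Set (Polynomial K))) ≤
      finrank K (Polynomial K ⧸ Ideal.span (sp y '' (JJ K A E))) := by
    have hs : Function.Surjective (Ideal.Quotient.factorₐ K hle).toLinearMap := by
      intro z
      obtain ⟨p, rfl⟩ := Ideal.Quotient.mk_surjective z
      exact ⟨Ideal.Quotient.mk _ p, rfl⟩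
    exact LinearMap.finrank_le_finrank_of_surjective hs
  have hT : #A ≤ finrank K ↥((L3 K x u) ^ #A) := by
    rw [← hH]
    have h1 := AF_Lc (K := K) A #A
    rwa [D_self (by omega)] at h1
  have hle2 : #A - (q - E) * finrank K (Polynomial K ⧸ Ideal.span (sp y '' (JJ K A E))) ≤
      finrank K ↥((L3 K x u) ^ #A) -
        finrank K (Polynomial K ⧸ Ideal.span (Vt K x u E : Set (Polynomial K))) * (q - E) := by
    have h1 : finrank K (Polynomial K ⧸ Ideal.span (Vt K x u E : Set (Polynomial K))) * (q - E) ≤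
        (q - E) * finrank K (Polynomial K ⧸ Ideal.span (sp y '' (JJ K A E))) := by
      rw [mul_comm]; exact Nat.mul_le_mul_left _ hγ
    omega
  refine ⟨fun t ht => ?_, hle2.trans key.2⟩
  rw [hH]
  exact (cnt_mono _ _ _ hle2).trans (key.1 t ht)

end planarset

end BDG

end FST1

section FST2

/-!
The main lower bound for the Hilbert function of affine sets without common component.
-/

namespace BDG
open Module Finset

/-- the polynomials of degree `≤ E` vanishing on `A` contain one which is monic of degree `E` in the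
zeroth variable, and have no common factor -/
structure Good (K : Type*) [Field K] {F : Type*} [Field F] [Algebra F K] {n : ℕ}
    (A : Finset (Fin (n + 1) → F)) (E : ℕ) : Prop where
  monic : ∃ F0 ∈ JJ K A E, (MvPolynomial.finSuccEquiv K n F0).Monic ∧
    (MvPolynomial.finSuccEquiv K n F0).natDegree = E
  ncf : ∀ f, (∀ g ∈ JJ K A E, f ∣ g) → IsUnit f

section
variable {K : Type*} [Field K] [Infinite K] {F : Type*} [Field F] [Algebra F K] [Fintype F]
  [DecidableEq F]

omit [Field F] [Algebra F K] [Infinite K] [Field K] in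
lemma card_filter_sum {V : Type*} (A : Finset V) (ψ : V → F) :
    ∑ μ, #(A.filter fun a => ψ a = μ) = #A :=
  (Finset.card_eq_sum_card_fiberwise (f := ψ) (t := Finset.univ)
        (fun _ _ => Finset.mem_coe.2 (Finset.mem_univ _))).symm

/-- slicing by the hyperplanes of a class -/
lemma slice_cnt_Lc {n : ℕ} {w : ℕ → ℕ} {lim : ℕ} (hNI : NI w (Fintype.card F) lim)
    (A : Finset (Fin (n + 2) → F)) {l : Fin (n + 1) → F} (hl : l 0 = 1) (t : ℕ) (xF : F → ℕ)
    (hx : ∀ μ, xF μ ≤ lim)
    (hcnt : ∀ μ, ∀ s ≤ t, cnt w 0 s (xF μ) ≤ Hs (Lc K F (n + 1)) (slice A l μ) s) :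
    cnt (ext w (Fintype.card F)) 0 t (∑ μ, xF μ) ≤ Hs (Lc K F (n + 2)) A t := by
  have hmem : ∀ μ : F, (fun a : Fin (n + 2) → F => algebraMap F K (∑ j, l j * a j.succ - μ)) ∈
      Lc K F (n + 2) := by
    intro μ
    have h1 : (fun a : Fin (n + 2) → F => algebraMap F K (∑ j, l j * a j.succ - μ)) =
        ∑ j, algebraMap F K (l j) • (fun a : Fin (n + 2) → F => algebraMap F K (a j.succ)) -
          algebraMap F K μ • (1 : (Fin (n + 2) → F) → K) := by
      funext a
      simp only [Finset.sum_apply, Pi.sub_apply, Pi.smul_apply, smul_eq_mul, Pi.one_apply,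
        mul_one, map_sub, map_sum, map_mul]
    rw [h1]
    exact Submodule.sub_mem _ (Submodule.sum_mem _ fun j _ =>
      Submodule.smul_mem _ _ (coord_mem_Lc _)) (Submodule.smul_mem _ _ (one_mem_Lc _))
  refine slice_cnt hNI (Lc K F (n + 2)) A (fun a => ∑ j, l j * a j.succ)
    (fun μ a => algebraMap F K (∑ j, l j * a j.succ - μ)) hmem ?_ t xF hx ?_
  · intro μ a _
    rw [map_eq_zero, sub_eq_zero]
  · intro μ s hs
    rw [Hs_slice A hl]
    exact hcnt μ s hs

/-- base case -/
theorem ST_base {E : ℕ} (hE : 1 ≤ E) (hEq : E < Fintype.card F) (A : Finset (Fin 3 → F))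
    (hG : Good K A E) : ∃ Γ, ∀ t < E,
      cnt (W E (Fintype.card F) 1) 0 t (#A - (Fintype.card F - E) * Γ) ≤ Hs (Lc K F 3) A t ∧
      D (Fintype.card F) t ((Fintype.card F) ^ 2 * Γ) ≤ Hs (Lc K F 3) A t ∧
      #A - (Fintype.card F - E) * Γ ≤ E * (Fintype.card F) ^ 2 := by
  classical
  set q := Fintype.card F with hq
  have hq2 : 2 ≤ q := Fintype.one_lt_card
  obtain ⟨⟨F0, hF0, hm, hd⟩, hncf⟩ := hG
  obtain ⟨r, hr0, hr⟩ := gauss _ hncf
  let ℓ : F → Fin 2 → F := fun b => ![1, b]
  have hℓ : ∀ c, ℓ c 0 = 1 := fun c => rfl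
  have hℓi : Function.Injective ℓ := fun b c h => congrFun h 1
  obtain ⟨ys, hys1, hys2⟩ := avoid r hr0 (fun h : F × F => fun j => algebraMap F K (ℓ h.1 j))
    (fun h => by
      intro h0
      have := congrFun h0 0
      simp [hℓ] at this) (fun h => algebraMap F K h.2)
  have hys : ∀ c (μ : F), dotK (ℓ c) ys ≠ algebraMap F K μ := fun c μ => hys2 (c, μ)
  have hys0 : ∀ w : F, algebraMap F K w ≠ ys 0 := by
    intro w h
    apply hys 0 w
    rw [h]
    simp [dotK, Fin.sum_univ_two, ℓ]
  obtain ⟨δ, hδ, hinj, hη⟩ := exists_dir ℓ hℓ hℓi ys hys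
    (fun η : F × F => ![-(algebraMap F K η.2 - ys 1), algebraMap F K η.1 - ys 0])
    (fun η => by
      intro h0
      have := congrFun h0 1
      simp only [Matrix.cons_val_one, Matrix.cons_val_fin_one, Pi.zero_apply] at this
      exact hys0 η.1 (sub_eq_zero.1 this))
  have hη' : ∀ a b : F, δ 1 * (algebraMap F K a - ys 0) - δ 0 * (algebraMap F K b - ys 1) ≠ 0 := by
    intro a b
    have h1 := hη (a, b)
    rw [Fin.sum_univ_two] at h1
    simp only [Matrix.cons_val_zero, Matrix.cons_val_one, Matrix.cons_val_fin_one] at h1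
    intro h2
    apply h1
    linear_combination h2
  have hvirt := virt (A := A) (E := E) hE hℓ hys hδ hinj hF0 hm hd hr hys1
  set γ : F × F → ℕ := fun h => finrank K (Polynomial K ⧸ Ih A E ℓ ys δ h) with hγ
  set Dv := ∑ h : F × F, γ h with hDv
  -- the intersection points are not rational
  have hirr : ∀ (h : F × F) (w : F), algebraMap F K w ≠ yh ℓ ys δ h (Fin.succ 0) := by
    intro h w hw
    have h1' := dotK_yh (ys := ys) hδ h
    have h1 : yh ℓ ys δ h 0 + algebraMap F K h.1 * yh ℓ ys δ h 1 = algebraMap F K h.2 := by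
      rw [← h1']
      unfold dotK
      rw [Fin.sum_univ_two]
      simp only [ℓ, Matrix.cons_val_zero, Matrix.cons_val_one,
        Matrix.cons_val_fin_one, map_one, one_mul]
    have h2 : yh ℓ ys δ h 1 = algebraMap F K w := hw.symm
    rw [h2] at h1
    have h3 : yh ℓ ys δ h 0 = algebraMap F K (h.2 - h.1 * w) := by
      rw [map_sub, map_mul, ← h1]; ring
    apply hη' (h.2 - h.1 * w) w
    rw [← h3, ← h2]
    unfold yh
    ring
  -- comparison with the virtual scheme
  let lam : MvPolynomial (Fin 3) K :=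
    MvPolynomial.C (δ 1) * (MvPolynomial.X 1 - MvPolynomial.C (ys 0)) -
    MvPolynomial.C (δ 0) * (MvPolynomial.X 2 - MvPolynomial.C (ys 1))
  have hlam : lam ∈ LP K 3 := by
    refine Submodule.sub_mem _ ?_ ?_
    · rw [← MvPolynomial.smul_eq_C_mul]
      exact Submodule.smul_mem _ _ (Submodule.sub_mem _ (X_mem_LP _) (C_mem_LP _))
    · rw [← MvPolynomial.smul_eq_C_mul]
      exact Submodule.smul_mem _ _ (Submodule.sub_mem _ (X_mem_LP _) (C_mem_LP _))
  have hadd := virt_add (A := A) (E := E) (ys := ys) hℓ hδ hlam (by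
      have e1 : th (xx A E ℓ ys δ) (ub A E ℓ ys δ) ys δ (MvPolynomial.X 1) =
          algebraMap K _ (ys 0) + δ 0 • ub A E ℓ ys δ := th_X_succ _ _ _ _ 0
      have e2 : th (xx A E ℓ ys δ) (ub A E ℓ ys δ) ys δ (MvPolynomial.X 2) =
          algebraMap K _ (ys 1) + δ 1 • ub A E ℓ ys δ := th_X_succ _ _ _ _ 1
      have e3 : ∀ c : K, th (xx A E ℓ ys δ) (ub A E ℓ ys δ) ys δ (MvPolynomial.C c) =
          algebraMap K _ c := fun c => AlgHom.commutes _ c
      simp only [lam, map_sub, map_mul, e1, e2, e3, add_sub_cancel_left]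
      rw [← Algebra.smul_def, ← Algebra.smul_def, smul_smul, smul_smul, mul_comm (δ 1), sub_self])
    (by
      intro a _
      have h1 : evF K F 3 lam a = δ 1 * (algebraMap F K (a 1) - ys 0) -
          δ 0 * (algebraMap F K (a 2) - ys 1) := by
        rw [evF_apply]
        simp [lam]
      rw [h1]
      exact hη' _ _)
  -- choose the class
  obtain ⟨b, hb⟩ : ∃ b : F, q * ∑ μ : F, γ (b, μ) ≤ Dv := by
    by_contra hcon
    push Not at hcon
    have h1 : ∑ b : F, Dv < ∑ b : F, q * ∑ μ : F, γ (b, μ) :=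
      Finset.sum_lt_sum_of_nonempty Finset.univ_nonempty fun b _ => hcon b
    rw [← Finset.mul_sum, Finset.sum_const, Finset.card_univ, ← hq, smul_eq_mul] at h1
    rw [hDv, Fintype.sum_prod_type] at h1
    exact lt_irrefl _ h1
  set Γ := ∑ μ : F, γ (b, μ) with hΓ
  refine ⟨Γ, fun t ht => ?_⟩
  -- slices
  have hsl : ∀ μ : F, (∀ s, s < E → cnt (ext id E) 0 s
      (#(slice A (ℓ b) μ) - (q - E) * γ (b, μ)) ≤ Hs (Lc K F 2) (slice A (ℓ b) μ) s) ∧
      #(slice A (ℓ b) μ) - (q - E) * γ (b, μ) ≤ E ^ 2 := by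
    intro μ
    refine planar_set (slice A (ℓ b) μ) hE hEq (fun j : Fin 1 => yh ℓ ys δ (b, μ) j.succ)
      (hirr (b, μ)) (F0 := sub1 K (ℓ b) μ F0) (sub1_JJ A (hℓ b) μ hF0) ?_ ?_
    · rw [sub1_sp (hℓ b) (dotK_yh hδ (b, μ)), sp_eq_map]
      exact hm.map _
    · rw [sub1_sp (hℓ b) (dotK_yh hδ (b, μ)), sp_eq_map, hm.natDegree_map, hd]
  have hcard : ∑ μ : F, #(slice A (ℓ b) μ) = #A := by
    rw [← card_filter_sum A (fun a : Fin 3 → F => ∑ j : Fin 2, ℓ b j * a j.succ)]
    exact Finset.sum_congr rfl fun μ _ => card_slice A (hℓ b) μ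
  have hsum : #A - (q - E) * Γ ≤ ∑ μ : F, (#(slice A (ℓ b) μ) - (q - E) * γ (b, μ)) := by
    rw [hΓ, Finset.mul_sum, ← hcard, tsub_le_iff_right, ← Finset.sum_add_distrib]
    exact Finset.sum_le_sum fun μ _ => by omega
  have hEE : E ^ 2 ≤ E * q ^ (0 + 1) := by
    rw [pow_two, zero_add, pow_one]; exact Nat.mul_le_mul_left _ hEq.le
  refine ⟨?_, ?_, ?_⟩
  · refine (cnt_mono _ _ _ hsum).trans ?_
    exact slice_cnt_Lc (NI_W E q hE hEq.le 0) A (hℓ b) t _ (fun μ => ((hsl μ).2).trans hEE)
      (fun μ s hs => (hsl μ).1 s (by omega))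
  · have h1 := NI_ds q hq2 (fun i => if i < q then q * Γ else 0) 0 t (by
      intro i j hij
      simp only
      split_ifs <;> first | omega | exact Nat.zero_le _ | exact le_rfl)
    have h2 : ∑ i ∈ range q, (if i < q then q * Γ else 0) = q ^ 2 * Γ := by
      rw [Finset.sum_congr rfl fun i hi => if_pos (Finset.mem_range.1 hi), Finset.sum_const,
        Finset.card_range, smul_eq_mul]
      ring
    rw [h2] at h1
    refine h1.trans ?_
    refine le_trans ?_ (hadd t ht.le)
    rw [← Finset.sum_range_reflect (fun k => finrank K ↥((L3 K (xx A E ℓ ys δ)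
      (ub A E ℓ ys δ)) ^ k)) (t + 1)]
    -- reduce the left sum to indices `≤ t`
    have h3 : ∑ i ∈ range q, cnt (ds q) (0 + i) t (if i < q then q * Γ else 0) ≤
        ∑ i ∈ range (t + 1), cnt (ds q) (0 + i) t (q * Γ) := by
      have h4 : range (t + 1) ⊆ range q := by
        intro i hi; rw [Finset.mem_range] at *; omega
      rw [← Finset.sum_subset h4]
      · refine Finset.sum_le_sum fun i hi => ?_
        rw [Finset.mem_range] at hi
        rw [if_pos (by omega)]
      · intro i hi hi'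
        rw [Finset.mem_range] at hi hi'
        exact cnt_eq_zero (by omega) _
    refine h3.trans (Finset.sum_le_sum fun i hi => ?_)
    rw [Finset.mem_range] at hi
    rw [zero_add, cnt_shift (by omega)]
    have h5 : t + 1 - 1 - i = t - i := by omega
    rw [h5]
    have h6 : q * Γ ≤ q ^ 2 := hb.trans (hvirt.1.trans (Nat.pow_le_pow_left hEq.le 2))
    refine (D_le_cnt_E q E (t - i) (q * Γ) hE hEq.le (by omega) h6).trans ?_
    refine (cnt_mono _ _ _ hb).trans ?_
    exact hvirt.2 (t - i) (by omega)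
  · refine hsum.trans ?_
    refine (Finset.sum_le_sum fun μ _ => (hsl μ).2).trans ?_
    rw [Finset.sum_const, Finset.card_univ, ← hq, smul_eq_mul]
    have : q * E ^ 2 ≤ q * (E * q) := by
      rw [pow_two]; exact Nat.mul_le_mul_left _ (Nat.mul_le_mul_left _ hEq.le)
    calc q * E ^ 2 ≤ q * (E * q) := this
      _ = E * q ^ 2 := by ring

omit [Infinite K] [Fintype F] in
/-- slices through good points are good -/
lemma good_slice {n : ℕ} {E : ℕ} (A : Finset (Fin (n + 2) → F))
    {F0 : MvPolynomial (Fin (n + 2)) K} (hF0 : F0 ∈ JJ K A E)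
    (hm : (MvPolynomial.finSuccEquiv K (n + 1) F0).Monic)
    (hd : (MvPolynomial.finSuccEquiv K (n + 1) F0).natDegree = E)
    {l : Fin (n + 1) → F} (hl : l 0 = 1) (μ : F) (y : Fin n → K)
    (hI : Ideal.span (sp y '' (JJ K (slice A l μ) E)) = ⊤) : Good K (slice A l μ) E := by
  have hF1 := sub1_JJ A hl μ hF0
  have hm1 : (MvPolynomial.finSuccEquiv K n (sub1 K l μ F0)).Monic := by
    rw [finSucc_sub1]; exact hm.map _
  have hd1 : (MvPolynomial.finSuccEquiv K n (sub1 K l μ F0)).natDegree = E := by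
    rw [finSucc_sub1, hm.natDegree_map, hd]
  refine ⟨⟨_, hF1, hm1, hd1⟩, ?_⟩
  intro f hf
  obtain ⟨g, hg⟩ := hf _ hF1
  set f' := MvPolynomial.finSuccEquiv K n f with hf'
  have h1 : f'.leadingCoeff * (MvPolynomial.finSuccEquiv K n g).leadingCoeff = 1 := by
    rw [← Polynomial.leadingCoeff_mul, hf', ← map_mul, ← hg]
    exact hm1
  have hlc : IsUnit f'.leadingCoeff := IsUnit.of_mul_eq_one _ h1
  have h2 : IsUnit (sp y f) := by
    rw [← Ideal.span_singleton_eq_top, eq_top_iff, ← hI, Ideal.span_le]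
    rintro _ ⟨g, hg, rfl⟩
    rw [SetLike.mem_coe, Ideal.mem_span_singleton]
    exact map_dvd (sp y) (hf g hg)
  have h3 : f'.natDegree = 0 := by
    have h4 := Polynomial.natDegree_eq_zero_of_isUnit h2
    rw [sp_eq_map] at h4
    rwa [Polynomial.natDegree_map_of_leadingCoeff_ne_zero] at h4
    exact (hlc.map (MvPolynomial.eval y)).ne_zero
  have h5 : IsUnit f' := by
    rw [Polynomial.eq_C_of_natDegree_eq_zero h3, Polynomial.isUnit_C]
    have h6 : f'.leadingCoeff = f'.coeff 0 := by rw [Polynomial.leadingCoeff, h3]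
    rwa [← h6]
  have h7 := h5.map (MvPolynomial.finSuccEquiv K n).symm
  rwa [hf', AlgEquiv.symm_apply_apply] at h7

/-- the general case -/
theorem ST {E : ℕ} (hE : 1 ≤ E) (hEq : E < Fintype.card F) : ∀ (m : ℕ)
    (A : Finset (Fin (m + 3) → F)) (_ : Good K A E), ∃ Γ, ∀ t < E,
      cnt (W E (Fintype.card F) (m + 1)) 0 t (#A - (Fintype.card F - E) * Γ) ≤
        Hs (Lc K F (m + 3)) A t ∧
      D (Fintype.card F) t ((Fintype.card F) ^ 2 * Γ) ≤ Hs (Lc K F (m + 3)) A t ∧
      #A - (Fintype.card F - E) * Γ ≤ E * (Fintype.card F) ^ (m + 2) := by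
  classical
  intro m
  induction m with
  | zero => intro A hG; exact ST_base hE hEq A hG
  | succ m ih =>
    intro A hG
    set q := Fintype.card F with hq
    have hq2 : 2 ≤ q := Fintype.one_lt_card
    obtain ⟨⟨F0, hF0, hm, hd⟩, hncf⟩ := hG
    obtain ⟨r, hr0, hr⟩ := gauss _ hncf
    let ℓ : F × F → Fin (m + 2 + 1) → F := fun b =>
      Fin.cons 1 (Fin.cons b.1 (Fin.cons b.2 (fun _ : Fin m => 0)))
    have hℓ : ∀ c, ℓ c 0 = 1 := fun c => rfl
    have hℓi : Function.Injective ℓ := by
      intro b c h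
      have h1 : b.1 = c.1 := congrFun h (Fin.succ 0)
      have h2 : b.2 = c.2 := congrFun h (Fin.succ (Fin.succ 0))
      exact Prod.ext h1 h2
    obtain ⟨ys, hys1, hys2⟩ := avoid r hr0
      (fun h : (F × F) × F => fun j => algebraMap F K (ℓ h.1 j))
      (fun h => by
        intro h0
        have := congrFun h0 0
        simp [hℓ] at this) (fun h => algebraMap F K h.2)
    have hys : ∀ c (μ : F), dotK (ℓ c) ys ≠ algebraMap F K μ := fun c μ => hys2 (c, μ)
    obtain ⟨δ, hδ, hinj, -⟩ := exists_dir ℓ hℓ hℓi ys hys (fun i : Empty => i.elim)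
      (fun i => i.elim)
    have hvirt := virt (A := A) (E := E) hE hℓ hys hδ hinj hF0 hm hd hr hys1
    set γ : (F × F) × F → ℕ := fun h => finrank K (Polynomial K ⧸ Ih A E ℓ ys δ h) with hγ
    obtain ⟨c, hc⟩ : ∃ c : F × F, ∀ μ, γ (c, μ) = 0 := by
      by_contra hcon
      push Not at hcon
      have h1 : ∑ c : F × F, 1 ≤ ∑ c : F × F, ∑ μ : F, γ (c, μ) := by
        refine Finset.sum_le_sum fun c _ => ?_
        obtain ⟨μ, hμ⟩ := hcon c
        exact (Nat.one_le_iff_ne_zero.2 hμ).trans
          (Finset.single_le_sum (f := fun μ => γ (c, μ)) (fun _ _ => Nat.zero_le _)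
            (Finset.mem_univ μ))
      rw [← Fintype.sum_prod_type', Finset.sum_const, Finset.card_univ, Fintype.card_prod, ← hq,
        smul_eq_mul, mul_one] at h1
      have h2 : q * q ≤ E ^ 2 := h1.trans hvirt.1
      nlinarith
    have hgood : ∀ μ, Good K (slice A (ℓ c) μ) E := by
      intro μ
      refine good_slice A hF0 hm hd (hℓ c) μ (fun j => yh ℓ ys δ (c, μ) j.succ) ?_
      obtain ⟨f, hf, hfm, hfd⟩ := Ih_monic (ys := ys) hℓ hδ hF0 hm hd (c, μ)
      have hfin := quot_fd hf hfm
      have h0 := hc μ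
      rw [hγ] at h0
      have h1 : Subsingleton (Polynomial K ⧸ Ih A E ℓ ys δ (c, μ)) :=
        Module.finrank_zero_iff.1 h0
      exact (Ideal.Quotient.subsingleton_iff).1 h1
    choose Γ hΓ using fun μ => ih (slice A (ℓ c) μ) (hgood μ)
    have hcard : ∑ μ : F, #(slice A (ℓ c) μ) = #A := by
      rw [← card_filter_sum A
        (fun a : Fin (m + 2 + 2) → F => ∑ j : Fin (m + 2 + 1), ℓ c j * a j.succ)]
      exact Finset.sum_congr rfl fun μ _ => card_slice A (hℓ c) μ
    have hsum : #A - (q - E) * (∑ μ, Γ μ) ≤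
        ∑ μ : F, (#(slice A (ℓ c) μ) - (q - E) * Γ μ) := by
      rw [Finset.mul_sum, ← hcard, tsub_le_iff_right, ← Finset.sum_add_distrib]
      exact Finset.sum_le_sum fun μ _ => by omega
    refine ⟨∑ μ, Γ μ, fun t ht => ⟨?_, ?_, ?_⟩⟩
    · refine (cnt_mono _ _ _ hsum).trans ?_
      exact slice_cnt_Lc (NI_W E q hE hEq.le (m + 1)) A (hℓ c) t _
        (fun μ => (hΓ μ t ht).2.2) (fun μ s hs => (hΓ μ s (by omega)).1)
    · have h1 := slice_cnt_Lc (K := K) (NI_ds' q hq2 (∑ μ, q ^ 2 * Γ μ)) A (hℓ c) t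
        (fun μ => q ^ 2 * Γ μ)
        (fun μ => Finset.single_le_sum (f := fun μ => q ^ 2 * Γ μ) (fun _ _ => Nat.zero_le _)
          (Finset.mem_univ μ)) (fun μ s hs => (hΓ μ s (by omega)).2.1)
      rw [ext_ds q hq2, ← Finset.mul_sum] at h1
      exact h1
    · refine hsum.trans ?_
      refine (Finset.sum_le_sum fun μ _ => (hΓ μ t ht).2.2).trans ?_
      rw [Finset.sum_const, Finset.card_univ, ← hq, smul_eq_mul]
      exact le_of_eq (by ring)

end

end BDG

end FST2

section FDich1

/-!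
Coordinates, homogenisation, and the dichotomy between `Good` and a common factor.
-/

namespace BDG
open Module Finset

section hom
variable {K : Type*} [Field K]

/-- linear forms -/
noncomputable def LPh (K : Type*) [Field K] (N : ℕ) : Submodule K (MvPolynomial (Fin N) K) :=
  Submodule.span K (Set.range MvPolynomial.X)

/-- dehomogenisation: `X_0 = 1` -/
noncomputable def deh (K : Type*) [Field K] (N : ℕ) :
    MvPolynomial (Fin (N + 1)) K →ₐ[K] MvPolynomial (Fin N) K :=
  MvPolynomial.aeval (Fin.cons 1 MvPolynomial.X)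

@[simp] lemma deh_X_zero (N : ℕ) : deh K N (MvPolynomial.X 0) = 1 := by simp [deh]
@[simp] lemma deh_X_succ (N : ℕ) (j : Fin N) :
    deh K N (MvPolynomial.X j.succ) = MvPolynomial.X j := by simp [deh]

lemma LPh_map_deh (N : ℕ) : (LPh K (N + 1)).map (deh K N).toLinearMap = LP K N := by
  rw [LPh, LP, Submodule.map_span, ← Set.range_comp]
  congr 1
  ext f
  constructor
  · rintro ⟨i, rfl⟩
    refine Fin.cases ?_ (fun j => ?_) i
    · left; exact deh_X_zero N
    · right; exact ⟨j, (deh_X_succ N j).symm⟩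
  · rintro (rfl | ⟨j, rfl⟩)
    · exact ⟨0, deh_X_zero N⟩
    · exact ⟨j.succ, deh_X_succ N j⟩

lemma LPh_pow_map_deh (N t : ℕ) :
    ((LPh K (N + 1)) ^ t).map (deh K N).toLinearMap = (LP K N) ^ t := by
  rw [Submodule.map_pow, LPh_map_deh]

lemma LPh_pow_eq (N t : ℕ) :
    (LPh K N) ^ t = MvPolynomial.homogeneousSubmodule (Fin N) K t := by
  rw [LPh, ← MvPolynomial.homogeneousSubmodule_one_eq_span_X,
    MvPolynomial.homogeneousSubmodule_one_pow]

lemma eval_smul_LPh {N : ℕ} : ∀ (t : ℕ) (f : MvPolynomial (Fin N) K), f ∈ (LPh K N) ^ t →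
    ∀ (c : K) (v : Fin N → K), MvPolynomial.eval (c • v) f = c ^ t * MvPolynomial.eval v f := by
  intro t
  induction t with
  | zero =>
    intro f hf c v
    rw [pow_zero, Submodule.mem_one] at hf
    obtain ⟨a, rfl⟩ := hf
    simp
  | succ t ih =>
    intro f hf c v
    rw [pow_succ] at hf
    refine Submodule.mul_induction_on hf ?_ ?_
    · intro m hm l hl
      have h2 : MvPolynomial.eval (c • v) l = c * MvPolynomial.eval v l := by
        refine Submodule.span_induction (p := fun l _ => MvPolynomial.eval (c • v) l =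
          c * MvPolynomial.eval v l) ?_ ?_ ?_ ?_ hl
        · rintro _ ⟨i, rfl⟩; simp
        · simp
        · intro a b _ _ ha hb; rw [map_add, map_add, ha, hb]; ring
        · intro r a _ ha
          rw [MvPolynomial.smul_eval, MvPolynomial.smul_eval, ha]; ring
      rw [map_mul, map_mul, ih m hm, h2]; ring
    · intro a b ha hb; rw [map_add, map_add, ha, hb]; ring

lemma eval_deh {N : ℕ} (f : MvPolynomial (Fin (N + 1)) K) (v : Fin N → K) :
    MvPolynomial.eval v (deh K N f) = MvPolynomial.eval (Fin.cons 1 v : Fin (N + 1) → K) f := by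
  have h : (MvPolynomial.aeval v).comp (deh K N) =
      MvPolynomial.aeval (R := K) (Fin.cons 1 v : Fin (N + 1) → K) := by
    refine MvPolynomial.algHom_ext fun i => ?_
    refine Fin.cases ?_ (fun j => ?_) i
    · simp
    · simp
  have := DFunLike.congr_fun h f
  simpa [MvPolynomial.aeval_eq_eval] using this

lemma deh_inj [Infinite K] {N t : ℕ} {f : MvPolynomial (Fin (N + 1)) K}
    (hf : f ∈ (LPh K (N + 1)) ^ t) (h0 : deh K N f = 0) : f = 0 := by
  have h1 : MvPolynomial.X 0 * f = 0 := by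
    refine MvPolynomial.funext fun v => ?_
    rw [map_mul, MvPolynomial.eval_X, map_zero]
    by_cases hv : v 0 = 0
    · rw [hv, zero_mul]
    · have h2 : v = v 0 • (Fin.cons 1 (fun j : Fin N => (v 0)⁻¹ * v j.succ) : Fin (N + 1) → K) := by
        funext i
        refine Fin.cases ?_ (fun j => ?_) i
        · simp
        · simp [hv]
      rw [h2, eval_smul_LPh t f hf, ← eval_deh, h0, map_zero, mul_zero, mul_zero]
  exact (mul_eq_zero.1 h1).resolve_left (MvPolynomial.X_ne_zero 0)

/-- homogenisations of factors -/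
lemma hom_factor [Infinite K] {N a b : ℕ} {f : MvPolynomial (Fin (N + 1)) K}
    (hf : f ∈ (LPh K (N + 1)) ^ (a + b)) {g : MvPolynomial (Fin (N + 1)) K}
    (hg : g ∈ (LPh K (N + 1)) ^ a) {h : MvPolynomial (Fin N) K} (hh : h ∈ (LP K N) ^ b)
    (hfg : deh K N f = deh K N g * h) :
    ∃ k ∈ (LPh K (N + 1)) ^ b, f = g * k := by
  rw [← LPh_pow_map_deh] at hh
  obtain ⟨k, hk, hkh⟩ := hh
  refine ⟨k, hk, ?_⟩
  have h1 : f - g * k ∈ (LPh K (N + 1)) ^ (a + b) := by
    refine Submodule.sub_mem _ hf ?_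
    rw [pow_add]; exact Submodule.mul_mem_mul hg hk
  have h2 : deh K N (f - g * k) = 0 := by
    rw [map_sub, map_mul, hfg, ← hkh]
    exact sub_self _
  exact sub_eq_zero.1 (deh_inj h1 h2)

lemma totalDegree_le_of_mem {N : ℕ} : ∀ (t : ℕ) (f : MvPolynomial (Fin N) K),
    f ∈ (LP K N) ^ t → f.totalDegree ≤ t := by
  intro t
  induction t with
  | zero =>
    intro f hf
    rw [pow_zero, Submodule.mem_one] at hf
    obtain ⟨a, rfl⟩ := hf
    rw [MvPolynomial.algebraMap_eq, MvPolynomial.totalDegree_C]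
  | succ t ih =>
    intro f hf
    rw [pow_succ] at hf
    rw [← MvPolynomial.mem_restrictTotalDegree]
    refine Submodule.mul_induction_on hf ?_ ?_
    · intro m hm l hl
      have h2 : l ∈ MvPolynomial.restrictTotalDegree (Fin N) K 1 := by
        refine (Submodule.span_le.2 ?_ : LP K N ≤ _) hl
        rintro _ (rfl | ⟨i, rfl⟩)
        · rw [SetLike.mem_coe, MvPolynomial.mem_restrictTotalDegree]; simp
        · rw [SetLike.mem_coe, MvPolynomial.mem_restrictTotalDegree]; simp
      rw [MvPolynomial.mem_restrictTotalDegree] at h2 ⊢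
      exact (MvPolynomial.totalDegree_mul _ _).trans (add_le_add (ih m hm) h2)
    · intro a b ha hb; exact Submodule.add_mem _ ha hb

lemma mem_of_totalDegree_le {N t : ℕ} {f : MvPolynomial (Fin N) K} (h : f.totalDegree ≤ t) :
    f ∈ (LP K N) ^ t := by
  rw [f.as_sum]
  refine Submodule.sum_mem _ fun α hα => ?_
  have h1 : α.degree ≤ t := by
    refine le_trans ?_ h
    exact MvPolynomial.le_totalDegree hα
  have h2 : MvPolynomial.monomial α (MvPolynomial.coeff α f) =
      MvPolynomial.coeff α f • (MvPolynomial.monomial α (1 : K)) := by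
    rw [MvPolynomial.smul_monomial, smul_eq_mul, mul_one]
  rw [h2]
  refine Submodule.smul_mem _ _ ?_
  have h3 : (MvPolynomial.monomial α (1 : K)) ∈ (LPh K N) ^ α.degree := by
    rw [LPh_pow_eq, MvPolynomial.mem_homogeneousSubmodule]
    exact MvPolynomial.isHomogeneous_monomial 1 rfl
  have h4 : LPh K N ≤ LP K N := Submodule.span_mono (Set.subset_insert _ _)
  have h5 : (LP K N) ^ α.degree ≤ (LP K N) ^ t :=
    pow_le_pow_right' (Submodule.one_le.2 (one_mem_LP _)) h1
  exact h5 (pow_le_pow_left' h4 _ h3)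

/-- top coefficient along a direction -/
lemma top_coeff {N : ℕ} {R : Type*} [CommRing R] [Algebra K R] (a : Fin N → R) (v : Fin N → K)
    (t : ℕ) (f : MvPolynomial (Fin N) K) (hf : f.totalDegree ≤ t) :
    (MvPolynomial.aeval (fun i => Polynomial.C (a i) +
      Polynomial.C (algebraMap K R (v i)) * Polynomial.X) f).natDegree ≤ t ∧
    (MvPolynomial.aeval (fun i => Polynomial.C (a i) +
      Polynomial.C (algebraMap K R (v i)) * Polynomial.X) f).coeff t =
      algebraMap K R (MvPolynomial.eval v (MvPolynomial.homogeneousComponent t f)) := by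
  set Ψ := MvPolynomial.aeval (R := K) (fun i => Polynomial.C (a i) +
      Polynomial.C (algebraMap K R (v i)) * Polynomial.X) with hΨ
  have hX : ∀ i, (Ψ (MvPolynomial.X i)).natDegree ≤ 1 ∧
      (Ψ (MvPolynomial.X i)).coeff 1 = algebraMap K R (v i) := by
    intro i
    rw [hΨ, MvPolynomial.aeval_X]
    constructor
    · refine (Polynomial.natDegree_add_le _ _).trans (max_le ?_ ?_)
      · rw [Polynomial.natDegree_C]; exact Nat.zero_le _
      · exact (Polynomial.natDegree_C_mul_le _ _).trans Polynomial.natDegree_X_le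
    · simp [Polynomial.coeff_C]
  -- monomials
  have hmon : ∀ α : Fin N →₀ ℕ, (Ψ (MvPolynomial.monomial α 1)).natDegree ≤ α.degree ∧
      (Ψ (MvPolynomial.monomial α 1)).coeff α.degree =
        algebraMap K R (MvPolynomial.eval v (MvPolynomial.monomial α 1)) := by
    intro α
    induction α using Finsupp.induction_linear with
    | zero =>
      rw [show (MvPolynomial.monomial (0 : Fin N →₀ ℕ) (1 : K)) = 1 from rfl]
      simp
    | add α β hα hβ =>
      have e : MvPolynomial.monomial (α + β) (1 : K) =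
          MvPolynomial.monomial α 1 * MvPolynomial.monomial β 1 := by
        rw [MvPolynomial.monomial_mul, one_mul]
      rw [e, map_mul, map_mul, map_mul, map_add, ← hα.2, ← hβ.2]
      exact ⟨Polynomial.natDegree_mul_le_of_le hα.1 hβ.1,
        Polynomial.coeff_mul_add_eq_of_natDegree_le hα.1 hβ.1⟩
    | single i n =>
      have e : MvPolynomial.monomial (Finsupp.single i n) (1 : K) = MvPolynomial.X i ^ n := by
        rw [MvPolynomial.X_pow_eq_monomial]
      rw [e, map_pow, map_pow, MvPolynomial.eval_X, map_pow, ← (hX i).2, Finsupp.degree_single]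
      have h1 := Polynomial.coeff_pow_of_natDegree_le (n := 1) (m := n) (hX i).1
      rw [mul_one] at h1
      refine ⟨?_, h1⟩
      exact (Polynomial.natDegree_pow_le_of_le n (hX i).1).trans (by omega)
  have hmon' : ∀ (α : Fin N →₀ ℕ) (c : K), Ψ (MvPolynomial.monomial α c) =
      Polynomial.C (algebraMap K R c) * Ψ (MvPolynomial.monomial α 1) := by
    intro α c
    have e : MvPolynomial.monomial α c = c • MvPolynomial.monomial α (1 : K) := by
      rw [MvPolynomial.smul_monomial, smul_eq_mul, mul_one]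
    rw [e, map_smul, Algebra.smul_def]
    rfl
  have hsum : Ψ f = ∑ α ∈ f.support, Ψ (MvPolynomial.monomial α (MvPolynomial.coeff α f)) := by
    conv_lhs => rw [f.as_sum]
    rw [map_sum]
  constructor
  · rw [hsum]
    refine Polynomial.natDegree_sum_le_of_forall_le _ _ fun α hα => ?_
    rw [hmon']
    refine (Polynomial.natDegree_C_mul_le _ _).trans ((hmon α).1.trans ?_)
    exact (MvPolynomial.le_totalDegree hα).trans hf
  · rw [hsum, Polynomial.finsetSum_coeff, MvPolynomial.homogeneousComponent_apply, map_sum,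
      map_sum, Finset.sum_filter]
    refine Finset.sum_congr rfl fun α hα => ?_
    rw [hmon', Polynomial.coeff_C_mul]
    have hα' : α.degree ≤ t := (MvPolynomial.le_totalDegree hα).trans hf
    by_cases h : α.degree = t
    · rw [if_pos h]
      have e : MvPolynomial.monomial α (MvPolynomial.coeff α f) =
          MvPolynomial.C (MvPolynomial.coeff α f) * MvPolynomial.monomial α (1 : K) := by
        rw [MvPolynomial.C_mul_monomial, mul_one]
      rw [e, map_mul, MvPolynomial.eval_C, map_mul, ← (hmon α).2, h]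
    · rw [if_neg h]
      rw [Polynomial.coeff_eq_zero_of_natDegree_lt, mul_zero]
      exact lt_of_le_of_lt (hmon α).1 (lt_of_le_of_ne hα' h)

end hom

section shear
variable {K : Type*} [Field K] {F : Type*} [Field F] [Algebra F K] {M : ℕ}

/-- shear substitution -/
noncomputable def kap (K : Type*) [Field K] {F : Type*} [Field F] [Algebra F K] {M : ℕ}
    (v : Fin M → F) : MvPolynomial (Fin (M + 1)) K →ₐ[K] MvPolynomial (Fin (M + 1)) K :=
  MvPolynomial.aeval (Fin.cons (MvPolynomial.X 0) (fun j => MvPolynomial.X j.succ +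
    MvPolynomial.C (algebraMap F K (v j)) * MvPolynomial.X 0))

@[simp] lemma kap_X_zero (v : Fin M → F) :
    kap K v (MvPolynomial.X 0) = MvPolynomial.X 0 := by simp [kap]
@[simp] lemma kap_X_succ (v : Fin M → F) (j : Fin M) :
    kap K v (MvPolynomial.X j.succ) = MvPolynomial.X j.succ +
    MvPolynomial.C (algebraMap F K (v j)) * MvPolynomial.X 0 := by simp [kap]

lemma kap_kap {v w : Fin M → F} (h : ∀ j, v j + w j = 0) (f : MvPolynomial (Fin (M + 1)) K) :
    kap K w (kap K v f) = f := by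
  have e : (kap K w).comp (kap K v) = AlgHom.id K _ := by
    refine MvPolynomial.algHom_ext fun i => ?_
    rw [AlgHom.comp_apply]
    refine Fin.cases ?_ (fun j => ?_) i
    · simp
    · rw [kap_X_succ, map_add, map_mul, kap_X_succ, kap_X_zero]
      have hC : ∀ c : K, kap K w (MvPolynomial.C c) = MvPolynomial.C c :=
        fun c => (kap K w).commutes c
      rw [hC, AlgHom.id_apply, add_assoc, ← add_mul, ← MvPolynomial.C_add, ← map_add,
        add_comm (w j), h j, map_zero, MvPolynomial.C_0, zero_mul, add_zero]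
  exact DFunLike.congr_fun e f

/-- shear of points -/
def shp (v : Fin M → F) (a : Fin (M + 1) → F) : Fin (M + 1) → F :=
  Fin.cons (a 0) (fun j => a j.succ - v j * a 0)

lemma evF_kap (v : Fin M → F) (f : MvPolynomial (Fin (M + 1)) K) (a : Fin (M + 1) → F) :
    evF K F (M + 1) (kap K v f) (shp v a) = evF K F (M + 1) f a := by
  have h : (MvPolynomial.aeval (R := K) (fun i => algebraMap F K (shp v a i))).comp (kap K v) =
      MvPolynomial.aeval (fun i => algebraMap F K (a i)) := by
    refine MvPolynomial.algHom_ext fun i => ?_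
    rw [AlgHom.comp_apply]
    refine Fin.cases ?_ (fun j => ?_) i
    · rw [kap_X_zero]; simp [shp]
    · rw [kap_X_succ]; simp [shp]
  rw [evF_apply, evF_apply]
  exact DFunLike.congr_fun h f

lemma shp_injective (v : Fin M → F) : Function.Injective (shp v) := by
  intro a b h
  have h0 : a 0 = b 0 := congrFun h 0
  funext i
  refine Fin.cases h0 (fun j => ?_) i
  have hj := congrFun h j.succ
  simp only [shp, Fin.cons_succ] at hj
  rw [h0] at hj
  linear_combination hj

lemma kap_LP (v : Fin M → F) :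
    (LP K (M + 1)).map (kap K v).toLinearMap ≤ LP K (M + 1) := by
  refine LP_map_le _ _ (one_mem_LP _) ?_
  intro i
  refine Fin.cases ?_ (fun j => ?_) i
  · rw [kap_X_zero]; exact X_mem_LP _
  · rw [kap_X_succ, ← MvPolynomial.smul_eq_C_mul]
    exact Submodule.add_mem _ (X_mem_LP _) (Submodule.smul_mem _ _ (X_mem_LP _))

lemma kap_mem (v : Fin M → F) {t : ℕ} {f : MvPolynomial (Fin (M + 1)) K}
    (hf : f ∈ (LP K (M + 1)) ^ t) : kap K v f ∈ (LP K (M + 1)) ^ t := by
  have h3 : kap K v f ∈ ((LP K (M + 1)) ^ t).map (kap K v).toLinearMap := ⟨f, hf, rfl⟩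
  rw [Submodule.map_pow] at h3
  exact pow_le_pow_left' (kap_LP v) t h3

lemma kap_LP_eq (v : Fin M → F) :
    (LP K (M + 1)).map (kap K v).toLinearMap = LP K (M + 1) := by
  refine le_antisymm (kap_LP v) ?_
  intro f hf
  refine ⟨kap K (-v) f, ?_, ?_⟩
  · have := kap_mem (K := K) (-v) (t := 1) (f := f) (by rwa [pow_one])
    rwa [pow_one] at this
  · exact kap_kap (fun j => by simp) f

lemma Hs_shear [DecidableEq F] (v : Fin M → F) (A : Finset (Fin (M + 1) → F)) (t : ℕ) :
    Hs (Lc K F (M + 1)) A t = Hs (Lc K F (M + 1)) (A.image (shp v)) t := by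
  refine Hs_eq_image (shp v) _ _ _ ?_ t
  rw [← LP_map_evF]
  nth_rewrite 2 [← kap_LP_eq v]
  rw [← Submodule.map_comp, ← Submodule.map_comp, ← Submodule.map_comp, ← Submodule.map_comp]
  congr 1
  refine LinearMap.ext fun g => ?_
  show res K _ (evF K F (M + 1) g) = res K _ (pull K (shp v) (evF K F (M + 1) (kap K v g)))
  funext a
  rw [res_apply, res_apply, pull_apply]
  exact (evF_kap v g a).symm

lemma JJ_shear [DecidableEq F] (v : Fin M → F) (A : Finset (Fin (M + 1) → F)) {t : ℕ}
    {g : MvPolynomial (Fin (M + 1)) K} (hg : g ∈ JJ K A t) :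
    kap K v g ∈ JJ K (A.image (shp v)) t := by
  refine ⟨kap_mem v hg.1, ?_⟩
  intro b hb
  obtain ⟨a, ha, rfl⟩ := Finset.mem_image.1 hb
  rw [evF_kap]
  exact hg.2 a ha

/-- a nonzero polynomial becomes monic in a suitable rational direction -/
lemma exists_monic [Infinite K] [Fintype F] {E : ℕ} (hEq : E < Fintype.card F)
    {g : MvPolynomial (Fin (M + 1)) K} (hg0 : g ≠ 0) (hg : g ∈ (LP K (M + 1)) ^ E) :
    ∃ (v : Fin M → F) (h : MvPolynomial (Fin (M + 1)) K), h ∈ (LP K (M + 1)) ^ E ∧
      kap K v g ∣ h ∧ (MvPolynomial.finSuccEquiv K M h).Monic ∧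
      (MvPolynomial.finSuccEquiv K M h).natDegree = E := by
  classical
  set e := g.totalDegree with he
  have heE : e ≤ E := totalDegree_le_of_mem E g hg
  set top := MvPolynomial.homogeneousComponent e g with htop
  have htop0 : top ≠ 0 := by
    obtain ⟨α, hα, hαe⟩ : ∃ α ∈ g.support, α.degree = e := by
      have h1 := g.support_nonempty.2 hg0
      obtain ⟨α, hα, h2⟩ := Finset.exists_mem_eq_sup g.support h1
        (fun s => s.sum fun _ e => e)
      exact ⟨α, hα, h2.symm⟩
    intro h0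
    have h1 := MvPolynomial.coeff_homogeneousComponent e g α
    rw [← htop, h0, MvPolynomial.coeff_zero, if_pos hαe] at h1
    exact (MvPolynomial.mem_support_iff.1 hα) h1.symm
  have htoph : top ∈ (LPh K (M + 1)) ^ e := by
    rw [LPh_pow_eq]; exact MvPolynomial.homogeneousComponent_mem e g
  have hdeh : deh K M top ≠ 0 := fun h => htop0 (deh_inj htoph h)
  have hdehd : (deh K M top).totalDegree ≤ e := by
    refine totalDegree_le_of_mem e _ ?_
    rw [← LPh_pow_map_deh]
    exact ⟨top, htoph, rfl⟩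
  obtain ⟨v, hv⟩ : ∃ v : Fin M → F,
      MvPolynomial.eval (fun j => algebraMap F K (v j)) (deh K M top) ≠ 0 := by
    by_contra hcon
    push Not at hcon
    apply hdeh
    refine MvPolynomial.eq_zero_of_eval_zero_at_prod_finset _
      (fun _ => Finset.univ.image (algebraMap F K)) ?_ ?_
    · intro i
      rw [Finset.card_image_of_injective _ (algebraMap F K).injective, Finset.card_univ]
      exact lt_of_le_of_lt ((MvPolynomial.degreeOf_le_totalDegree _ i).trans hdehd) (by omega)
    · intro x hx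
      choose w hw using fun i => Finset.mem_image.1 (hx i)
      have : x = fun j => algebraMap F K (w j) := by
        funext j; exact (hw j).2.symm
      rw [this]; exact hcon w
  -- the leading coefficient
  set c := MvPolynomial.eval (fun j => algebraMap F K (v j)) (deh K M top) with hc
  let a : Fin (M + 1) → MvPolynomial (Fin M) K := Fin.cons 0 MvPolynomial.X
  let w : Fin (M + 1) → K := Fin.cons 1 (fun j => algebraMap F K (v j))
  have hΨ : ∀ f, MvPolynomial.finSuccEquiv K M (kap K v f) =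
      MvPolynomial.aeval (fun i => Polynomial.C (a i) +
        Polynomial.C (algebraMap K (MvPolynomial (Fin M) K) (w i)) * Polynomial.X) f := by
    intro f
    have h : (MvPolynomial.finSuccEquiv K M).toAlgHom.comp (kap K v) =
        MvPolynomial.aeval (fun i => Polynomial.C (a i) +
        Polynomial.C (algebraMap K (MvPolynomial (Fin M) K) (w i)) * Polynomial.X) := by
      refine MvPolynomial.algHom_ext fun i => ?_
      show MvPolynomial.finSuccEquiv K M (kap K v (MvPolynomial.X i)) = _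
      rw [MvPolynomial.aeval_X]
      have hC : ∀ c : K, MvPolynomial.finSuccEquiv K M (MvPolynomial.C c) =
        Polynomial.C (MvPolynomial.C c) := fun c => (MvPolynomial.finSuccEquiv K M).commutes c
      refine Fin.cases ?_ (fun j => ?_) i
      · rw [kap_X_zero, MvPolynomial.finSuccEquiv_X_zero]
        simp [a, w]
      · rw [kap_X_succ, map_add, map_mul, MvPolynomial.finSuccEquiv_X_succ,
          MvPolynomial.finSuccEquiv_X_zero, hC]
        simp [a, w, MvPolynomial.algebraMap_eq]
    exact DFunLike.congr_fun h f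
  have htc := top_coeff (R := MvPolynomial (Fin M) K) a w e g le_rfl
  rw [← hΨ, ← htop] at htc
  have hcw : MvPolynomial.eval w top = c := by
    rw [hc, eval_deh]
  rw [hcw] at htc
  refine ⟨v, MvPolynomial.C c⁻¹ * kap K v g * MvPolynomial.X 0 ^ (E - e), ?_, ?_, ?_⟩
  · have h1 : kap K v g ∈ (LP K (M + 1)) ^ e := kap_mem v (mem_of_totalDegree_le le_rfl)
    have h2 : MvPolynomial.C c⁻¹ * kap K v g ∈ (LP K (M + 1)) ^ e := by
      rw [← MvPolynomial.smul_eq_C_mul]; exact Submodule.smul_mem _ _ h1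
    have h3 := Submodule.mul_mem_mul h2
      (Submodule.pow_mem_pow (LP K (M + 1)) (X_mem_LP (0 : Fin (M + 1))) (E - e))
    rw [← pow_add] at h3
    have h4 : e + (E - e) = E := by omega
    rwa [h4] at h3
  · exact Dvd.intro_left (MvPolynomial.C c⁻¹ * MvPolynomial.X 0 ^ (E - e)) (by ring)
  · have hC : MvPolynomial.finSuccEquiv K M (MvPolynomial.C c⁻¹) =
        Polynomial.C (MvPolynomial.C c⁻¹) := (MvPolynomial.finSuccEquiv K M).commutes c⁻¹
    have h0 : (Polynomial.C (MvPolynomial.C c⁻¹) * MvPolynomial.finSuccEquiv K M (kap K v g)).coeff e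
        = 1 := by
      rw [Polynomial.coeff_C_mul, htc.2, MvPolynomial.algebraMap_eq, ← MvPolynomial.C_mul,
        inv_mul_cancel₀ hv, MvPolynomial.C_1]
    have h1 : (Polynomial.C (MvPolynomial.C c⁻¹) *
        MvPolynomial.finSuccEquiv K M (kap K v g)).natDegree ≤ e :=
      (Polynomial.natDegree_C_mul_le _ _).trans htc.1
    have h2 : (Polynomial.C (MvPolynomial.C c⁻¹) *
        MvPolynomial.finSuccEquiv K M (kap K v g)).Monic :=
      Polynomial.monic_of_natDegree_le_of_coeff_eq_one e h1 h0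
    have h3 : (Polynomial.C (MvPolynomial.C c⁻¹) *
        MvPolynomial.finSuccEquiv K M (kap K v g)).natDegree = e := by
      refine le_antisymm h1 (Polynomial.le_natDegree_of_ne_zero ?_)
      rw [h0]; exact one_ne_zero
    rw [map_mul, map_mul, map_pow, hC, MvPolynomial.finSuccEquiv_X_zero]
    refine ⟨h2.mul (Polynomial.monic_X_pow _), ?_⟩
    rw [h2.natDegree_mul (Polynomial.monic_X_pow _), h3, Polynomial.natDegree_X_pow]
    omega

end shear

end BDG

end FDich1

section FDich2

/-!
The dichotomy for affine subsets of a vector space.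
-/

namespace BDG
open Module Finset

section coords
variable {K : Type*} [Field K] {F : Type*} [Field F] [Algebra F K] {V : Type*} [AddCommGroup V]
  [Module F V] {N : ℕ} (b : Basis (Fin (N + 1)) F V)

/-- affine coordinates -/
noncomputable def tauB (v : V) : Fin N → F := fun i => b.coord i.succ v

/-- evaluation of forms in the coordinates of `b` -/
noncomputable def evV (K : Type*) [Field K] [Algebra F K] :
    MvPolynomial (Fin (N + 1)) K →ₐ[K] (V → K) :=
  MvPolynomial.aeval (fun i => fn K (b.coord i))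

lemma evV_apply (g : MvPolynomial (Fin (N + 1)) K) (v : V) :
    evV b K g v = MvPolynomial.eval (fun i => algebraMap F K (b.coord i v)) g := by
  have h : (Pi.evalAlgHom K (fun _ : V => K) v).comp (evV b K) =
      MvPolynomial.aeval (fun i => algebraMap F K (b.coord i v)) := by
    refine MvPolynomial.algHom_ext fun i => ?_
    simp [evV]
  have := DFunLike.congr_fun h g
  simpa [MvPolynomial.aeval_eq_eval] using this

lemma LPh_map_evV : (LPh K (N + 1)).map (evV b K).toLinearMap = Lf K F V := by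
  rw [LPh, Submodule.map_span, ← Set.range_comp, Lf_eq_span b]
  congr 2
  funext i
  simp [evV]

lemma LPh_pow_map_evV (t : ℕ) :
    ((LPh K (N + 1)) ^ t).map (evV b K).toLinearMap = (Lf K F V) ^ t := by
  rw [Submodule.map_pow, LPh_map_evV]

lemma evV_eq_evF {v : V} (hv : b.coord 0 v = 1) (g : MvPolynomial (Fin (N + 1)) K) :
    evV b K g v = evF K F N (deh K N g) (tauB b v) := by
  rw [evV_apply, evF_apply, MvPolynomial.aeval_eq_eval]
  have h := eval_deh g (fun i => algebraMap F K (tauB b v i))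
  show _ = MvPolynomial.eval (fun i => algebraMap F K (tauB b v i)) (deh K N g)
  rw [h]
  congr 1
  congr 1
  funext i
  refine Fin.cases ?_ (fun j => ?_) i
  · rw [hv, map_one, Fin.cons_zero]
  · rw [Fin.cons_succ]; rfl

lemma tauB_inj {v w : V} (hv : b.coord 0 v = 1) (hw : b.coord 0 w = 1)
    (h : tauB b v = tauB b w) : v = w := by
  refine b.ext_elem fun i => ?_
  refine Fin.cases ?_ (fun j => ?_) i
  · exact hv.trans hw.symm
  · exact congrFun h j

lemma Hs_tau [DecidableEq F] (A : Finset V) (hA : ∀ x ∈ A, b.coord 0 x = 1) (t : ℕ) :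
    Hs (Lf K F V) A t = Hs (Lc K F N) (A.image (tauB b)) t := by
  refine Hs_eq_image (tauB b) _ _ _ ?_ t
  rw [← LPh_map_evV b, ← LP_map_evF, ← LPh_map_deh, ← Submodule.map_comp, ← Submodule.map_comp,
    ← Submodule.map_comp, ← Submodule.map_comp]
  congr 1
  refine LinearMap.ext fun g => ?_
  show res K _ (evV b K g) = res K _ (pull K (tauB b) (evF K F N (deh K N g)))
  funext a
  rw [res_apply, res_apply, pull_apply]
  exact evV_eq_evF b (hA a a.2) g

end coords

section dich
variable {K : Type*} [Field K] [Infinite K] {F : Type*} [Field F] [Algebra F K] [Fintype F]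
  [DecidableEq F] {V : Type*} [AddCommGroup V] [Module F V] {M : ℕ}

omit [Infinite K] in
lemma exists_JJ {E E' : ℕ} (hE : E' ≤ E) (hEq : E < Fintype.card F)
    (A : Finset (Fin (M + 1) → F)) (hH : Hs (Lc K F (M + 1)) A E' < R (M + 1) E') :
    ∃ g ∈ JJ K A E, g ≠ 0 := by
  have h1 : R (M + 1) E' ≤ finrank K ↥((LP K (M + 1)) ^ E') := by
    have h2 := AF_Lc (K := K) (Finset.univ : Finset (Fin (M + 1) → F)) E'
    have h3 : Fintype.card (Fin (M + 1) → F) = Fintype.card F ^ (M + 1) := by simp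
    rw [Finset.card_univ, h3, D_pow _ (by omega)] at h2
    refine h2.trans ?_
    rw [Hs_Lc]
    exact Submodule.finrank_map_le _ _
  have h4 := finrank_eq_map_add_ker ((LP K (M + 1)) ^ E')
    ((res K A).comp (evF K F (M + 1))).toLinearMap
  rw [← Hs_Lc] at h4
  have h5 : (LP K (M + 1)) ^ E' ⊓ LinearMap.ker ((res K A).comp (evF K F (M + 1))).toLinearMap ≠
      ⊥ := by
    intro h
    rw [h, finrank_bot] at h4
    omega
  obtain ⟨g, hg, hg0⟩ := Submodule.exists_mem_ne_zero_of_ne_bot h5
  have hle : (LP K (M + 1)) ^ E' ≤ (LP K (M + 1)) ^ E :=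
    pow_le_pow_right' (Submodule.one_le.2 (one_mem_LP _)) hE
  refine ⟨g, ⟨hle hg.1, ?_⟩, hg0⟩
  intro a ha
  have h6 : res K A (evF K F (M + 1) g) = 0 := hg.2
  exact res_eq_zero.1 h6 a ha

/-- all functions of degree `≤ E` vanishing on `A` are multiples of `G`, of degree `γ` -/
def Fact (K : Type*) [Field K] {F : Type*} [Field F] [Algebra F K] {V : Type*} [AddCommGroup V]
    [Module F V] (A : Finset V) (E γ : ℕ) (G : V → K) : Prop :=
  1 ≤ γ ∧ G ∈ (Lf K F V) ^ γ ∧ ∀ t ≤ E, ∀ g ∈ (Lf K F V) ^ t, (∀ a ∈ A, g a = 0) →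
    g = 0 ∨ (γ ≤ t ∧ ∃ k ∈ (Lf K F V) ^ (t - γ), g = G * k)

theorem dichotomy (b : Basis (Fin (M + 2)) F V) (A : Finset V) (hA : ∀ x ∈ A, b.coord 0 x = 1)
    {E E' : ℕ} (hE : E' ≤ E) (hEq : E < Fintype.card F)
    (hH : Hs (Lf K F V) A E' < R (M + 1) E') :
    (∃ A' : Finset (Fin (M + 1) → F), #A' = #A ∧
      (∀ t, Hs (Lc K F (M + 1)) A' t = Hs (Lf K F V) A t) ∧ Good K A' E) ∨
    ∃ γ G, Fact K (F := F) A E γ G := by
  classical
  set A0 := A.image (tauB b) with hA0
  have hHt : ∀ t, Hs (Lf K F V) A t = Hs (Lc K F (M + 1)) A0 t := fun t => Hs_tau b A hA t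
  obtain ⟨g0, hg0, hg0n⟩ := exists_JJ (K := K) hE hEq A0 (by rw [← hHt]; exact hH)
  obtain ⟨v, h, hhE, hdiv, hm, hd⟩ := exists_monic (K := K) hEq hg0n hg0.1
  set A1 := A0.image (shp v) with hA1
  by_cases hgood : Good K A1 E
  · left
    refine ⟨A1, ?_, ?_, hgood⟩
    · rw [hA1, Finset.card_image_of_injective _ (shp_injective v), hA0,
        Finset.card_image_of_injOn]
      intro x hx y hy hxy
      exact tauB_inj b (hA x (Finset.mem_coe.1 hx)) (hA y (Finset.mem_coe.1 hy)) hxy
    · intro t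
      rw [hHt, Hs_shear v A0 t]
  · right
    have hh : h ∈ JJ K A1 E := by
      refine ⟨hhE, ?_⟩
      intro a ha
      obtain ⟨k, hk⟩ := hdiv
      have h1 := (JJ_shear v A0 hg0).2 a ha
      rw [hk, map_mul, Pi.mul_apply, h1, zero_mul]
    have hncf : ∃ f1, (∀ g ∈ JJ K A1 E, f1 ∣ g) ∧ ¬ IsUnit f1 := by
      by_contra hcon
      push Not at hcon
      exact hgood ⟨⟨h, hh, hm, hd⟩, hcon⟩
    obtain ⟨f1, hf1, hf1u⟩ := hncf
    set f0 := kap K (-v) f1 with hf0
    have hf01 : kap K v f0 = f1 := kap_kap (fun j => by simp) f1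
    have hf0u : ¬ IsUnit f0 := by
      intro hu
      apply hf1u
      rw [← hf01]
      exact hu.map (kap K v)
    have hf0d : ∀ g ∈ JJ K A0 E, f0 ∣ g := by
      intro g hg
      have h1 := map_dvd (kap K (-v)) (hf1 _ (JJ_shear v A0 hg))
      rwa [kap_kap (fun j => by simp) g] at h1
    have hf0n : f0 ≠ 0 := by
      intro h0
      have := hf0d g0 hg0
      rw [h0, zero_dvd_iff] at this
      exact hg0n this
    set γ := f0.totalDegree with hγ
    have hγ1 : 1 ≤ γ := by
      rw [Nat.one_le_iff_ne_zero]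
      intro h0
      apply hf0u
      rw [MvPolynomial.isUnit_iff_totalDegree_of_isReduced]
      refine ⟨?_, h0⟩
      rw [isUnit_iff_ne_zero]
      intro h1
      apply hf0n
      rw [MvPolynomial.totalDegree_eq_zero_iff_eq_C.1 h0, h1, MvPolynomial.C_0]
    have hf0m : f0 ∈ (LP K (M + 1)) ^ γ := mem_of_totalDegree_le le_rfl
    rw [← LPh_pow_map_deh] at hf0m
    obtain ⟨fh, hfh, hfhd⟩ := hf0m
    have hfhd' : deh K (M + 1) fh = f0 := hfhd
    refine ⟨γ, evV b K fh, hγ1, ?_, ?_⟩
    · rw [← LPh_pow_map_evV b]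
      exact ⟨fh, hfh, rfl⟩
    · intro t ht g hg hga
      rw [← LPh_pow_map_evV b] at hg
      obtain ⟨gh, hgh, hghe⟩ := hg
      have hghe' : evV b K gh = g := hghe
      have hmem : deh K (M + 1) gh ∈ (LP K (M + 1)) ^ t := by
        rw [← LPh_pow_map_deh]; exact ⟨gh, hgh, rfl⟩
      have hle : (LP K (M + 1)) ^ t ≤ (LP K (M + 1)) ^ E :=
        pow_le_pow_right' (Submodule.one_le.2 (one_mem_LP _)) ht
      have hJJ : deh K (M + 1) gh ∈ JJ K A0 E := by
        refine ⟨hle hmem, ?_⟩
        intro a ha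
        obtain ⟨x, hx, rfl⟩ := Finset.mem_image.1 ha
        rw [← evV_eq_evF b (hA x hx), hghe']
        exact hga x hx
      obtain ⟨k, hk⟩ := hf0d _ hJJ
      by_cases h0 : deh K (M + 1) gh = 0
      · left
        rw [← hghe', deh_inj hgh h0, map_zero]
      · right
        have hk0 : k ≠ 0 := by
          rintro rfl
          rw [mul_zero] at hk
          exact h0 hk
        have hdeg := totalDegree_le_of_mem t _ hmem
        rw [hk, MvPolynomial.totalDegree_mul_of_isDomain hf0n hk0] at hdeg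
        refine ⟨by omega, ?_⟩
        have hkm : k ∈ (LP K (M + 1)) ^ (t - γ) := mem_of_totalDegree_le (by omega)
        have htt : t = γ + (t - γ) := by omega
        obtain ⟨kh, hkh, hgk⟩ := hom_factor (a := γ) (b := t - γ) (f := gh)
          (by rw [← htt]; exact hgh) hfh hkm (by rw [hk, hfhd'])
        refine ⟨evV b K kh, ?_, ?_⟩
        · rw [← LPh_pow_map_evV b]; exact ⟨kh, hkh, rfl⟩
        · rw [← hghe', hgk, map_mul]

/-- numerical consequence for good sets -/
theorem good_bound {E : ℕ} (hE : 1 ≤ E) (hEq : E < Fintype.card F) {M : ℕ} (hM : 1 ≤ M)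
    (A : Finset (Fin (M + 1) → F)) (hG : Good K A E) (G : ℕ)
    (h1 : D (Fintype.card F) (E - 1) G = Hs (Lc K F (M + 1)) A (E - 1))
    (h2 : ds (Fintype.card F) G ≤ E - 1) (h3 : (Fintype.card F) ^ M ≤ G)
    (h4 : G < (Fintype.card F) ^ (M + 1)) :
    #A + theta (Fintype.card F) E M (G / (Fintype.card F) ^ M) ≤ G := by
  classical
  rcases Nat.eq_or_lt_of_le hM with h | h
  · subst h
    obtain ⟨⟨F0, hF0, hm, hd⟩, hncf⟩ := hG
    obtain ⟨r, hr0, hr⟩ := gauss _ hncf
    obtain ⟨ys, hys1, hys2⟩ := avoid r hr0 (fun _ : F => fun _ => (1 : K))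
      (fun h => by
        intro h0
        have := congrFun h0 0
        simp at this) (fun h => algebraMap F K h)
    have hy : ∀ w : F, algebraMap F K w ≠ ys 0 := by
      intro w hw
      apply hys2 w
      rw [hw]; simp
    have key := planar_set A hE hEq ys hy hF0 (by rw [sp_eq_map]; exact hm.map _)
      (by rw [sp_eq_map, hm.natDegree_map, hd])
    have htop : Ideal.span (sp ys '' (JJ K A E)) = ⊤ := by
      rw [Ideal.eq_top_iff_one]
      have h5 := Ideal.mem_map_of_mem (sp ys).toRingHom hr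
      rw [Ideal.map_span] at h5
      have h6 : (sp ys).toRingHom (MvPolynomial.rename Fin.succ r) =
          Polynomial.C (MvPolynomial.eval ys r) := sp_rename ys r
      rw [h6] at h5
      have h7 := Ideal.mul_mem_left _ (Polynomial.C (MvPolynomial.eval ys r)⁻¹) h5
      rw [← map_mul, inv_mul_cancel₀ hys1, map_one] at h7
      exact h7
    have h0 : finrank K (Polynomial K ⧸ Ideal.span (sp ys '' (JJ K A E))) = 0 := by
      rw [htop]
      have : Subsingleton (Polynomial K ⧸ (⊤ : Ideal (Polynomial K))) :=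
        Ideal.Quotient.subsingleton_iff.2 rfl
      exact Module.finrank_zero_of_subsingleton
    rw [h0, Nat.mul_zero, Nat.sub_zero] at key
    have h5 := key.1 (E - 1) (by omega)
    rw [pow_one] at h3 ⊢
    exact THETA1 _ E _ _ G hE hEq h5 h1 h2 h3 h4
  · obtain ⟨m, rfl⟩ : ∃ m, M = m + 2 := ⟨M - 2, by omega⟩
    obtain ⟨Γ, hΓ⟩ := ST hE hEq m A hG
    obtain ⟨g1, g2, -⟩ := hΓ (E - 1) (by omega)
    exact THETA _ E (m + 2) _ _ G Γ hE hEq (by omega) g1 g2 h1 h2 h3 h4

end dich

end BDG

end FDich2
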