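import Mathlib
import Pool.Agent.helper88.BDG.N1
import Pool.Agent.helper88.BDG.N2
import Pool.Agent.helper88.BDG.Ranks
import Pool.Agent.helper88.BDG.Frame
import Pool.Agent.helper88.BDG.Lin

/-!
Merged modules `Vec`, `Cone`, `Proj`, `Cone2`, `Single`.
-/

section FVec

/-!
Basic lemmas on Hilbert functions of subsets of a vector space.
-/

namespace BDG
open Module Finset

section num

lemma ds_pos {q : ℕ} (hq : 2 ≤ q) : ∀ z : ℕ, ds q z = 0 → z = 0 := by
  intro z
  induction z using Nat.strong_induction_on with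
  | _ z ih =>
    intro h
    rw [ds_eq hq] at h
    by_contra hz
    have h1 : z / q < z := Nat.div_lt_self (by omega) (by omega)
    have h2 := ih _ h1 (by omega)
    have h3 := Nat.div_add_mod z q
    rw [h2] at h3
    omega

lemma D_zero' (q t : ℕ) : D q t 0 = 0 := by simp [D, cnt]

lemma D_lt' {q t x y : ℕ} (hx : ds q x ≤ t) (hxy : x < y) : D q t x < D q t y :=
  N2.D_lt hx hxy

/-- layer inequality for `D` -/
lemma D_layers (q : ℕ) (hq : 2 ≤ q) {t : ℕ} (ht : t < q) (y : ℕ → ℕ) (hy : Antitone y) :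
    D q t (∑ i ∈ range q, y i) ≤ ∑ i ∈ range (t + 1), D q (t - i) (y i) := by
  refine (NI_ds q hq y 0 t hy).trans ?_
  have h4 : range (t + 1) ⊆ range q := by
    intro i hi; rw [Finset.mem_range] at *; omega
  rw [← Finset.sum_subset h4]
  · refine Finset.sum_le_sum fun i hi => ?_
    rw [Finset.mem_range] at hi
    rw [zero_add, cnt_shift (by omega)]
    exact le_rfl
  · intro i hi hi'
    rw [Finset.mem_range] at hi hi'
    exact cnt_eq_zero (by omega) _

lemma R_zero' (M : ℕ) : R M 0 = 1 := by simp [R]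
lemma R_zero_left' (t : ℕ) : R 0 t = 1 := by simp [R]

lemma sum_level {α : Type*} (S : Finset α) (f : α → ℕ) (n : ℕ) (hf : ∀ y ∈ S, f y ≤ n) :
    ∑ k ∈ range n, #(S.filter fun y => k + 1 ≤ f y) = ∑ y ∈ S, f y := by
  classical
  simp only [Finset.card_filter]
  rw [Finset.sum_comm]
  refine Finset.sum_congr rfl fun y hy => ?_
  rw [← Finset.card_filter]
  have : (range n).filter (fun k => k + 1 ≤ f y) = range (f y) := by
    ext k
    have := hf y hy
    simp only [Finset.mem_filter, Finset.mem_range]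
    omega
  rw [this, Finset.card_range]

end num

section vec
variable {K : Type*} [Field K] {F : Type*} [Field F] [Algebra F K] [Fintype F] [DecidableEq F]
  {V : Type*} [AddCommGroup V] [Module F V]

omit [DecidableEq F] in
lemma card_F_ge : 2 ≤ Fintype.card F := Fintype.one_lt_card

lemma AFV (φ : Module.Dual F V) (A : Finset V) (hA : ∀ x ∈ A, φ x = 1) (t : ℕ) :
    D (Fintype.card F) t #A ≤ Hs (Lf K F V) A t :=
  AF (fun lim => NI_ds' _ card_F_ge lim) (ext_ds _ card_F_ge) φ _ A le_rfl hA t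

omit [Fintype F] [DecidableEq F] in
lemma Hs_pos (X : Finset V) (t : ℕ) {x : V} (hx : x ∈ X) (hx0 : x ≠ 0) :
    1 ≤ Hs (Lf K F V) X t := by
  obtain ⟨φ, hφ⟩ : ∃ φ : Module.Dual F V, φ x ≠ 0 := by
    by_contra hcon
    push Not at hcon
    exact hx0 ((Module.forall_dual_apply_eq_zero_iff F _).1 hcon)
  refine Nat.one_le_iff_ne_zero.2 fun h3 => ?_
  have h4 : (Lf K F V ^ t).map (res K X).toLinearMap = ⊥ := Submodule.finrank_eq_zero.1 h3
  have h5 : res K X (fn K φ ^ t) ∈ (Lf K F V ^ t).map (res K X).toLinearMap :=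
    Submodule.mem_map_of_mem (f := (res K X).toLinearMap)
      (Submodule.pow_mem_pow _ (fn_mem φ) t)
  rw [h4, Submodule.mem_bot, res_eq_zero] at h5
  have h6 := h5 x hx
  exact pow_ne_zero t (fun h => hφ (fn_eq_zero.1 h)) h6

variable [FiniteDimensional F V]

omit [Fintype F] [DecidableEq F] in
lemma finrank_Lf_pow_le {m : ℕ} (hV : finrank F V = m + 1) (t : ℕ) :
    finrank K ↥((Lf K F V) ^ t) ≤ R m t := by
  let b := Module.finBasis F V
  have h1 := finrank_pow_le (finrank F V) t (fun i => fn K (b.coord i)) (Lf K F V) (Lf_eq_span b)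
  rw [hV, show m + 1 + t - 1 = m + t by omega] at h1
  exact h1

omit [Fintype F] [DecidableEq F] in
instance Lf_fd : FiniteDimensional K ↥(Lf K F V) := by
  rw [Lf_eq_span (Module.finBasis F V)]
  exact FiniteDimensional.span_of_finite K (Set.finite_range _)

variable [Fintype V] [DecidableEq V]

omit [DecidableEq V] [FiniteDimensional F V] in
lemma card_fiber {m : ℕ} (hV : finrank F V = m + 1) {φ : Module.Dual F V} (hφ : φ ≠ 0) (μ : F) :
    #((univ : Finset V).filter fun v => φ v = μ) = Fintype.card F ^ m := by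
  have hsurj : Function.Surjective φ := LinearMap.surjective hφ
  have hall : ∀ μ : F, #((univ : Finset V).filter fun v => φ v = μ) =
      #((univ : Finset V).filter fun v => φ v = 0) := by
    intro μ
    obtain ⟨w, hw⟩ := hsurj μ
    symm
    refine Finset.card_bij (fun v _ => v + w) ?_ ?_ ?_
    · intro v hv
      rw [Finset.mem_filter] at hv ⊢
      exact ⟨Finset.mem_univ _, by rw [map_add, hv.2, hw, zero_add]⟩
    · intro a _ b _ h; exact add_right_cancel h
    · intro v hv
      rw [Finset.mem_filter] at hv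
      refine ⟨v - w, ?_, sub_add_cancel v w⟩
      rw [Finset.mem_filter]
      exact ⟨Finset.mem_univ _, by rw [map_sub, hv.2, hw, sub_self]⟩
  have hsum : ∑ μ : F, #((univ : Finset V).filter fun v => φ v = μ) = Fintype.card V := by
    rw [← Finset.card_univ]
    exact (Finset.card_eq_sum_card_fiberwise (f := φ) (t := Finset.univ)
        (fun _ _ => Finset.mem_coe.2 (Finset.mem_univ _))).symm
  rw [Finset.sum_congr rfl fun μ _ => hall μ, Finset.sum_const, Finset.card_univ, smul_eq_mul,
    Module.card_eq_pow_finrank (K := F) (V := V), hV, pow_succ] at hsum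
  rw [hall μ]
  have hq : 0 < Fintype.card F := Fintype.card_pos
  exact Nat.eq_of_mul_eq_mul_left hq (by rw [hsum]; ring)

omit [Fintype V] [DecidableEq V] in
/-- the whole space -/
theorem full_ge (m : ℕ) : ∀ (t : ℕ), t < Fintype.card F → ∀ (V : Type _) [AddCommGroup V]
    [Module F V] [FiniteDimensional F V] [Fintype V], finrank F V = m + 1 →
    R m t ≤ Hs (Lf K F V) (univ : Finset V) t := by
  classical
  induction m with
  | zero =>
    intro t _ V _ _ _ _ hV
    rw [R_zero_left']
    have : Nontrivial V := Module.nontrivial_of_finrank_pos (R := F) (by omega)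
    obtain ⟨x, hx⟩ := exists_ne (0 : V)
    exact Hs_pos _ t (Finset.mem_univ x) hx
  | succ m ih =>
    intro t ht V _ _ _ _ hV
    cases t with
    | zero =>
      rw [R_zero']
      have : Nontrivial V := Module.nontrivial_of_finrank_pos (R := F) (by omega)
      obtain ⟨x, hx⟩ := exists_ne (0 : V)
      exact Hs_pos _ 0 (Finset.mem_univ x) hx
    | succ t =>
      have : Nontrivial V := Module.nontrivial_of_finrank_pos (R := F) (by omega)
      obtain ⟨x, hx⟩ := exists_ne (0 : V)
      obtain ⟨φ, hφx⟩ : ∃ φ : Module.Dual F V, φ x ≠ 0 := by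
        by_contra hcon
        push Not at hcon
        exact hx ((Module.forall_dual_apply_eq_zero_iff F _).1 hcon)
      have hφ : φ ≠ 0 := by rintro rfl; exact hφx rfl
      have h1 := Hs_add_le (Lf K F V) (fn_mem φ) (X := univ)
        (X1 := univ.filter fun v => φ v = 0) (X0 := univ.filter fun v => φ v = 1)
        (Finset.filter_subset _ _) (Finset.filter_subset _ _)
        (fun x hx => fn_eq_zero.2 (Finset.mem_filter.1 hx).2)
        (fun x hx h0 => by
          have := (Finset.mem_filter.1 hx).2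
          rw [fn_eq_zero.1 h0] at this
          exact zero_ne_one this) t
      have h2 : R (m + 1) t ≤ Hs (Lf K F V) (univ.filter fun v => φ v = 1) t := by
        have h3 := AFV (K := K) φ (univ.filter fun v => φ v = 1)
          (fun x hx => (Finset.mem_filter.1 hx).2) t
        rw [card_fiber hV hφ, D_pow _ (by omega)] at h3
        exact h3
      have h4 : R m (t + 1) ≤ Hs (Lf K F V) (univ.filter fun v => φ v = 0) (t + 1) := by
        have hk : finrank F ↥(LinearMap.ker φ) = m + 1 := by
          have := LinearMap.finrank_range_add_finrank_ker φ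
          rw [LinearMap.range_eq_top.2 (LinearMap.surjective hφ), finrank_top, finrank_self,
            hV] at this
          omega
        have h5 := ih (t + 1) ht ↥(LinearMap.ker φ) hk
        rw [Hs_image_inj (K := K) (LinearMap.ker φ).subtype (Submodule.subtype_injective _)] at h5
        have h6 : (univ : Finset ↥(LinearMap.ker φ)).image (LinearMap.ker φ).subtype =
            univ.filter fun v => φ v = 0 := by
          ext v
          simp only [Finset.mem_image, Finset.mem_univ, true_and, Finset.mem_filter]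
          constructor
          · rintro ⟨w, rfl⟩; exact w.2
          · intro hv; exact ⟨⟨v, hv⟩, rfl⟩
        rwa [h6] at h5
      rw [R_succ]
      omega

omit [DecidableEq V] in
lemma finrank_Lf_pow_ge {m : ℕ} (hV : finrank F V = m + 1) {t : ℕ} (ht : t < Fintype.card F) :
    R m t ≤ finrank K ↥((Lf K F V) ^ t) :=
  (full_ge m t ht V hV).trans (Submodule.finrank_map_le _ _)

omit [DecidableEq V] in
lemma finrank_Lf_pow {m : ℕ} (hV : finrank F V = m + 1) {t : ℕ} (ht : t < Fintype.card F) :
    finrank K ↥((Lf K F V) ^ t) = R m t :=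
  le_antisymm (finrank_Lf_pow_le hV t) (finrank_Lf_pow_ge hV ht)

omit [Fintype V] [DecidableEq V] [DecidableEq F] [Fintype F] in
lemma finrank_ker {m : ℕ} (hV : finrank F V = m + 1) {φ : Module.Dual F V} (hφ : φ ≠ 0) :
    finrank F ↥(LinearMap.ker φ) = m := by
  have := LinearMap.finrank_range_add_finrank_ker φ
  rw [LinearMap.range_eq_top.2 (LinearMap.surjective hφ), finrank_top, finrank_self,
    hV] at this
  omega

omit [DecidableEq V] in
/-- a hyperplane -/
lemma hyper_ge {m : ℕ} (hV : finrank F V = m + 2) {φ : Module.Dual F V} (hφ : φ ≠ 0) {t : ℕ}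
    (ht : t < Fintype.card F) :
    R m t ≤ Hs (Lf K F V) (univ.filter fun v => φ v = 0) t := by
  classical
  have h5 := full_ge (K := K) (F := F) m t ht ↥(LinearMap.ker φ) (finrank_ker hV hφ)
  rw [Hs_image_inj (K := K) (LinearMap.ker φ).subtype (Submodule.subtype_injective _)] at h5
  have h6 : (univ : Finset ↥(LinearMap.ker φ)).image (LinearMap.ker φ).subtype =
      univ.filter fun v => φ v = 0 := by
    ext v
    simp only [Finset.mem_image, Finset.mem_univ, true_and, Finset.mem_filter]
    constructor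
    · rintro ⟨w, rfl⟩; exact w.2
    · intro hv; exact ⟨⟨v, hv⟩, rfl⟩
  rwa [h6] at h5

omit [DecidableEq V] in
/-- if all forms of degree `t+1` vanishing on `X` vanish on a hyperplane -/
lemma Hs_ge_of_vanish {m : ℕ} (hV : finrank F V = m + 2) {ψ : Module.Dual F V} (hψ : ψ ≠ 0) {t : ℕ}
    (ht : t + 1 < Fintype.card F) (X : Finset V)
    (hX : ∀ g ∈ (Lf K F V) ^ (t + 1), (∀ x ∈ X, g x = 0) → ∀ v, ψ v = 0 → g v = 0) :
    R m (t + 1) + Hs (Lf K F V) (X.filter fun x => ψ x = 1) t ≤ Hs (Lf K F V) X (t + 1) := by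
  classical
  set H := (univ : Finset V).filter fun v => ψ v = 0 with hH
  have h1 : Hs (Lf K F V) (X ∪ H) (t + 1) ≤ Hs (Lf K F V) X (t + 1) := by
    refine finrank_map_le_of_ker _ _ _ ?_
    intro g hg h0
    have h0' : res K X g = 0 := h0
    rw [res_eq_zero] at h0'
    refine res_eq_zero.2 fun y hy => ?_
    rcases Finset.mem_union.1 hy with hy | hy
    · exact h0' y hy
    · exact hX g hg h0' y (Finset.mem_filter.1 hy).2
  have h2 := Hs_add_le (Lf K F V) (fn_mem ψ) (X := X ∪ H)
    (X1 := H) (X0 := X.filter fun x => ψ x = 1)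
    Finset.subset_union_right ((Finset.filter_subset _ _).trans Finset.subset_union_left)
    (fun x hx => fn_eq_zero.2 (Finset.mem_filter.1 hx).2)
    (fun x hx h0 => by
      have := (Finset.mem_filter.1 hx).2
      rw [fn_eq_zero.1 h0] at this
      exact zero_ne_one this) t
  have h3 := hyper_ge (K := K) hV hψ ht
  rw [← hH] at h3
  omega

omit [Fintype F] [DecidableEq F] [Fintype V] [DecidableEq V] in
/-- rank of the forms vanishing on a set -/
lemma Hs_add_ker (X : Finset V) (t : ℕ) :
    Hs (Lf K F V) X t + finrank K ↥((Lf K F V) ^ t ⊓ LinearMap.ker (res K X).toLinearMap) =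
      finrank K ↥((Lf K F V) ^ t) :=
  (finrank_eq_map_add_ker _ _).symm

/-- multiplicative bound: all forms of degree `t` vanishing on `X` are `G` times a form -/
lemma Hs_ge_of_mul {m : ℕ} (hV : finrank F V = m + 1) {t γ : ℕ} (ht : t < Fintype.card F)
    (X X' : Finset V) (G : V → K) (hXX' : ∀ x ∈ X', x ∈ X ∧ G x ≠ 0)
    (hX : ∀ g ∈ (Lf K F V) ^ t, (∀ x ∈ X, g x = 0) → ∃ k ∈ (Lf K F V) ^ (t - γ), g = G * k) :
    R m t + Hs (Lf K F V) X' (t - γ) ≤ Hs (Lf K F V) X t + R m (t - γ) := by
  classical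
  have h1 := Hs_add_ker (K := K) (F := F) X t
  have h2 := Hs_add_ker (K := K) (F := F) X' (t - γ)
  rw [finrank_Lf_pow (K := K) hV ht] at h1
  rw [finrank_Lf_pow (K := K) hV (show t - γ < Fintype.card F by omega)] at h2
  have h3 : finrank K ↥((Lf K F V) ^ t ⊓ LinearMap.ker (res K X).toLinearMap) ≤
      finrank K ↥((Lf K F V) ^ (t - γ) ⊓ LinearMap.ker (res K X').toLinearMap) := by
    refine (Submodule.finrank_mono ?_).trans (Submodule.finrank_map_le (LinearMap.mulLeft K G) _)
    rintro g ⟨hg, hg0⟩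
    have hg0' : res K X g = 0 := hg0
    rw [res_eq_zero] at hg0'
    obtain ⟨k, hk, hgk⟩ := hX g hg hg0'
    refine ⟨k, ⟨hk, ?_⟩, hgk.symm⟩
    show res K X' k = 0
    rw [res_eq_zero]
    intro x hx
    obtain ⟨hxX, hxG⟩ := hXX' x hx
    have h4 := hg0' x hxX
    rw [hgk, Pi.mul_apply, mul_eq_zero] at h4
    exact h4.resolve_left hxG
  omega

end vec

end BDG

end FVec

section FCone

/-!
Cones: counting, averaging, and the hyperplane lemma.
-/

namespace BDG
open Module Finset

section cone
variable {F : Type*} [Field F] [Fintype F] [DecidableEq F]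
  {V : Type*} [AddCommGroup V] [Module F V] [DecidableEq V]

omit [Fintype F] [DecidableEq V] in
lemma IsCone.filter {X : Finset V} (hX : IsCone F X) (φ : Module.Dual F V) :
    IsCone F (X.filter fun x => φ x = 0) := by
  refine ⟨fun h => hX.zero (Finset.mem_filter.1 h).1, fun c hc x hx => ?_⟩
  obtain ⟨h1, h2⟩ := Finset.mem_filter.1 hx
  exact Finset.mem_filter.2 ⟨hX.smul c hc x h1, by rw [map_smul, h2, smul_zero]⟩

omit [DecidableEq V] in
/-- counting a cone by a functional -/
lemma cone_card {X : Finset V} (hX : IsCone F X) (φ : Module.Dual F V) :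
    #X = #(X.filter fun x => φ x = 0) +
      (Fintype.card F - 1) * #(X.filter fun x => φ x = 1) := by
  have h1 : ∑ μ : F, #(X.filter fun x => φ x = μ) = #X :=
    (Finset.card_eq_sum_card_fiberwise (f := φ) (t := Finset.univ)
        (fun _ _ => Finset.mem_coe.2 (Finset.mem_univ _))).symm
  have h2 : ∀ μ : F, μ ≠ 0 → #(X.filter fun x => φ x = μ) = #(X.filter fun x => φ x = 1) := by
    intro μ hμ
    refine Finset.card_bij (fun v _ => μ⁻¹ • v) ?_ ?_ ?_
    · intro v hv
      obtain ⟨h3, h4⟩ := Finset.mem_filter.1 hv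
      refine Finset.mem_filter.2 ⟨hX.smul _ (inv_ne_zero hμ) v h3, ?_⟩
      rw [map_smul, h4, smul_eq_mul, inv_mul_cancel₀ hμ]
    · intro a _ b _ h
      have := congrArg (fun z => μ • z) h
      simpa [smul_smul, hμ] using this
    · intro v hv
      obtain ⟨h3, h4⟩ := Finset.mem_filter.1 hv
      refine ⟨μ • v, Finset.mem_filter.2 ⟨hX.smul _ hμ v h3, ?_⟩, ?_⟩
      · rw [map_smul, h4, smul_eq_mul, mul_one]
      · rw [smul_smul, inv_mul_cancel₀ hμ, one_smul]
  rw [← h1, ← Finset.add_sum_erase _ _ (Finset.mem_univ (0 : F))]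
  congr 1
  rw [Finset.sum_congr rfl fun μ hμ => h2 μ (Finset.mem_erase.1 hμ).1, Finset.sum_const,
    Finset.card_erase_of_mem (Finset.mem_univ _), Finset.card_univ, smul_eq_mul]

/-- the size of a cone is divisible by `q - 1` -/
lemma cone_dvd : ∀ (n : ℕ) (X : Finset V), #X ≤ n → IsCone F X → (Fintype.card F - 1) ∣ #X := by
  intro n
  induction n with
  | zero =>
    intro X h _
    have : #X = 0 := by omega
    rw [this]; exact dvd_zero _
  | succ n ih =>
    intro X h hX
    rcases X.eq_empty_or_nonempty with h0 | ⟨x, hx⟩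
    · rw [h0, Finset.card_empty]; exact dvd_zero _
    · have hx0 : x ≠ 0 := fun h0 => hX.zero (h0 ▸ hx)
      set O := ((univ : Finset F).erase 0).image (fun c => c • x) with hO
      have hOX : O ⊆ X := by
        intro y hy
        obtain ⟨c, hc, rfl⟩ := Finset.mem_image.1 hy
        exact hX.smul c (Finset.mem_erase.1 hc).1 x hx
      have hOc : #O = Fintype.card F - 1 := by
        rw [hO, Finset.card_image_of_injective, Finset.card_erase_of_mem (Finset.mem_univ _),
          Finset.card_univ]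
        exact smul_left_injective F hx0
      have hq : 2 ≤ Fintype.card F := card_F_ge
      have hcone : IsCone F (X \ O) := by
        refine ⟨fun h1 => hX.zero (Finset.mem_sdiff.1 h1).1, fun c hc y hy => ?_⟩
        obtain ⟨h1, h2⟩ := Finset.mem_sdiff.1 hy
        refine Finset.mem_sdiff.2 ⟨hX.smul c hc y h1, fun h3 => h2 ?_⟩
        obtain ⟨d, hd, hdx⟩ := Finset.mem_image.1 h3
        refine Finset.mem_image.2 ⟨c⁻¹ * d, ?_, ?_⟩
        · rw [Finset.mem_erase] at hd ⊢
          exact ⟨mul_ne_zero (inv_ne_zero hc) hd.1, Finset.mem_univ _⟩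
        · rw [mul_smul, hdx, smul_smul, inv_mul_cancel₀ hc, one_smul]
      have hcard : #(X \ O) = #X - #O := Finset.card_sdiff_of_subset hOX
      have hle := Finset.card_le_card hOX
      have := ih (X \ O) (by omega) hcone
      have h5 : #X = #(X \ O) + (Fintype.card F - 1) := by omega
      rw [h5]
      exact Dvd.dvd.add this dvd_rfl

variable [FiniteDimensional F V]

omit [DecidableEq F] [DecidableEq V] [FiniteDimensional F V] in
lemma card_dual {m : ℕ} (hV : finrank F V = m) [Fintype (Module.Dual F V)] :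
    Fintype.card (Module.Dual F V) = Fintype.card F ^ m := by
  rw [Module.card_eq_pow_finrank (K := F) (V := Module.Dual F V), Subspace.dual_finrank_eq, hV]

omit [Fintype F] [DecidableEq F] [DecidableEq V] [FiniteDimensional F V] in
lemma eval_ne_zero {x : V} (hx : x ≠ 0) : Module.Dual.eval F V x ≠ 0 := by
  intro h
  apply hx
  refine (Module.forall_dual_apply_eq_zero_iff F _).1 fun φ => ?_
  exact LinearMap.congr_fun h φ

omit [DecidableEq V] in
/-- sum over all hyperplanes -/
lemma sum_hyper {m : ℕ} (hV : finrank F V = m + 1) [Fintype (Module.Dual F V)]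
    [DecidableEq (Module.Dual F V)] (X : Finset V) (h0 : (0 : V) ∉ X) :
    ∑ φ ∈ (univ : Finset (Module.Dual F V)).erase 0, #(X.filter fun x => φ x = 0) =
      #X * (Fintype.card F ^ m - 1) := by
  simp only [Finset.card_filter]
  rw [Finset.sum_comm]
  rw [← smul_eq_mul, ← Finset.sum_const]
  refine Finset.sum_congr rfl fun x hx => ?_
  have hx0 : x ≠ 0 := fun h => h0 (h ▸ hx)
  rw [← Finset.card_filter]
  have h1 : (((univ : Finset (Module.Dual F V)).erase 0).filter fun φ => φ x = 0) =
      ((univ : Finset (Module.Dual F V)).filter fun φ => Module.Dual.eval F V x φ = 0).erase 0 := by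
    ext φ
    rw [Finset.mem_filter, Finset.mem_erase, Finset.mem_erase, Finset.mem_filter,
      Module.Dual.eval_apply]
    tauto
  rw [h1, Finset.card_erase_of_mem, card_fiber (m := m) (by rw [Subspace.dual_finrank_eq, hV])
    (eval_ne_zero hx0)]
  exact Finset.mem_filter.2 ⟨Finset.mem_univ _, by simp⟩

omit [DecidableEq V] in
/-- a hyperplane with many points -/
lemma exists_hyper {m : ℕ} (hV : finrank F V = m + 1) (X : Finset V) (h0 : (0 : V) ∉ X) :
    ∃ φ : Module.Dual F V, φ ≠ 0 ∧
      #X * (Fintype.card F ^ m - 1) ≤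
        (Fintype.card F ^ (m + 1) - 1) * #(X.filter fun x => φ x = 0) := by
  classical
  have : Finite (Module.Dual F V) := Module.finite_of_finite F
  have : Fintype (Module.Dual F V) := Fintype.ofFinite _
  have h1 := sum_hyper hV X h0
  have h2 : #((univ : Finset (Module.Dual F V)).erase 0) = Fintype.card F ^ (m + 1) - 1 := by
    rw [Finset.card_erase_of_mem (Finset.mem_univ _), Finset.card_univ, card_dual hV]
  by_contra hcon
  push Not at hcon
  have hq : 2 ≤ Fintype.card F := card_F_ge
  have h3 : 1 < Fintype.card F ^ (m + 1) := Nat.one_lt_pow (by omega) (by omega)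
  have h4 : ((univ : Finset (Module.Dual F V)).erase 0).Nonempty := by
    rw [← Finset.card_pos, h2]; omega
  have h5 : ∑ φ ∈ (univ : Finset (Module.Dual F V)).erase 0,
      (Fintype.card F ^ (m + 1) - 1) * #(X.filter fun x => φ x = 0) <
      ∑ φ ∈ (univ : Finset (Module.Dual F V)).erase 0, #X * (Fintype.card F ^ m - 1) :=
    Finset.sum_lt_sum_of_nonempty h4 fun φ hφ => hcon φ (Finset.mem_erase.1 hφ).1
  rw [← Finset.mul_sum, h1, Finset.sum_const, h2, smul_eq_mul] at h5
  exact lt_irrefl _ h5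

omit [DecidableEq V] in
/-- upper bound by averaging -/
lemma card_le_of_hyper {m : ℕ} (hV : finrank F V = m + 1) (X : Finset V) (h0 : (0 : V) ∉ X) (B : ℕ)
    (hB : ∀ φ : Module.Dual F V, φ ≠ 0 → #(X.filter fun x => φ x = 0) ≤ B) :
    #X * (Fintype.card F ^ m - 1) ≤ (Fintype.card F ^ (m + 1) - 1) * B := by
  obtain ⟨φ, hφ, h⟩ := exists_hyper hV X h0
  exact h.trans (Nat.mul_le_mul_left _ (hB φ hφ))

/-- restriction of a cone to a hyperplane, as a subset of the hyperplane -/
def pre [Fintype V] (U : Submodule F V) [Fintype U] (Z : Finset V) : Finset U :=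
  (univ : Finset U).filter fun w => (w : V) ∈ Z

omit [Fintype F] [DecidableEq F] [FiniteDimensional F V] in
lemma pre_image [Fintype V] (U : Submodule F V) [Fintype U] (Z : Finset V) [DecidablePred (· ∈ U)] :
    (pre U Z).image U.subtype = Z.filter fun x => x ∈ U := by
  ext v
  simp only [pre, Finset.mem_image, Finset.mem_filter, Finset.mem_univ, true_and]
  constructor
  · rintro ⟨w, hw, rfl⟩; exact ⟨hw, w.2⟩
  · rintro ⟨h1, h2⟩; exact ⟨⟨v, h2⟩, h1, rfl⟩

omit [Fintype F] [DecidableEq F] [FiniteDimensional F V] in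
lemma pre_cone [Fintype V] (U : Submodule F V) [Fintype U] {Z : Finset V} (hZ : IsCone F Z) :
    IsCone F (pre U Z) := by
  refine ⟨fun h => hZ.zero (Finset.mem_filter.1 h).2, fun c hc x hx => ?_⟩
  exact Finset.mem_filter.2 ⟨Finset.mem_univ _, hZ.smul c hc _ (Finset.mem_filter.1 hx).2⟩

omit [Fintype F] [FiniteDimensional F V] in
lemma pre_ker_image [Fintype V] (ψ : Module.Dual F V) [Fintype (LinearMap.ker ψ)] (Z : Finset V) :
    (pre (LinearMap.ker ψ) Z).image (LinearMap.ker ψ).subtype = Z.filter fun x => ψ x = 0 := by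
  ext v
  simp only [pre, Finset.mem_image, Finset.mem_filter, Finset.mem_univ, true_and]
  constructor
  · rintro ⟨w, hw, rfl⟩; exact ⟨hw, w.2⟩
  · rintro ⟨h1, h2⟩; exact ⟨⟨v, h2⟩, h1, rfl⟩

end cone

section NL
variable {K : Type*} [Field K] {F : Type*} [Field F] [Algebra F K] [Fintype F] [DecidableEq F]

/-- if no hyperplane section has full rank in degree `g`, the cone is small -/
theorem NL (g : ℕ) (hg : 1 ≤ g) (hgq : g < Fintype.card F) (m : ℕ) :
    ∀ (V : Type _) [AddCommGroup V] [Module F V] [FiniteDimensional F V] [Fintype V]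
      [DecidableEq V], finrank F V = m + 2 → ∀ (Z : Finset V), IsCone F Z →
      (∀ ψ : Module.Dual F V, ψ ≠ 0 → Hs (Lf K F V) (Z.filter fun x => ψ x = 0) g < R m g) →
      #Z ≤ (Fintype.card F - 1) * g * Fintype.card F ^ m := by
  induction m with
  | zero =>
    intro V _ _ _ _ _ hV Z hZ h
    have : Z = ∅ := by
      rw [Finset.eq_empty_iff_forall_notMem]
      intro x hx
      have hx0 : x ≠ 0 := fun h0 => hZ.zero (h0 ▸ hx)
      obtain ⟨ψ, hψ, hψx⟩ : ∃ ψ : Module.Dual F V, ψ ≠ 0 ∧ ψ x = 0 := by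
        have h1 := finrank_ker (F := F) (V := Module.Dual F V) (m := 1)
          (by rw [Subspace.dual_finrank_eq, hV]) (eval_ne_zero hx0)
        have h2 : LinearMap.ker (Module.Dual.eval F V x) ≠ ⊥ := by
          intro h3
          rw [h3, finrank_bot] at h1
          omega
        obtain ⟨ψ, hψ, hψ0⟩ := Submodule.exists_mem_ne_zero_of_ne_bot h2
        exact ⟨ψ, hψ0, hψ⟩
      have h3 := h ψ hψ
      rw [R_zero_left'] at h3
      have h4 := Hs_pos (K := K) (F := F) (Z.filter fun x => ψ x = 0) g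
        (Finset.mem_filter.2 ⟨hx, hψx⟩) hx0
      omega
    rw [this]; simp
  | succ m ih =>
    intro V _ _ _ _ _ hV Z hZ h
    classical
    have hq : 2 ≤ Fintype.card F := card_F_ge
    obtain ⟨q, hqq⟩ : ∃ q, q = Fintype.card F := ⟨_, rfl⟩
    rw [← hqq] at hq hgq ⊢
    by_cases hA : ∃ ψ1 : Module.Dual F V, ψ1 ≠ 0 ∧ ∃ θ : Module.Dual F ↥(LinearMap.ker ψ1), θ ≠ 0 ∧
        R m g ≤ Hs (Lf K F ↥(LinearMap.ker ψ1))
          ((pre (LinearMap.ker ψ1) Z).filter fun x => θ x = 0) g
    · obtain ⟨ψ1, hψ1, θ, hθ, hfull⟩ := hA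
      obtain ⟨ψ2, hψ2⟩ : ∃ ψ2 : Module.Dual F V, ψ2 ∘ₗ (LinearMap.ker ψ1).subtype = θ :=
        LinearMap.exists_extend θ
      obtain ⟨w, hw⟩ : ∃ w : ↥(LinearMap.ker ψ1), θ w ≠ 0 := by
        by_contra hcon
        push Not at hcon
        exact hθ (LinearMap.ext hcon)
      have hw1 : ψ1 (w : V) = 0 := w.2
      have hw2 : ψ2 (w : V) ≠ 0 := by
        have : ψ2 (w : V) = θ w := LinearMap.congr_fun hψ2 w
        rw [this]; exact hw
      -- the full codimension two section
      set ZL := Z.filter fun x => ψ1 x = 0 ∧ ψ2 x = 0 with hZL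
      have hZLi : ((pre (LinearMap.ker ψ1) Z).filter fun x => θ x = 0).image
          (LinearMap.ker ψ1).subtype = ZL := by
        ext v
        simp only [pre, hZL, Finset.mem_image, Finset.mem_filter, Finset.mem_univ, true_and]
        constructor
        · rintro ⟨w, ⟨hw1, hw2⟩, rfl⟩
          refine ⟨hw1, w.2, ?_⟩
          rw [← hψ2] at hw2; exact hw2
        · rintro ⟨h1, h2, h3⟩
          refine ⟨⟨v, h2⟩, ⟨h1, ?_⟩, rfl⟩
          rw [← hψ2]; exact h3
      rw [Hs_image_inj (K := K) (LinearMap.ker ψ1).subtype (Submodule.subtype_injective _),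
        hZLi] at hfull
      have hZLc : #ZL ≤ q ^ (m + 1) - 1 := by
        have hk := finrank_ker (m := m + 2) hV hψ1
        have h1 := card_fiber (F := F) (V := ↥(LinearMap.ker ψ1)) (m := m + 1) hk hθ 0
        rw [← hqq] at h1
        rw [← hZLi, Finset.card_image_of_injective _ (Submodule.subtype_injective _)]
        have h2 : (pre (LinearMap.ker ψ1) Z).filter (fun x => θ x = 0) ⊆
            ((univ : Finset ↥(LinearMap.ker ψ1)).filter fun v => θ v = 0).erase 0 := by
          intro v hv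
          obtain ⟨h3, h4⟩ := Finset.mem_filter.1 hv
          refine Finset.mem_erase.2 ⟨?_, Finset.mem_filter.2 ⟨Finset.mem_univ _, h4⟩⟩
          rintro rfl
          exact hZ.zero (Finset.mem_filter.1 h3).2
        refine (Finset.card_le_card h2).trans ?_
        have h3 : (0 : ↥(LinearMap.ker ψ1)) ∈
            (univ : Finset ↥(LinearMap.ker ψ1)).filter fun v => θ v = 0 :=
          Finset.mem_filter.2 ⟨Finset.mem_univ _, map_zero θ⟩
        rw [Finset.card_erase_of_mem h3, h1]
      -- the affine parts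
      have hpart : ∀ p : F × F, p ≠ 0 →
          #(Z.filter fun x => (ψ1 x, ψ2 x) = p) ≤ (g - 1) * q ^ m := by
        rintro ⟨α, β⟩ hp
        set A := Z.filter fun x => (ψ1 x, ψ2 x) = (α, β) with hAdef
        have hAmem : ∀ x ∈ A, x ∈ Z ∧ ψ1 x = α ∧ ψ2 x = β := by
          intro x hx
          obtain ⟨h1, h2⟩ := Finset.mem_filter.1 hx
          rw [Prod.mk.injEq] at h2
          exact ⟨h1, h2.1, h2.2⟩
        obtain ⟨a, b, hab⟩ : ∃ a b : F, a * α + b * β = 1 := by
          by_cases hα : α = 0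
          · have hβ : β ≠ 0 := by
              rintro rfl
              apply hp
              rw [hα]; rfl
            exact ⟨0, β⁻¹, by rw [inv_mul_cancel₀ hβ]; ring⟩
          · exact ⟨α⁻¹, 0, by rw [inv_mul_cancel₀ hα]; ring⟩
        have hψ : β • ψ1 - α • ψ2 ≠ 0 := by
          intro h0
          by_cases hα : α = 0
          · have hβ : β ≠ 0 := by
              rintro rfl
              apply hp
              rw [hα]; rfl
            rw [hα, zero_smul, sub_zero] at h0
            exact hψ1 ((smul_eq_zero.1 h0).resolve_left hβ)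
          · have h1 := LinearMap.congr_fun h0 (w : V)
            rw [LinearMap.sub_apply, LinearMap.smul_apply, LinearMap.smul_apply, hw1, smul_zero,
              zero_sub, LinearMap.zero_apply, neg_eq_zero, smul_eq_mul, mul_eq_zero] at h1
            rcases h1 with h1 | h1
            · exact hα h1
            · exact hw2 h1
        have h1 := h _ hψ
        have h2 := Hs_add_le (Lf K F V) (fn_mem (a • ψ1 + b • ψ2))
          (X := Z.filter fun x => (β • ψ1 - α • ψ2) x = 0) (X1 := ZL) (X0 := A)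
          (by
            intro x hx
            obtain ⟨h3, h4, h5⟩ := Finset.mem_filter.1 hx
            refine Finset.mem_filter.2 ⟨h3, ?_⟩
            simp [h4, h5])
          (by
            intro x hx
            obtain ⟨h3, h4, h5⟩ := hAmem x hx
            refine Finset.mem_filter.2 ⟨h3, ?_⟩
            simp [h4, h5, mul_comm])
          (by
            intro x hx
            obtain ⟨h3, h4, h5⟩ := Finset.mem_filter.1 hx
            rw [fn_eq_zero]
            simp [h4, h5])
          (by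
            intro x hx h0
            obtain ⟨h3, h4, h5⟩ := hAmem x hx
            rw [fn_eq_zero] at h0
            simp only [LinearMap.add_apply, LinearMap.smul_apply, h4, h5, smul_eq_mul, hab] at h0
            exact one_ne_zero h0) (g - 1)
        rw [Nat.sub_add_cancel hg] at h2
        have h3 := AFV (K := K) (a • ψ1 + b • ψ2) A (by
          intro x hx
          obtain ⟨h3, h4, h5⟩ := hAmem x hx
          simp [h4, h5, hab]) (g - 1)
        rw [← hqq] at h3
        have h4 : R (m + 1) g = R m g + R (m + 1) (g - 1) := by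
          obtain ⟨g', rfl⟩ : ∃ g', g = g' + 1 := ⟨g - 1, by omega⟩
          exact R_succ m g'
        by_contra hcon
        push Not at hcon
        have h5 : (g - 1) * q ^ m + 1 ≤ q ^ (m + 1) := by
          rw [pow_succ]
          have : g - 1 + 1 ≤ q := by omega
          have h6 : 1 ≤ q ^ m := Nat.one_le_pow _ _ (by omega)
          have h7 : (g - 1 + 1) * q ^ m ≤ q * q ^ m := Nat.mul_le_mul_right _ this
          have h8 : (g - 1 + 1) * q ^ m = (g - 1) * q ^ m + q ^ m := by ring
          rw [mul_comm (q ^ m) q]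
          omega
        have h6 := D_top q (t := g - 1) (by omega) m ((g - 1) * q ^ m + 1) (by omega) h5
        have h7 := D_mono q (g - 1) (show (g - 1) * q ^ m + 1 ≤ #A by omega)
        omega
      -- total count
      have hsum : #Z = ∑ p : F × F, #(Z.filter fun x => (ψ1 x, ψ2 x) = p) :=
        Finset.card_eq_sum_card_fiberwise (f := fun x => (ψ1 x, ψ2 x)) (t := Finset.univ)
          (fun _ _ => Finset.mem_coe.2 (Finset.mem_univ _))
      have h0 : Z.filter (fun x => (ψ1 x, ψ2 x) = (0 : F × F)) = ZL := by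
        rw [hZL]
        congr 1
        ext x
        exact Prod.mk_eq_zero
      rw [← Finset.add_sum_erase _ _ (Finset.mem_univ (0 : F × F)), h0] at hsum
      have h1 : ∑ p ∈ (univ : Finset (F × F)).erase 0, #(Z.filter fun x => (ψ1 x, ψ2 x) = p) ≤
          (q * q - 1) * ((g - 1) * q ^ m) := by
        refine (Finset.sum_le_sum fun p hp => hpart p (Finset.mem_erase.1 hp).1).trans ?_
        rw [Finset.sum_const, Finset.card_erase_of_mem (Finset.mem_univ _), Finset.card_univ,
          Fintype.card_prod, ← hqq, smul_eq_mul]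
      obtain ⟨g', rfl⟩ : ∃ g', g = g' + 1 := ⟨g - 1, by omega⟩
      obtain ⟨e, rfl⟩ : ∃ e, q = g' + 2 + e := ⟨q - (g' + 2), by omega⟩
      have hQ : 1 ≤ (g' + 2 + e) ^ m := Nat.one_le_pow _ _ (by omega)
      rw [pow_succ] at hZLc ⊢
      generalize (g' + 2 + e) ^ m = Q at *
      rw [hsum]
      have h2 : (g' + 2 + e) * (g' + 2 + e) - 1 = (g' + 1 + e) * (g' + 3 + e) := by
        have : (g' + 2 + e) * (g' + 2 + e) = (g' + 1 + e) * (g' + 3 + e) + 1 := by ring
        omega
      rw [h2] at h1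
      have h3 : g' + 2 + e - 1 = g' + 1 + e := by omega
      rw [h3]
      simp only [Nat.add_sub_cancel] at h1
      have h4 : Q * (g' + 2 + e) + (g' + 1 + e) * (g' + 3 + e) * (g' * Q) ≤
          (g' + 1 + e) * (g' + 1) * (Q * (g' + 2 + e)) := by
        have h5 : (g' + 1 + e) * (g' + 1) * (Q * (g' + 2 + e)) =
            Q * (g' + 2 + e) + (g' + 1 + e) * (g' + 3 + e) * (g' * Q) +
              Q * ((g' + e) * e + g' + 2 * e) := by ring
        rw [h5]
        exact Nat.le_add_right _ _
      omega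
    · push Not at hA
      have hB : ∀ ψ : Module.Dual F V, ψ ≠ 0 → #(Z.filter fun x => ψ x = 0) ≤
          (q - 1) * g * q ^ m := by
        intro ψ hψ
        rw [← pre_ker_image ψ Z, Finset.card_image_of_injective _ (Submodule.subtype_injective _),
          hqq]
        refine ih ↥(LinearMap.ker ψ) (finrank_ker (m := m + 2) hV hψ) _ (pre_cone _ hZ) ?_
        intro θ hθ
        exact hA ψ hψ θ hθ
      have h1 := card_le_of_hyper (m := m + 2) hV Z hZ.zero _ hB
      rw [← hqq] at h1
      obtain ⟨z, hz⟩ := cone_dvd (F := F) _ Z le_rfl hZ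
      rw [← hqq] at hz
      rw [hz, mul_assoc]
      refine Nat.mul_le_mul_left _ ?_
      by_contra hcon
      push Not at hcon
      rw [hz] at h1
      obtain ⟨e, rfl⟩ : ∃ e, q = e + 1 := ⟨q - 1, by omega⟩
      have he : 1 ≤ e := by omega
      have hQ : 1 ≤ (e + 1) ^ m := Nat.one_le_pow _ _ (by omega)
      have e1 : (e + 1) ^ (m + 2) = (e + 1) ^ m * (e + 1) ^ 2 := by rw [pow_add]
      have e2 : (e + 1) ^ (m + 2 + 1) = (e + 1) ^ m * (e + 1) ^ 3 := by
        rw [show m + 2 + 1 = m + 3 by ring, pow_add]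
      have e3 : (e + 1) ^ (m + 1) = (e + 1) ^ m * (e + 1) := by rw [pow_succ]
      rw [e1, e2] at h1
      rw [e3] at hcon
      generalize (e + 1) ^ m = Q at *
      have h2 : e * (z * (Q * (e + 1) ^ 2 - 1)) ≤ e * ((Q * (e + 1) ^ 3 - 1) * (g * Q)) := by
        calc e * (z * (Q * (e + 1) ^ 2 - 1)) = (e + 1 - 1) * z * (Q * (e + 1) ^ 2 - 1) := by
              rw [Nat.add_sub_cancel]; ring
          _ ≤ _ := h1
          _ = e * ((Q * (e + 1) ^ 3 - 1) * (g * Q)) := by rw [Nat.add_sub_cancel]; ring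
      have h3 := Nat.le_of_mul_le_mul_left h2 (by omega)
      have h4 : (g * (Q * (e + 1)) + 1) * (Q * (e + 1) ^ 2 - 1) ≤
          (Q * (e + 1) ^ 3 - 1) * (g * Q) :=
        (Nat.mul_le_mul_right _ hcon).trans h3
      have h5 : 1 ≤ Q * (e + 1) ^ 2 := Nat.mul_pos (by omega) (Nat.pow_pos (by omega))
      have h6 : 1 ≤ Q * (e + 1) ^ 3 := Nat.mul_pos (by omega) (Nat.pow_pos (by omega))
      zify [h5, h6] at h4
      have h7 : (g : ℤ) ≤ e := by exact_mod_cast (by omega : g ≤ e)
      have h8 : (1 : ℤ) ≤ e := by exact_mod_cast he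
      have h9 : (1 : ℤ) ≤ Q := by exact_mod_cast hQ
      have h10 : (g : ℤ) * (Q * e) ≤ e * (Q * e) := by
        apply mul_le_mul_of_nonneg_right h7; positivity
      have h11 := mul_nonneg (sub_nonneg.2 h9) (sub_nonneg.2 h8)
      clear h1 hcon h2 h3 hz
      linarith

end NL

end BDG

end FCone

section FProj

/-!
Projection from a point.
-/

set_option linter.unusedSectionVars false

namespace BDG
open Module Finset

section proj
variable {F : Type*} [Field F] [Fintype F] [DecidableEq F]
  {V W : Type*} [AddCommGroup V] [Module F V] [DecidableEq V] [AddCommGroup W] [Module F W]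
  [DecidableEq W]

/-- the points with at least `k + 1` preimages in `X` -/
def Yk (π : V →ₗ[F] W) (X : Finset V) (k : ℕ) : Finset W :=
  (X.image π).filter fun y => k + 1 ≤ #(X.filter fun a => π a = y)

omit [Fintype F] [DecidableEq F] [DecidableEq V] in
lemma Yk_zero (π : V →ₗ[F] W) (X : Finset V) : Yk π X 0 = X.image π := by
  unfold Yk
  refine Finset.filter_true_of_mem fun y hy => ?_
  obtain ⟨a, ha, rfl⟩ := Finset.mem_image.1 hy
  rw [zero_add, Nat.one_le_iff_ne_zero, Finset.card_ne_zero]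
  exact ⟨a, Finset.mem_filter.2 ⟨ha, rfl⟩⟩

omit [Fintype F] [DecidableEq F] [DecidableEq V] in
lemma Yk_anti (π : V →ₗ[F] W) (X : Finset V) : Antitone fun k => #(Yk π X k) := by
  refine antitone_nat_of_succ_le fun k => Finset.card_le_card ?_
  intro y hy
  obtain ⟨h1, h2⟩ := Finset.mem_filter.1 hy
  exact Finset.mem_filter.2 ⟨h1, by omega⟩

omit [DecidableEq F] in
lemma fiber_le {p : V} {π : V →ₗ[F] W} (hk : LinearMap.ker π = Submodule.span F {p})
    (X : Finset V) (y : W) : #(X.filter fun a => π a = y) ≤ Fintype.card F := by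
  rcases (X.filter fun a => π a = y).eq_empty_or_nonempty with h0 | ⟨a, ha⟩
  · rw [h0]; simp
  · have h1 : (X.filter fun a => π a = y) ⊆ (univ : Finset F).image (fun c => a + c • p) := by
      intro b hb
      obtain ⟨-, ha2⟩ := Finset.mem_filter.1 ha
      obtain ⟨-, hb2⟩ := Finset.mem_filter.1 hb
      have h2 : b - a ∈ LinearMap.ker π := by
        rw [LinearMap.mem_ker, map_sub, ha2, hb2, sub_self]
      rw [hk, Submodule.mem_span_singleton] at h2
      obtain ⟨c, hc⟩ := h2
      exact Finset.mem_image.2 ⟨c, Finset.mem_univ _, by rw [hc]; abel⟩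
    exact (Finset.card_le_card h1).trans Finset.card_image_le

omit [DecidableEq F] in
lemma sum_Yk {p : V} {π : V →ₗ[F] W} (hk : LinearMap.ker π = Submodule.span F {p})
    (X : Finset V) : ∑ k ∈ range (Fintype.card F), #(Yk π X k) = #X := by
  unfold Yk
  rw [sum_level (X.image π) (fun y => #(X.filter fun a => π a = y)) _
    (fun y _ => fiber_le hk X y)]
  exact (Finset.card_eq_sum_card_fiberwise (f := π) (t := X.image π)
    (fun x hx => Finset.mem_coe.2 (Finset.mem_image_of_mem _ (Finset.mem_coe.1 hx)))).symm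

omit [Fintype F] [DecidableEq F] [DecidableEq V] in
/-- projection inequality in vector spaces -/
lemma proj_ge {K : Type*} [Field K] [Algebra F K] {p : V} (hp : p ≠ 0) {π : V →ₗ[F] W}
    (hk : LinearMap.ker π = Submodule.span F {p}) (X : Finset V) (t : ℕ) :
    ∑ k ∈ range (t + 1), Hs (Lf K F W) (Yk π X k) (t - k) ≤ Hs (Lf K F V) X t := by
  obtain ⟨ξ, hξ⟩ : ∃ ξ : Module.Dual F V, ξ p ≠ 0 := by
    by_contra hcon
    push Not at hcon
    exact hp ((Module.forall_dual_apply_eq_zero_iff F _).1 hcon)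
  refine PRJ π (fn K ξ) (Lf K F W) (Lf K F V) (fn_mem ξ) (Lf_pull_le π) X ?_ t (Yk π X) ?_
  · intro a _ b _ hab hx
    have h2 : a - b ∈ LinearMap.ker π := by
      rw [LinearMap.mem_ker, map_sub, hab, sub_self]
    rw [hk, Submodule.mem_span_singleton] at h2
    obtain ⟨c, hc⟩ := h2
    have h3 : ξ a = ξ b := (algebraMap F K).injective hx
    have h4 : ξ (a - b) = 0 := by rw [map_sub, h3, sub_self]
    rw [← hc, map_smul, smul_eq_mul, mul_eq_zero] at h4
    have h5 := h4.resolve_right hξ
    rw [h5, zero_smul] at hc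
    exact sub_eq_zero.1 hc.symm
  · intro k y hy
    exact (Finset.mem_filter.1 hy).2

/-- number of ordered pairs of distinct points of `X` on a common fibre -/
def Tp (π : V →ₗ[F] W) (X : Finset V) : ℕ := #(X.offDiag.filter fun z => π z.1 = π z.2)

omit [Fintype F] [DecidableEq F] in
lemma Tp_eq (π : V →ₗ[F] W) (X : Finset V) :
    Tp π X = ∑ y ∈ X.image π, (#(X.filter fun a => π a = y) * #(X.filter fun a => π a = y) -
      #(X.filter fun a => π a = y)) := by
  unfold Tp
  rw [Finset.card_eq_sum_card_fiberwise (f := fun z : V × V => π z.1) (t := X.image π)]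
  · refine Finset.sum_congr rfl fun y _ => ?_
    rw [← Finset.offDiag_card]
    congr 1
    ext ⟨a, b⟩
    simp only [Finset.mem_filter, Finset.mem_offDiag]
    constructor
    · rintro ⟨⟨⟨h1, h2, h3⟩, h4⟩, h5⟩
      exact ⟨⟨h1, h5⟩, ⟨h2, h4 ▸ h5⟩, h3⟩
    · rintro ⟨⟨h1, h5⟩, ⟨h2, h6⟩, h3⟩
      exact ⟨⟨⟨h1, h2, h3⟩, h5.trans h6.symm⟩, h5⟩
  · intro z hz
    have h1 := Finset.mem_filter.1 (Finset.mem_coe.1 hz)
    exact Finset.mem_coe.2 (Finset.mem_image_of_mem _ (Finset.mem_offDiag.1 h1.1).1)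

omit [Fintype F] [DecidableEq F] in
lemma two_mul_le_Tp (π : V →ₗ[F] W) (X : Finset V) : 2 * (#X - #(Yk π X 0)) ≤ Tp π X := by
  rw [Yk_zero, Tp_eq]
  have h1 : #X = ∑ y ∈ X.image π, #(X.filter fun a => π a = y) :=
    Finset.card_eq_sum_card_fiberwise (f := π) (t := X.image π)
      (fun x hx => Finset.mem_coe.2 (Finset.mem_image_of_mem _ (Finset.mem_coe.1 hx)))
  have h2 : #(X.image π) = ∑ y ∈ X.image π, 1 := by simp
  have h3 : #X - #(X.image π) = ∑ y ∈ X.image π, (#(X.filter fun a => π a = y) - 1) := by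
    rw [Finset.sum_tsub_distrib, ← h1, ← h2]
    intro y hy
    obtain ⟨a, ha, rfl⟩ := Finset.mem_image.1 hy
    rw [Nat.one_le_iff_ne_zero, Finset.card_ne_zero]
    exact ⟨a, Finset.mem_filter.2 ⟨ha, rfl⟩⟩
  rw [h3, Finset.mul_sum]
  refine Finset.sum_le_sum fun y _ => ?_
  generalize #(X.filter fun a => π a = y) = f
  rcases Nat.lt_or_ge f 2 with h | h
  · interval_cases f <;> simp
  · obtain ⟨k, rfl⟩ : ∃ k, f = k + 2 := ⟨f - 2, by omega⟩
    have : (k + 2) * (k + 2) = (k + 2) * (k + 1) + (k + 2) := by ring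
    rw [this, Nat.add_sub_cancel]
    have : 2 * (k + 2 - 1) = 2 * (k + 1) := by omega
    rw [this]
    exact Nat.mul_le_mul_right _ (by omega)

omit [Fintype F] [DecidableEq F] in
/-- points on fibres with more than one point -/
lemma nonsingle_le_Tp (π : V →ₗ[F] W) (X : Finset V) :
    #X ≤ (#(Yk π X 0) - #(Yk π X 1)) + Tp π X := by
  have h1 : #X = ∑ y ∈ X.image π, #(X.filter fun a => π a = y) :=
    Finset.card_eq_sum_card_fiberwise (f := π) (t := X.image π)
      (fun x hx => Finset.mem_coe.2 (Finset.mem_image_of_mem _ (Finset.mem_coe.1 hx)))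
  have h2 : #(Yk π X 0) - #(Yk π X 1) =
      ∑ y ∈ X.image π, (if #(X.filter fun a => π a = y) = 1 then 1 else 0) := by
    rw [← Finset.card_filter]
    have h3 : Yk π X 1 ⊆ Yk π X 0 := by
      intro y hy
      obtain ⟨h1, h2⟩ := Finset.mem_filter.1 hy
      exact Finset.mem_filter.2 ⟨h1, by omega⟩
    rw [← Finset.card_sdiff_of_subset h3]
    congr 1
    ext y
    rw [Finset.mem_sdiff, Yk_zero, Finset.mem_filter]
    unfold Yk
    rw [Finset.mem_filter]
    constructor
    · rintro ⟨h4, h5⟩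
      refine ⟨h4, ?_⟩
      have h6 : 1 ≤ #(X.filter fun a => π a = y) := by
        obtain ⟨a, ha, rfl⟩ := Finset.mem_image.1 h4
        rw [Nat.one_le_iff_ne_zero, Finset.card_ne_zero]
        exact ⟨a, Finset.mem_filter.2 ⟨ha, rfl⟩⟩
      have h7 : ¬ (1 + 1 ≤ #(X.filter fun a => π a = y)) := fun h => h5 ⟨h4, h⟩
      omega
    · rintro ⟨h4, h5⟩
      exact ⟨h4, fun h => by omega⟩
  rw [h2, Tp_eq, ← Finset.sum_add_distrib]
  nth_rewrite 1 [h1]
  refine Finset.sum_le_sum fun y _ => ?_
  generalize #(X.filter fun a => π a = y) = f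
  rcases Nat.lt_or_ge f 2 with h | h
  · interval_cases f <;> simp
  · obtain ⟨k, rfl⟩ : ∃ k, f = k + 2 := ⟨f - 2, by omega⟩
    have : (k + 2) * (k + 2) = (k + 2) * (k + 1) + (k + 2) := by ring
    rw [this, Nat.add_sub_cancel, if_neg (by omega)]
    nlinarith

end proj

section count
variable {F : Type*} [Field F] [Fintype F] [DecidableEq F]
  {V : Type*} [AddCommGroup V] [Module F V] [Fintype V] [DecidableEq V]

/-- averaging over the centres of projection -/
lemma exists_centre (P : Finset V) (hP : P.Nonempty) (X : Finset V)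
    (S : Finset (V × V)) (hS : S ⊆ X.offDiag)
    (hPS : ∀ z ∈ X.offDiag, z ∉ S → ∀ p ∈ P, ∀ c : F, z.1 - z.2 ≠ c • p) :
    ∃ p ∈ P, #P * #(X.offDiag.filter fun z => ∃ c : F, z.1 - z.2 = c • p) ≤
      #S * (Fintype.card F - 1) := by
  classical
  by_contra hcon
  push Not at hcon
  have h1 : ∑ p ∈ P, #S * (Fintype.card F - 1) <
      ∑ p ∈ P, #P * #(X.offDiag.filter fun z => ∃ c : F, z.1 - z.2 = c • p) :=
    Finset.sum_lt_sum_of_nonempty hP hcon
  rw [Finset.sum_const, ← Finset.mul_sum, smul_eq_mul] at h1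
  have h2 := Nat.lt_of_mul_lt_mul_left h1
  have h3 : ∑ p ∈ P, #(X.offDiag.filter fun z => ∃ c : F, z.1 - z.2 = c • p) ≤
      #S * (Fintype.card F - 1) := by
    simp only [Finset.card_filter]
    rw [Finset.sum_comm, ← smul_eq_mul, ← Finset.sum_const]
    have h4 : ∑ z ∈ X.offDiag, ∑ p ∈ P, (if ∃ c : F, z.1 - z.2 = c • p then 1 else 0) =
        ∑ z ∈ S, ∑ p ∈ P, (if ∃ c : F, z.1 - z.2 = c • p then 1 else 0) := by
      symm
      refine Finset.sum_subset hS fun z hz hzS => ?_
      refine Finset.sum_eq_zero fun p hp => ?_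
      rw [if_neg]
      rintro ⟨c, hc⟩
      exact hPS z hz hzS p hp c hc
    rw [h4]
    refine Finset.sum_le_sum fun z hz => ?_
    rw [← Finset.card_filter]
    have hz' := Finset.mem_offDiag.1 (hS hz)
    have hne : z.1 - z.2 ≠ 0 := sub_ne_zero.2 hz'.2.2
    have h5 : (P.filter fun p => ∃ c : F, z.1 - z.2 = c • p) ⊆
        ((univ : Finset F).erase 0).image (fun c => c • (z.1 - z.2)) := by
      intro p hp
      obtain ⟨hp1, c, hc⟩ := Finset.mem_filter.1 hp
      have hc0 : c ≠ 0 := by
        rintro rfl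
        rw [zero_smul] at hc
        exact hne hc
      refine Finset.mem_image.2 ⟨c⁻¹, Finset.mem_erase.2 ⟨inv_ne_zero hc0, Finset.mem_univ _⟩, ?_⟩
      rw [hc, smul_smul, inv_mul_cancel₀ hc0, one_smul]
    refine (Finset.card_le_card h5).trans (Finset.card_image_le.trans ?_)
    rw [Finset.card_erase_of_mem (Finset.mem_univ _), Finset.card_univ]
  omega

omit [Fintype F] [DecidableEq F] [Fintype V] in
lemma Tp_span {W : Type*} [AddCommGroup W] [Module F W] [DecidableEq W] {p : V} {π : V →ₗ[F] W}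
    (hk : LinearMap.ker π = Submodule.span F {p}) (X : Finset V)
    [DecidablePred fun z : V × V => ∃ c : F, z.1 - z.2 = c • p] :
    Tp π X = #(X.offDiag.filter fun z => ∃ c : F, z.1 - z.2 = c • p) := by
  unfold Tp
  congr 1
  refine Finset.filter_congr fun z _ => ?_
  rw [← sub_eq_zero, ← map_sub, ← LinearMap.mem_ker, hk, Submodule.mem_span_singleton]
  constructor
  · rintro ⟨c, hc⟩; exact ⟨c, hc.symm⟩
  · rintro ⟨c, hc⟩; exact ⟨c, hc.symm⟩

end count

end BDG

end FProj

section FCone2

/-!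
More on cones: small cones, rank one, projective lower bound, projections.
-/

set_option linter.unusedSectionVars false

namespace BDG
open Module Finset

section num

lemma pr_mul {q : ℕ} (hq : 1 ≤ q) (m : ℕ) : (q - 1) * pr q m + 1 = q ^ m := by
  induction m with
  | zero => simp [pr]
  | succ m ih =>
    rw [N2.pr_succ, mul_add, pow_succ]
    obtain ⟨q', rfl⟩ : ∃ q', q = q' + 1 := ⟨q - 1, by omega⟩
    rw [Nat.add_sub_cancel] at *
    nlinarith

lemma pr_mono (q : ℕ) {a b : ℕ} (h : a ≤ b) : pr q a ≤ pr q b := by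
  unfold pr
  exact Finset.sum_le_sum_of_subset (fun x hx => by
    rw [Finset.mem_range] at *; omega)

end num

section vec
variable {K : Type*} [Field K] {F : Type*} [Field F] [Algebra F K] [Fintype F] [DecidableEq F]
  {V : Type*} [AddCommGroup V] [Module F V] [DecidableEq V]

lemma hyp_split (X : Finset V) (φ : Module.Dual F V) (t : ℕ) :
    Hs (Lf K F V) (X.filter fun x => φ x = 0) (t + 1) +
      Hs (Lf K F V) (X.filter fun x => φ x = 1) t ≤ Hs (Lf K F V) X (t + 1) :=
  Hs_add_le (Lf K F V) (fn_mem φ) (Finset.filter_subset _ _) (Finset.filter_subset _ _)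
    (fun x hx => fn_eq_zero.2 (Finset.mem_filter.1 hx).2)
    (fun x hx h0 => by
      have h1 := (Finset.mem_filter.1 hx).2
      rw [fn_eq_zero.1 h0] at h1
      exact zero_ne_one h1) t

lemma hyp_split' (X : Finset V) (φ : Module.Dual F V) (t : ℕ) :
    Hs (Lf K F V) (X.filter fun x => φ x = 0) (t + 1) +
      Hs (Lf K F V) (X.filter fun x => φ x ≠ 0) t ≤ Hs (Lf K F V) X (t + 1) :=
  Hs_add_le (Lf K F V) (fn_mem φ) (Finset.filter_subset _ _) (Finset.filter_subset _ _)
    (fun x hx => fn_eq_zero.2 (Finset.mem_filter.1 hx).2)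
    (fun x hx h0 => by
      have h1 := (Finset.mem_filter.1 hx).2
      exact h1 (fn_eq_zero.1 h0)) t

lemma IsCone.filter_ne {X : Finset V} (hX : IsCone F X) (φ : Module.Dual F V) :
    IsCone F (X.filter fun x => φ x ≠ 0) := by
  refine ⟨fun h => hX.zero (Finset.mem_filter.1 h).1, fun c hc x hx => ?_⟩
  obtain ⟨h1, h2⟩ := Finset.mem_filter.1 hx
  refine Finset.mem_filter.2 ⟨hX.smul c hc x h1, ?_⟩
  rw [map_smul, smul_eq_mul]
  exact mul_ne_zero hc h2

lemma exists_dual_ne {x : V} (hx : x ≠ 0) : ∃ φ : Module.Dual F V, φ x ≠ 0 := by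
  by_contra hcon
  push Not at hcon
  exact hx ((Module.forall_dual_apply_eq_zero_iff F _).1 hcon)

/-- small cones impose independent conditions -/
lemma small_ge {q : ℕ} (hqq : Fintype.card F = q) : ∀ (n : ℕ) (X : Finset V), #X ≤ n →
    IsCone F X → ∀ z, #X = (q - 1) * z → ∀ t, min z (t + 1) ≤ Hs (Lf K F V) X t := by
  have hq2 : 2 ≤ q := hqq ▸ card_F_ge
  intro n
  induction n with
  | zero =>
    intro X h _ z hz t
    have h1 : (q - 1) * z = 0 := by omega
    rcases Nat.mul_eq_zero.1 h1 with h2 | h2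
    · omega
    · rw [h2]; simp
  | succ n ih =>
    intro X h hX z hz t
    rcases Nat.lt_or_ge z 1 with hz1 | hz1
    · have : z = 0 := by omega
      rw [this]; simp
    have hne : X.Nonempty := by
      rw [← Finset.card_pos, hz]
      exact Nat.mul_pos (by omega) (by omega)
    obtain ⟨x0, hx0⟩ := hne
    have hx00 : x0 ≠ 0 := fun h0 => hX.zero (h0 ▸ hx0)
    have hpos := Hs_pos (K := K) (F := F) X t hx0 hx00
    rcases Nat.lt_or_ge z 2 with hz2 | hz2
    · omega
    cases t with
    | zero => omega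
    | succ t =>
      obtain ⟨x1, hx1, hx10⟩ : ∃ x1 ∈ X, x1 ∉ Submodule.span F {x0} := by
        by_contra hcon
        push Not at hcon
        have h1 : X ⊆ ((univ : Finset F).erase 0).image (fun c => c • x0) := by
          intro x hx
          obtain ⟨c, hc⟩ := Submodule.mem_span_singleton.1 (hcon x hx)
          refine Finset.mem_image.2 ⟨c, Finset.mem_erase.2 ⟨?_, Finset.mem_univ _⟩, hc⟩
          rintro rfl
          rw [zero_smul] at hc
          exact hX.zero (hc ▸ hx)
        have h2 := (Finset.card_le_card h1).trans Finset.card_image_le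
        rw [Finset.card_erase_of_mem (Finset.mem_univ _), Finset.card_univ, hqq, hz] at h2
        have h3 : (q - 1) * 2 ≤ (q - 1) * z := Nat.mul_le_mul_left _ hz2
        omega
      obtain ⟨φ, hφ1, hφ0⟩ := Submodule.exists_le_ker_of_notMem hx10
      have hφx0 : φ x0 = 0 := hφ0 (Submodule.mem_span_singleton_self x0)
      obtain ⟨z1, hz1'⟩ := cone_dvd (F := F) _ (X.filter fun x => φ x = 0) le_rfl (hX.filter φ)
      obtain ⟨z0, hz0'⟩ := cone_dvd (F := F) _ (X.filter fun x => φ x ≠ 0) le_rfl (hX.filter_ne φ)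
      rw [hqq] at hz1' hz0'
      have hsum : #(X.filter fun x => φ x = 0) + #(X.filter fun x => φ x ≠ 0) = #X :=
        Finset.card_filter_add_card_filter_not _
      have hp1 : 0 < #(X.filter fun x => φ x = 0) :=
        Finset.card_pos.2 ⟨x0, Finset.mem_filter.2 ⟨hx0, hφx0⟩⟩
      have hp0 : 0 < #(X.filter fun x => φ x ≠ 0) :=
        Finset.card_pos.2 ⟨x1, Finset.mem_filter.2 ⟨hx1, hφ1⟩⟩
      have hz10 : z1 ≠ 0 := by
        rintro rfl
        rw [mul_zero] at hz1'
        omega
      have hz00 : z0 ≠ 0 := by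
        rintro rfl
        rw [mul_zero] at hz0'
        omega
      have h1 := ih _ (by omega) (hX.filter φ) z1 hz1' (t + 1)
      have h0 := ih _ (by omega) (hX.filter_ne φ) z0 hz0' t
      have h2 := hyp_split' (K := K) X φ t
      have h3 : z = z1 + z0 := by
        have h4 : (q - 1) * z = (q - 1) * (z1 + z0) := by rw [mul_add]; omega
        exact Nat.eq_of_mul_eq_mul_left (by omega) h4
      omega

/-- degree one -/
lemma rank_one {q : ℕ} (hqq : Fintype.card F = q) : ∀ (n : ℕ) (X : Finset V), #X ≤ n →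
    IsCone F X → #X + 1 ≤ q ^ (Hs (Lf K F V) X 1) := by
  have hq2 : 2 ≤ q := hqq ▸ card_F_ge
  intro n
  induction n with
  | zero =>
    intro X h _
    have h1 : #X = 0 := by omega
    rw [h1, zero_add]
    exact Nat.one_le_pow _ _ (by omega)
  | succ n ih =>
    intro X h hX
    rcases X.eq_empty_or_nonempty with h0 | ⟨x0, hx0⟩
    · rw [h0, Finset.card_empty, zero_add]
      exact Nat.one_le_pow _ _ (by omega)
    have hx00 : x0 ≠ 0 := fun h0 => hX.zero (h0 ▸ hx0)
    obtain ⟨φ, hφ⟩ := exists_dual_ne (F := F) hx00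
    have h1 := cone_card hX φ
    rw [hqq] at h1
    have h2 := hyp_split (K := K) X φ 0
    have hmem : (φ x0)⁻¹ • x0 ∈ X.filter fun x => φ x = 1 := by
      refine Finset.mem_filter.2 ⟨hX.smul _ (inv_ne_zero hφ) _ hx0, ?_⟩
      rw [map_smul, smul_eq_mul, inv_mul_cancel₀ hφ]
    have h3 := Hs_pos (K := K) (F := F) (X.filter fun x => φ x = 1) 0 hmem
      (smul_ne_zero (inv_ne_zero hφ) hx00)
    have hA : 0 < #(X.filter fun x => φ x = 1) := Finset.card_pos.2 ⟨_, hmem⟩
    have hlt : #(X.filter fun x => φ x = 0) < #X := by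
      have : 0 < (q - 1) * #(X.filter fun x => φ x = 1) := Nat.mul_pos (by omega) hA
      omega
    have h4 := ih _ (by omega) (hX.filter φ)
    have h5 := AFV (K := K) φ (X.filter fun x => φ x = 1)
      (fun x hx => (Finset.mem_filter.1 hx).2) 1
    rw [hqq] at h5
    have h6 := Hs_mono (Lf K F V) (Finset.filter_subset (fun x => φ x = 1) X) 1
    rw [zero_add] at h2
    obtain ⟨N, hN⟩ : ∃ N, Hs (Lf K F V) X 1 = N + 1 :=
      ⟨Hs (Lf K F V) X 1 - 1, by omega⟩
    rw [hN] at h2 h6 ⊢
    have h7 : #(X.filter fun x => φ x = 1) ≤ q ^ N := by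
      by_contra hcon
      push Not at hcon
      have h8 : ds q (q ^ N) ≤ 1 := by
        have := N2.ds_top hq2 N 1 0 (by omega) (Nat.pow_pos (by omega))
        simp only [one_mul, add_zero] at this
        rw [this, N2.ds_zero]
      have h9 := D_lt' (t := 1) h8 hcon
      rw [D_pow q (by omega)] at h9
      have : R N 1 = N + 1 := by simp [R]
      omega
    have h8 : q ^ (Hs (Lf K F V) (X.filter fun x => φ x = 0) 1) ≤ q ^ N :=
      Nat.pow_le_pow_right (by omega) (by omega)
    have h9 : (q - 1) * #(X.filter fun x => φ x = 1) ≤ (q - 1) * q ^ N :=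
      Nat.mul_le_mul_left _ h7
    have h10 : q ^ (N + 1) = (q - 1) * q ^ N + q ^ N := by
      rw [pow_succ]
      obtain ⟨q', rfl⟩ : ∃ q', q = q' + 1 := ⟨q - 1, by omega⟩
      rw [Nat.add_sub_cancel]; ring
    omega

/-- projective lower bound -/
lemma proj_bound {q : ℕ} (hqq : Fintype.card F = q) (t : ℕ) : ∀ (n : ℕ) (X : Finset V), #X ≤ n →
    IsCone F X → ∀ z, #X = (q - 1) * z → D q t z ≤ Hs (Lf K F V) X (t + 1) := by
  have hq2 : 2 ≤ q := hqq ▸ card_F_ge
  intro n
  induction n with
  | zero =>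
    intro X h _ z hz
    have h1 : (q - 1) * z = 0 := by omega
    rcases Nat.mul_eq_zero.1 h1 with h2 | h2
    · omega
    · rw [h2, D_zero']; exact Nat.zero_le _
  | succ n ih =>
    intro X h hX z hz
    rcases X.eq_empty_or_nonempty with h0 | ⟨x0, hx0⟩
    · rw [h0, Finset.card_empty] at hz
      rcases Nat.mul_eq_zero.1 hz.symm with h2 | h2
      · omega
      · rw [h2, D_zero']; exact Nat.zero_le _
    have hx00 : x0 ≠ 0 := fun h0 => hX.zero (h0 ▸ hx0)
    obtain ⟨φ, hφ⟩ := exists_dual_ne (F := F) hx00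
    have h1 := cone_card hX φ
    rw [hqq] at h1
    have h2 := hyp_split (K := K) X φ t
    have hmem : (φ x0)⁻¹ • x0 ∈ X.filter fun x => φ x = 1 := by
      refine Finset.mem_filter.2 ⟨hX.smul _ (inv_ne_zero hφ) _ hx0, ?_⟩
      rw [map_smul, smul_eq_mul, inv_mul_cancel₀ hφ]
    have hA : 0 < #(X.filter fun x => φ x = 1) := Finset.card_pos.2 ⟨_, hmem⟩
    have hlt : #(X.filter fun x => φ x = 0) < #X := by
      have : 0 < (q - 1) * #(X.filter fun x => φ x = 1) := Nat.mul_pos (by omega) hA
      omega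
    obtain ⟨z1, hz1⟩ := cone_dvd (F := F) _ (X.filter fun x => φ x = 0) le_rfl (hX.filter φ)
    rw [hqq] at hz1
    have h4 := ih _ (by omega) (hX.filter φ) z1 hz1
    have h5 := AFV (K := K) φ (X.filter fun x => φ x = 1)
      (fun x hx => (Finset.mem_filter.1 hx).2) t
    rw [hqq] at h5
    have h3 : z = z1 + #(X.filter fun x => φ x = 1) := by
      have h4 : (q - 1) * z = (q - 1) * (z1 + #(X.filter fun x => φ x = 1)) := by
        rw [mul_add]; omega
      exact Nat.eq_of_mul_eq_mul_left (by omega) h4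
    rw [h3]
    have h6 := D_subadd q hq2 t z1 #(X.filter fun x => φ x = 1)
    omega

/-- subcones of prescribed size -/
lemma sub_cone {q : ℕ} (hqq : Fintype.card F = q) (v : ℕ) : ∀ (n : ℕ) (X : Finset V),
    #X = (q - 1) * (v + n) → IsCone F X →
    ∃ Y ⊆ X, IsCone F Y ∧ #Y = (q - 1) * v := by
  have hq2 : 2 ≤ q := hqq ▸ card_F_ge
  intro n
  induction n with
  | zero => intro X hc hX; exact ⟨X, Finset.Subset.refl _, hX, hc⟩
  | succ n ih =>
    intro X hc hX
    have hne : X.Nonempty := by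
      rw [← Finset.card_pos, hc]
      exact Nat.mul_pos (by omega) (by omega)
    obtain ⟨x, hx⟩ := hne
    have hx0 : x ≠ 0 := fun h0 => hX.zero (h0 ▸ hx)
    set O := ((univ : Finset F).erase 0).image (fun c => c • x) with hO
    have hOX : O ⊆ X := by
      intro y hy
      obtain ⟨c, hc, rfl⟩ := Finset.mem_image.1 hy
      exact hX.smul c (Finset.mem_erase.1 hc).1 x hx
    have hOc : #O = q - 1 := by
      rw [hO, Finset.card_image_of_injective, Finset.card_erase_of_mem (Finset.mem_univ _),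
        Finset.card_univ, hqq]
      exact smul_left_injective F hx0
    have hcone : IsCone F (X \ O) := by
      refine ⟨fun h1 => hX.zero (Finset.mem_sdiff.1 h1).1, fun c hc y hy => ?_⟩
      obtain ⟨h1, h2⟩ := Finset.mem_sdiff.1 hy
      refine Finset.mem_sdiff.2 ⟨hX.smul c hc y h1, fun h3 => h2 ?_⟩
      obtain ⟨d, hd, hdx⟩ := Finset.mem_image.1 h3
      refine Finset.mem_image.2 ⟨c⁻¹ * d, ?_, ?_⟩
      · rw [Finset.mem_erase] at hd ⊢
        exact ⟨mul_ne_zero (inv_ne_zero hc) hd.1, Finset.mem_univ _⟩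
      · rw [mul_smul, hdx, smul_smul, inv_mul_cancel₀ hc, one_smul]
    have hcard : #(X \ O) = #X - #O := Finset.card_sdiff_of_subset hOX
    have h5 : #(X \ O) = (q - 1) * (v + n) := by
      rw [hcard, hOc, hc, ← add_assoc, mul_add (q - 1) (v + n) 1, mul_one, Nat.add_sub_cancel]
    obtain ⟨Y, hY1, hY2, hY3⟩ := ih _ h5 hcone
    exact ⟨Y, hY1.trans Finset.sdiff_subset, hY2, hY3⟩

/-- images of cones under projections -/
lemma Yk_cone {W : Type*} [AddCommGroup W] [Module F W] [DecidableEq W] {p : V}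
    {π : V →ₗ[F] W} (hk : LinearMap.ker π = Submodule.span F {p}) {X : Finset V}
    (hX : IsCone F X) (hp : p ∉ X) (k : ℕ) : IsCone F (Yk π X k) := by
  constructor
  · intro h
    obtain ⟨a, ha, ha0⟩ := Finset.mem_image.1 (Finset.mem_filter.1 h).1
    have h1 : a ∈ LinearMap.ker π := ha0
    rw [hk, Submodule.mem_span_singleton] at h1
    obtain ⟨c, hc⟩ := h1
    have hc0 : c ≠ 0 := by
      rintro rfl
      rw [zero_smul] at hc
      exact hX.zero (hc ▸ ha)
    apply hp
    have h2 := hX.smul c⁻¹ (inv_ne_zero hc0) a ha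
    rwa [← hc, smul_smul, inv_mul_cancel₀ hc0, one_smul] at h2
  · intro c hc y hy
    obtain ⟨h1, h2⟩ := Finset.mem_filter.1 hy
    obtain ⟨a, ha, rfl⟩ := Finset.mem_image.1 h1
    refine Finset.mem_filter.2 ⟨?_, ?_⟩
    · rw [← map_smul]
      exact Finset.mem_image_of_mem _ (hX.smul c hc a ha)
    · refine h2.trans (Finset.card_le_card_of_injOn (fun b => c • b) ?_ ?_)
      · intro b hb
        obtain ⟨h3, h4⟩ := Finset.mem_filter.1 (Finset.mem_coe.1 hb)
        refine Finset.mem_coe.2 (Finset.mem_filter.2 ⟨hX.smul c hc b h3, ?_⟩)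
        show π (c • b) = c • π a
        rw [map_smul, h4]
      · intro b _ b' _ h
        have := congrArg (fun z => c⁻¹ • z) h
        simpa [smul_smul, hc] using this

variable [Fintype V] [FiniteDimensional F V]

lemma cone_card_le {q m : ℕ} (hqq : Fintype.card F = q) (hV : finrank F V = m) {X : Finset V}
    (hX : (0 : V) ∉ X) : #X + 1 ≤ q ^ m := by
  have h1 : insert (0 : V) X ⊆ univ := Finset.subset_univ _
  have h2 := Finset.card_le_card h1
  rwa [Finset.card_insert_of_notMem hX, Finset.card_univ,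
    Module.card_eq_pow_finrank (K := F) (V := V), hV, hqq] at h2

lemma hyper_card_le {q m : ℕ} (hqq : Fintype.card F = q) (hV : finrank F V = m + 1) {X : Finset V}
    (hX : (0 : V) ∉ X) {φ : Module.Dual F V} (hφ : φ ≠ 0) :
    #(X.filter fun x => φ x = 0) + 1 ≤ q ^ m := by
  have h1 : insert (0 : V) (X.filter fun x => φ x = 0) ⊆ univ.filter fun x => φ x = 0 := by
    intro x hx
    rcases Finset.mem_insert.1 hx with rfl | hx
    · simp
    · exact Finset.mem_filter.2 ⟨Finset.mem_univ _, (Finset.mem_filter.1 hx).2⟩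
  have h2 := Finset.card_le_card h1
  rwa [Finset.card_insert_of_notMem (fun h => hX (Finset.mem_filter.1 h).1),
    card_fiber hV hφ, hqq] at h2

/-- a maximal hyperplane section -/
lemma exists_max {q m : ℕ} (hqq : Fintype.card F = q) (hm : 1 ≤ m) (hV : finrank F V = m + 1)
    {X : Finset V} (hX : IsCone F X) {z : ℕ} (hz : #X = (q - 1) * z) :
    ∃ φ : Module.Dual F V, φ ≠ 0 ∧ ∃ zφ, #(X.filter fun x => φ x = 0) = (q - 1) * zφ ∧
      z = zφ + #(X.filter fun x => φ x = 1) ∧ z ≤ q * zφ + 1 := by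
  have hq2 : 2 ≤ q := hqq ▸ card_F_ge
  obtain ⟨φ, hφ, h⟩ := exists_hyper hV X hX.zero
  refine ⟨φ, hφ, ?_⟩
  obtain ⟨z1, hz1⟩ := cone_dvd (F := F) _ (X.filter fun x => φ x = 0) le_rfl (hX.filter φ)
  rw [hqq] at hz1 h
  have h1 := cone_card hX φ
  rw [hqq] at h1
  have h3 : z = z1 + #(X.filter fun x => φ x = 1) := by
    have h4 : (q - 1) * z = (q - 1) * (z1 + #(X.filter fun x => φ x = 1)) := by
      rw [mul_add]; omega
    exact Nat.eq_of_mul_eq_mul_left (by omega) h4
  refine ⟨z1, hz1, h3, ?_⟩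
  have h2 := hyper_card_le hqq hV hX.zero hφ
  rw [hz1] at h2 h
  rw [hz] at h
  have hQ : 2 ≤ q ^ m := by
    calc 2 ≤ q := hq2
      _ = q ^ 1 := (pow_one q).symm
      _ ≤ q ^ m := Nat.pow_le_pow_right (by omega) hm
  rw [pow_succ] at h
  obtain ⟨e, rfl⟩ : ∃ e, q = e + 1 := ⟨q - 1, by omega⟩
  rw [Nat.add_sub_cancel] at *
  have he : 1 ≤ e := by omega
  generalize (e + 1) ^ m = Q at *
  by_contra hcon
  push Not at hcon
  have h5 : z * (Q - 1) ≤ (Q * (e + 1) - 1) * z1 := by
    have : e * (z * (Q - 1)) ≤ e * ((Q * (e + 1) - 1) * z1) := by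
      calc e * (z * (Q - 1)) = e * z * (Q - 1) := by ring
        _ ≤ _ := h
        _ = _ := by ring
    exact Nat.le_of_mul_le_mul_left this (by omega)
  have h6 : ((e + 1) * z1 + 2) * (Q - 1) ≤ (Q * (e + 1) - 1) * z1 :=
    (Nat.mul_le_mul_right _ hcon).trans h5
  obtain ⟨Q', rfl⟩ : ∃ Q', Q = Q' + 1 := ⟨Q - 1, by omega⟩
  have h7 : (Q' + 1) * (e + 1) - 1 = Q' * (e + 1) + e := by
    have : (Q' + 1) * (e + 1) = Q' * (e + 1) + e + 1 := by ring
    omega
  rw [h7, Nat.add_sub_cancel] at h6
  nlinarith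

end vec

end BDG

end FCone2

section FSingle

/-!
Projection centres with many single fibres.
-/

set_option linter.unusedSectionVars false

namespace BDG
open Module Finset

section single
variable {F : Type*} [Field F] [Fintype F] [DecidableEq F]
  {V : Type*} [AddCommGroup V] [Module F V] [DecidableEq V] [Fintype V] [FiniteDimensional F V]

lemma exists_single {q m : ℕ} (hqq : Fintype.card F = q) (hV : finrank F V = m + 1)
    {X : Finset V} (hX : IsCone F X) {v : ℕ} (hv : #X = (q - 1) * v) {B : ℕ}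
    (hnum : (q - 1) * (v * (v - 1)) < (pr q (m + 1) - v) * (v + 1 - B)) :
    ∃ p : V, p ≠ 0 ∧ p ∉ X ∧ ∀ [DecidableEq (V ⧸ Submodule.span F {p})],
      #(Yk (Submodule.mkQ (Submodule.span F {p})) X 1) + (q - 1) * B ≤
        #(Yk (Submodule.mkQ (Submodule.span F {p})) X 0) := by
  classical
  have hq2 : 2 ≤ q := hqq ▸ card_F_ge
  have hpv : 0 < pr q (m + 1) - v := by
    rcases Nat.eq_zero_or_pos (pr q (m + 1) - v) with h | h
    · rw [h, zero_mul] at hnum; omega
    · exact h
  have hvB : 0 < v + 1 - B := by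
    rcases Nat.eq_zero_or_pos (v + 1 - B) with h | h
    · rw [h, mul_zero] at hnum; omega
    · exact h
  set P : Finset V := ((univ : Finset V).erase 0) \ X with hP
  have hPc : #P = (q - 1) * (pr q (m + 1) - v) := by
    have h1 : X ⊆ (univ : Finset V).erase 0 := by
      intro x hx
      exact Finset.mem_erase.2 ⟨fun h => hX.zero (h ▸ hx), Finset.mem_univ _⟩
    rw [hP, Finset.card_sdiff_of_subset h1, Finset.card_erase_of_mem (Finset.mem_univ _),
      Finset.card_univ, Module.card_eq_pow_finrank (K := F) (V := V), hV, hqq, hv,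
      ← pr_mul (by omega : 1 ≤ q) (m + 1), Nat.add_sub_cancel, ← Nat.mul_sub]
  have hPne : P.Nonempty := by
    rw [← Finset.card_pos, hPc]
    exact Nat.mul_pos (by omega) hpv
  set S : Finset (V × V) := X.offDiag.filter fun z => ¬ ∃ c : F, z.2 = c • z.1 with hS
  have hSc : #S ≤ #X * (#X - (q - 1)) := by
    have h1 : #S = ∑ x ∈ X, #(S.filter fun z => z.1 = x) := by
      refine Finset.card_eq_sum_card_fiberwise (f := fun z : V × V => z.1) (t := X) ?_
      intro z hz
      exact Finset.mem_coe.2 (Finset.mem_offDiag.1 (Finset.mem_filter.1 (Finset.mem_coe.1 hz)).1).1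
    rw [h1, ← smul_eq_mul, ← Finset.sum_const]
    refine Finset.sum_le_sum fun x hx => ?_
    have hx0 : x ≠ 0 := fun h0 => hX.zero (h0 ▸ hx)
    have hOc : #(((univ : Finset F).erase 0).image (fun c => c • x)) = q - 1 := by
      rw [Finset.card_image_of_injective, Finset.card_erase_of_mem (Finset.mem_univ _),
        Finset.card_univ, hqq]
      exact smul_left_injective F hx0
    have hOX : ((univ : Finset F).erase 0).image (fun c => c • x) ⊆ X := by
      intro y hy
      obtain ⟨c, hc, rfl⟩ := Finset.mem_image.1 hy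
      exact hX.smul c (Finset.mem_erase.1 hc).1 x hx
    rw [← hOc, ← Finset.card_sdiff_of_subset hOX]
    refine Finset.card_le_card_of_injOn (fun z => z.2) ?_ ?_
    · intro z hz
      obtain ⟨h2, h3⟩ := Finset.mem_filter.1 (Finset.mem_coe.1 hz)
      obtain ⟨h4, h5⟩ := Finset.mem_filter.1 h2
      refine Finset.mem_coe.2 (Finset.mem_sdiff.2 ⟨(Finset.mem_offDiag.1 h4).2.1, ?_⟩)
      intro h6
      obtain ⟨c, _, hc⟩ := Finset.mem_image.1 h6
      exact h5 ⟨c, by rw [h3]; exact hc.symm⟩
    · intro z hz z' hz' h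
      have h2 := (Finset.mem_filter.1 (Finset.mem_coe.1 hz)).2
      have h3 := (Finset.mem_filter.1 (Finset.mem_coe.1 hz')).2
      exact Prod.ext (h2.trans h3.symm) h
  obtain ⟨p, hpP, hpc⟩ := exists_centre (F := F) P hPne X S (Finset.filter_subset _ _) (by
    intro z hz hzS p hp c hc
    obtain ⟨h1, h2, h3⟩ := Finset.mem_offDiag.1 hz
    have h4 : ∃ d : F, z.2 = d • z.1 := by
      by_contra hcon
      exact hzS (Finset.mem_filter.2 ⟨hz, hcon⟩)
    obtain ⟨d, hd⟩ := h4
    have hc0 : c ≠ 0 := by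
      rintro rfl
      rw [zero_smul] at hc
      exact h3 (sub_eq_zero.1 hc)
    have hd1 : (1 - d) ≠ 0 := by
      intro h5
      have h6 : d = 1 := (sub_eq_zero.1 h5).symm
      rw [h6, one_smul] at hd
      exact h3 hd.symm
    have h5 : p = (c⁻¹ * (1 - d)) • z.1 := by
      rw [mul_smul, sub_smul, one_smul, ← hd, hc, smul_smul, inv_mul_cancel₀ hc0, one_smul]
    have h6 : p ∈ X := by
      rw [h5]
      exact hX.smul _ (mul_ne_zero (inv_ne_zero hc0) hd1) _ h1
    exact (Finset.mem_sdiff.1 hp).2 h6)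
  have hp0 : p ≠ 0 := (Finset.mem_erase.1 (Finset.mem_sdiff.1 hpP).1).1
  have hpX : p ∉ X := (Finset.mem_sdiff.1 hpP).2
  refine ⟨p, hp0, hpX, ?_⟩
  intro hdec
  set π := Submodule.mkQ (Submodule.span F {p}) with hπ
  have hk : LinearMap.ker π = Submodule.span F {p} := Submodule.ker_mkQ _
  rw [← Tp_span (π := π) hk X, hPc, hqq] at hpc
  have hns := nonsingle_le_Tp π X
  obtain ⟨z0, hz0⟩ := cone_dvd (F := F) _ (Yk π X 0) le_rfl (Yk_cone hk hX hpX 0)
  obtain ⟨z1, hz1⟩ := cone_dvd (F := F) _ (Yk π X 1) le_rfl (Yk_cone hk hX hpX 1)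
  rw [hqq] at hz0 hz1
  by_contra hcon
  push Not at hcon
  have h01 : #(Yk π X 1) ≤ #(Yk π X 0) := Yk_anti π X (by omega : 0 ≤ 1)
  rw [hz0, hz1] at hcon h01 hns
  rw [hv] at hns hSc
  obtain ⟨e, rfl⟩ : ∃ e, q = e + 1 := ⟨q - 1, by omega⟩
  rw [Nat.add_sub_cancel] at *
  have he : 0 < e := by omega
  have h02 : z1 ≤ z0 := Nat.le_of_mul_le_mul_left h01 he
  have h03 : z0 < z1 + B := by
    have : e * z0 < e * (z1 + B) := by rw [mul_add]; exact hcon
    exact Nat.lt_of_mul_lt_mul_left this
  have h04 : e * (v + 1 - B) ≤ Tp π X := by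
    have h5 : e * z0 - e * z1 = e * (z0 - z1) := by rw [Nat.mul_sub]
    rw [h5] at hns
    have h6 : e * (v + 1 - B) + e * (z0 - z1) ≤ e * v := by
      rw [← mul_add]
      exact Nat.mul_le_mul_left _ (by omega)
    omega
  have h05 : e * (pr (e + 1) (m + 1) - v) * (e * (v + 1 - B)) ≤ e * v * (e * v - e) * e := by
    refine (Nat.mul_le_mul_left _ h04).trans (hpc.trans (Nat.mul_le_mul_right _ hSc))
  have h06 : e * v - e = e * (v - 1) := by rw [Nat.mul_sub, mul_one]
  rw [h06] at h05
  have h07 : (e * e) * ((pr (e + 1) (m + 1) - v) * (v + 1 - B)) ≤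
      (e * e) * (e * (v * (v - 1))) := by
    calc _ = e * (pr (e + 1) (m + 1) - v) * (e * (v + 1 - B)) := by ring
      _ ≤ _ := h05
      _ = _ := by ring
  have h08 := Nat.le_of_mul_le_mul_left h07 (Nat.mul_pos he he)
  omega

end single

end BDG

end FSingle
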