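import Mathlib

/-!
Numerical lemma for projection centres with many single fibres.
-/

namespace BDG
open Finset

lemma single_num {q Q r f pm : ℕ} (hq : 4 ≤ q) (hr : (q - 1) * r + 1 = Q) (hf1 : 2 * Q + 1 ≤ f)
    (hf2 : f ≤ (q - 1) * Q) (hpm : q ^ 2 * Q + q * Q + Q + r ≤ pm) :
    (q - 1) * ((r + f) * (r + f - 1)) < (pm - (r + f)) * (r + f + 1 - (r + Q)) := by
  obtain ⟨e, rfl⟩ : ∃ e, q = e + 4 := ⟨q - 4, by omega⟩
  rw [show e + 4 - 1 = e + 3 by omega] at *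
  obtain ⟨a, rfl⟩ : ∃ a, f = 2 * Q + 1 + a := ⟨f - (2 * Q + 1), by omega⟩
  obtain ⟨b, hb⟩ : ∃ b, (e + 3) * Q = 2 * Q + 1 + a + b :=
    ⟨(e + 3) * Q - (2 * Q + 1 + a), by omega⟩
  have h1 : r + (2 * Q + 1 + a) - 1 = r + 2 * Q + a := by omega
  have h2 : r + (2 * Q + 1 + a) + 1 - (r + Q) = Q + 2 + a := by omega
  rw [h1, h2]
  obtain ⟨g, hg⟩ : ∃ g, pm = r + (2 * Q + 1 + a) + g := by
    refine ⟨pm - (r + (2 * Q + 1 + a)), ?_⟩
    have h3 : (e + 3) * Q ≤ (e + 4) ^ 2 * Q :=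
      Nat.mul_le_mul_right _ ((by omega : e + 3 ≤ e + 4).trans
        (by rw [sq]; exact Nat.le_mul_self _))
    omega
  have hg' : (e + 4) ^ 2 * Q + (e + 4) * Q + Q ≤ 2 * Q + 1 + a + g := by omega
  have h3 : pm - (r + (2 * Q + 1 + a)) = g := by omega
  rw [h3]
  have hrQ : r ≤ Q := by
    have h4 : 1 * r ≤ (e + 3) * r := Nat.mul_le_mul_right _ (by omega)
    omega
  zify at *
  have hb' : (b : ℤ) = (e + 3) * Q - 2 * Q - 1 - a := by linarith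
  have hb0 : (0 : ℤ) ≤ b := by positivity
  have ha0 : (0 : ℤ) ≤ a := by positivity
  have hQ1 : (1 : ℤ) ≤ Q := by
    have : (0 : ℤ) ≤ (e + 3) * r := by positivity
    linarith
  have he0 : (0 : ℤ) ≤ e := by positivity
  have hr0 : (0 : ℤ) ≤ r := by positivity
  have k1 : ((e : ℤ) + 4) ^ 2 * Q + (e + 4) * Q + Q - (2 * Q + 1 + a) ≤ g := by linarith
  have k2 : (((e : ℤ) + 4) ^ 2 * Q + (e + 4) * Q + Q - (2 * Q + 1 + a)) * (Q + 2 + a) ≤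
      g * (Q + 2 + a) := by
    apply mul_le_mul_of_nonneg_right k1; positivity
  refine lt_of_lt_of_le ?_ k2
  -- the left side
  have k3 : ((e : ℤ) + 3) * ((r + (2 * Q + 1 + a)) * (r + 2 * Q + a)) ≤
      (e + 3) * ((2 * Q + 1 + a) * (2 * Q + 1 + a)) + 2 * (2 * Q + 1 + a) * (Q - 1) +
        (Q - 1) * Q := by
    have k4 : ((e : ℤ) + 3) * r = Q - 1 := by linarith
    have k5 : ((e : ℤ) + 3) * ((r + (2 * Q + 1 + a)) * (r + 2 * Q + a)) =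
        (e + 3) * ((2 * Q + 1 + a) * (2 * Q + a)) + ((e + 3) * r) * (2 * Q + a) +
        ((e + 3) * r) * (2 * Q + 1 + a) + ((e + 3) * r) * r := by ring
    rw [k5, k4]
    have k6 : ((Q : ℤ) - 1) * r ≤ (Q - 1) * Q :=
      mul_le_mul_of_nonneg_left hrQ (by linarith)
    have k61 := mul_nonneg (by linarith : (0 : ℤ) ≤ (e : ℤ) + 3)
      (by positivity : (0 : ℤ) ≤ 2 * (Q : ℤ) + 1 + a)
    clear hg hg' hb hb' hr hf1 hf2 hpm k1 k2 k4 k5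
    linarith
  refine lt_of_le_of_lt k3 ?_
  have k7 : (((e : ℤ) + 4) ^ 2 * Q + (e + 4) * Q + Q - (2 * Q + 1 + a)) * ((2 * Q + 1 + a) - Q) =
      (e + 3) * ((2 * Q + 1 + a) * (2 * Q + 1 + a)) + 2 * (2 * Q + 1 + a) * Q + Q * Q +
      (e + 4) * ((a + 1) * b) + ((e + 4) ^ 2 - 3 * (e + 4) - 2) * (Q * Q) := by
    rw [hb']; ring
  have k8 : (0 : ℤ) ≤ (e + 4) * ((a + 1) * b) := by positivity
  have k9 : (0 : ℤ) < (((e : ℤ) + 4) ^ 2 - 3 * (e + 4) - 2) * (Q * Q) := by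
    apply mul_pos
    · have k91 := mul_nonneg he0 he0
      have k92 : ((e : ℤ) + 4) ^ 2 - 3 * (e + 4) - 2 = e * e + 5 * e + 2 := by ring
      rw [k92]
      positivity
    · positivity
  have k10 : (0 : ℤ) ≤ ((e : ℤ) + 4) ^ 2 * Q + (e + 4) * Q + Q - (2 * Q + 1 + a) := by
    have k101 : (0 : ℤ) ≤ (e + 4) ^ 2 * Q := by positivity
    clear hg hg' hb hr hf1 hf2 hpm k1 k2 k3 k7 k8 k9
    linarith
  clear hg hg' hb hb' hr hf1 hf2 hpm k1 k2 k3 hb0 he0 hr0 hrQ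
  linarith

end BDG
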