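import Mathlib

/-!
Numerical lemma used in `BDG.Sone`.
-/

namespace BDG
open Finset

section num

lemma Sone_num_ge {E J X p : ℤ} (he0 : 0 ≤ E) (hj0 : 0 ≤ J) (hx0 : 0 ≤ X) (hp0 : 0 ≤ p) :
    p * (E + 4) + 1 ≤ (E + 2 + J) ^ 2 * p + 1 + X - E * p - E * ((E + 2 + J) * p) := by
  have h1 : (E + 2 + J) ^ 2 * p + 1 + X - E * p - E * ((E + 2 + J) * p) =
      p * (E + 4) + 1 + (p * (E * J + 4 * J + J * J) + X) := by ring
  rw [h1]
  exact le_add_of_nonneg_right (by positivity)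

lemma Sone_num_core {E q p B : ℤ} (he0 : 0 ≤ E) (hp1 : 1 ≤ p) (hqE : E + 2 ≤ q)
    (hB : p * (E + 4) + 1 ≤ B) :
    (E * (q * p) + B) * (q ^ 2 * p) * (q - 1) + B < q ^ 4 * p * B := by
  have hq2 : 2 ≤ q := by linarith
  have hT : 1 ≤ q * q - q + 1 := by
    have : q * 1 ≤ q * q := mul_le_mul_of_nonneg_left (by linarith) (by linarith)
    linarith
  have hqq : 4 ≤ q * q := by
    have : q * 2 ≤ q * q := mul_le_mul_of_nonneg_left hq2 (by linarith)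
    linarith
  obtain ⟨s, hs⟩ : ∃ s, s = p * (q * q) := ⟨_, rfl⟩
  have hpq : 4 ≤ s := by
    have : 1 * (q * q) ≤ p * (q * q) := mul_le_mul_of_nonneg_right hp1 (by linarith)
    linarith
  obtain ⟨c, hc⟩ : ∃ c, c = s * (q * q - q + 1) - 1 := ⟨_, rfl⟩
  have hc3 : 3 ≤ c := by
    have : s * 1 ≤ s * (q * q - q + 1) := mul_le_mul_of_nonneg_left hT (by linarith)
    linarith
  have k1 : (p * (E + 4) + 1) * c ≤ B * c := mul_le_mul_of_nonneg_right hB (by linarith)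
  have k2 : 0 ≤ p * E * (s - 1) := mul_nonneg (mul_nonneg (by linarith) he0) (by linarith)
  have k3 : 0 ≤ 4 * p * c := mul_nonneg (by linarith) (by linarith)
  have k4 : (p * (E + 4) + 1) * c = E * q ^ 3 * p ^ 2 * (q - 1) + (p * E * (s - 1) +
      4 * p * c + c) := by rw [hc, hs]; ring
  have k5 : q ^ 4 * p * B = (E * (q * p) + B) * (q ^ 2 * p) * (q - 1) + B +
      (B * c - E * q ^ 3 * p ^ 2 * (q - 1)) := by rw [hc, hs]; ring
  rw [k5]
  refine lt_add_of_pos_right _ (sub_pos.2 ?_)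
  refine lt_of_lt_of_le ?_ k1
  rw [k4]
  exact lt_add_of_pos_right _ (add_pos_of_nonneg_of_pos (add_nonneg k2 k3) (by linarith))

lemma Sone_num {q e p Q a y T : ℕ} (he : e + 2 ≤ q) (hp : 1 ≤ p) (hQ : q ^ 4 * p ≤ Q)
    (ha : q ^ 2 * p + 1 ≤ a + e * p) (ha2 : a ≤ 2 * (q ^ 2 * p))
    (h : (Q - 1) * T ≤ (a * a - a) * (q - 1)) (h2 : 2 * (a - y) ≤ T) : e * (q * p) < y := by
  by_contra hcon
  push Not at hcon
  obtain ⟨j, rfl⟩ : ∃ j, q = e + 2 + j := ⟨q - (e + 2), by omega⟩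
  have hq4 : 1 ≤ (e + 2 + j) ^ 4 * p := Nat.mul_pos (Nat.pow_pos (by omega)) hp
  obtain ⟨Q', rfl⟩ : ∃ Q', Q = Q' + 1 := ⟨Q - 1, by omega⟩
  rw [Nat.add_sub_cancel] at h
  have h3 : e * ((e + 2 + j) * p) ≤ a := by
    have : e * ((e + 2 + j) * p) + e * p ≤ (e + 2 + j) ^ 2 * p := by
      have e1 : e * (e + 2 + j) + (e + 2 + j) = (e + 1) * (e + 2 + j) := by ring
      have e2 : (e + 1) * (e + 2 + j) ≤ (e + 2 + j) * (e + 2 + j) :=
        Nat.mul_le_mul_right _ (by omega)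
      calc e * ((e + 2 + j) * p) + e * p = (e * (e + 2 + j) + e) * p := by ring
        _ ≤ (e + 2 + j) ^ 2 * p := Nat.mul_le_mul_right _ (by rw [sq]; omega)
    omega
  obtain ⟨b, rfl⟩ : ∃ b, a = e * ((e + 2 + j) * p) + b := ⟨a - e * ((e + 2 + j) * p), by omega⟩
  have h4 : 2 * b ≤ T := by omega
  have h5 : Q' * (2 * b) ≤ (e * ((e + 2 + j) * p) + b) * ((e + 2 + j) ^ 2 * p * 2) * (e + 1 + j) := by
    refine (Nat.mul_le_mul_left _ h4).trans (h.trans ?_)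
    rw [show e + 2 + j - 1 = e + 1 + j by omega]
    refine Nat.mul_le_mul_right _ ?_
    refine (Nat.sub_le _ _).trans ?_
    exact Nat.mul_le_mul_left _ (by omega)
  have h6 : Q' * b ≤ (e * ((e + 2 + j) * p) + b) * ((e + 2 + j) ^ 2 * p) * (e + 1 + j) := by
    have e1 : Q' * (2 * b) = 2 * (Q' * b) := by ring
    have e2 : (e * ((e + 2 + j) * p) + b) * ((e + 2 + j) ^ 2 * p * 2) * (e + 1 + j) =
      2 * ((e * ((e + 2 + j) * p) + b) * ((e + 2 + j) ^ 2 * p) * (e + 1 + j)) := by ring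
    rw [e1, e2] at h5
    exact Nat.le_of_mul_le_mul_left h5 (by omega)
  have h7 : ((e + 2 + j) ^ 4 * p - 1) * b ≤
      (e * ((e + 2 + j) * p) + b) * ((e + 2 + j) ^ 2 * p) * (e + 1 + j) :=
    (Nat.mul_le_mul_right _ (by omega)).trans h6
  have h8 : (e + 2 + j) ^ 2 * p + 1 ≤ e * ((e + 2 + j) * p) + b + e * p := ha
  obtain ⟨x, hx⟩ : ∃ x, (e + 2 + j) ^ 2 * p + 1 + x = e * ((e + 2 + j) * p) + b + e * p :=
    ⟨_, Nat.add_sub_cancel' h8⟩
  clear h h2 h4 h5 h6 h8 ha hcon h3 hQ ha2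
  have h9 : (e + 2 + j) ^ 4 * p * b ≤
      (e * ((e + 2 + j) * p) + b) * ((e + 2 + j) ^ 2 * p) * (e + 1 + j) + b := by
    have : ((e + 2 + j) ^ 4 * p - 1) * b + b = (e + 2 + j) ^ 4 * p * b := by
      rw [← Nat.succ_mul, Nat.succ_eq_add_one, Nat.sub_add_cancel hq4]
    omega
  have hb : b = (e + 2 + j) ^ 2 * p + 1 + x - e * p - e * ((e + 2 + j) * p) := by omega
  -- pass to integers
  zify at h9 hx hp
  have hb' : (b : ℤ) = (e + 2 + j) ^ 2 * p + 1 + x - e * p - e * ((e + 2 + j) * p) := by linarith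
  rw [hb'] at h9
  obtain ⟨p', rfl⟩ : ∃ p', p = p' + 1 := ⟨p - 1, by omega⟩
  push_cast at h9
  have he0 : (0 : ℤ) ≤ e := by positivity
  have hj0 : (0 : ℤ) ≤ j := by positivity
  have hx0 : (0 : ℤ) ≤ x := by positivity
  have hp0 : (0 : ℤ) ≤ p' := by positivity
  generalize (e : ℤ) = E at *
  generalize (j : ℤ) = J at *
  generalize (x : ℤ) = X at *
  generalize (p' : ℤ) = P at *
  have hBge : (P + 1) * (E + 4) + 1 ≤
      (E + 2 + J) ^ 2 * (P + 1) + 1 + X - E * (P + 1) - E * ((E + 2 + J) * (P + 1)) :=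
    Sone_num_ge he0 hj0 hx0 (add_nonneg hp0 zero_le_one)
  have hlt := Sone_num_core (q := E + 2 + J) (p := P + 1) he0 (le_add_of_nonneg_left hp0)
    (le_add_of_nonneg_right hj0) hBge
  rw [show E + 1 + J = E + 2 + J - 1 by ring] at h9
  exact absurd h9 (not_le.2 hlt)

end num

end BDG
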