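import Mathlib
import Pool.Agent.helper88.BDG.GenLine
import Pool.Agent.helper88.BDG.Geo
import Pool.Agent.helper88.BDG.SoneNum
import Pool.Agent.helper88.BDG.SingleNum

/-!
Merged modules `Sone`, `Main`, `Main2`.
-/

section FSone

/-!
Affine sets of almost maximal size have a large hyperplane section.
-/

set_option linter.unusedSectionVars false

namespace BDG
open Module Finset

section geo
variable {K : Type*} [Field K] {F : Type*} [Field F] [Algebra F K] {V : Type*} [AddCommGroup V]
  [Module F V]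

lemma exists_basis_coord [FiniteDimensional F V] {n : ℕ} (hV : finrank F V = n + 1)
    {φ : Module.Dual F V} (hφ : φ ≠ 0) : ∃ b : Basis (Fin (n + 1)) F V, b.coord 0 = φ := by
  obtain ⟨v0, hv0⟩ : ∃ v0, φ v0 = 1 := LinearMap.surjective hφ 1
  let c : Basis (Fin n) F ↥(LinearMap.ker φ) := Module.finBasisOfFinrankEq F _ (finrank_ker hV hφ)
  let b : Basis (Fin (n + 1)) F V := Basis.mkFinCons v0 c
    (by
      intro a x hx h
      have h1 := congrArg φ h
      rw [map_add, map_smul, hv0, LinearMap.mem_ker.1 hx, map_zero, add_zero, smul_eq_mul,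
        mul_one] at h1
      exact h1)
    (by
      intro z
      refine ⟨-φ z, ?_⟩
      rw [LinearMap.mem_ker, map_add, map_smul, hv0, smul_eq_mul, mul_one, add_neg_cancel])
  have hb : ⇑b = Fin.cons v0 (((↑) : ↥(LinearMap.ker φ) → V) ∘ c) := Basis.coe_mkFinCons _ _ _ _
  refine ⟨b, b.ext fun i => ?_⟩
  rw [Basis.coord_apply, Basis.repr_self]
  refine Fin.cases ?_ (fun j => ?_) i
  · rw [Finsupp.single_eq_same, hb, Fin.cons_zero, hv0]
  · rw [hb, Fin.cons_succ, Function.comp_apply, LinearMap.mem_ker.1 (c j).2,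
      Finsupp.single_eq_of_ne]
    exact (Fin.succ_ne_zero j).symm

lemma Lf_linear {g : V → K} (hg : g ∈ Lf K F V) : ∃ L : V →ₗ[F] K, ∀ v, L v = g v := by
  induction hg using Submodule.span_induction with
  | mem x hx =>
    obtain ⟨φ, rfl⟩ := hx
    exact ⟨(Algebra.linearMap F K).comp φ, fun v => rfl⟩
  | zero => exact ⟨0, fun v => rfl⟩
  | add x y _ _ hx hy =>
    obtain ⟨L, hL⟩ := hx
    obtain ⟨L', hL'⟩ := hy
    exact ⟨L + L', fun v => by rw [LinearMap.add_apply, hL, hL', Pi.add_apply]⟩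
  | smul a x _ hx =>
    obtain ⟨L, hL⟩ := hx
    refine ⟨(LinearMap.mulLeft F a).comp L, fun v => ?_⟩
    rw [LinearMap.comp_apply, LinearMap.mulLeft_apply, hL, Pi.smul_apply, smul_eq_mul]

lemma exists_functional {g : V → K} (hg : g ∈ Lf K F V) (h0 : g ≠ 0) :
    ∃ ψ : Module.Dual F V, ψ ≠ 0 ∧ ∀ v, g v = 0 → ψ v = 0 := by
  obtain ⟨L, hL⟩ := Lf_linear hg
  obtain ⟨v, hv⟩ : ∃ v, g v ≠ 0 := by
    by_contra hcon
    push Not at hcon
    exact h0 (funext hcon)
  obtain ⟨ℓ, hℓ⟩ : ∃ ℓ : Module.Dual F K, ℓ (g v) ≠ 0 := by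
    by_contra hcon
    push Not at hcon
    exact hv ((Module.forall_dual_apply_eq_zero_iff F _).1 hcon)
  refine ⟨ℓ.comp L, ?_, ?_⟩
  · intro h
    have := LinearMap.congr_fun h v
    rw [LinearMap.comp_apply, hL] at this
    exact hℓ this
  · intro w hw
    rw [LinearMap.comp_apply, hL, hw, map_zero]

lemma finrank_quot [FiniteDimensional F V] {n : ℕ} (hV : finrank F V = n + 1) {p : V} (hp : p ≠ 0) :
    finrank F (V ⧸ Submodule.span F {p}) = n := by
  have h1 := Submodule.finrank_quotient_add_finrank (Submodule.span F {p})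
  rw [finrank_span_singleton hp, hV] at h1
  omega

lemma exists_quot_dual {p : V} (φ : Module.Dual F V) (hφ : φ p = 0) :
    ∃ φ' : Module.Dual F (V ⧸ Submodule.span F {p}), ∀ v, φ' (Submodule.mkQ _ v) = φ v := by
  refine ⟨(Submodule.span F {p}).liftQ φ ?_, fun v => ?_⟩
  · rw [Submodule.span_singleton_le_iff_mem, LinearMap.mem_ker]; exact hφ
  · rw [Submodule.mkQ_apply, Submodule.liftQ_apply]

end geo

section S1
variable {K : Type*} [Field K] [Infinite K] {F : Type*} [Field F] [Algebra F K] [Fintype F]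
  [DecidableEq F]

lemma Sone_base {q E M : ℕ} (hqq : Fintype.card F = q) (hM : 2 ≤ M) (hE : 1 ≤ E) (hEq : E < q)
    (V : Type*)
    [AddCommGroup V] [Module F V] [Fintype V] [DecidableEq V] [FiniteDimensional F V]
    (hV : finrank F V = M + 2) (φ : Module.Dual F V) (A : Finset V) (hA : ∀ x ∈ A, φ x = 1)
    (G : ℕ) (hG : D q (E - 1) G = Hs (Lf K F V) A (E - 1))
    (hGd : ds q G ≤ E - 1) (hG1 : q ^ M ≤ G)
    (hG2 : G < 2 * q ^ M)
    (hGA : G < #A + (E - 1) * q ^ (M - 2)) :
    ∃ ψ : Module.Dual F V, ψ ≠ 0 ∧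
      q ^ M < #(A.filter fun x => ψ x = 0) + (E - 1) * q ^ (M - 2) := by
  classical
  have hq2 : 2 ≤ q := hqq ▸ card_F_ge
  have hQ : 0 < q ^ M := Nat.pow_pos (by omega)
  have hE2 : 1 ≤ E - 1 := by
    by_contra hcon
    have h1 : E - 1 = 0 := by omega
    rw [h1, Nat.le_zero] at hGd
    have := ds_pos hq2 G hGd
    omega
  have hQ2 : q ^ (M - 2) * q ^ 2 = q ^ M := by rw [← pow_add]; congr 1; omega
  have hAne : A.Nonempty := by
    rw [← Finset.card_pos]
    by_contra hcon
    have h0 : #A = 0 := by omega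
    have h1 : (E - 1) * q ^ (M - 2) ≤ q ^ M := by
      rw [← hQ2, mul_comm]
      refine Nat.mul_le_mul_left _ ?_
      exact (by omega : E - 1 ≤ q).trans (by rw [sq]; exact Nat.le_mul_self _)
    omega
  obtain ⟨x0, hx0⟩ := hAne
  have hφ : φ ≠ 0 := by
    rintro rfl
    have := hA x0 hx0
    rw [LinearMap.zero_apply] at this
    exact zero_ne_one this
  obtain ⟨b, hb⟩ := exists_basis_coord hV hφ
  have hGq : G < q ^ (M + 1) := by
    rw [pow_succ, mul_comm (q ^ M) q]
    exact hG2.trans_le (Nat.mul_le_mul_right _ hq2)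
  have hHR : Hs (Lf K F V) A (E - 1) < R (M + 1) (E - 1) := by
    rw [← hG, ← D_pow q (t := E - 1) (by omega)]
    exact D_lt' hGd hGq
  have hc : G / q ^ M = 1 := by
    refine Nat.div_eq_of_lt_le ?_ ?_
    · omega
    · omega
  rcases dichotomy (K := K) b A (by rw [hb]; exact hA) (Nat.sub_le E 1) (by rw [hqq]; exact hEq)
    hHR with
    ⟨A', hA'c, hA'H, hgood⟩ | ⟨γ, G0, hγ, hG0m, hG0⟩
  · exfalso
    have h1 := good_bound hE (by rw [hqq]; exact hEq) (M := M) (by omega) A' hgood G
      (by rw [hqq, hG, hA'H]) (by rw [hqq]; exact hGd) (by rw [hqq]; exact hG1)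
      (by rw [hqq]; exact hGq)
    rw [hqq, hc, hA'c] at h1
    have h2 : theta q E M 1 = (E - 1) * q ^ (M - 2) := by
      unfold theta
      rw [if_neg (by omega)]
      simp
    omega
  · -- a nonzero form of degree `E - 1` vanishing on `A`
    have h1 := Hs_add_ker (K := K) (F := F) A (E - 1)
    rw [finrank_Lf_pow (K := K) (m := M + 1) hV (by omega)] at h1
    have h2 : (Lf K F V) ^ (E - 1) ⊓ LinearMap.ker (res K A).toLinearMap ≠ ⊥ := by
      intro h
      rw [h, finrank_bot] at h1
      omega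
    obtain ⟨g, hg, hg0⟩ := Submodule.exists_mem_ne_zero_of_ne_bot h2
    have hgA : ∀ a ∈ A, g a = 0 := res_eq_zero.1 hg.2
    rcases hG0 (E - 1) (by omega) g hg.1 hgA with h3 | ⟨hγE, k, hk, hgk⟩
    · exact absurd h3 hg0
    have hG0n : G0 ≠ 0 := by
      rintro rfl
      rw [zero_mul] at hgk
      exact hg0 hgk
    have hmul : ∀ g ∈ (Lf K F V) ^ (E - 1), (∀ x ∈ A, g x = 0) →
        ∃ k ∈ (Lf K F V) ^ (E - 1 - γ), g = G0 * k := by
      intro g hg hgA
      rcases hG0 (E - 1) (by omega) g hg hgA with h3 | ⟨hγE, k, hk, hgk⟩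
      · exact ⟨0, Submodule.zero_mem _, by rw [h3, mul_zero]⟩
      · exact ⟨k, hk, hgk⟩
    rcases Nat.eq_or_lt_of_le hγ with hγ1 | hγ2
    · -- `γ = 1`
      subst hγ1
      rw [pow_one] at hG0m
      have h3 := Hs_ge_of_mul (K := K) (m := M + 1) hV (t := E - 1) (γ := 1) (by omega) A
        (A.filter fun x => G0 x ≠ 0) G0 (fun x hx => Finset.mem_filter.1 hx) hmul
      have h4 := AFV (K := K) φ (A.filter fun x => G0 x ≠ 0)
        (fun x hx => hA x (Finset.mem_filter.1 hx).1) (E - 1 - 1)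
      obtain ⟨e, he⟩ : ∃ e, E - 1 = e + 1 := ⟨E - 1 - 1, by omega⟩
      rw [he, Nat.add_sub_cancel, R_succ] at h3
      rw [he, Nat.add_sub_cancel, hqq] at h4
      rw [he] at hG hGd hHR
      have h5 : R M (e + 1) + D q e #(A.filter fun x => G0 x ≠ 0) ≤
          D q (e + 1) G := by omega
      have h6 := lt_of_R_add q hq2 M e _ (by omega) (h5.trans_lt (by rw [hG]; exact hHR))
      have h7 := D_succ_block q hq2 M e _ (by omega) h6.le
      have h8 := le_of_D_le hGd (by rw [h7]; exact h5)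
      obtain ⟨ψ, hψ, hψ0⟩ := exists_functional hG0m hG0n
      refine ⟨ψ, hψ, ?_⟩
      have h9 : #(A.filter fun x => G0 x = 0) ≤ #(A.filter fun x => ψ x = 0) := by
        refine Finset.card_le_card ?_
        intro x hx
        obtain ⟨h10, h11⟩ := Finset.mem_filter.1 hx
        exact Finset.mem_filter.2 ⟨h10, hψ0 x h11⟩
      have h10 : #(A.filter fun x => G0 x = 0) + #(A.filter fun x => G0 x ≠ 0) = #A :=
        Finset.card_filter_add_card_filter_not _
      omega
    · exfalso
      have h3 := Hs_ge_of_mul (K := K) (m := M + 1) hV (t := E - 1) (γ := γ) (by omega) A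
        ∅ G0 (by simp) hmul
      obtain ⟨e, he⟩ : ∃ e, E - 1 = e + 2 := ⟨E - 1 - 2, by omega⟩
      have h4 : R (M + 1) (e + 2 - γ) ≤ R (M + 1) e := by
        unfold R
        have h11 : (M + 1 + (e + 2 - γ)).choose (e + 2 - γ) =
            (M + 1 + (e + 2 - γ)).choose (M + 1) := by
          rw [← Nat.choose_symm_add]
        have h12 : (M + 1 + e).choose e = (M + 1 + e).choose (M + 1) := by
          rw [← Nat.choose_symm_add]
        rw [h11, h12]
        exact Nat.choose_le_choose _ (by omega)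
      rw [he] at h3 hG hGd
      have h5 := D_block_val q hq2 M 2 (e + 2) (by omega) (by omega)
      rw [Finset.sum_range_succ, Finset.sum_range_one, Nat.sub_zero] at h5
      have h6 : D q (e + 2) G < D q (e + 2) (2 * q ^ M) := D_lt' hGd hG2
      have h7 := R_succ M (e + 1)
      have h8 := R_succ M e
      have h9 : e + 2 - 1 = e + 1 := by omega
      rw [h9] at h5
      have h10 : R (M + 1) (e + 2) = R M (e + 2) + R (M + 1) (e + 1) := h7
      omega

theorem Sone {q E M : ℕ} (hqq : Fintype.card F = q) (hM : 2 ≤ M) (hE : 1 ≤ E) (hEq : E < q)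
    (n : ℕ) : ∀ (V : Type _)
    [AddCommGroup V] [Module F V] [Fintype V] [DecidableEq V] [FiniteDimensional F V]
    (_ : finrank F V = M + 2 + n) (φ : Module.Dual F V) (A : Finset V) (_ : ∀ x ∈ A, φ x = 1)
    (G : ℕ) (_ : D q (E - 1) G = Hs (Lf K F V) A (E - 1))
    (_ : ds q G ≤ E - 1) (_ : q ^ M ≤ G)
    (_ : G < 2 * q ^ M)
    (_ : G < #A + (E - 1) * q ^ (M - 2)),
    ∃ ψ : Module.Dual F V, ψ ≠ 0 ∧
      q ^ M < #(A.filter fun x => ψ x = 0) + (E - 1) * q ^ (M - 2) := by
  induction n with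
  | zero =>
    intro V _ _ _ _ _ hV φ A hA G hG hGd hG1 hG2 hGA
    exact Sone_base hqq hM hE hEq V hV φ A hA G hG hGd hG1 hG2 hGA
  | succ n ih =>
    intro V _ _ _ _ _ hV φ A hA G hG hGd hG1 hG2 hGA
    classical
    have hq2 : 2 ≤ q := hqq ▸ card_F_ge
    have hQ : 0 < q ^ M := Nat.pow_pos (by omega)
    have hE2 : 1 ≤ E - 1 := by
      by_contra hcon
      have h1 : E - 1 = 0 := by omega
      rw [h1, Nat.le_zero] at hGd
      have := ds_pos hq2 G hGd
      omega
    obtain ⟨m, rfl⟩ : ∃ m, M = m + 2 := ⟨M - 2, by omega⟩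
    obtain ⟨e, he⟩ : ∃ e, E - 1 = e := ⟨_, rfl⟩
    rw [he] at hG hGd hGA hE2 ⊢
    rw [show m + 2 - 2 = m by omega] at hGA ⊢
    have hp1 : 1 ≤ q ^ m := Nat.pow_pos (by omega)
    have hQm : q ^ (m + 2) = q ^ 2 * q ^ m := by rw [pow_add, mul_comm]
    have heq2 : e + 2 ≤ q := by omega
    have hee : e ≤ q ^ 2 :=
      (by omega : e ≤ q).trans (by rw [sq]; exact Nat.le_mul_self _)
    have hAG : #A ≤ G := by
      have h1 := AFV (K := K) φ A hA e
      rw [hqq, ← hG] at h1
      exact le_of_D_le hGd h1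
    have hAne : A.Nonempty := by
      rw [← Finset.card_pos]
      by_contra hcon
      have h0 : #A = 0 := by omega
      have h1 : e * q ^ m ≤ q ^ 2 * q ^ m := Nat.mul_le_mul_right _ hee
      omega
    obtain ⟨x0, hx0⟩ := hAne
    have hφ : φ ≠ 0 := by
      rintro rfl
      have := hA x0 hx0
      rw [LinearMap.zero_apply] at this
      exact zero_ne_one this
    -- centres
    set P : Finset V := ((univ : Finset V).filter fun v => φ v = 0).erase 0 with hP
    have hPc : #P = q ^ (m + 2 + 2 + n) - 1 := by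
      have h0 : (0 : V) ∈ (univ : Finset V).filter fun v => φ v = 0 := by simp
      rw [hP, Finset.card_erase_of_mem h0,
        card_fiber (m := m + 2 + 2 + n) (by rw [hV]; ring) hφ, hqq]
    have hPne : P.Nonempty := by
      rw [← Finset.card_pos, hPc]
      have : 1 < q ^ (m + 2 + 2 + n) := Nat.one_lt_pow (by omega) (by omega)
      omega
    obtain ⟨p, hpP, hpc⟩ := exists_centre (F := F) P hPne A A.offDiag (Finset.Subset.refl _)
      (fun z hz hz' => absurd hz hz')
    have hp0 : p ≠ 0 := (Finset.mem_erase.1 hpP).1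
    have hφp : φ p = 0 := (Finset.mem_filter.1 (Finset.mem_erase.1 hpP).2).2
    set π := Submodule.mkQ (Submodule.span F {p}) with hπ
    have hk : LinearMap.ker π = Submodule.span F {p} := Submodule.ker_mkQ _
    have : Finite (V ⧸ Submodule.span F {p}) := Quotient.finite _
    let hfin : Fintype (V ⧸ Submodule.span F {p}) := Fintype.ofFinite _
    have hW : finrank F (V ⧸ Submodule.span F {p}) = m + 2 + 2 + n :=
      finrank_quot (n := m + 2 + 2 + n) (by rw [hV]; ring) hp0
    obtain ⟨φ', hφ'⟩ := exists_quot_dual φ hφp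
    rw [← Tp_span (π := π) hk A, hPc, Finset.offDiag_card, hqq] at hpc
    have hT := two_mul_le_Tp π A
    have hY0 : e * (q * q ^ m) < #(Yk π A 0) := by
      refine Sone_num heq2 hp1 ?_ ?_ ?_ hpc hT
      · rw [← pow_add]
        exact Nat.pow_le_pow_right (by omega) (by omega)
      · rw [← hQm]; omega
      · rw [← hQm]; omega
    have hY1 : ∀ k, ∀ y ∈ Yk π A k, φ' y = 1 := by
      intro k y hy
      obtain ⟨a, ha, rfl⟩ := Finset.mem_image.1 (Finset.mem_filter.1 hy).1
      rw [hφ' a]; exact hA a ha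
    -- projection inequality
    have hproj := proj_ge (K := K) hp0 hk A e
    have hsum := sum_Yk hk A
    rw [hqq] at hsum
    obtain ⟨G', hG', hG'd⟩ := exists_f hq2 hE2 (Hs (Lf K F (V ⧸ Submodule.span F {p})) (Yk π A 0) e)
    have h1 : #(Yk π A 0) ≤ G' := by
      have h2 := AFV (K := K) φ' (Yk π A 0) (hY1 0) e
      rw [hqq, ← hG'] at h2
      exact le_of_D_le hG'd h2
    have h0e : Hs (Lf K F (V ⧸ Submodule.span F {p})) (Yk π A 0) e ≤ Hs (Lf K F V) A e := by
      refine le_trans ?_ hproj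
      exact Finset.single_le_sum (f := fun k => Hs (Lf K F (V ⧸ Submodule.span F {p}))
        (Yk π A k) (e - k)) (fun _ _ => Nat.zero_le _) (Finset.mem_range.2 (Nat.succ_pos e))
    have hG'G : G' ≤ G := le_of_D_le hGd (by rw [hG', hG]; exact h0e)
    have hG'1 : q ^ (m + 2) ≤ G' := by
      refine le_of_D_le hG'd ?_
      rw [hG']
      have h2 := AFV (K := K) φ' (Yk π A 0) (hY1 0) e
      rw [hqq] at h2
      refine le_trans ?_ h2
      rw [D_pow q (by omega)]
      rcases Nat.le_total #(Yk π A 0) (q ^ (m + 2)) with h3 | h3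
      · rw [D_top q (t := e) (by omega) (m + 1) #(Yk π A 0)
          (by rw [pow_succ, mul_comm (q ^ m)]; exact hY0) h3]
      · have := D_mono q e h3
        rwa [D_pow q (by omega)] at this
    have hG'A : G' < #(Yk π A 0) + e * q ^ m := by
      set x : ℕ → ℕ := fun k => if k = 0 then G' else #(Yk π A k) with hx
      have hanti : Antitone x := by
        refine antitone_nat_of_succ_le fun k => ?_
        simp only [hx]
        rw [if_neg (Nat.succ_ne_zero k)]
        split_ifs with h
        · exact (Yk_anti π A (Nat.zero_le (k + 1))).trans h1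
        · exact Yk_anti π A (Nat.le_succ k)
      have hlay := D_layers q hq2 (t := e) (by omega) x hanti
      have h4 : ∑ i ∈ range (e + 1), D q (e - i) (x i) ≤ Hs (Lf K F V) A e := by
        refine le_trans (Finset.sum_le_sum fun i _ => ?_) hproj
        by_cases hi : i = 0
        · rw [hi]
          simp only [hx, if_true, Nat.sub_zero]
          exact hG'.le
        · simp only [hx, if_neg hi]
          have := AFV (K := K) φ' (Yk π A i) (hY1 i) (e - i)
          rwa [hqq] at this
      have h5 : ∑ i ∈ range q, x i + #(Yk π A 0) = G' + #A := by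
        obtain ⟨q', rfl⟩ : ∃ q', q = q' + 1 := ⟨q - 1, by omega⟩
        rw [Finset.sum_range_succ'] at hsum ⊢
        have h6 : ∑ i ∈ range q', x (i + 1) = ∑ i ∈ range q', #(Yk π A (i + 1)) :=
          Finset.sum_congr rfl fun i _ => by simp [hx]
        rw [h6]
        have h7 : x 0 = G' := by simp [hx]
        omega
      have h6 : ∑ i ∈ range q, x i ≤ G :=
        le_of_D_le hGd (by rw [hG]; exact hlay.trans h4)
      omega
    obtain ⟨ψ', hψ', hψ'c⟩ := ih (V ⧸ Submodule.span F {p}) hW φ' (Yk π A 0) (hY1 0) G'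
      (by rw [he, hG']) (by rw [he]; exact hG'd) hG'1 (by omega)
      (by rw [he, show m + 2 - 2 = m by omega]; exact hG'A)
    rw [he, show m + 2 - 2 = m by omega] at hψ'c
    refine ⟨ψ'.comp π, ?_, ?_⟩
    · intro h
      apply hψ'
      refine LinearMap.ext fun w => ?_
      obtain ⟨v, rfl⟩ := Submodule.mkQ_surjective _ w
      exact LinearMap.congr_fun h v
    · refine hψ'c.trans_le (Nat.add_le_add_right ?_ _)
      have h2 : (Yk π A 0).filter (fun x => ψ' x = 0) ⊆
          (A.filter fun x => (ψ'.comp π) x = 0).image π := by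
        intro y hy
        obtain ⟨h3, h4⟩ := Finset.mem_filter.1 hy
        obtain ⟨a, ha, rfl⟩ := Finset.mem_image.1 (Finset.mem_filter.1 h3).1
        exact Finset.mem_image.2 ⟨a, Finset.mem_filter.2 ⟨ha, h4⟩, rfl⟩
      exact (Finset.card_le_card h2).trans Finset.card_image_le

end S1

end BDG

end FSone

section FMain1

/-!
The main induction.
-/

set_option linter.unusedSectionVars false

namespace BDG
open Module Finset

universe u v w

section num

lemma stepA {q M d N u y a : ℕ} (hq : 2 ≤ q) (hd : 1 ≤ d) (hdq : d < q)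
    (h : u + D q (d - 1) a ≤ N) (hu : D q d y ≤ u) (hR : R M d ≤ u) (hN : N < R (M + 1) d) :
    D q d (y + a) ≤ N := by
  obtain ⟨t, rfl⟩ : ∃ t, d = t + 1 := ⟨d - 1, by omega⟩
  rw [Nat.add_sub_cancel] at h
  rcases Nat.lt_or_ge y (q ^ M) with hy | hy
  · have h1 : R M (t + 1) + D q t a ≤ N := by omega
    have h2 := lt_of_R_add q hq M t a hdq (h1.trans_lt hN)
    have h3 := D_succ_block q hq M t a hdq h2.le
    have h4 : D q (t + 1) (y + a) ≤ D q (t + 1) (q ^ M + a) := D_mono _ _ (by omega)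
    omega
  · obtain ⟨y', rfl⟩ : ∃ y', y = q ^ M + y' := ⟨y - q ^ M, by omega⟩
    have hy' : y' ≤ (q - 1) * q ^ M := by
      by_contra hcon
      push Not at hcon
      have h1 : q ^ (M + 1) = (q - 1) * q ^ M + q ^ M := by
        rw [pow_succ]
        obtain ⟨q', rfl⟩ : ∃ q', q = q' + 1 := ⟨q - 1, by omega⟩
        rw [Nat.add_sub_cancel]; ring
      have h2 := D_mono q (t + 1) (show q ^ (M + 1) ≤ q ^ M + y' by omega)
      rw [D_pow q hdq] at h2
      omega
    have h1 := D_succ_block q hq M t y' hdq hy'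
    have h2 := D_subadd q hq t y' a
    have h3 : R M (t + 1) + D q t (y' + a) ≤ N := by omega
    have h4 := lt_of_R_add q hq M t (y' + a) hdq (h3.trans_lt hN)
    have h5 := D_succ_block q hq M t (y' + a) hdq h4.le
    rw [add_assoc]
    omega

end num

/-- the main inequality -/
def PP (K : Type v) [Field K] (F : Type w) [Field F] [Algebra F K] (q m d : ℕ) : Prop :=
  ∀ (V : Type u) [AddCommGroup V] [Module F V] [Fintype V] [DecidableEq V]
    [FiniteDimensional F V],
    finrank F V = m + 1 → ∀ X : Finset V, IsCone F X → ∀ z, #X = (q - 1) * z → ∀ M,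
    Hs (Lf K F V) X d < R (M + 1) d → D q d (z - pr q M) ≤ Hs (Lf K F V) X d

section main
variable {K : Type v} [Field K] {F : Type w} [Field F] [Algebra F K] [Fintype F]
  [DecidableEq F]

lemma PP_hyper {q m d : ℕ} (h : PP.{u} K F q m d) {V : Type u} [AddCommGroup V] [Module F V]
    [Fintype V] [DecidableEq V] [FiniteDimensional F V] (hV : finrank F V = m + 2)
    {φ : Module.Dual F V} (hφ : φ ≠ 0) {X : Finset V} (hX : IsCone F X) {z : ℕ}
    (hz : #(X.filter fun x => φ x = 0) = (q - 1) * z) (M : ℕ)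
    (hH : Hs (Lf K F V) (X.filter fun x => φ x = 0) d < R (M + 1) d) :
    D q d (z - pr q M) ≤ Hs (Lf K F V) (X.filter fun x => φ x = 0) d := by
  classical
  have h1 := pre_ker_image φ X
  have h2 := Hs_image_inj (K := K) (LinearMap.ker φ).subtype (Submodule.subtype_injective _)
    (pre (LinearMap.ker φ) X) d
  rw [h1] at h2
  rw [← h2] at hH ⊢
  refine h ↥(LinearMap.ker φ) (finrank_ker (m := m + 1) hV hφ) _ (pre_cone _ hX) z ?_ M hH
  rw [← hz, ← h1, Finset.card_image_of_injective _ (Submodule.subtype_injective _)]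

variable {V : Type u} [AddCommGroup V] [Module F V] [Fintype V] [DecidableEq V]
  [FiniteDimensional F V]

lemma split_z {q : ℕ} (hqq : Fintype.card F = q) {X : Finset V} (hX : IsCone F X) {z : ℕ}
    (hz : #X = (q - 1) * z) (φ : Module.Dual F V) :
    ∃ z1, #(X.filter fun x => φ x = 0) = (q - 1) * z1 ∧
      z = z1 + #(X.filter fun x => φ x = 1) := by
  have hq2 : 2 ≤ q := hqq ▸ card_F_ge
  obtain ⟨z1, hz1⟩ := cone_dvd (F := F) _ (X.filter fun x => φ x = 0) le_rfl (hX.filter φ)
  rw [hqq] at hz1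
  have h1 := cone_card hX φ
  rw [hqq] at h1
  refine ⟨z1, hz1, ?_⟩
  have h4 : (q - 1) * z = (q - 1) * (z1 + #(X.filter fun x => φ x = 1)) := by
    rw [mul_add]; omega
  exact Nat.eq_of_mul_eq_mul_left (by omega) h4

lemma PP_triv {q m d : ℕ} (hqq : Fintype.card F = q) (hV : finrank F V = m + 1) {X : Finset V}
    (hX : IsCone F X) {z : ℕ} (hz : #X = (q - 1) * z) {M : ℕ} (hM : m ≤ M) :
    D q d (z - pr q M) ≤ Hs (Lf K F V) X d := by
  have hq2 : 2 ≤ q := hqq ▸ card_F_ge
  have : Nontrivial V := Module.nontrivial_of_finrank_pos (R := F) (by omega)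
  obtain ⟨x, hx⟩ := exists_ne (0 : V)
  obtain ⟨φ, hφx⟩ := exists_dual_ne (F := F) hx
  have hφ : φ ≠ 0 := by rintro rfl; exact hφx rfl
  obtain ⟨z1, hz1, hz2⟩ := split_z hqq hX hz φ
  have h1 := hyper_card_le hqq hV hX.zero hφ
  rw [hz1, ← pr_mul (by omega : 1 ≤ q) m] at h1
  have h2 : z1 ≤ pr q m := Nat.le_of_mul_le_mul_left (by omega) (by omega : 0 < q - 1)
  have h3 := pr_mono q hM
  have h4 := AFV (K := K) φ (X.filter fun x => φ x = 1)
    (fun x hx => (Finset.mem_filter.1 hx).2) d
  rw [hqq] at h4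
  have h5 := Hs_mono (Lf K F V) (Finset.filter_subset (fun x => φ x = 1) X) d
  have h6 : D q d (z - pr q M) ≤ D q d #(X.filter fun x => φ x = 1) := D_mono _ _ (by omega)
  omega

lemma case_fact {q M d : ℕ} (hqq : Fintype.card F = q) (hd : 2 ≤ d) (hdq : d < q)
    (ihd : ∀ d', 1 ≤ d' → d' < d → PP.{u} K F q (M + 1) d')
    (hV : finrank F V = M + 2) {X : Finset V} (hX : IsCone F X) {z : ℕ}
    (hz : #X = (q - 1) * z) (hN2 : Hs (Lf K F V) X d < R (M + 1) d)
    (hB : ∀ ψ : Module.Dual F V, ψ ≠ 0 → Hs (Lf K F V) X d <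
      R M d + Hs (Lf K F V) (X.filter fun x => ψ x = 1) (d - 1))
    {γ : ℕ} {G : V → K} {A : Finset V} (hAX : A ⊆ X) (hF : Fact K (F := F) A d γ G) :
    D q d (z - pr q M) ≤ Hs (Lf K F V) X d := by
  classical
  have hq2 : 2 ≤ q := hqq ▸ card_F_ge
  obtain ⟨hγ, hG, hfac⟩ := hF
  -- `G` is homogeneous
  have hhom : ∀ (t : ℕ) (g : V → K), g ∈ (Lf K F V) ^ t → ∀ (c : F) (x : V),
      g (c • x) = (algebraMap F K c) ^ t * g x := by
    intro t g hg c x
    induction hg using Submodule.pow_induction_on_left' with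
    | algebraMap r => simp
    | add x y i _ _ hx hy => rw [Pi.add_apply, Pi.add_apply, hx, hy, mul_add]
    | mem_mul m hm i x' _ ih =>
      obtain ⟨L, hL⟩ := Lf_linear hm
      rw [Pi.mul_apply, Pi.mul_apply, ih, ← hL, ← hL, map_smul, Algebra.smul_def, pow_succ]
      ring
  -- the vanishing forms
  have hne := Hs_add_ker (K := K) (F := F) X d
  rw [finrank_Lf_pow (K := K) (m := M + 1) hV (by omega)] at hne
  have hne2 : (Lf K F V) ^ d ⊓ LinearMap.ker (res K X).toLinearMap ≠ ⊥ := by
    intro h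
    rw [h, finrank_bot] at hne
    omega
  obtain ⟨g1, hg1, hg10⟩ := Submodule.exists_mem_ne_zero_of_ne_bot hne2
  have hγd : γ ≤ d := by
    rcases hfac d le_rfl g1 hg1.1 (fun a ha => res_eq_zero.1 hg1.2 a (hAX ha)) with h | ⟨h, -⟩
    · exact absurd h hg10
    · exact h
  have hmul : ∀ g ∈ (Lf K F V) ^ d, (∀ x ∈ X, g x = 0) →
      ∃ k ∈ (Lf K F V) ^ (d - γ), g = G * k := by
    intro g hg hgA
    rcases hfac d le_rfl g hg (fun a ha => hgA a (hAX ha)) with h3 | ⟨_, k, hk, hgk⟩
    · exact ⟨0, Submodule.zero_mem _, by rw [h3, mul_zero]⟩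
    · exact ⟨k, hk, hgk⟩
  set Z := X.filter fun x => G x = 0 with hZ
  set X' := X.filter fun x => G x ≠ 0 with hX'
  have hZc : IsCone F Z := by
    refine ⟨fun h => hX.zero (Finset.mem_filter.1 h).1, fun c hc x hx => ?_⟩
    obtain ⟨h1, h2⟩ := Finset.mem_filter.1 hx
    refine Finset.mem_filter.2 ⟨hX.smul c hc x h1, ?_⟩
    rw [hhom γ G hG, h2, mul_zero]
  have hX'c : IsCone F X' := by
    refine ⟨fun h => hX.zero (Finset.mem_filter.1 h).1, fun c hc x hx => ?_⟩
    obtain ⟨h1, h2⟩ := Finset.mem_filter.1 hx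
    refine Finset.mem_filter.2 ⟨hX.smul c hc x h1, ?_⟩
    rw [hhom γ G hG]
    exact mul_ne_zero (pow_ne_zero _ (by rwa [Ne, map_eq_zero])) h2
  have hcard : #Z + #X' = #X := Finset.card_filter_add_card_filter_not _
  have hmain := Hs_ge_of_mul (K := K) (m := M + 1) hV (t := d) (γ := γ) (by omega) X X' G
    (fun x hx => Finset.mem_filter.1 hx) hmul
  -- the zero set is small
  have hZs : #Z ≤ (q - 1) * γ * q ^ M := by
    rw [← hqq]
    refine NL (K := K) (F := F) γ hγ (by omega) M V hV Z hZc ?_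
    intro ψ hψ
    by_contra hcon
    push Not at hcon
    set H := (univ : Finset V).filter fun x => ψ x = 0 with hH
    have hsub : Z.filter (fun x => ψ x = 0) ⊆ H :=
      fun x hx => Finset.mem_filter.2 ⟨Finset.mem_univ _, (Finset.mem_filter.1 hx).2⟩
    have hupper : Hs (Lf K F V) H γ ≤ R M γ := by
      have h1 := pre_ker_image ψ (univ : Finset V)
      have h2 := Hs_image_inj (K := K) (LinearMap.ker ψ).subtype (Submodule.subtype_injective _)
        (pre (LinearMap.ker ψ) univ) γ
      rw [h1, ← hH] at h2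
      rw [← h2]
      exact (Submodule.finrank_map_le _ _).trans
        (finrank_Lf_pow_le (finrank_ker (m := M + 1) hV hψ) γ)
    have hk1 := Hs_add_ker (K := K) (F := F) (Z.filter fun x => ψ x = 0) γ
    have hk2 := Hs_add_ker (K := K) (F := F) H γ
    have hle : (Lf K F V) ^ γ ⊓ LinearMap.ker (res K H).toLinearMap ≤
        (Lf K F V) ^ γ ⊓ LinearMap.ker (res K (Z.filter fun x => ψ x = 0)).toLinearMap := by
      rintro g ⟨hg1, hg2⟩
      refine ⟨hg1, ?_⟩
      have hg2' : res K H g = 0 := hg2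
      show res K _ g = 0
      rw [res_eq_zero] at hg2' ⊢
      intro x hx
      exact hg2' x (hsub hx)
    have hfd : FiniteDimensional K ↥((Lf K F V) ^ γ) := fd_pow _ _
    have hfd2 : FiniteDimensional K ↥((Lf K F V) ^ γ ⊓
        LinearMap.ker (res K (Z.filter fun x => ψ x = 0)).toLinearMap) :=
      Submodule.finiteDimensional_inf_left _ _
    have heq := Submodule.eq_of_le_of_finrank_le hle (by omega)
    have hGH : ∀ v, ψ v = 0 → G v = 0 := by
      have h1 : G ∈ (Lf K F V) ^ γ ⊓
          LinearMap.ker (res K (Z.filter fun x => ψ x = 0)).toLinearMap := by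
        refine ⟨hG, ?_⟩
        show res K _ G = 0
        rw [res_eq_zero]
        intro x hx
        exact (Finset.mem_filter.1 (Finset.mem_filter.1 hx).1).2
      rw [← heq] at h1
      have h2 : res K H G = 0 := h1.2
      rw [res_eq_zero] at h2
      intro v hv
      exact h2 v (Finset.mem_filter.2 ⟨Finset.mem_univ _, hv⟩)
    have h3 := Hs_ge_of_vanish (K := K) (m := M) hV hψ (t := d - 1) (by omega) X (by
      rw [Nat.sub_add_cancel (by omega)]
      intro g hg hgX v hv
      obtain ⟨k, _, hk⟩ := hmul g hg hgX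
      rw [hk, Pi.mul_apply, hGH v hv, zero_mul])
    rw [Nat.sub_add_cancel (by omega)] at h3
    have h4 := hB ψ hψ
    omega
  obtain ⟨zZ, hzZ⟩ := cone_dvd (F := F) _ Z le_rfl hZc
  obtain ⟨z', hz'⟩ := cone_dvd (F := F) _ X' le_rfl hX'c
  rw [hqq] at hzZ hz'
  have hzz : z = zZ + z' := by
    have : (q - 1) * z = (q - 1) * (zZ + z') := by rw [mul_add]; omega
    exact Nat.eq_of_mul_eq_mul_left (by omega) this
  have hzZ' : zZ ≤ γ * q ^ M := by
    rw [hzZ, mul_assoc] at hZs
    exact Nat.le_of_mul_le_mul_left hZs (by omega)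
  have hX'lt : Hs (Lf K F V) X' (d - γ) < R (M + 1) (d - γ) := by omega
  have hX'D : D q (d - γ) (z' - pr q M) ≤ Hs (Lf K F V) X' (d - γ) := by
    rcases Nat.eq_or_lt_of_le hγd with h | h
    · -- `γ = d`
      have h1 : d - γ = 0 := by omega
      rw [h1, R_zero'] at hX'lt
      have h2 : X' = ∅ := by
        rw [Finset.eq_empty_iff_forall_notMem]
        intro x hx
        have hx0 : x ≠ 0 := fun h0 => hX'c.zero (h0 ▸ hx)
        have := Hs_pos (K := K) (F := F) X' 0 hx hx0
        omega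
      rw [h2, Finset.card_empty] at hz'
      rcases Nat.mul_eq_zero.1 hz'.symm with h3 | h3
      · omega
      · rw [h3, Nat.zero_sub, D_zero']; exact Nat.zero_le _
    · exact ihd (d - γ) (by omega) (by omega) V hV X' hX'c z' hz' M hX'lt
  -- conclusion
  have hblk := D_block_val q hq2 M γ d (by omega) hγd
  have htel : ∀ g ≤ d, ∑ i ∈ range g, R M (d - i) + R (M + 1) (d - g) = R (M + 1) d := by
    intro g
    induction g with
    | zero => intro _; simp
    | succ g ihg =>
      intro hg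
      have h1 := ihg (by omega)
      have h2 := R_succ M (d - (g + 1))
      rw [show d - (g + 1) + 1 = d - g by omega] at h2
      rw [Finset.sum_range_succ]
      omega
  have h1 := htel γ hγd
  have h2 : z' - pr q M ≤ (d - γ) * q ^ M := by
    by_contra hcon
    push Not at hcon
    have h3 : (d - γ) * q ^ M + 1 ≤ q ^ (M + 1) := by
      have h4 : (d - γ + 1) ≤ q := by omega
      have h5 : (d - γ + 1) * q ^ M ≤ q * q ^ M := Nat.mul_le_mul_right _ h4
      have h6 : 1 ≤ q ^ M := Nat.one_le_pow _ _ (by omega)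
      have h7 : (d - γ + 1) * q ^ M = (d - γ) * q ^ M + q ^ M := by ring
      rw [pow_succ, mul_comm (q ^ M) q]
      omega
    have h4 := D_top q (t := d - γ) (by omega) M ((d - γ) * q ^ M + 1) (by omega) h3
    have h5 := D_mono q (d - γ) (show (d - γ) * q ^ M + 1 ≤ z' - pr q M by omega)
    omega
  have h3 : (d - γ) * q ^ M ≤ (q - γ) * q ^ M := Nat.mul_le_mul_right _ (by omega)
  have h4 := D_block q hq2 M γ d (z' - pr q M) hγd (by omega) (by omega)
  have h5 : D q d (z - pr q M) ≤ D q d (γ * q ^ M + (z' - pr q M)) := D_mono _ _ (by omega)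
  omega

end main

end BDG

end FMain1

section FMain2

/-!
The main induction, second part.
-/

set_option linter.unusedSectionVars false

namespace BDG
open Module Finset

universe u v w

section main
variable {K : Type v} [Field K] {F : Type w} [Field F] [Algebra F K] [Fintype F]
  [DecidableEq F]
variable {V : Type u} [AddCommGroup V] [Module F V] [Fintype V] [DecidableEq V]
  [FiniteDimensional F V]

lemma case_big {q m M d : ℕ} (hqq : Fintype.card F = q) (hq4 : 4 ≤ q) (hd : 2 ≤ d) (hdq : d < q)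
    (hMm : M < m)
    (ih : PP.{u} K F q m d) (hV : finrank F V = m + 2) {X : Finset V} (hX : IsCone F X) {z : ℕ}
    (hz : #X = (q - 1) * z) {f : ℕ} (hf : D q d f = Hs (Lf K F V) X d) (hfd : ds q f ≤ d)
    (hfz : pr q M + f + 1 ≤ z) (hf1 : 2 * q ^ M ≤ f) (hf2 : f + 1 ≤ (q - 1) * q ^ M)
    (hN2 : Hs (Lf K F V) X d < R (M + 1) d) : False := by
  classical
  have hq2 : 2 ≤ q := by omega
  obtain ⟨v, hv⟩ : ∃ v, v = pr q M + f + 1 := ⟨_, rfl⟩
  obtain ⟨Y, hYX, hY, hYc⟩ := sub_cone (F := F) hqq v (z - v) X (by rw [hz]; congr 1; omega) hX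
  have hHY : Hs (Lf K F V) Y d ≤ Hs (Lf K F V) X d := Hs_mono _ hYX d
  have hr := pr_mul (by omega : 1 ≤ q) M
  have hpr1 : pr q (M + 1) = pr q M + q ^ M := N2.pr_succ q M
  have hnum : (q - 1) * (v * (v - 1)) < (pr q (m + 1 + 1) - v) * (v + 1 - pr q (M + 1)) := by
    have h1 := single_num (q := q) (Q := q ^ M) (r := pr q M) (f := f + 1) (pm := pr q (m + 1 + 1))
      hq4 hr (by omega) hf2 (by
        have h2 : pr q (M + 3) ≤ pr q (m + 1 + 1) := pr_mono q (by omega)
        refine le_trans (le_of_eq ?_) h2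
        rw [N2.pr_succ, N2.pr_succ, N2.pr_succ, pow_succ, pow_succ, pow_succ]
        ring)
    rw [hpr1, hv, add_assoc (pr q M) f 1]
    exact h1
  obtain ⟨p, hp0, hpY, hsing⟩ := exists_single (F := F) hqq (m := m + 1) hV hY hYc hnum
  have : Finite (V ⧸ Submodule.span F {p}) := Quotient.finite _
  let hfin : Fintype (V ⧸ Submodule.span F {p}) := Fintype.ofFinite _
  have hW : finrank F (V ⧸ Submodule.span F {p}) = m + 1 :=
    finrank_quot (n := m + 1) (by rw [hV]) hp0
  have hsing' := hsing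
  clear hsing
  obtain ⟨π, hπ⟩ : ∃ π, π = Submodule.mkQ (Submodule.span F {p}) := ⟨_, rfl⟩
  rw [← hπ] at hsing'
  have hk : LinearMap.ker π = Submodule.span F {p} := by rw [hπ]; exact Submodule.ker_mkQ _
  have hproj := proj_ge (K := K) hp0 hk Y d
  have hsum := sum_Yk hk Y
  rw [hqq] at hsum
  have hcone : ∀ k, IsCone F (Yk π Y k) := fun k => Yk_cone hk hY hpY k
  have hzk : ∀ k, ∃ zk, #(Yk π Y k) = (q - 1) * zk := by
    intro k
    obtain ⟨zk, hzk⟩ := cone_dvd (F := F) _ (Yk π Y k) le_rfl (hcone k)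
    rw [hqq] at hzk
    exact ⟨zk, hzk⟩
  choose y hy using hzk
  have hq1 : 0 < q - 1 := by omega
  have hysum : ∑ k ∈ range q, y k = v := by
    have h1 : (q - 1) * ∑ k ∈ range q, y k = (q - 1) * v := by
      rw [Finset.mul_sum, ← hYc, ← hsum]
      exact Finset.sum_congr rfl fun k _ => (hy k).symm
    exact Nat.eq_of_mul_eq_mul_left hq1 h1
  have hyanti : Antitone y := by
    intro a b hab
    have h1 : #(Yk π Y b) ≤ #(Yk π Y a) := Yk_anti π Y hab
    rw [hy a, hy b] at h1
    exact Nat.le_of_mul_le_mul_left h1 hq1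
  have h01 : y 1 + pr q (M + 1) ≤ y 0 := by
    rw [hy 0, hy 1, ← mul_add] at hsing'
    exact Nat.le_of_mul_le_mul_left hsing' hq1
  obtain ⟨t, ht⟩ : ∃ t, d = t + 1 := ⟨d - 1, by omega⟩
  subst ht
  -- first layer
  have hH0 : Hs (Lf K F (V ⧸ Submodule.span F {p})) (Yk π Y 0) (t + 1) ≤
      Hs (Lf K F V) Y (t + 1) := by
    refine le_trans ?_ hproj
    exact Finset.single_le_sum (f := fun k => Hs (Lf K F (V ⧸ Submodule.span F {p}))
      (Yk π Y k) (t + 1 - k)) (fun _ _ => Nat.zero_le _) (Finset.mem_range.2 (by omega))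
  have hI := ih (V ⧸ Submodule.span F {p}) hW (Yk π Y 0) (hcone 0) (y 0) (hy 0) M (by omega)
  obtain ⟨x0, hx0⟩ : ∃ x0, y 0 = pr q (M + 1) + x0 := ⟨y 0 - pr q (M + 1), by omega⟩
  have hI' : R M (t + 1) + D q t x0 ≤
      Hs (Lf K F (V ⧸ Submodule.span F {p})) (Yk π Y 0) (t + 1) := by
    have h1 : y 0 - pr q M = q ^ M + x0 := by omega
    rw [h1] at hI
    have hx0' : x0 ≤ (q - 1) * q ^ M := by
      by_contra hcon
      push Not at hcon
      have h1 : q ^ (M + 1) = (q - 1) * q ^ M + q ^ M := by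
        rw [pow_succ]
        obtain ⟨q', rfl⟩ : ∃ q', q = q' + 1 := ⟨q - 1, by omega⟩
        rw [Nat.add_sub_cancel]; ring
      have h2 := D_mono q (t + 1) (show q ^ (M + 1) ≤ q ^ M + x0 by omega)
      rw [D_pow q hdq] at h2
      omega
    rw [D_succ_block q hq2 M t x0 hdq hx0'] at hI
    exact hI
  -- all layers
  set x : ℕ → ℕ := fun k => if k = 0 then x0 else y k with hx
  have hxanti : Antitone x := by
    refine antitone_nat_of_succ_le fun k => ?_
    simp only [hx]
    rw [if_neg (Nat.succ_ne_zero k)]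
    split_ifs with h
    · have : y (k + 1) ≤ y 1 := hyanti (by omega)
      omega
    · exact hyanti (Nat.le_succ k)
  have hlay := D_layers q hq2 (t := t) (by omega) x hxanti
  have hxsum : ∑ k ∈ range q, x k + pr q (M + 1) = v := by
    rw [← hysum]
    obtain ⟨q', rfl⟩ : ∃ q', q = q' + 1 := ⟨q - 1, by omega⟩
    rw [Finset.sum_range_succ', Finset.sum_range_succ']
    have h6 : ∑ i ∈ range q', x (i + 1) = ∑ i ∈ range q', y (i + 1) :=
      Finset.sum_congr rfl fun i _ => by simp [hx]
    have h7 : x 0 = x0 := by simp [hx]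
    rw [h6, h7]
    omega
  have hxsum' : ∑ k ∈ range q, x k = f + 1 - q ^ M := by omega
  have hbound : R M (t + 1) + ∑ i ∈ range (t + 1), D q (t - i) (x i) ≤
      Hs (Lf K F V) Y (t + 1) := by
    refine le_trans ?_ hproj
    rw [Finset.sum_range_succ', Finset.sum_range_succ']
    have h7 : x 0 = x0 := by simp [hx]
    rw [h7, Nat.sub_zero, Nat.sub_zero]
    have h8 : ∑ k ∈ range t, D q (t - (k + 1)) (x (k + 1)) ≤
        ∑ k ∈ range (t + 1), Hs (Lf K F (V ⧸ Submodule.span F {p})) (Yk π Y (k + 1))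
          (t + 1 - (k + 1)) := by
      refine le_trans ?_ (Finset.sum_le_sum_of_subset (fun k hk => by
        rw [Finset.mem_range] at *; omega : range t ⊆ range (t + 1)))
      refine Finset.sum_le_sum fun k hk => ?_
      rw [Finset.mem_range] at hk
      have h9 := proj_bound (K := K) hqq (t - (k + 1)) _ (Yk π Y (k + 1)) le_rfl (hcone _)
        (y (k + 1)) (hy _)
      have h10 : x (k + 1) = y (k + 1) := by simp [hx]
      rw [h10, show t + 1 - (k + 1) = t - (k + 1) + 1 by omega]
      exact h9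
    omega
  rw [hxsum'] at hlay
  have h1 : R M (t + 1) + D q t (f + 1 - q ^ M) ≤ Hs (Lf K F V) X (t + 1) := by omega
  have h2 := lt_of_R_add q hq2 M t _ hdq (h1.trans_lt hN2)
  have h3 := D_succ_block q hq2 M t _ hdq h2.le
  have h4 : q ^ M + (f + 1 - q ^ M) = f + 1 := by omega
  rw [h4] at h3
  have h5 : D q (t + 1) f < D q (t + 1) (f + 1) := D_lt' hfd (Nat.lt_succ_self f)
  omega

variable [Infinite K]

theorem core {q m d M : ℕ} (hqq : Fintype.card F = q) (hd : 2 ≤ d) (hdq : d < q) (hM : 1 ≤ M)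
    (hMm : M ≤ m) (ih : PP.{u} K F q m d)
    (ihd : ∀ d', 1 ≤ d' → d' < d → PP.{u} K F q (m + 1) d')
    (hV : finrank F V = m + 2) {X : Finset V} (hX : IsCone F X) {z : ℕ}
    (hz : #X = (q - 1) * z) (hN1 : R M d ≤ Hs (Lf K F V) X d)
    (hN2 : Hs (Lf K F V) X d < R (M + 1) d) : D q d (z - pr q M) ≤ Hs (Lf K F V) X d := by
  classical
  have hq2 : 2 ≤ q := hqq ▸ card_F_ge
  by_contra hcon
  have hcon' := hcon
  push Not at hcon
  obtain ⟨f, hf, hfd⟩ := exists_f hq2 (show 1 ≤ d by omega) (Hs (Lf K F V) X d)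
  have hfz : pr q M + f + 1 ≤ z := by
    by_contra h
    have h1 : z - pr q M ≤ f := by omega
    have h2 := D_mono q d h1
    omega
  have hf1 : q ^ M ≤ f := le_of_D_le hfd (by rw [D_pow q hdq, hf]; exact hN1)
  have hf2 : f < q ^ (M + 1) := by
    by_contra h
    push Not at h
    have h2 := D_mono q d h
    rw [D_pow q hdq] at h2
    omega
  -- Step A
  have hB : ∀ ψ : Module.Dual F V, ψ ≠ 0 → Hs (Lf K F V) X d <
      R M d + Hs (Lf K F V) (X.filter fun x => ψ x = 1) (d - 1) := by
    intro ψ hψ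
    by_contra h
    push Not at h
    obtain ⟨z1, hz1, hz2⟩ := split_z hqq hX hz ψ
    have h1 := hyp_split (K := K) X ψ (d - 1)
    rw [Nat.sub_add_cancel (by omega)] at h1
    have h2 := PP_hyper ih hV hψ hX hz1 M (by omega)
    have h3 := AFV (K := K) ψ (X.filter fun x => ψ x = 1)
      (fun x hx => (Finset.mem_filter.1 hx).2) (d - 1)
    rw [hqq] at h3
    have h4 := stepA (q := q) (M := M) (d := d) (N := Hs (Lf K F V) X d)
      (u := Hs (Lf K F V) X d - Hs (Lf K F V) (X.filter fun x => ψ x = 1) (d - 1))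
      (y := z1 - pr q M) (a := #(X.filter fun x => ψ x = 1)) hq2 (by omega) hdq
      (by omega) (by omega) (by omega) hN2
    have h5 := D_mono q d (show z - pr q M ≤ z1 - pr q M + #(X.filter fun x => ψ x = 1) by omega)
    omega
  -- Step B
  obtain ⟨φ, hφ, zφ, hzφ, hza, hzq⟩ := exists_max hqq (m := m + 1) (by omega) hV hX hz
  set A := X.filter fun x => φ x = 1 with hA
  have hAφ : ∀ x ∈ A, φ x = 1 := fun x hx => (Finset.mem_filter.1 hx).2
  have hAX : A ⊆ X := Finset.filter_subset _ _
  have hsplit := hyp_split (K := K) X φ (d - 1)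
  rw [Nat.sub_add_cancel (by omega), ← hA] at hsplit
  have hBφ := hB φ hφ
  rw [← hA] at hBφ
  obtain ⟨G, hG, hGd⟩ := exists_f hq2 (show 1 ≤ d - 1 by omega) (Hs (Lf K F V) A (d - 1))
  have haG : #A ≤ G := by
    have h1 := AFV (K := K) φ A hAφ (d - 1)
    rw [hqq, ← hG] at h1
    exact le_of_D_le hGd h1
  have hpp := PP_hyper ih hV hφ hX hzφ (M - 1) (by
    rw [Nat.sub_add_cancel hM]; omega)
  have hNUM := NUM q M d (Hs (Lf K F V) X d)
    (Hs (Lf K F V) X d - Hs (Lf K F V) A (d - 1)) zφ #A f G hd hdq hM hf hfd hf1 hf2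
    (by omega) (Nat.sub_le _ _) (by omega) (by rw [hG]; omega) hGd (by omega) (by omega) haG
  obtain ⟨hc1, hc2, hGA⟩ := hNUM
  have hQ : 0 < q ^ M := Nat.pow_pos (by omega)
  have hG1 : q ^ M ≤ G := by
    have h1 : 1 ≤ f / q ^ M := Nat.div_pos hf1 hQ
    rw [← hc1] at h1
    by_contra h
    push Not at h
    rw [Nat.div_eq_of_lt h] at h1
    omega
  have hG2 : G < q ^ (M + 1) := by
    have h1 : G / q ^ M < q := by rw [hc1]; omega
    rw [Nat.div_lt_iff_lt_mul hQ] at h1
    rw [pow_succ, mul_comm]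
    exact h1
  rcases Nat.eq_or_lt_of_le hMm with hMe | hMl
  · -- dimension `M + 2`
    subst hMe
    obtain ⟨b, hb⟩ := exists_basis_coord hV hφ
    have hHA : Hs (Lf K F V) A d < R (M + 1) d := (Hs_mono _ hAX d).trans_lt hN2
    rcases dichotomy (K := K) b A (by rw [hb]; exact hAφ) le_rfl (by rw [hqq]; exact hdq) hHA with
      ⟨A', hA'c, hA'H, hgood⟩ | ⟨γ, G0, hfac⟩
    · have h1 := good_bound (by omega : 1 ≤ d) (by rw [hqq]; exact hdq) (M := M) hM A' hgood G
        (by rw [hqq, hG, hA'H]) (by rw [hqq]; exact hGd) (by rw [hqq]; exact hG1)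
        (by rw [hqq]; exact hG2)
      rw [hqq, hc1, hA'c] at h1
      omega
    · exact hcon' (case_fact hqq hd hdq ihd hV hX hz hN2 hB hAX hfac)
  · -- larger dimension
    have hc0 : 1 ≤ f / q ^ M := Nat.div_pos hf1 hQ
    rcases Nat.eq_or_lt_of_le hc0 with hce | hcl
    · -- `c = 1`
      rw [← hce] at hGA hc1
      have hG3 : G < 2 * q ^ M := by
        have h1 : G / q ^ M < 2 := by rw [hc1]; omega
        rwa [Nat.div_lt_iff_lt_mul hQ] at h1
      rcases Nat.eq_or_lt_of_le hM with hM1 | hM2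
      · subst hM1
        unfold theta at hGA
        rw [if_pos (by omega)] at hGA
        omega
      · unfold theta at hGA
        rw [if_neg (by omega)] at hGA
        simp only [Nat.sub_self, zero_mul, zero_add] at hGA
        obtain ⟨ψ, hψ, hψc⟩ := Sone (K := K) hqq hM2 (by omega : 1 ≤ d) hdq (m - M) V
          (by rw [hV]; omega) φ A hAφ G hG hGd hG1 hG3 hGA
        have h1 := hB ψ hψ
        have h2 := hyp_split (K := K) X ψ (d - 1)
        rw [Nat.sub_add_cancel (by omega)] at h2
        have h3 : Hs (Lf K F V) (A.filter fun x => ψ x = 0) d ≤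
            Hs (Lf K F V) (X.filter fun x => ψ x = 0) d :=
          Hs_mono _ (Finset.filter_subset_filter _ hAX) d
        have h4 := AFV (K := K) φ (A.filter fun x => ψ x = 0)
          (fun x hx => hAφ x (Finset.mem_filter.1 hx).1) d
        rw [hqq] at h4
        obtain ⟨M', rfl⟩ : ∃ M', M = M' + 2 := ⟨M - 2, by omega⟩
        rw [show M' + 2 - 2 = M' by omega] at hψc
        have h5 : d * q ^ (M' + 1) < #(A.filter fun x => ψ x = 0) := by
          have hp1 : 1 ≤ q ^ M' := Nat.pow_pos (by omega)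
          have e1 : q ^ (M' + 2) = q ^ M' * (q * q) := by rw [pow_add]; ring
          have e2 : q ^ (M' + 1) = q ^ M' * q := by rw [pow_succ]
          rw [e1] at hψc
          rw [e2]
          have h6 : d * (q ^ M' * q) + (d - 1) * q ^ M' ≤ q ^ M' * (q * q) := by
            have h7 : d * q + (d - 1) ≤ q * q := by
              have e3 : (d + 1) * q = d * q + q := by ring
              have e4 : (d + 1) * q ≤ q * q := Nat.mul_le_mul_right _ (by omega)
              omega
            calc d * (q ^ M' * q) + (d - 1) * q ^ M' = q ^ M' * (d * q + (d - 1)) := by ring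
              _ ≤ _ := Nat.mul_le_mul_left _ h7
          omega
        have h6 : R (M' + 2) d ≤ D q d #(A.filter fun x => ψ x = 0) := by
          rcases Nat.le_total #(A.filter fun x => ψ x = 0) (q ^ (M' + 2)) with h7 | h7
          · rw [D_top q hdq (M' + 1) _ h5 h7]
          · have := D_mono q d h7
            rwa [D_pow q hdq] at this
        omega
    · -- `2 ≤ c ≤ d - 1`
      have hcq : f < (f / q ^ M + 1) * q ^ M := Nat.lt_mul_of_div_lt (Nat.lt_succ_self _) hQ
      have h1 : (f / q ^ M + 1) * q ^ M ≤ (q - 1) * q ^ M := Nat.mul_le_mul_right _ (by omega)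
      have h2 : f / q ^ M * q ^ M ≤ f := Nat.div_mul_le_self _ _
      have h3 : 2 * q ^ M ≤ f / q ^ M * q ^ M := Nat.mul_le_mul_right _ hcl
      exact case_big hqq (by omega) hd hdq hMl ih hV hX hz hf hfd hfz (by omega) (by omega) hN2

/-- the main inequality -/
theorem main_ineq {q : ℕ} (hqq : Fintype.card F = q) (m : ℕ) : ∀ d, 1 ≤ d → d < q →
    PP.{u} K F q m d := by
  have hq2 : 2 ≤ q := hqq ▸ card_F_ge
  induction m with
  | zero =>
    intro d hd hdq V _ _ _ _ _ hV X hX z hz M _
    exact PP_triv hqq hV hX hz (Nat.zero_le M)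
  | succ m ih =>
    intro d
    induction d using Nat.strong_induction_on with
    | _ d ihd =>
      intro hd hdq V _ _ _ _ _ hV X hX z hz M
      induction M with
      | zero =>
        intro hN
        have h1 := small_ge (K := K) hqq _ X le_rfl hX z hz d
        have h2 : R (0 + 1) d = d + 1 := by
          unfold R
          rw [zero_add, add_comm 1 d, Nat.choose_succ_self_right]
        have h3 : z ≤ Hs (Lf K F V) X d := by omega
        have h4 : D q d (z - pr q 0) ≤ z := by
          have := D_add_le q d 0 z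
          rw [zero_add, D_zero', zero_add] at this
          simpa [pr] using this
        omega
      | succ M ihM =>
        intro hN
        rcases Nat.lt_or_ge (Hs (Lf K F V) X d) (R (M + 1) d) with h | h
        · refine le_trans (D_mono q d ?_) (ihM h)
          have := pr_mono q (show M ≤ M + 1 by omega)
          omega
        rcases Nat.lt_or_ge m (M + 1) with hm | hm
        · exact PP_triv hqq hV hX hz (by omega)
        rcases Nat.eq_or_lt_of_le hd with hd1 | hd2
        · -- degree one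
          subst hd1
          have h1 := rank_one (K := K) hqq _ X le_rfl hX
          have h2 : R (M + 1) 1 = M + 2 := by simp [R]
          have h3 : R (M + 1 + 1) 1 = M + 3 := by simp [R]
          have h4 : Hs (Lf K F V) X 1 = M + 2 := by omega
          rw [h4, hz, ← pr_mul (by omega : 1 ≤ q) (M + 2)] at h1
          have h5 : z ≤ pr q (M + 2) :=
            Nat.le_of_mul_le_mul_left (by omega) (by omega : 0 < q - 1)
          have h6 : pr q (M + 2) = pr q (M + 1) + q ^ (M + 1) := N2.pr_succ q (M + 1)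
          have h7 := D_mono q 1 (show z - pr q (M + 1) ≤ q ^ (M + 1) by omega)
          rw [D_pow q (by omega)] at h7
          omega
        · exact core hqq hd2 hdq (by omega) hm (ih d hd hdq)
            (fun d' h1 h2 => ihd d' h2 h1 (by omega)) hV hX hz h hN

end main

end BDG

end FMain2
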