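import Mathlib
import Pool.Agent.helper88.BDG.N1
import Pool.Agent.helper88.BDG.N2

/-!
Module T of MP_c5c754_ag: Macaulay tuples (pure numbers).  Written by helper94.
-/

set_option autoImplicit false

namespace BDG
open Finset Module

/-- `s d > ... > s 1` is the Macaulay expansion of `N` -/
def IsMac (d N : ℕ) (s : ℕ → ℕ) : Prop :=
  (∀ a, 1 ≤ a → a < d → s a < s (a + 1)) ∧ ∑ a ∈ Icc 1 d, (s a).choose a = N

/-- `p_{m_d} + Σ_{1 ≤ a < d} ⌊q^{m_a}⌋` with `m_a = s a - a` -/
def Lval (q d : ℕ) (s : ℕ → ℕ) : ℕ :=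
  (∑ j ∈ range (s d + 1 - d), q ^ j) + ∑ a ∈ Ico 1 d, (if a ≤ s a then q ^ (s a - a) else 0)

/-! ## existence -/

theorem T_exists_max (d N : ℕ) : ∃ S : ℕ, S.choose (d + 1) ≤ N ∧ N < (S + 1).choose (d + 1) := by
  classical
  have hex : ∃ n : ℕ, N < (n + 1).choose (d + 1) := by
    refine ⟨N + d, ?_⟩
    have h1 : ∀ n : ℕ, n < (n + d + 1).choose (d + 1) := by
      intro n
      induction n with
      | zero => simp
      | succ n ih =>
        have h2 : n + 1 + d + 1 = (n + d + 1) + 1 := by omega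
        rw [h2, Nat.choose_succ_succ']
        have h3 : 0 < (n + d + 1).choose d := Nat.choose_pos (by omega)
        omega
    exact h1 N
  refine ⟨Nat.find hex, ?_, Nat.find_spec hex⟩
  rcases Nat.eq_zero_or_pos (Nat.find hex) with h0 | h0
  · rw [h0]
    simp
  · have h1 := Nat.find_min hex (Nat.sub_lt h0 one_pos)
    have h2 : Nat.find hex - 1 + 1 = Nat.find hex := Nat.sub_add_cancel h0
    rw [h2] at h1
    omega

/-- every `N` has a Macaulay expansion -/
theorem exists_mac (d N : ℕ) (hd : 1 ≤ d) : ∃ s, IsMac d N s := by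
  induction d, hd using Nat.le_induction generalizing N with
  | base =>
    refine ⟨fun _ => N, ?_, ?_⟩
    · intro a h1 h2; omega
    · simp
  | succ d hd ih =>
    obtain ⟨S, hS1, hS2⟩ := T_exists_max d N
    obtain ⟨s, hs1, hs2⟩ := ih (N - S.choose (d + 1))
    rw [Nat.choose_succ_succ'] at hS2
    have hlt : s d < S := by
      by_contra hcon
      push Not at hcon
      have h1 : S.choose d ≤ (s d).choose d := Nat.choose_le_choose d hcon
      have h2 : (s d).choose d ≤ ∑ a ∈ Icc 1 d, (s a).choose a :=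
        Finset.single_le_sum (f := fun a => (s a).choose a) (fun _ _ => Nat.zero_le _)
          (Finset.mem_Icc.2 ⟨hd, le_refl d⟩)
      omega
    refine ⟨fun a => if a = d + 1 then S else s a, ?_, ?_⟩
    · intro a h1 h2
      have hne : a ≠ d + 1 := by omega
      simp only [if_neg hne]
      by_cases h3 : a + 1 = d + 1
      · have h4 : a = d := by omega
        subst h4
        simp only [if_true]
        exact hlt
      · simp only [if_neg h3]
        exact hs1 a h1 (by omega)
    · rw [Finset.sum_Icc_succ_top (by omega)]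
      have h1 : ∑ a ∈ Icc 1 d, ((if a = d + 1 then S else s a).choose a)
          = ∑ a ∈ Icc 1 d, (s a).choose a := by
        refine Finset.sum_congr rfl ?_
        intro a ha
        rw [Finset.mem_Icc] at ha
        have hne : a ≠ d + 1 := by omega
        rw [if_neg hne]
      rw [h1, hs2]
      simp only [if_true]
      omega

/-! ## digit sums -/

theorem T_ds_add_pow {q : ℕ} (hq : 2 ≤ q) (m : ℕ) : ∀ x, ds q (x + q ^ m) ≤ ds q x + 1 := by
  induction m with
  | zero =>
    intro x
    induction x using Nat.strong_induction_on with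
    | _ x ih =>
      rw [pow_zero]
      have hq0 : 0 < q := by omega
      have h1 := ds_eq hq x
      have h2 := ds_eq hq (x + 1)
      have hdm := Nat.div_add_mod x q
      have hlt := Nat.mod_lt x hq0
      by_cases h : x % q + 1 < q
      · have e : x + 1 = q * (x / q) + (x % q + 1) := by omega
        have e1 : (x + 1) / q = x / q := by
          rw [e, Nat.mul_add_div hq0, Nat.div_eq_of_lt h, Nat.add_zero]
        have e2 : (x + 1) % q = x % q + 1 := by
          rw [e, Nat.mul_add_mod, Nat.mod_eq_of_lt h]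
        rw [e1, e2] at h2
        omega
      · have e : x + 1 = q * (x / q + 1) := by
          rw [Nat.mul_add, Nat.mul_one]; omega
        have e1 : (x + 1) / q = x / q + 1 := by
          rw [e, Nat.mul_div_cancel_left _ hq0]
        have e2 : (x + 1) % q = 0 := by
          rw [e, Nat.mul_mod_right]
        rw [e1, e2] at h2
        have hxpos : 0 < x := by
          by_contra h0
          have : x = 0 := by omega
          subst this
          simp at h
          omega
        have h3 := ih (x / q) (Nat.div_lt_self hxpos (by omega))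
        rw [pow_zero] at h3
        omega
  | succ m ih =>
    intro x
    have hq0 : 0 < q := by omega
    have h1 := ds_eq hq x
    have h2 := ds_eq hq (x + q ^ (m + 1))
    have e1 : (x + q ^ (m + 1)) / q = x / q + q ^ m := by
      rw [pow_succ, Nat.add_mul_div_right _ _ hq0]
    have e2 : (x + q ^ (m + 1)) % q = x % q := by
      rw [pow_succ, Nat.add_mul_mod_self_right]
    rw [e1, e2] at h2
    have h3 := ih (x / q)
    omega

/-! ## the number `F` -/

/-- `Σ_{a=1}^d ⌊q^{s a - a}⌋` -/
def FF (q d : ℕ) (s : ℕ → ℕ) : ℕ := ∑ a ∈ Icc 1 d, (if a ≤ s a then q ^ (s a - a) else 0)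

theorem FF_zero (q : ℕ) (s : ℕ → ℕ) : FF q 0 s = 0 := by simp [FF]

theorem FF_succ (q d : ℕ) (s : ℕ → ℕ) :
    FF q (d + 1) s = FF q d s + (if d + 1 ≤ s (d + 1) then q ^ (s (d + 1) - (d + 1)) else 0) := by
  unfold FF
  rw [Finset.sum_Icc_succ_top (by omega)]

theorem T_mono {d : ℕ} {s : ℕ → ℕ} (hs : ∀ a, 1 ≤ a → a < d → s a < s (a + 1)) {a : ℕ}
    (h1 : 1 ≤ a) (h2 : a ≤ d) : s a + d ≤ s d + a := by
  obtain ⟨k, rfl⟩ : ∃ k, d = a + k := ⟨d - a, by omega⟩
  clear h2
  induction k with
  | zero => simp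
  | succ k ih =>
    have h3 := ih (fun b hb1 hb2 => hs b hb1 (by omega))
    have h4 := hs (a + k) (by omega) (by omega)
    have h5 : a + (k + 1) = a + k + 1 := by omega
    rw [h5]
    omega

theorem FF_le {q : ℕ} (hq : 1 ≤ q) {t d : ℕ} (ht : t ≤ d) {s : ℕ → ℕ}
    (hs : ∀ a, 1 ≤ a → a < d → s a < s (a + 1)) :
    FF q t s ≤ t * q ^ (s d - d) := by
  have h1 : FF q t s ≤ ∑ a ∈ Icc 1 t, q ^ (s d - d) := by
    unfold FF
    refine Finset.sum_le_sum ?_
    intro a ha
    rw [Finset.mem_Icc] at ha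
    split_ifs with h
    · have h2 := T_mono hs ha.1 (by omega : a ≤ d)
      exact Nat.pow_le_pow_right hq (by omega)
    · exact Nat.zero_le _
  simpa using h1

theorem FF_eq_zero {q d : ℕ} {s : ℕ → ℕ} (hs : ∀ a, 1 ≤ a → a < d → s a < s (a + 1))
    (h : s d < d) : FF q d s = 0 := by
  unfold FF
  refine Finset.sum_eq_zero ?_
  intro a ha
  rw [Finset.mem_Icc] at ha
  have h2 := T_mono hs ha.1 ha.2
  rw [if_neg (by omega)]

theorem ds_FF {q : ℕ} (hq : 2 ≤ q) (d : ℕ) (s : ℕ → ℕ) : ds q (FF q d s) ≤ d := by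
  induction d with
  | zero => rw [FF_zero, N2.ds_zero]
  | succ d ih =>
    rw [FF_succ]
    split_ifs with h
    · have := T_ds_add_pow hq (s (d + 1) - (d + 1)) (FF q d s)
      omega
    · rw [Nat.add_zero]
      omega

theorem D_FF {q : ℕ} (hq : 2 ≤ q) (d : ℕ) (hd : 1 ≤ d) (hdq : d < q) (s : ℕ → ℕ)
    (hs : ∀ a, 1 ≤ a → a < d → s a < s (a + 1)) :
    D q d (FF q d s) = ∑ a ∈ Icc 1 d, (s a).choose a := by
  induction d, hd using Nat.le_induction with
  | base =>
    rw [FF_succ, FF_zero, Nat.zero_add]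
    split_ifs with h
    · have h1 := D_succ_block q hq (s 1 - 1) 0 0 (by omega) (Nat.zero_le _)
      rw [Nat.add_zero, N2.D_zero, Nat.add_zero] at h1
      have h3 : 1 ≤ s 1 := h
      have h2 : R (s 1 - 1) (0 + 1) = s 1 := by
        rw [Nat.zero_add]
        unfold R
        rw [Nat.choose_one_right]
        omega
      rw [h2] at h1
      simpa using h1
    · have h0 : s 1 = 0 := by
        have h1 : ¬ (1 ≤ s 1) := h
        omega
      rw [N2.D_zero]
      simp [h0]
  | succ d hd ih =>
    have hs' : ∀ a, 1 ≤ a → a < d → s a < s (a + 1) := fun a h1 h2 => hs a h1 (by omega)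
    have ih' := ih (by omega) hs'
    rw [Finset.sum_Icc_succ_top (by omega), FF_succ]
    split_ifs with h
    · have hle : FF q d s ≤ (q - 1) * q ^ (s (d + 1) - (d + 1)) := by
        refine (FF_le (by omega) (by omega : d ≤ d + 1) hs).trans ?_
        exact Nat.mul_le_mul_right _ (by omega)
      rw [Nat.add_comm (FF q d s), D_succ_block q hq _ d _ hdq hle, ih', Nat.add_comm]
      congr 1
      unfold R
      congr 1
      omega
    · have h0 : FF q d s = 0 := by
        have h1 := FF_eq_zero (q := q) hs (by omega)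
        rw [FF_succ] at h1
        omega
      rw [h0, Nat.add_zero, N2.D_zero]
      rw [h0, N2.D_zero] at ih'
      rw [← ih', Nat.choose_eq_zero_of_lt (by omega)]

theorem mac_spec (q d N : ℕ) (hd : 1 ≤ d) (hdq : d < q) (s : ℕ → ℕ) (hs : IsMac d N s) :
    ∃ F, D q d F = N ∧ ds q F ≤ d ∧
      ((N = 0 ∧ F = 0 ∧ Lval q d s = 0) ∨
       ∃ M, q ^ M ≤ F ∧ F < q ^ (M+1) ∧ R M d ≤ N ∧ N < R (M+1) d ∧ Lval q d s = pr q M + F) := by
  obtain ⟨hs1, hs2⟩ := hs
  have hq : 2 ≤ q := by omega
  have hD : D q d (FF q d s) = N := by rw [D_FF hq d hd hdq s hs1, hs2]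
  have hds : ds q (FF q d s) ≤ d := ds_FF hq d s
  refine ⟨FF q d s, hD, hds, ?_⟩
  obtain ⟨e, rfl⟩ : ∃ e, d = e + 1 := ⟨d - 1, by omega⟩
  have hL : Lval q (e + 1) s = (∑ j ∈ range (s (e + 1) + 1 - (e + 1)), q ^ j) + FF q e s := by
    unfold Lval FF
    have h1 : Ico 1 (e + 1) = Icc 1 e := by
      ext a
      simp only [Finset.mem_Ico, Finset.mem_Icc]
      omega
    rw [h1]
  by_cases h : e + 1 ≤ s (e + 1)
  · right
    refine ⟨s (e + 1) - (e + 1), ?_, ?_, ?_, ?_, ?_⟩
    · rw [FF_succ, if_pos h]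
      omega
    · have h1 := FF_le (q := q) (by omega) (le_refl (e + 1)) hs1
      refine lt_of_le_of_lt h1 ?_
      rw [pow_succ, Nat.mul_comm]
      exact Nat.mul_lt_mul_of_pos_left hdq (Nat.pow_pos (by omega))
    · rw [← hs2, Finset.sum_Icc_succ_top (by omega)]
      have h1 : R (s (e + 1) - (e + 1)) (e + 1) = (s (e + 1)).choose (e + 1) := by
        unfold R
        congr 1
        omega
      rw [h1]
      omega
    · rw [← hD, ← D_pow q hdq]
      refine N2.D_lt hds ?_
      have h1 := FF_le (q := q) (by omega) (le_refl (e + 1)) hs1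
      refine lt_of_le_of_lt h1 ?_
      rw [pow_succ, Nat.mul_comm]
      exact Nat.mul_lt_mul_of_pos_left hdq (Nat.pow_pos (by omega))
    · rw [hL, FF_succ, if_pos h]
      have h1 : s (e + 1) + 1 - (e + 1) = (s (e + 1) - (e + 1)) + 1 := by omega
      rw [h1, Finset.sum_range_succ]
      unfold pr
      omega
  · left
    have h0 := FF_eq_zero (q := q) hs1 (by omega)
    have h1 : FF q e s = 0 := by
      rw [FF_succ] at h0
      omega
    refine ⟨?_, h0, ?_⟩
    · rw [← hD, h0, N2.D_zero]
    · rw [hL, h1]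
      have h2 : s (e + 1) + 1 - (e + 1) = 0 := by omega
      rw [h2]
      simp

end BDG
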