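import Mathlib
import Pool.Agent.helper88.BDG.Main
import Pool.Agent.helper88.BDG.LB
import Pool.Agent.helper88.BDG.T

/-!
Final assembly: projective zero sets of linearly independent forms.
-/

set_option linter.unusedSectionVars false

namespace BDG
open Module Finset
open scoped Pointwise

section field
variable (K : Type*) [Field K] {F : Type*} [Field F] [Algebra F K] {V : Type*} [AddCommGroup V]
  [Module F V]

lemma Lf_pow_eq_span (t : ℕ) : (Lf K F V) ^ t =
    Submodule.span K (((algebraMap F K).compLeft V) '' (Set.range (fn F (F := F) (V := V)) ^ t)) := by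
  rw [Set.image_pow, ← Submodule.span_pow, Lf]
  congr 2
  rw [← Set.range_comp]
  rfl

lemma Hs_le_Hs [FiniteDimensional F V] (X : Finset V) (t : ℕ) :
    Hs (Lf K F V) X t ≤ Hs (Lf F F V) X t := by
  classical
  set W0 := ((Lf F F V) ^ t).map (res F X).toLinearMap with hW0
  let b := Module.finBasis F ↥W0
  have key : ((Lf K F V) ^ t).map (res K X).toLinearMap ≤
      Submodule.span K (Set.range fun i => fun x : X => algebraMap F K ((b i : X → F) x)) := by
    rw [Lf_pow_eq_span, Submodule.map_span, Submodule.span_le]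
    rintro _ ⟨_, ⟨g, hg, rfl⟩, rfl⟩
    have hgm : res F X g ∈ W0 := by
      refine Submodule.mem_map_of_mem (f := (res F X).toLinearMap) ?_
      rw [Lf, Submodule.span_pow]
      exact Submodule.subset_span hg
    have hrep := b.sum_repr ⟨res F X g, hgm⟩
    have h1 : (res K X).toLinearMap ((algebraMap F K).compLeft V g) =
        ∑ i, algebraMap F K (b.repr ⟨res F X g, hgm⟩ i) •
          (fun x : X => algebraMap F K ((b i : X → F) x)) := by
      funext x
      have h2 := congrArg (fun w : ↥W0 => (w : X → F) x) hrep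
      simp only [Submodule.coe_sum, Submodule.coe_smul, Finset.sum_apply, Pi.smul_apply,
        smul_eq_mul] at h2
      rw [Finset.sum_apply]
      simp only [Pi.smul_apply, smul_eq_mul]
      have h3 : (res K X).toLinearMap ((algebraMap F K).compLeft V g) x =
          algebraMap F K (res F X g x) := rfl
      rw [h3, ← h2, map_sum]
      exact Finset.sum_congr rfl fun i _ => map_mul _ _ _
    rw [SetLike.mem_coe, h1]
    refine Submodule.sum_mem _ fun i _ => Submodule.smul_mem _ _ (Submodule.subset_span ⟨i, rfl⟩)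
  unfold Hs
  refine (Submodule.finrank_mono key).trans ((finrank_range_le_card _).trans ?_)
  rw [Fintype.card_fin]

end field

section poly
variable {F : Type*} [Field F] [Fintype F] [DecidableEq F] {m : ℕ}

/-- evaluation of polynomials at the points of `F ^ (m + 1)` -/
noncomputable def evp (F : Type*) [Field F] (m : ℕ) :
    MvPolynomial (Fin (m + 1)) F →ₐ[F] ((Fin (m + 1) → F) → F) :=
  evV (Pi.basisFun F (Fin (m + 1))) F

lemma evp_apply (g : MvPolynomial (Fin (m + 1)) F) (v : Fin (m + 1) → F) :
    evp F m g v = MvPolynomial.eval v g := by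
  unfold evp
  rw [evV_apply]
  congr 1

lemma hom_map_evp (d : ℕ) :
    (MvPolynomial.homogeneousSubmodule (Fin (m + 1)) F d).map (evp F m).toLinearMap =
      (Lf F F (Fin (m + 1) → F)) ^ d := by
  rw [← LPh_pow_eq]
  exact LPh_pow_map_evV _ d

lemma hom_fd (d : ℕ) :
    FiniteDimensional F ↥(MvPolynomial.homogeneousSubmodule (Fin (m + 1)) F d) := by
  rw [← LPh_pow_eq]
  have : FiniteDimensional F ↥(LPh F (m + 1)) :=
    FiniteDimensional.span_of_finite F (Set.finite_range _)
  exact fd_pow _ _

lemma finrank_hom_le (d : ℕ) :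
    finrank F ↥(MvPolynomial.homogeneousSubmodule (Fin (m + 1)) F d) ≤ R m d := by
  rw [← LPh_pow_eq]
  have h1 := finrank_pow_le (m + 1) d (fun i => (MvPolynomial.X i : MvPolynomial (Fin (m + 1)) F))
    (LPh F (m + 1)) rfl
  rwa [show m + 1 + d - 1 = m + d by omega] at h1

lemma finrank_hom_ge {d : ℕ} (hd : d < Fintype.card F) :
    R m d ≤ finrank F ↥(MvPolynomial.homogeneousSubmodule (Fin (m + 1)) F d) := by
  have hfd := hom_fd (F := F) (m := m) d
  have h1 := finrank_Lf_pow_ge (K := F) (F := F) (V := Fin (m + 1) → F) (m := m)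
    (by rw [Module.finrank_fin_fun]) hd
  rw [← hom_map_evp] at h1
  exact h1.trans (Submodule.finrank_map_le _ _)

/-- the forms of degree `d` vanishing on `X` -/
noncomputable def van (X : Finset (Fin (m + 1) → F)) (d : ℕ) :
    Submodule F (MvPolynomial (Fin (m + 1)) F) :=
  MvPolynomial.homogeneousSubmodule (Fin (m + 1)) F d ⊓
    LinearMap.ker ((res F X).toLinearMap.comp (evp F m).toLinearMap)

lemma mem_van {X : Finset (Fin (m + 1) → F)} {d : ℕ} {g : MvPolynomial (Fin (m + 1)) F} :
    g ∈ van X d ↔ g.IsHomogeneous d ∧ ∀ v ∈ X, MvPolynomial.eval v g = 0 := by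
  unfold van
  rw [Submodule.mem_inf, MvPolynomial.mem_homogeneousSubmodule]
  refine and_congr Iff.rfl ?_
  rw [LinearMap.mem_ker]
  have : ((res F X).toLinearMap.comp (evp F m).toLinearMap) g = res F X (evp F m g) := rfl
  rw [this, res_eq_zero]
  simp only [evp_apply]

lemma Hs_add_van (X : Finset (Fin (m + 1) → F)) (d : ℕ) :
    Hs (Lf F F (Fin (m + 1) → F)) X d + finrank F ↥(van X d) =
      finrank F ↥(MvPolynomial.homogeneousSubmodule (Fin (m + 1)) F d) := by
  have hfd := hom_fd (F := F) (m := m) d
  have h1 := finrank_eq_map_add_ker (MvPolynomial.homogeneousSubmodule (Fin (m + 1)) F d)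
    ((res F X).toLinearMap.comp (evp F m).toLinearMap)
  rw [h1, Submodule.map_comp, hom_map_evp]
  rfl

lemma van_fd (X : Finset (Fin (m + 1) → F)) (d : ℕ) : FiniteDimensional F ↥(van X d) := by
  have hfd := hom_fd (F := F) (m := m) d
  exact Submodule.finiteDimensional_inf_left _ _

/-- upper side -/
lemma Hs_le_of_indep {X : Finset (Fin (m + 1) → F)} {d r : ℕ}
    (B : Finset (MvPolynomial (Fin (m + 1)) F)) (hB : #B = r)
    (hBh : ∀ f ∈ B, f.IsHomogeneous d)
    (hBi : LinearIndependent F (fun f : B => (f : MvPolynomial (Fin (m + 1)) F)))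
    (hBX : ∀ f ∈ B, ∀ v ∈ X, MvPolynomial.eval v f = 0) :
    Hs (Lf F F (Fin (m + 1) → F)) X d + r ≤ R m d := by
  have h1 := Hs_add_van X d
  have h2 := finrank_hom_le (F := F) (m := m) d
  have hfd := van_fd X d
  have h3 : r ≤ finrank F ↥(van X d) := by
    let g : B → ↥(van X d) := fun f => ⟨f, mem_van.2 ⟨hBh f f.2, hBX f f.2⟩⟩
    have hg : LinearIndependent F g := by
      refine LinearIndependent.of_comp (van X d).subtype ?_
      exact hBi
    have h4 := hg.fintype_card_le_finrank
    rwa [Fintype.card_coe, hB] at h4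
  omega

/-- lower side -/
lemma exists_indep {X : Finset (Fin (m + 1) → F)} {d r : ℕ} (hd : d < Fintype.card F)
    (hX : Hs (Lf F F (Fin (m + 1) → F)) X d + r ≤ R m d) :
    ∃ B : Finset (MvPolynomial (Fin (m + 1)) F), #B = r ∧ (∀ f ∈ B, f.IsHomogeneous d) ∧
      LinearIndependent F (fun f : B => (f : MvPolynomial (Fin (m + 1)) F)) ∧
      ∀ f ∈ B, ∀ v ∈ X, MvPolynomial.eval v f = 0 := by
  classical
  have h1 := Hs_add_van X d
  have h2 := finrank_hom_ge (F := F) (m := m) hd
  have hfd := van_fd X d
  have h3 : r ≤ finrank F ↥(van X d) := by omega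
  let b := Module.finBasis F ↥(van X d)
  let g : Fin r → MvPolynomial (Fin (m + 1)) F := fun i => (b (Fin.castLE h3 i) : _)
  have hg : LinearIndependent F g := by
    have h4 : LinearIndependent F fun i => b (Fin.castLE h3 i) :=
      b.linearIndependent.comp _ (Fin.castLE_injective h3)
    exact h4.map' (van X d).subtype (Submodule.ker_subtype _)
  refine ⟨univ.image g, ?_, ?_, ?_, ?_⟩
  · rw [Finset.card_image_of_injective _ hg.injective, Finset.card_univ, Fintype.card_fin]
  · intro f hf
    obtain ⟨i, _, rfl⟩ := Finset.mem_image.1 hf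
    exact (mem_van.1 (b (Fin.castLE h3 i)).2).1
  · have h5 := hg.linearIndepOn_id
    have h6 : Set.range g = ((univ.image g : Finset _) : Set (MvPolynomial (Fin (m + 1)) F)) := by
      simp
    rw [h6] at h5
    exact h5
  · intro f hf v hv
    obtain ⟨i, _, rfl⟩ := Finset.mem_image.1 hf
    exact (mem_van.1 (b (Fin.castLE h3 i)).2).2 v hv

end poly

section proj
variable {F : Type*} [Field F] [Fintype F] [DecidableEq F] {V : Type*} [AddCommGroup V]
  [Module F V] [Fintype V] [DecidableEq V]

/-- a cone has `q - 1` times as many vectors as points -/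
lemma card_cone_proj {X : Finset V} (h0 : (0 : V) ∉ X) {Z : Set (Projectivization F V)}
    (h : ∀ v (hv : v ≠ 0), v ∈ X ↔ Projectivization.mk F v hv ∈ Z) :
    #X = (Fintype.card F - 1) * Nat.card Z := by
  classical
  have hfin : Finite (Projectivization F V) := Quotient.finite _
  have : Fintype (Projectivization F V) := Fintype.ofFinite _
  have hZc : Nat.card Z = #(univ.filter fun P => P ∈ Z) := by
    rw [Nat.card_eq_fintype_card, Fintype.card_subtype]
  have hX : X = (univ.filter fun P => P ∈ Z).biUnion fun P : Projectivization F V =>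
      univ.filter fun v : V => ∃ hv : v ≠ 0, Projectivization.mk F v hv = P := by
    ext v
    simp only [Finset.mem_biUnion, Finset.mem_filter, Finset.mem_univ, true_and]
    constructor
    · intro hv
      have hv0 : v ≠ 0 := fun h1 => h0 (h1 ▸ hv)
      exact ⟨_, (h v hv0).1 hv, hv0, rfl⟩
    · rintro ⟨P, hP, hv0, rfl⟩
      exact (h v hv0).2 hP
  have hfib : ∀ P : Projectivization F V,
      #(univ.filter fun v : V => ∃ hv : v ≠ 0, Projectivization.mk F v hv = P) =
        Fintype.card F - 1 := by
    intro P
    induction P using Projectivization.ind with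
    | h w hw =>
      have h1 : (univ.filter fun v : V => ∃ hv : v ≠ 0, Projectivization.mk F v hv =
          Projectivization.mk F w hw) = ((univ : Finset F).erase 0).image fun c => c • w := by
        ext v
        simp only [Finset.mem_filter, Finset.mem_univ, true_and, Finset.mem_image,
          Finset.mem_erase]
        constructor
        · rintro ⟨hv, h2⟩
          rw [Projectivization.mk_eq_mk_iff] at h2
          obtain ⟨a, ha⟩ := h2
          exact ⟨(a : F), ⟨a.ne_zero, trivial⟩, ha⟩
        · rintro ⟨c, ⟨hc, _⟩, rfl⟩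
          refine ⟨smul_ne_zero hc hw, ?_⟩
          rw [Projectivization.mk_eq_mk_iff]
          exact ⟨Units.mk0 c hc, rfl⟩
      rw [h1, Finset.card_image_of_injective _ (smul_left_injective F hw),
        Finset.card_erase_of_mem (Finset.mem_univ _), Finset.card_univ]
  rw [hX, Finset.card_biUnion]
  · rw [Finset.sum_congr rfl fun P _ => hfib P, Finset.sum_const, smul_eq_mul, hZc, mul_comm]
  · intro P _ Q _ hPQ
    rw [Function.onFun, Finset.disjoint_left]
    intro v hv1 hv2
    obtain ⟨_, h1⟩ := (Finset.mem_filter.1 hv1).2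
    obtain ⟨_, h2⟩ := (Finset.mem_filter.1 hv2).2
    exact hPQ (h1.symm.trans h2)

end proj

end BDG
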